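import Pool.Agent.H579.G.Rough

set_option autoImplicit false

/-! The number of the integers at which all forms of a system have no small prime factors: the asymptotic formula. -/

namespace Pool.Agent.H579.G

open Finset
open Pool.Agent.H373R2.T7
open Pool.Agent.Y614.GJ.Core (ev_log)

/-- the singular series is not much smaller than the finite product -/
lemma sing_ge {k : ℕ} (ν : ℕ → ℕ) (Bad : Finset ℕ) (h : ∀ p : ℕ, p.Prime → p ∉ Bad → ν p = k)
    (h2 : ∀ p : ℕ, p.Prime → ν p ≤ p) (h3 : ∀ p : ℕ, p.Prime → ν p ≤ k) {z : ℕ} (hz1 : 1 ≤ z) (hz : 3 * k ≤ z) :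
    (∏ p ∈ pz z, fac k ν p) * Real.exp (-((k : ℝ) ^ 2 / z)) ≤ ∏' p : Nat.Primes, fac k ν p := by
  classical
  have hp := (fac_mult ν Bad h).hasProd
  have hz0 : (0 : ℝ) < z := by exact_mod_cast hz1
  have hp' : Filter.Tendsto (fun s : Finset Nat.Primes => ∏ p ∈ s, fac k ν (p : ℕ)) Filter.atTop
      (nhds (∏' p : Nat.Primes, fac k ν (p : ℕ))) := by
    unfold HasProd at hp
    rwa [SummationFilter.unconditional_filter] at hp
  refine ge_of_tendsto hp' ?_
  rw [Filter.eventually_atTop]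
  obtain ⟨s₀, hmem, e1⟩ : ∃ s₀ : Finset Nat.Primes, (∀ p : Nat.Primes, p ∈ s₀ ↔ (p : ℕ) ∈ pz z) ∧
      ∏ p ∈ s₀, fac k ν (p : ℕ) = ∏ p ∈ pz z, fac k ν p :=
    ⟨(pz z).subtype Nat.Prime, fun p => mem_subtype,
      prod_subtype_of_mem (f := fun p => fac k ν p) (fun p hp => (mem_pz.1 hp).2)⟩
  refine ⟨s₀, fun s hs => ?_⟩
  have e2 : ∏ p ∈ s, fac k ν (p : ℕ) = (∏ p ∈ s₀, fac k ν (p : ℕ)) * ∏ p ∈ s \ s₀, fac k ν (p : ℕ) := by
    rw [mul_comm]
    exact (prod_sdiff hs).symm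
  rw [e2, e1]
  have hnn : 0 ≤ ∏ p ∈ pz z, fac k ν p := prod_nonneg fun p hp => fac_nn (mem_pz.1 hp).2 (h2 p (mem_pz.1 hp).2)
  refine mul_le_mul_of_nonneg_left ?_ hnn
  have hbig : ∀ p ∈ s \ s₀, z < (p : ℕ) := by
    intro p hp
    rw [mem_sdiff, hmem, mem_pz] at hp
    by_contra hcon
    exact hp.2 ⟨not_lt.1 hcon, p.2⟩
  have e3 : ∀ p ∈ s \ s₀, Real.exp (-((k : ℝ) ^ 2 * (1 / ((p : ℕ) : ℝ) ^ 2))) ≤ fac k ν (p : ℕ) := by
    intro p hp
    have hb := hbig p hp
    exact fac_low p.2 (by omega) (h3 p p.2)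
  refine le_trans ?_ (prod_le_prod (fun p _ => (Real.exp_pos _).le) e3)
  rw [← Real.exp_sum]
  refine Real.exp_le_exp.2 ?_
  rw [sum_neg_distrib, neg_le_neg_iff, ← mul_sum]
  have e4 : ∑ p ∈ s \ s₀, (1 : ℝ) / ((p : ℕ) : ℝ) ^ 2 ≤ 1 / (z : ℝ) := by
    obtain ⟨n, hn⟩ : ∃ n : ℕ, n = max z ((s \ s₀).sup (fun p : Nat.Primes => (p : ℕ))) := ⟨_, rfl⟩
    have f1 : ∑ p ∈ s \ s₀, (1 : ℝ) / ((p : ℕ) : ℝ) ^ 2 ≤ ∑ i ∈ Ioc z n, ((i : ℝ) ^ 2)⁻¹ := by
      have f2 : ∑ p ∈ s \ s₀, (1 : ℝ) / ((p : ℕ) : ℝ) ^ 2 = ∑ i ∈ (s \ s₀).image (fun p : Nat.Primes => (p : ℕ)), ((i : ℝ) ^ 2)⁻¹ := by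
        rw [sum_image (f := fun i : ℕ => ((i : ℝ) ^ 2)⁻¹) (g := fun p : Nat.Primes => (p : ℕ))
          (fun x _ y _ hxy => Nat.Primes.coe_nat_injective hxy)]
        refine sum_congr rfl fun p _ => ?_
        rw [one_div]
      rw [f2]
      refine sum_le_sum_of_subset_of_nonneg (fun i hi => ?_) fun _ _ _ => by positivity
      rw [mem_image] at hi
      obtain ⟨p, hp, rfl⟩ := hi
      rw [mem_Ioc]
      refine ⟨hbig p hp, ?_⟩
      rw [hn]
      exact le_max_of_le_right (le_sup (f := fun p : Nat.Primes => (p : ℕ)) hp)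
    refine f1.trans ?_
    have f3 := sum_Ioc_inv_sq_le_sub (α := ℝ) (k := z) (n := n) (by omega) (by rw [hn]; exact le_max_left _ _)
    have f4 : (0 : ℝ) ≤ (n : ℝ)⁻¹ := by positivity
    rw [one_div]
    linarith
  calc (k : ℝ) ^ 2 * ∑ p ∈ s \ s₀, (1 : ℝ) / ((p : ℕ) : ℝ) ^ 2 ≤ (k : ℝ) ^ 2 * (1 / (z : ℝ)) := by gcongr
    _ = _ := by ring

open Classical in
/-- the number of the integers at which no form is divisible by a small prime -/
theorem rough_asym (k : ℕ) (hk : 1 ≤ k) (A C : ℕ) : ∃ B : ℕ, ∀ E : ℕ, ∃ M₀ : ℕ, ∀ M : ℕ, M₀ ≤ M → ∀ z : ℕ,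
    Real.log M ^ B ≤ z → (z : ℝ) ≤ Real.log M ^ E → ∀ q b : Fin k → ℤ, (∀ i, q i ≠ 0) →
    (∀ i j, i ≠ j → q i * b j ≠ q j * b i) → (∀ i, (q i).natAbs ≤ M ^ C) → (∀ i, (b i).natAbs ≤ M ^ C) →
    (∀ p : ℕ, p.Prime → z < p → ∀ i, ¬ ((p : ℤ) ∣ q i ∧ (p : ℤ) ∣ b i)) →
    |(((Icc 1 M).filter (fun m => ∀ p ∈ pz z, ¬ Qf q b p m)).card : ℝ) - sing q b * Vz z ^ k * M| ≤
      M / Real.log M ^ A := by
  classical
  refine ⟨A + 3, fun E => ?_⟩
  obtain ⟨R, hR⟩ : ∃ R : ℝ, R = 16 * k * ((k + k * k) * (4 * C + 2)) + 16 * k ^ 2 + 3 * k + 10 := ⟨_, rfl⟩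
  have hR1 : 0 ≤ 16 * (k : ℝ) * ((k + k * k) * (4 * C + 2)) := by positivity
  have hR2 : 0 ≤ 16 * (k : ℝ) ^ 2 := by positivity
  have hR3 : (0 : ℝ) ≤ 3 * k := by positivity
  obtain ⟨n1, h1⟩ := sys_count k E (A + 1) hk
  obtain ⟨n3, h3⟩ := Filter.eventually_atTop.1 (ev_log 1 (s := 1) (by norm_num) R)
  refine ⟨n1 + n3 + 1, fun M hM z hz1 hz2 q b hq hqb hqM hbM hgcd => ?_⟩
  obtain ⟨hLR, -⟩ := h3 M (by omega)
  have hM1 : 1 ≤ M := by omega
  have hM0 : (0 : ℝ) < M := by exact_mod_cast hM1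
  have hL10 : 10 ≤ Real.log M := by linarith
  have hL0 : 0 < Real.log M := by linarith
  have hL1 : 1 ≤ Real.log M := by linarith
  have hzL : Real.log M ≤ z := by
    refine le_trans ?_ hz1
    exact le_self_pow₀ hL1 (by omega)
  have hz0 : (0 : ℝ) < z := by linarith
  have hz1' : 1 ≤ z := by exact_mod_cast (show (1 : ℝ) ≤ z by linarith)
  have hkz : 3 * k ≤ z := by
    have : (3 * k : ℝ) ≤ z := by linarith
    exact_mod_cast this
  by_cases hadm : ∀ p : ℕ, p.Prime → nuB (Qf q b) p + 1 ≤ p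
  · have hno : ∀ p : ℕ, p.Prime → ∀ i, ¬ ((p : ℤ) ∣ q i ∧ (p : ℤ) ∣ b i) := by
      rintro p hp i ⟨e1, e2⟩
      have := nu_all i e1 e2
      have := hadm p hp
      omega
    have hfew : ∀ p : ℕ, p.Prime → nuB (Qf q b) p ≤ k := fun p hp => nu_few hp (hno p hp)
    have hcount := h1 M (by omega) z hz1' hz2 (Qf q b) ⟨Qf_per q b, hfew⟩
    have hF1 : ∏ p ∈ pz z, (1 - (nuB (Qf q b) p : ℝ) / p) ≤ 1 := by
      refine prod_le_one (fun p hp => ?_) fun p hp => ?_
      · have hp0 : (0 : ℝ) < p := by exact_mod_cast (mem_pz.1 hp).2.pos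
        rw [sub_nonneg, div_le_one hp0]
        exact_mod_cast nuB_le _ _
      · have : 0 ≤ (nuB (Qf q b) p : ℝ) / p := by positivity
        linarith
    rw [fac_prod k z (nuB (Qf q b))] at hcount hF1
    have hsing : sing q b ≤ (∏ p ∈ pz z, fac k (nuB (Qf q b)) p) * Real.exp (2 * k * (badF q b).card / z) :=
      sing_le (nuB (Qf q b)) (badF q b) (fun p hp hpB => badF_spec hq hqb hp hpB)
        (fun p hp => (Nat.le_succ _).trans (hadm p hp)) hz1' hkz
    have hsing' : (∏ p ∈ pz z, fac k (nuB (Qf q b)) p) * Real.exp (-((k : ℝ) ^ 2 / z)) ≤ sing q b :=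
      sing_ge (nuB (Qf q b)) (badF q b) (fun p hp hpB => badF_spec hq hqb hp hpB)
        (fun p hp => (Nat.le_succ _).trans (hadm p hp)) hfew hz1' hkz
    obtain ⟨F, hF⟩ : ∃ F : ℝ, F = ∏ p ∈ pz z, fac k (nuB (Qf q b)) p := ⟨_, rfl⟩
    have hF0 : 0 ≤ F := by
      rw [hF]
      exact prod_nonneg fun p hp => fac_nn (mem_pz.1 hp).2 (nuB_le _ _)
    rw [← hF] at hcount hsing hsing' hF1
    have hV := Vz_pos z
    obtain ⟨Wk, hWk⟩ : ∃ Wk : ℝ, Wk = Vz z ^ k := ⟨_, rfl⟩
    have hWk0 : 0 < Wk := by rw [hWk]; positivity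
    rw [← hWk] at hcount hF1 ⊢
    have hWF0 : 0 ≤ Wk * F := mul_nonneg hWk0.le hF0
    -- the number of bad primes
    have hY : (badF q b).card ≤ (k + k * k) * Nat.log 2 (2 * (M ^ C * M ^ C)) := by
      refine card_badF q b _ (fun i => ?_) (fun i j => ?_)
      · refine (hqM i).trans ?_
        have : 1 ≤ M ^ C := Nat.one_le_pow _ _ hM1
        nlinarith
      · refine (Int.natAbs_sub_le _ _).trans ?_
        rw [Int.natAbs_mul, Int.natAbs_mul]
        have e1 := Nat.mul_le_mul (hqM i) (hbM j)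
        have e2 := Nat.mul_le_mul (hqM j) (hbM i)
        omega
    have hYr : ((badF q b).card : ℝ) ≤ (k + k * k) * ((4 * C + 2) * Real.log M) := by
      have e1 : ((badF q b).card : ℝ) ≤ (k + k * k) * (Nat.log 2 (2 * (M ^ C * M ^ C)) : ℝ) := by exact_mod_cast hY
      have e2 : (Nat.log 2 (2 * (M ^ C * M ^ C)) : ℝ) ≤ (4 * C + 2) * Real.log M := by
        have e3 := Real.natLog_le_logb (2 * (M ^ C * M ^ C)) 2
        have e4 : Real.logb (2 : ℕ) ((2 * (M ^ C * M ^ C) : ℕ) : ℝ) ≤ (4 * C + 2) * Real.log M := by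
          unfold Real.logb
          have l2 := Real.log_two_gt_d9
          have l2' := Real.log_two_lt_d9
          rw [div_le_iff₀ (by push_cast; linarith)]
          push_cast
          rw [Real.log_mul (by norm_num) (by positivity), Real.log_mul (by positivity) (by positivity), Real.log_pow]
          have hC0 : (0 : ℝ) ≤ C := Nat.cast_nonneg _
          have k1 : 0 ≤ (C : ℝ) * Real.log M := by positivity
          have k2 : 1 / 2 * ((4 * C + 2) * Real.log M) ≤ (4 * C + 2) * Real.log M * Real.log 2 := by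
            have : 0 ≤ (4 * (C : ℝ) + 2) * Real.log M := by positivity
            nlinarith
          nlinarith
        exact e3.trans e4
      refine e1.trans ?_
      gcongr
    obtain ⟨ε, hε⟩ : ∃ ε : ℝ, ε = 1 / (8 * Real.log M ^ (A + 1)) := ⟨_, rfl⟩
    have hLA : 0 < Real.log M ^ (A + 1) := by positivity
    have hLA1 : 1 ≤ Real.log M ^ (A + 1) := one_le_pow₀ hL1
    have hε0 : 0 < ε := by rw [hε]; positivity
    have hε1 : ε ≤ 1 / 8 := by
      rw [hε]
      exact one_div_le_one_div_of_le (by norm_num) (by linarith)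
    have hx1 : 2 * (k : ℝ) * (badF q b).card / z ≤ ε := by
      rw [hε, div_le_div_iff₀ hz0 (by positivity)]
      calc 2 * (k : ℝ) * (badF q b).card * (8 * Real.log M ^ (A + 1)) ≤
          2 * k * ((k + k * k) * ((4 * C + 2) * Real.log M)) * (8 * Real.log M ^ (A + 1)) := by gcongr
        _ = (16 * k * ((k + k * k) * (4 * C + 2))) * Real.log M ^ (A + 2) := by ring
        _ ≤ Real.log M * Real.log M ^ (A + 2) := by
            have : 16 * (k : ℝ) * ((k + k * k) * (4 * C + 2)) ≤ Real.log M := by linarith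
            gcongr
        _ = Real.log M ^ (A + 3) := by ring
        _ ≤ z := hz1
        _ = 1 * z := (one_mul _).symm
    have hx2 : (k : ℝ) ^ 2 / z ≤ ε := by
      rw [hε, div_le_div_iff₀ hz0 (by positivity)]
      calc (k : ℝ) ^ 2 * (8 * Real.log M ^ (A + 1)) = (8 * k ^ 2) * Real.log M ^ (A + 1) := by ring
        _ ≤ Real.log M * Real.log M ^ (A + 1) := by
            have : 8 * (k : ℝ) ^ 2 ≤ Real.log M := by nlinarith
            gcongr
        _ = Real.log M ^ (A + 2) := by ring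
        _ ≤ Real.log M ^ (A + 3) := pow_le_pow_right₀ hL1 (by omega)
        _ ≤ z := hz1
        _ = 1 * z := (one_mul _).symm
    have hup : sing q b ≤ F * (1 + 2 * ε) := by
      refine hsing.trans (mul_le_mul_of_nonneg_left ?_ hF0)
      refine (Real.exp_le_exp.2 hx1).trans ?_
      have e2 := Real.one_sub_le_exp_neg ε
      have e3 : Real.exp ε * Real.exp (-ε) = 1 := by rw [← Real.exp_add, add_neg_cancel, Real.exp_zero]
      have e4 := Real.exp_pos ε
      nlinarith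
    have hdn : F * (1 - ε) ≤ sing q b := by
      refine le_trans (mul_le_mul_of_nonneg_left ?_ hF0) hsing'
      have e2 := Real.one_sub_le_exp_neg ε
      refine e2.trans (Real.exp_le_exp.2 ?_)
      linarith
    have hd : |sing q b - F| ≤ 2 * ε * F := by
      rw [abs_le]
      constructor <;> nlinarith
    have hd2 : |M * (Wk * F) - sing q b * Wk * M| ≤ M * (2 * ε) := by
      have e1 : M * (Wk * F) - sing q b * Wk * M = -(M * Wk * (sing q b - F)) := by ring
      rw [e1, abs_neg, abs_mul, abs_of_nonneg (show 0 ≤ (M : ℝ) * Wk by positivity)]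
      calc (M : ℝ) * Wk * |sing q b - F| ≤ M * Wk * (2 * ε * F) := mul_le_mul_of_nonneg_left hd (by positivity)
        _ = M * (2 * ε) * (Wk * F) := by ring
        _ ≤ M * (2 * ε) * 1 := mul_le_mul_of_nonneg_left hF1 (by positivity)
        _ = _ := mul_one _
    have hfin : (M : ℝ) / Real.log M ^ (A + 1) + M * (2 * ε) ≤ M / Real.log M ^ A := by
      rw [hε]
      calc (M : ℝ) / Real.log M ^ (A + 1) + M * (2 * (1 / (8 * Real.log M ^ (A + 1)))) =
          M / Real.log M ^ A * (5 / 4 / Real.log M) := by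
            rw [pow_succ]
            field_simp
            ring
        _ ≤ M / Real.log M ^ A * 1 := by
            refine mul_le_mul_of_nonneg_left ?_ (by positivity)
            rw [div_le_one hL0]
            linarith
        _ = _ := mul_one _
    have htri := abs_sub_le (((((Icc 1 M).filter (fun m => ∀ p ∈ pz z, ¬ Qf q b p m)).card : ℕ) : ℝ)) (M * (Wk * F))
      (sing q b * Wk * M)
    linarith
  · push Not at hadm
    obtain ⟨p, hp, hpn⟩ := hadm
    have h5 : nuB (Qf q b) p = p := le_antisymm (nuB_le _ _) (by omega)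
    rw [sing_zero hp h5, zero_mul, zero_mul, sub_zero]
    have hpz : p ≤ z := by
      by_contra hcon
      rw [not_le] at hcon
      have e1 := nu_few hp (hgcd p hp hcon)
      omega
    have e0 : ((Icc 1 M).filter (fun m => ∀ p ∈ pz z, ¬ Qf q b p m)) = ∅ := by
      rw [eq_empty_iff_forall_notMem]
      intro m hm
      rw [mem_filter] at hm
      have e2 := hm.2 p (mem_pz.2 ⟨hpz, hp⟩)
      rw [Qf_per] at e2
      have e3 : ((range p).filter (fun r => Qf q b p r)) = range p := by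
        apply eq_of_subset_of_card_le (filter_subset _ _)
        rw [card_range]
        exact h5.ge
      have e4 : m % p ∈ (range p).filter (fun r => Qf q b p r) := by
        rw [e3, mem_range]
        exact Nat.mod_lt _ hp.pos
      exact e2 (mem_filter.1 e4).2
    rw [e0, card_empty, Nat.cast_zero, abs_zero]
    positivity

end Pool.Agent.H579.G
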