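import Pool.Agent.H579.L.Cnt
import Pool.Agent.H579.L.Dset
import Pool.Agent.H579.E.Err

set_option autoImplicit false

/-! The primitive characters for which the sum of the von Mangoldt function over some initial interval is large. -/

namespace Pool.Agent.H579.G

open Finset
open Pool.Agent.Y883.GJ Pool.Agent.R460.GS
open Pool.Agent.Y614.GJ.Core (ev_log)
open ArithmeticFunction (vonMangoldt)

/-- the sum of the von Mangoldt function over some initial interval is large -/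
def BadL (N U : ℕ) (d : ℕ) (ψ : DirichletCharacter ℂ d) : Prop :=
  ∃ t : ℕ, t ≤ N ∧ (N : ℝ) ^ (1 / 4 : ℝ) ≤ t ∧ t / Real.log N ^ U < ‖∑ m ∈ Icc 1 t, LA m * ψ (m : ZMod d)‖

lemma LA_norm {N m : ℕ} (hm : m ≤ N) (hN : 1 ≤ N) : ‖LA m‖ ≤ Real.log N := by
  unfold LA
  rw [Complex.norm_real, Real.norm_of_nonneg ArithmeticFunction.vonMangoldt_nonneg]
  exact Pool.Agent.H579.E.lam_le_log hm hN

theorem cntL (U : ℕ) : ∃ C₄ N₀ : ℕ, ∀ N : ℕ, N₀ ≤ N → ∀ Ψ : Finset (Σ f : ℕ, DirichletCharacter ℂ f),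
    (∀ ψ ∈ Ψ, L.BadE N (BadL N U) ψ.1 ψ.2) → (Ψ.card : ℝ) ≤ Real.log N ^ C₄ := by
  classical
  obtain ⟨c, hc⟩ := L.countPJ 8 (by norm_num)
  obtain ⟨n1, hn1⟩ := Filter.eventually_atTop.1 (ev_log (U + 2) (s := 1 / 4) (by norm_num)
    (100 + 1542 * 2 ^ 16 * 16 ^ c))
  refine ⟨16 * U + c + 1 + (U + 4), max n1 1, fun N hN Ψ hΨ => ?_⟩
  have hN1 : 1 ≤ N := le_trans (le_max_right _ _) hN
  obtain ⟨hLL, hpow⟩ := hn1 N (le_trans (le_max_left _ _) hN)
  have hN0 : (0 : ℝ) < N := by exact_mod_cast hN1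
  have hNr1 : (1 : ℝ) ≤ N := by exact_mod_cast hN1
  obtain ⟨L, hLd⟩ : ∃ L, L = Real.log (N : ℝ) := ⟨_, rfl⟩
  rw [← hLd] at hLL hpow ⊢
  have hc16 : (0 : ℝ) < 1542 * 2 ^ 16 * 16 ^ c := by positivity
  have hL100 : 100 ≤ L := by linarith
  have hL0 : 0 < L := by linarith
  have hL1 : 1 ≤ L := by linarith
  obtain ⟨δ, hδd⟩ : ∃ δ : ℝ, δ = (L ^ (U + 2))⁻¹ := ⟨_, rfl⟩
  have hLU : 0 < L ^ (U + 2) := by positivity
  have hδ : 0 < δ := by rw [hδd]; positivity
  have hδL : δ * L ^ (U + 2) = 1 := by rw [hδd, inv_mul_cancel₀ hLU.ne']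
  obtain ⟨I, hI⟩ : ∃ I : ℕ, I = ⌊L / δ⌋₊ := ⟨_, rfl⟩
  have hI1 : ((I + 1 : ℕ) : ℝ) ≤ L ^ (U + 4) := by
    have h3 : L / δ = L * L ^ (U + 2) := by
      rw [hδd, div_inv_eq_mul]
    have h4 : (I : ℝ) ≤ L * L ^ (U + 2) := by
      rw [← h3, hI]
      exact Nat.floor_le (by positivity)
    have h5 : 1 ≤ L * L ^ (U + 2) := one_le_mul_of_one_le_of_one_le hL1 (one_le_pow₀ hL1)
    push_cast
    calc (I : ℝ) + 1 ≤ 2 * (L * L ^ (U + 2)) := by linarith
      _ ≤ L * (L * L ^ (U + 2)) := mul_le_mul_of_nonneg_right (by linarith) (by positivity)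
      _ = L ^ (U + 4) := by ring
  -- the witnesses
  have hch : ∀ ψ : Σ f : ℕ, DirichletCharacter ℂ f, ∃ t : ℕ, ψ ∈ Ψ → t ≤ N ∧ (N : ℝ) ^ (1 / 4 : ℝ) ≤ t ∧
      t / L ^ U < ‖∑ m ∈ Icc 1 t, LA m * ψ.2 (m : ZMod ψ.1)‖ := by
    intro ψ
    by_cases hψ : ψ ∈ Ψ
    · obtain ⟨-, -, -, t, h1, h2, h3⟩ := hΨ ψ hψ
      rw [← hLd] at h3
      exact ⟨t, fun _ => ⟨h1, h2, h3⟩⟩
    · exact ⟨0, fun h => absurd h hψ⟩
  choose t ht using hch
  obtain ⟨X, hX⟩ : ∃ X : ℕ → ℕ, X = fun i : ℕ => ⌊Real.exp (δ * (i : ℝ))⌋₊ := ⟨_, rfl⟩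
  obtain ⟨ix, hix⟩ : ∃ ix : (Σ f : ℕ, DirichletCharacter ℂ f) → ℕ, ix = fun ψ => ⌊Real.log (t ψ) / δ⌋₊ := ⟨_, rfl⟩
  have hixI : ∀ ψ ∈ Ψ, ix ψ ∈ range (I + 1) := by
    intro ψ hψ
    obtain ⟨h1, h2, -⟩ := ht ψ hψ
    rw [mem_range, Nat.lt_succ_iff, hix, hI]
    refine Nat.floor_le_floor (div_le_div_of_nonneg_right ?_ hδ.le)
    rw [hLd]
    refine Real.log_le_log ?_ (by exact_mod_cast h1)
    exact lt_of_lt_of_le (by positivity) h2
  have hfib : ∀ i ∈ range (I + 1), ((Ψ.filter (fun ψ => ix ψ = i)).card : ℝ) ≤ L ^ (16 * U + c + 1) := by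
    intro i _
    by_cases hemp : Ψ.filter (fun ψ => ix ψ = i) = ∅
    · rw [hemp, card_empty, Nat.cast_zero]
      positivity
    have hkey : ∀ ψ ∈ Ψ.filter (fun ψ => ix ψ = i), X i ≤ N ∧ (N : ℝ) ^ (1 / 4 : ℝ) ≤ 2 * X i ∧
        (X i : ℝ) / (2 * L ^ U) < ‖∑ m ∈ Icc 1 (X i), LA m * ψ.2 (m : ZMod ψ.1)‖ := by
      intro ψ hψ
      rw [mem_filter] at hψ
      obtain ⟨hψ, hi⟩ := hψ
      obtain ⟨h1, h2, h3⟩ := ht ψ hψ
      have ht0 : (0 : ℝ) < t ψ := lt_of_lt_of_le (by positivity) h2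
      have hlogt0 : 0 ≤ Real.log (t ψ) := Real.log_natCast_nonneg _
      rw [hix] at hi
      simp only at hi
      have g1 : (i : ℝ) * δ ≤ Real.log (t ψ) := by
        rw [← le_div_iff₀ hδ, ← hi]
        exact Nat.floor_le (by positivity)
      have g2 : Real.log (t ψ) < ((i : ℝ) + 1) * δ := by
        rw [← div_lt_iff₀ hδ, ← hi]
        exact Nat.lt_floor_add_one _
      have g3 : Real.exp (δ * i) ≤ t ψ := by
        rw [← Real.exp_log ht0]
        exact Real.exp_le_exp.2 (by linarith)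
      have g4 : (t ψ : ℝ) * (1 - δ) ≤ Real.exp (δ * i) := by
        have g5 : (t ψ : ℝ) ≤ Real.exp (δ * i) * Real.exp δ := by
          rw [← Real.exp_add, ← Real.exp_log ht0]
          exact Real.exp_le_exp.2 (by linarith)
        have g6 : 1 - δ ≤ Real.exp (-δ) := by
          have := Real.add_one_le_exp (-δ)
          linarith
        calc (t ψ : ℝ) * (1 - δ) ≤ (t ψ : ℝ) * Real.exp (-δ) := by gcongr
          _ ≤ (Real.exp (δ * i) * Real.exp δ) * Real.exp (-δ) := by gcongr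
          _ = Real.exp (δ * i) := by
              rw [mul_assoc, ← Real.exp_add, add_neg_cancel, Real.exp_zero, mul_one]
      have g5 : (X i : ℝ) ≤ Real.exp (δ * i) := by
        rw [hX]
        exact Nat.floor_le (Real.exp_pos _).le
      have g6 : Real.exp (δ * i) < X i + 1 := by
        rw [hX]
        exact Nat.lt_floor_add_one _
      have hXt : X i ≤ t ψ := by
        have : (X i : ℝ) ≤ t ψ := g5.trans g3
        exact_mod_cast this
      have hδ4 : δ ≤ 1 / 4 := by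
        rw [hδd]
        apply inv_le_of_inv_le₀ (by norm_num)
        rw [one_div, inv_inv]
        calc (4 : ℝ) ≤ L := by linarith
          _ ≤ L ^ (U + 2) := le_self_pow₀ hL1 (by omega)
      have ht4 : 4 ≤ (t ψ : ℝ) := by
        have : L ≤ L ^ (U + 2) := le_self_pow₀ hL1 (by omega)
        linarith
      have hXbig : (t ψ : ℝ) ≤ 2 * X i := by
        have : (t ψ : ℝ) * (1 - δ) ≥ t ψ * (3 / 4) := by
          apply mul_le_mul_of_nonneg_left _ ht0.le
          linarith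
        linarith
      refine ⟨hXt.trans h1, h2.trans hXbig, ?_⟩
      -- the difference
      have hsplit : ∑ m ∈ Icc 1 (t ψ), LA m * ψ.2 (m : ZMod ψ.1) = ∑ m ∈ Icc 1 (X i), LA m * ψ.2 (m : ZMod ψ.1) +
          ∑ m ∈ Ioc (X i) (t ψ), LA m * ψ.2 (m : ZMod ψ.1) := by
        rw [show Icc 1 (t ψ) = Ioc 0 (t ψ) by ext; simp [Nat.lt_iff_add_one_le],
          show Icc 1 (X i) = Ioc 0 (X i) by ext; simp [Nat.lt_iff_add_one_le],
          ← sum_union (disjoint_left.2 fun a ha hb => by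
            rw [mem_Ioc] at ha hb
            omega), Ioc_union_Ioc_eq_Ioc (Nat.zero_le _) hXt]
      have htail : ‖∑ m ∈ Ioc (X i) (t ψ), LA m * ψ.2 (m : ZMod ψ.1)‖ ≤ (t ψ * δ + 1) * L := by
        calc ‖∑ m ∈ Ioc (X i) (t ψ), LA m * ψ.2 (m : ZMod ψ.1)‖ ≤ ∑ m ∈ Ioc (X i) (t ψ), L := by
              refine (norm_sum_le _ _).trans (sum_le_sum fun m hm => ?_)
              rw [mem_Ioc] at hm
              rw [norm_mul]
              calc ‖LA m‖ * ‖ψ.2 (m : ZMod ψ.1)‖ ≤ L * 1 := by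
                    refine mul_le_mul ?_ (DirichletCharacter.norm_le_one _ _) (norm_nonneg _) hL0.le
                    rw [hLd]
                    exact LA_norm (hm.2.trans h1) hN1
                _ = L := mul_one _
          _ = ((t ψ : ℝ) - X i) * L := by
              rw [sum_const, Nat.card_Ioc, nsmul_eq_mul, Nat.cast_sub hXt]
          _ ≤ (t ψ * δ + 1) * L := by
              apply mul_le_mul_of_nonneg_right _ hL0.le
              linarith
      have g7 : (t ψ * δ + 1) * L ≤ t ψ / (2 * L ^ U) := by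
        have e1 : (t ψ : ℝ) * δ * L ≤ t ψ / (4 * L ^ U) := by
          rw [le_div_iff₀ (by positivity)]
          calc (t ψ : ℝ) * δ * L * (4 * L ^ U) = t ψ * (δ * (4 * (L * L ^ U))) := by ring
            _ ≤ t ψ * (δ * (L * (L * L ^ U))) := by
                gcongr
                linarith
            _ = t ψ * (δ * L ^ (U + 2)) := by ring
            _ = t ψ := by rw [hδL, mul_one]
        have e2 : L ≤ t ψ / (4 * L ^ U) := by
          rw [le_div_iff₀ (by positivity)]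
          calc L * (4 * L ^ U) = 4 * (L * L ^ U) := by ring
            _ ≤ L * (L * L ^ U) := by
                gcongr
                linarith
            _ = L ^ (U + 2) := by ring
            _ ≤ _ := hpow.trans h2
        have e3 : (t ψ : ℝ) / (2 * L ^ U) = t ψ / (4 * L ^ U) + t ψ / (4 * L ^ U) := by
          field_simp
          ring
        rw [e3, add_mul, one_mul]
        linarith
      have g8 : (t ψ : ℝ) / L ^ U = t ψ / (2 * L ^ U) + t ψ / (2 * L ^ U) := by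
        field_simp
        ring
      have g9 := norm_add_le (∑ m ∈ Icc 1 (X i), LA m * ψ.2 (m : ZMod ψ.1))
        (∑ m ∈ Ioc (X i) (t ψ), LA m * ψ.2 (m : ZMod ψ.1))
      rw [← hsplit] at g9
      have g10 : (X i : ℝ) / (2 * L ^ U) ≤ t ψ / (2 * L ^ U) := by
        apply div_le_div_of_nonneg_right _ (by positivity)
        exact_mod_cast hXt
      linarith
    obtain ⟨ψ₀, hψ₀⟩ := nonempty_iff_ne_empty.2 hemp
    obtain ⟨hXN, hX4, -⟩ := hkey ψ₀ hψ₀
    have hX0 : (0 : ℝ) < X i := by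
      have : (0 : ℝ) < (N : ℝ) ^ (1 / 4 : ℝ) := by positivity
      linarith
    have hX1 : 1 ≤ X i := by exact_mod_cast hX0
    have hlogX : 1 + Real.log (X i) ≤ 2 * L := by
      have : Real.log (X i) ≤ L := by
        rw [hLd]
        exact Real.log_le_log hX0 (by exact_mod_cast hXN)
      linarith
    have h1 := hc N (X i) LA (2 * L) (X i / (2 * L ^ U)) hX1 hlogX (by positivity) (fun m hm => by
      rw [mem_Icc] at hm
      have e1 := LA_norm (hm.2.trans hXN) hN1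
      rw [← hLd] at e1
      have e2 : (1 : ℝ) ≤ (m.divisors.card : ℝ) := by
        have : 0 < m.divisors.card := card_pos.2 ⟨1, Nat.one_mem_divisors.2 (by omega)⟩
        exact_mod_cast this
      nlinarith) (Ψ.filter (fun ψ => ix ψ = i)) (fun ψ hψ => by
      obtain ⟨k1, k2, k3, -⟩ := hΨ ψ (mem_filter.1 hψ).1
      exact ⟨k1, k2, k3, (hkey ψ hψ).2.2⟩)
    have hN2 : (N : ℝ) ^ 2 ≤ 256 * (X i : ℝ) ^ 8 := by
      calc (N : ℝ) ^ 2 = ((N : ℝ) ^ (1 / 4 : ℝ)) ^ 8 := by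
            have e1 : ((N : ℝ) ^ (1 / 4 : ℝ)) ^ 8 = (N : ℝ) ^ ((1 / 4 : ℝ) * (8 : ℕ)) := by
              rw [Real.rpow_mul hN0.le, Real.rpow_natCast]
            rw [e1, ← Real.rpow_natCast]
            norm_num
        _ ≤ (2 * (X i : ℝ)) ^ 8 := pow_le_pow_left₀ (by positivity) hX4 8
        _ = 256 * (X i : ℝ) ^ 8 := by ring
    obtain ⟨R, hR⟩ : ∃ R : ℝ, R = ((Ψ.filter (fun ψ => ix ψ = i)).card : ℝ) := ⟨_, rfl⟩
    rw [← hR] at h1 ⊢
    have h2 : R * ((X i : ℝ) / (2 * L ^ U)) ^ (2 * 8) ≤ 1542 * (X i : ℝ) ^ 16 * (16 * L) ^ c := by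
      refine h1.trans ?_
      push_cast
      rw [show (8 : ℝ) * (2 * L) = 16 * L by ring]
      have : 6 * ((X i : ℝ) ^ 8 + (N : ℝ) ^ 2) * (X i : ℝ) ^ 8 ≤ 1542 * (X i : ℝ) ^ 16 := by
        calc 6 * ((X i : ℝ) ^ 8 + (N : ℝ) ^ 2) * (X i : ℝ) ^ 8 ≤
            6 * ((X i : ℝ) ^ 8 + 256 * (X i : ℝ) ^ 8) * (X i : ℝ) ^ 8 := by gcongr
          _ = _ := by ring
      gcongr
    have h3 : ((X i : ℝ) / (2 * L ^ U)) ^ (2 * 8) = (X i : ℝ) ^ 16 / (2 ^ 16 * L ^ (16 * U)) := by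
      rw [div_pow, mul_pow, ← pow_mul, mul_comm U (2 * 8)]
    rw [h3, mul_div_assoc', div_le_iff₀ (by positivity)] at h2
    have h4 : R ≤ 1542 * (16 * L) ^ c * (2 ^ 16 * L ^ (16 * U)) := by
      have hXp : (0 : ℝ) < (X i : ℝ) ^ 16 := by positivity
      refine le_of_mul_le_mul_right ?_ hXp
      linarith
    refine h4.trans ?_
    calc 1542 * (16 * L) ^ c * (2 ^ 16 * L ^ (16 * U)) = (1542 * 2 ^ 16 * 16 ^ c) * (L ^ c * L ^ (16 * U)) := by
          rw [mul_pow]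
          ring
      _ ≤ L * (L ^ c * L ^ (16 * U)) := by
          gcongr
          linarith
      _ = L ^ (16 * U + c + 1) := by
          rw [pow_succ, pow_add]
          ring
  have htot : Ψ.card = ∑ i ∈ range (I + 1), (Ψ.filter (fun ψ => ix ψ = i)).card :=
    card_eq_sum_card_fiberwise hixI
  rw [htot, Nat.cast_sum]
  calc ∑ i ∈ range (I + 1), ((Ψ.filter (fun ψ => ix ψ = i)).card : ℝ) ≤
      ∑ i ∈ range (I + 1), L ^ (16 * U + c + 1) := sum_le_sum hfib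
    _ = ((I + 1 : ℕ) : ℝ) * L ^ (16 * U + c + 1) := by rw [sum_const, card_range, nsmul_eq_mul]
    _ ≤ L ^ (U + 4) * L ^ (16 * U + c + 1) := by gcongr
    _ = _ := by
        rw [← pow_add]
        congr 1
        omega

end Pool.Agent.H579.G
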