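import Pool.Agent.H579.G.Dns5

set_option autoImplicit false

/-! Second moments over boxes of shifts: several bases. -/

namespace Pool.Agent.H579.G

open Finset

open Classical in
/-- the second moment -/
theorem sec_momM {k : ℕ} (H : Fin k → Finset ℤ) (S : Finset ℕ) (f : Fin k → ℤ → ℕ → ℝ) (Q : Fin k → ℝ)
    (W : Fin k → ℕ → ℕ → ℝ) {K e : ℝ} (hK : 1 ≤ K) (he : 0 ≤ e) (hH : ∀ i, 0 < (H i).card) (hf : ∀ i h s, 0 ≤ f i h s)
    (hQ : ∀ i, 0 ≤ Q i ∧ Q i + e ≤ K) (hW : ∀ i s t, 0 ≤ W i s t ∧ Q i ^ 2 * W i s t + e ≤ K)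
    (hU : ∀ i, ∀ s ∈ S, |∑ h ∈ H i, f i h s - (H i).card * Q i| ≤ (H i).card * e)
    (hV : ∀ i, ∀ s ∈ S, ∀ t ∈ S.erase s, ∑ h ∈ H i, f i h s * f i h t ≤ (H i).card * (Q i ^ 2 * W i s t + e))
    (hD : ∀ i, ∀ s ∈ S, ∀ h ∈ H i, f i h s * f i h s ≤ K) :
    ∑ h ∈ Fintype.piFinset H, (∑ s ∈ S, ∏ i, f i (h i) s - (∏ i, Q i) * S.card) ^ 2 ≤
      (∏ i, ((H i).card : ℝ)) * ((∏ i, Q i) ^ 2 * ∑ s ∈ S, ∑ t ∈ S.erase s, (∏ i, W i s t - 1) +
        S.card * K ^ k + (S.card : ℝ) ^ 2 * (k * K ^ k * e) + 2 * (∏ i, Q i) * (S.card : ℝ) ^ 2 * (k * K ^ k * e)) := by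
  obtain ⟨M, hM⟩ : ∃ M : ℝ, M = ∏ i, ((H i).card : ℝ) := ⟨_, rfl⟩
  obtain ⟨Θ, hΘ⟩ : ∃ Θ : ℝ, Θ = ∏ i, Q i := ⟨_, rfl⟩
  obtain ⟨Er, hEr⟩ : ∃ Er : ℝ, Er = k * K ^ k * e := ⟨_, rfl⟩
  have hM0 : 0 < M := by rw [hM]; exact prod_pos fun i _ => by exact_mod_cast hH i
  have hΘ0 : 0 ≤ Θ := by rw [hΘ]; exact prod_nonneg fun i _ => (hQ i).1
  have hEr0 : 0 ≤ Er := by rw [hEr]; positivity
  have hHr : ∀ i, (0 : ℝ) < (H i).card := fun i => by exact_mod_cast hH i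
  -- sums over the box
  have hc : ((Fintype.piFinset H).card : ℝ) = M := by rw [hM, Fintype.card_piFinset]; push_cast; rfl
  have h1 : ∀ s ∈ S, M * (Θ - Er) ≤ ∑ h ∈ Fintype.piFinset H, ∏ i, f i (h i) s := by
    intro s hs
    have e1 : ∑ h ∈ Fintype.piFinset H, ∏ i, f i (h i) s = ∏ i, ∑ h ∈ H i, f i h s :=
      (prod_univ_sum H (fun i h => f i h s)).symm
    have e2 : ∏ i, ∑ h ∈ H i, f i h s = M * ∏ i, ((∑ h ∈ H i, f i h s) / (H i).card) := by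
      rw [hM, ← prod_mul_distrib]
      refine prod_congr rfl fun i _ => ?_
      have := hHr i
      field_simp
    have e3 : ∀ i, |(∑ h ∈ H i, f i h s) / (H i).card - Q i| ≤ e := by
      intro i
      have h2 := hHr i
      have h3 : (∑ h ∈ H i, f i h s) / (H i).card - Q i = (∑ h ∈ H i, f i h s - (H i).card * Q i) / (H i).card := by
        field_simp
      rw [h3, abs_div, abs_of_pos h2, div_le_iff₀ h2]
      linarith [hU i s hs]
    have e4 := prod_close (univ : Finset (Fin k)) (fun i => (∑ h ∈ H i, f i h s) / (H i).card) Q hK he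
      (fun i _ => by
        have h2 := abs_le.1 (e3 i)
        have h3 : 0 ≤ (∑ h ∈ H i, f i h s) / (H i).card := div_nonneg (sum_nonneg fun _ _ => hf _ _ _) (hHr i).le
        rw [abs_of_nonneg h3]
        linarith [(hQ i).2]) (fun i _ => by
        rw [abs_of_nonneg (hQ i).1]
        linarith [(hQ i).2]) (fun i _ => e3 i)
    rw [card_univ, Fintype.card_fin, ← hEr, ← hΘ] at e4
    rw [e1, e2]
    exact mul_le_mul_of_nonneg_left (by linarith [(abs_le.1 e4).1]) hM0.le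
  have h2 : ∀ s ∈ S, ∀ t ∈ S.erase s, ∑ h ∈ Fintype.piFinset H, (∏ i, f i (h i) s) * (∏ i, f i (h i) t) ≤
      M * (Θ ^ 2 * ∏ i, W i s t + Er) := by
    intro s hs t ht
    have e1 : ∑ h ∈ Fintype.piFinset H, (∏ i, f i (h i) s) * (∏ i, f i (h i) t) = ∏ i, ∑ h ∈ H i, f i h s * f i h t := by
      rw [prod_univ_sum H (fun i h => f i h s * f i h t)]
      exact sum_congr rfl fun h _ => by rw [prod_mul_distrib]
    have e2 : ∏ i, ∑ h ∈ H i, f i h s * f i h t ≤ ∏ i, ((H i).card * (Q i ^ 2 * W i s t + e)) :=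
      prod_le_prod (fun i _ => sum_nonneg fun h _ => mul_nonneg (hf _ _ _) (hf _ _ _)) fun i _ => hV i s hs t ht
    have e4 := prod_close (univ : Finset (Fin k)) (fun i => Q i ^ 2 * W i s t + e) (fun i => Q i ^ 2 * W i s t) hK he
      (fun i _ => by
        have h3 : 0 ≤ Q i ^ 2 * W i s t := mul_nonneg (sq_nonneg _) (hW i s t).1
        rw [abs_of_nonneg (by linarith)]
        exact (hW i s t).2) (fun i _ => by
        have h3 : 0 ≤ Q i ^ 2 * W i s t := mul_nonneg (sq_nonneg _) (hW i s t).1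
        rw [abs_of_nonneg h3]
        linarith [(hW i s t).2]) (fun i _ => by
        rw [add_sub_cancel_left, abs_of_nonneg he])
    rw [card_univ, Fintype.card_fin, ← hEr] at e4
    have e5 : ∏ i, Q i ^ 2 * W i s t = Θ ^ 2 * ∏ i, W i s t := by rw [hΘ, prod_mul_distrib, prod_pow]
    rw [e1]
    refine e2.trans ?_
    rw [prod_mul_distrib, ← hM]
    refine mul_le_mul_of_nonneg_left ?_ hM0.le
    rw [← e5]
    linarith [(abs_le.1 e4).2]
  have h3 : ∀ s ∈ S, ∑ h ∈ Fintype.piFinset H, (∏ i, f i (h i) s) * (∏ i, f i (h i) s) ≤ M * K ^ k := by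
    intro s hs
    rw [← hc, ← nsmul_eq_mul, ← sum_const]
    refine sum_le_sum fun h hh => ?_
    rw [← prod_mul_distrib]
    calc ∏ i, (f i (h i) s * f i (h i) s) ≤ ∏ _i : Fin k, K :=
          prod_le_prod (fun i _ => mul_nonneg (hf _ _ _) (hf _ _ _)) fun i _ => hD i s hs _ (Fintype.mem_piFinset.1 hh i)
      _ = K ^ k := by rw [prod_const, card_univ, Fintype.card_fin]
  -- expansion
  have h4 : ∑ h ∈ Fintype.piFinset H, (∑ s ∈ S, ∏ i, f i (h i) s - Θ * S.card) ^ 2 =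
      ∑ s ∈ S, ∑ t ∈ S, ∑ h ∈ Fintype.piFinset H, (∏ i, f i (h i) s) * (∏ i, f i (h i) t) -
        2 * (Θ * S.card) * ∑ s ∈ S, ∑ h ∈ Fintype.piFinset H, ∏ i, f i (h i) s + M * (Θ * S.card) ^ 2 := by
    have e1 : ∀ h : Fin k → ℤ, (∑ s ∈ S, ∏ i, f i (h i) s - Θ * S.card) ^ 2 =
        ∑ s ∈ S, ∑ t ∈ S, (∏ i, f i (h i) s) * (∏ i, f i (h i) t) - 2 * (Θ * S.card) * ∑ s ∈ S, ∏ i, f i (h i) s +
          (Θ * S.card) ^ 2 := by
      intro h
      rw [← sum_mul_sum]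
      ring
    rw [sum_congr rfl fun h _ => e1 h, sum_add_distrib, sum_sub_distrib, sum_const, nsmul_eq_mul, hc, ← mul_sum]
    congr 1
    congr 1
    · rw [sum_comm]
      refine sum_congr rfl fun s _ => sum_comm
    · congr 1
      exact sum_comm
  have h5 : ∑ s ∈ S, ∑ t ∈ S, ∑ h ∈ Fintype.piFinset H, (∏ i, f i (h i) s) * (∏ i, f i (h i) t) ≤
      ∑ s ∈ S, ((∑ t ∈ S.erase s, M * (Θ ^ 2 * ∏ i, W i s t + Er)) + M * K ^ k) := by
    refine sum_le_sum fun s hs => ?_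
    rw [← sum_erase_add _ _ hs]
    exact add_le_add (sum_le_sum fun t ht => h2 s hs t ht) (h3 s hs)
  have h6 : ∑ s ∈ S, M * (Θ - Er) ≤ ∑ s ∈ S, ∑ h ∈ Fintype.piFinset H, ∏ i, f i (h i) s := sum_le_sum h1
  rw [sum_const, nsmul_eq_mul] at h6
  have hS0 : (0 : ℝ) ≤ S.card := Nat.cast_nonneg _
  have h7 : ∑ s ∈ S, ((∑ t ∈ S.erase s, M * (Θ ^ 2 * ∏ i, W i s t + Er)) + M * K ^ k) =
      M * (Θ ^ 2 * ∑ s ∈ S, ∑ t ∈ S.erase s, (∏ i, W i s t - 1) + S.card * K ^ k +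
        (Θ ^ 2 + Er) * (S.card * (S.card - 1))) := by
    have e1 : ∀ s ∈ S, (∑ t ∈ S.erase s, M * (Θ ^ 2 * ∏ i, W i s t + Er)) + M * K ^ k =
        M * (Θ ^ 2 * ∑ t ∈ S.erase s, (∏ i, W i s t - 1)) + M * (Θ ^ 2 + Er) * (S.card - 1) + M * K ^ k := by
      intro s hs
      have e2 : ((S.erase s).card : ℝ) = S.card - 1 := by
        rw [card_erase_of_mem hs, Nat.cast_sub (card_pos.2 ⟨s, hs⟩), Nat.cast_one]
      have e3 : ∑ t ∈ S.erase s, M * (Θ ^ 2 * ∏ i, W i s t + Er) =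
          M * (Θ ^ 2 * ∑ t ∈ S.erase s, (∏ i, W i s t - 1)) + ∑ _t ∈ S.erase s, M * (Θ ^ 2 + Er) := by
        rw [mul_sum, mul_sum, ← sum_add_distrib]
        exact sum_congr rfl fun t _ => by ring
      rw [e3, sum_const, nsmul_eq_mul, e2]
      ring
    rw [sum_congr rfl e1, sum_add_distrib, sum_add_distrib, sum_const, sum_const, nsmul_eq_mul, nsmul_eq_mul,
      ← mul_sum, ← mul_sum]
    ring
  rw [← hM, ← hΘ, ← hEr, h4]
  have h8 : 2 * (Θ * S.card) * (S.card * (M * (Θ - Er))) ≤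
      2 * (Θ * S.card) * ∑ s ∈ S, ∑ h ∈ Fintype.piFinset H, ∏ i, f i (h i) s :=
    mul_le_mul_of_nonneg_left h6 (by positivity)
  have h9 : 0 ≤ M * ((Θ ^ 2 + Er) * S.card) := by positivity
  nlinarith [h5, h7, h8, h9]

end Pool.Agent.H579.G
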