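import Pool.Agent.H579.G.Dns6

set_option autoImplicit false

/-! From the sieve model to the local factors. -/

namespace Pool.Agent.H579.G

open Finset
open Pool.Agent.H373R2.T7
open Pool.Agent.Y614.GJ.Core (ev_log)

lemma omega_le {q : ℕ} (hq : 1 ≤ q) : (q.primeFactors.card : ℝ) ≤ 2 * Real.log q := by
  have h1 : 2 ^ q.primeFactors.card ≤ q := by
    calc 2 ^ q.primeFactors.card ≤ ∏ p ∈ q.primeFactors, p :=
          Finset.pow_card_le_prod _ _ _ fun p hp => (Nat.prime_of_mem_primeFactors hp).two_le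
      _ ≤ q := Nat.le_of_dvd hq (Nat.prod_primeFactors_dvd q)
  have h2 : (q.primeFactors.card : ℝ) * Real.log 2 ≤ Real.log q := by
    rw [← Real.log_pow]
    exact Real.log_le_log (by positivity) (by exact_mod_cast h1)
  have h3 := Real.log_two_gt_d9
  have h4 : (0 : ℝ) ≤ q.primeFactors.card := Nat.cast_nonneg _
  nlinarith

/-- the ratio `q / φ(q)` -/
noncomputable def Qf' (q : ℕ) : ℝ := (q : ℝ) / Nat.totient q

lemma Qf'_eq {q : ℕ} (hq : 1 ≤ q) : Qf' q = ∏ p ∈ q.primeFactors, (1 - 1 / (p : ℝ))⁻¹ := by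
  unfold Qf'
  have h1 : ((Nat.totient q : ℕ) : ℝ) = q * ∏ p ∈ q.primeFactors, (1 - 1 / (p : ℝ)) := by
    have h2 := Nat.totient_eq_mul_prod_factors q
    have h3 : (((Nat.totient q : ℕ) : ℚ) : ℝ) = (((q : ℚ) * ∏ p ∈ q.primeFactors, (1 - (p : ℚ)⁻¹) : ℚ) : ℝ) := by
      rw [h2]
    push_cast at h3
    rw [h3]
    congr 1
    refine prod_congr rfl fun p _ => ?_
    rw [one_div]
  have hq0 : (0 : ℝ) < q := by exact_mod_cast hq
  rw [h1, prod_inv_distrib]
  have h4 : ∏ p ∈ q.primeFactors, (1 - 1 / (p : ℝ)) ≠ 0 :=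
    prod_ne_zero_iff.2 fun p hp => (one_sub_pos (Nat.prime_of_mem_primeFactors hp)).ne'
  field_simp

lemma Qf'_bd {z q : ℕ} (hz : 1 ≤ z) (hq : 1 ≤ q) :
    Qz z q ≤ Qf' q ∧ Qf' q ≤ Qz z q * Real.exp (2 * Real.log q / z) := by
  classical
  have hz0 : (0 : ℝ) < z := by exact_mod_cast hz
  have e1 : (pz z).filter (fun p => p ∣ q) = q.primeFactors.filter (fun p => p ≤ z) := by
    ext p
    rw [mem_filter, mem_filter, mem_pz, Nat.mem_primeFactors]
    constructor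
    · rintro ⟨⟨h1, h2⟩, h3⟩
      exact ⟨⟨h2, h3, by omega⟩, h1⟩
    · rintro ⟨⟨h1, h2, -⟩, h3⟩
      exact ⟨⟨h3, h1⟩, h2⟩
  have e2 : Qf' q = Qz z q * ∏ p ∈ q.primeFactors.filter (fun p => ¬ p ≤ z), (1 - 1 / (p : ℝ))⁻¹ := by
    rw [Qf'_eq hq]
    unfold Qz
    rw [e1, prod_filter_mul_prod_filter_not]
  have h1 := (Qz_bd z q).1
  have h2 : 1 ≤ ∏ p ∈ q.primeFactors.filter (fun p => ¬ p ≤ z), (1 - 1 / (p : ℝ))⁻¹ :=
    one_le_prod' _ fun p hp => one_le_fac (Nat.prime_of_mem_primeFactors (mem_filter.1 hp).1)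
  have h3 : ∏ p ∈ q.primeFactors.filter (fun p => ¬ p ≤ z), (1 - 1 / (p : ℝ))⁻¹ ≤ Real.exp (2 * Real.log q / z) := by
    calc ∏ p ∈ q.primeFactors.filter (fun p => ¬ p ≤ z), (1 - 1 / (p : ℝ))⁻¹ ≤
        ∏ _p ∈ q.primeFactors.filter (fun p => ¬ p ≤ z), Real.exp (1 / z) := by
          refine prod_le_prod (fun p hp => ?_) fun p hp => ?_
          · linarith [one_le_fac (Nat.prime_of_mem_primeFactors (mem_filter.1 hp).1)]
          · rw [mem_filter, not_le] at hp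
            have hp2 : (2 : ℝ) ≤ p := by exact_mod_cast (Nat.prime_of_mem_primeFactors hp.1).two_le
            have hpz : (z : ℝ) + 1 ≤ p := by exact_mod_cast hp.2
            have e3 : (1 - 1 / (p : ℝ))⁻¹ = 1 + 1 / (p - 1) := by
              have h5 : (p : ℝ) - 1 ≠ 0 := by linarith
              have h6 : (p : ℝ) ≠ 0 := by linarith
              field_simp
              ring
            have e4 : 1 / ((p : ℝ) - 1) ≤ 1 / z := one_div_le_one_div_of_le hz0 (by linarith)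
            rw [e3]
            linarith [Real.add_one_le_exp (1 / (z : ℝ))]
      _ = Real.exp (((q.primeFactors.filter (fun p => ¬ p ≤ z)).card : ℝ) * (1 / z)) := by
          rw [prod_const, ← Real.exp_nat_mul]
      _ ≤ _ := by
          refine Real.exp_le_exp.2 ?_
          have h4 : ((q.primeFactors.filter (fun p => ¬ p ≤ z)).card : ℝ) ≤ q.primeFactors.card := by
            exact_mod_cast card_le_card (filter_subset _ _)
          have h5 := omega_le hq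
          rw [mul_one_div]
          exact div_le_div_of_nonneg_right (by linarith) hz0.le
  rw [e2]
  constructor
  · nlinarith
  · exact mul_le_mul_of_nonneg_left h3 (by linarith)

lemma cnt_mult {N p : ℕ} (hp : 1 ≤ p) (a : ℤ) {S : Finset ℕ} (hS : S ⊆ Icc 1 N)
    [DecidablePred fun s : ℕ => (p : ℤ) ∣ (s : ℤ) + a] :
    ((S.filter (fun s : ℕ => (p : ℤ) ∣ (s : ℤ) + a)).card : ℝ) ≤ N / p + 1 := by
  classical
  obtain ⟨b, -, -, -, -, h1⟩ := cls_sum (N := N) hp (-a)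
  refine le_trans ?_ h1
  have h2 : (S.filter (fun s : ℕ => (p : ℤ) ∣ (s : ℤ) + a)).card ≤ (Hc N p (-a)).card := by
    refine card_le_card_of_injOn (fun s : ℕ => (s : ℤ)) (fun s hs => ?_) (fun s _ t _ hst => Int.ofNat_inj.1 hst)
    rw [mem_coe, mem_filter] at hs
    have h3 := mem_Icc.1 (hS hs.1)
    show (s : ℤ) ∈ ((Hc N p (-a) : Finset ℤ) : Set ℤ)
    rw [mem_coe]
    unfold Hc
    rw [mem_filter, mem_Icc]
    refine ⟨⟨by exact_mod_cast h3.1, by exact_mod_cast h3.2⟩, ?_⟩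
    refine (Int.modEq_iff_dvd.2 ?_)
    have : -a - (s : ℤ) = -((s : ℤ) + a) := by ring
    rw [this]
    exact (dvd_neg).2 hs.2
  exact_mod_cast h2

open Classical in
/-- the conversion -/
theorem conv (k E : ℕ) (hE : 4 ≤ E) : ∃ N₀ : ℕ, ∀ N : ℕ, N₀ ≤ N → ∀ z : ℕ, z = ⌈Real.log N ^ E⌉₊ →
    ∀ q : Fin k → ℕ, (∀ i, 1 ≤ q i ∧ q i ≤ N) → ∀ a : Fin k → ℤ, ∀ S : Finset ℕ, S ⊆ Icc 1 N →
    (∏ i, Qz z (q i)) ≤ ∏ i, Qf' (q i) ∧ 1 ≤ ∏ i, Qz z (q i) ∧
    |(∏ i, Qz z (q i)) * (S.filter (fun s => ∀ i, Gd z (q i) (a i) s)).card -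
      (∏ i, Qf' (q i)) * (S.filter (fun s : ℕ => ∀ i, Int.gcd ((s : ℤ) + a i) (q i) = 1)).card| ≤
      (∏ i, Qf' (q i)) * (N / (4 * Real.log N ^ 2)) := by
  obtain ⟨n1, h1⟩ := zpar E
  obtain ⟨n5, h5⟩ := Filter.eventually_atTop.1 (ev_log (E + 1) (s := 1) (by norm_num) (32 * k + 10))
  refine ⟨n1 + n5 + 1, fun N hN z hz q hq a S hS => ?_⟩
  obtain ⟨hL10, hzlo, hzhi, hV⟩ := h1 N (by omega)
  obtain ⟨hLbig, hLN⟩ := h5 N (by omega)
  rw [← hz] at hzlo hzhi hV
  obtain ⟨L, hL⟩ : ∃ L, L = Real.log N := ⟨_, rfl⟩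
  rw [← hL] at hL10 hzlo hzhi hV hLbig hLN ⊢
  rw [Real.rpow_one] at hLN
  have hN0 : (0 : ℝ) < N := by exact_mod_cast (by omega : 0 < N)
  have hL0 : 0 < L := by linarith
  have hL1 : 1 ≤ L := by linarith
  have hk0 : (0 : ℝ) ≤ k := Nat.cast_nonneg k
  have hz4 : L ^ 4 ≤ z := (pow_le_pow_right₀ hL1 hE).trans hzlo
  have hz0 : (0 : ℝ) < z := lt_of_lt_of_le (by positivity) hz4
  have hz1 : 1 ≤ z := by exact_mod_cast hz0
  have hzN : (z : ℝ) ≤ N := hzhi.trans hLN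
  have hQ1 : ∀ i, 1 ≤ Qz z (q i) := fun i => (Qz_bd z (q i)).1
  have hQf := fun i => Qf'_bd hz1 (hq i).1
  have hlq : ∀ i, Real.log (q i) ≤ L := fun i => by
    rw [hL]
    exact Real.log_le_log (by exact_mod_cast (hq i).1) (by exact_mod_cast (hq i).2)
  obtain ⟨Θ, hΘ⟩ : ∃ Θ, Θ = ∏ i, Qz z (q i) := ⟨_, rfl⟩
  obtain ⟨Θ', hΘ'⟩ : ∃ Θ', Θ' = ∏ i, Qf' (q i) := ⟨_, rfl⟩
  have t1 : Θ ≤ Θ' := by
    rw [hΘ, hΘ']
    exact prod_le_prod (fun i _ => by linarith [hQ1 i]) fun i _ => (hQf i).1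
  have t0 : 1 ≤ Θ := by
    rw [hΘ]
    calc (1 : ℝ) = ∏ _i : Fin k, (1 : ℝ) := by simp
      _ ≤ _ := prod_le_prod (fun _ _ => zero_le_one) fun i _ => hQ1 i
  have hx : k * (2 * L / z) ≤ 2 * k / L ^ 3 := by
    rw [mul_div_assoc', div_le_div_iff₀ hz0 (by positivity)]
    calc (k : ℝ) * (2 * L) * L ^ 3 = 2 * k * L ^ 4 := by ring
      _ ≤ 2 * (k : ℝ) * z := by gcongr
  have hx2 : 2 * (k : ℝ) / L ^ 3 ≤ 1 := by
    rw [div_le_one (by positivity)]
    have h2 : L ≤ L ^ 3 := by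
      have := pow_le_pow_right₀ hL1 (show 1 ≤ 3 by norm_num)
      simpa using this
    linarith
  have t2 : Θ' ≤ Θ * (1 + 4 * k / L ^ 3) := by
    have e1 : Θ' ≤ Θ * Real.exp (k * (2 * L / z)) := by
      rw [hΘ, hΘ', Real.exp_nat_mul]
      calc ∏ i, Qf' (q i) ≤ ∏ i, (Qz z (q i) * Real.exp (2 * L / z)) := by
            refine prod_le_prod (fun i _ => by linarith [hQ1 i, (hQf i).1]) fun i _ => (hQf i).2.trans ?_
            refine mul_le_mul_of_nonneg_left (Real.exp_le_exp.2 ?_) (by linarith [hQ1 i])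
            refine div_le_div_of_nonneg_right ?_ hz0.le
            linarith [hlq i]
        _ = _ := by rw [prod_mul_distrib, prod_const, card_univ, Fintype.card_fin]
    refine e1.trans (mul_le_mul_of_nonneg_left ?_ (by linarith))
    obtain ⟨y, hy⟩ : ∃ y, y = 2 * (k : ℝ) / L ^ 3 := ⟨_, rfl⟩
    have hy0 : 0 ≤ y := by rw [hy]; positivity
    rw [← hy] at hx hx2
    have e2 : Real.exp (k * (2 * L / z)) ≤ Real.exp y := Real.exp_le_exp.2 hx
    have e3 : Real.exp y ≤ 1 + 2 * y := by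
      have := Real.abs_exp_sub_one_sub_id_le (x := y) (by rw [abs_of_nonneg hy0]; exact hx2)
      have h6 := (abs_le.1 this).2
      nlinarith
    have e4 : 4 * (k : ℝ) / L ^ 3 = 2 * y := by rw [hy]; ring
    rw [e4]
    linarith
  obtain ⟨S1, hS1⟩ : ∃ S1, S1 = S.filter (fun s => ∀ i, Gd z (q i) (a i) s) := ⟨_, rfl⟩
  obtain ⟨S2, hS2⟩ : ∃ S2, S2 = S.filter (fun s : ℕ => ∀ i, Int.gcd ((s : ℤ) + a i) (q i) = 1) := ⟨_, rfl⟩
  have hsub : S2 ⊆ S1 := by
    intro s hs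
    rw [hS2, mem_filter] at hs
    rw [hS1, mem_filter]
    refine ⟨hs.1, fun i p hp hc => ?_⟩
    have h2 := (mem_pz.1 hp).2
    have h3 : (p : ℤ) ∣ (Int.gcd ((s : ℤ) + a i) (q i) : ℤ) :=
      Int.dvd_coe_gcd hc.2 (Int.natCast_dvd_natCast.2 hc.1)
    rw [hs.2 i] at h3
    have h4 := Int.le_of_dvd (by norm_num) h3
    have := h2.two_le
    omega
  have hdiff : ((S1 \ S2).card : ℝ) ≤ k * (2 * L) * (2 * N / z) := by
    have h2 : S1 \ S2 ⊆ (univ : Finset (Fin k)).biUnion (fun i => ((q i).primeFactors.filter (fun p => z < p)).biUnion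
        (fun p => S.filter (fun s : ℕ => (p : ℤ) ∣ (s : ℤ) + a i))) := by
      intro s hs
      rw [mem_sdiff, hS1, hS2, mem_filter, mem_filter, not_and] at hs
      obtain ⟨⟨h3, h4⟩, h5⟩ := hs
      have h6 := h5 h3
      push Not at h6
      obtain ⟨i, hi⟩ := h6
      obtain ⟨p, hp, hpd⟩ := Nat.exists_prime_and_dvd hi
      rw [mem_biUnion]
      refine ⟨i, mem_univ _, ?_⟩
      rw [mem_biUnion]
      have h7 : (p : ℤ) ∣ (s : ℤ) + a i := (Int.natCast_dvd_natCast.2 hpd).trans (Int.gcd_dvd_left ..)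
      have h8 : p ∣ q i := by
        have : (p : ℤ) ∣ (q i : ℤ) := (Int.natCast_dvd_natCast.2 hpd).trans (Int.gcd_dvd_right ..)
        exact Int.natCast_dvd_natCast.1 this
      refine ⟨p, mem_filter.2 ⟨Nat.mem_primeFactors.2 ⟨hp, h8, by have := (hq i).1; omega⟩, ?_⟩, mem_filter.2 ⟨h3, h7⟩⟩
      by_contra hc
      exact h4 i p (mem_pz.2 ⟨not_lt.1 hc, hp⟩) ⟨h8, h7⟩
    have h3 := card_le_card h2
    have h4 : ∀ i, (((((q i).primeFactors.filter (fun p => z < p)).biUnion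
        (fun p => S.filter (fun s : ℕ => (p : ℤ) ∣ (s : ℤ) + a i))).card : ℕ) : ℝ) ≤ 2 * L * (2 * N / z) := by
      intro i
      have h5 := card_biUnion_le (s := (q i).primeFactors.filter (fun p => z < p))
        (t := fun p => S.filter (fun s : ℕ => (p : ℤ) ∣ (s : ℤ) + a i))
      have h6 : ∀ p ∈ (q i).primeFactors.filter (fun p => z < p),
          ((S.filter (fun s : ℕ => (p : ℤ) ∣ (s : ℤ) + a i)).card : ℝ) ≤ 2 * N / z := by
        intro p hp
        rw [mem_filter] at hp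
        refine (cnt_mult (Nat.prime_of_mem_primeFactors hp.1).one_lt.le (a i) hS).trans ?_
        have h7 : (z : ℝ) ≤ p := by exact_mod_cast hp.2.le
        have h8 : (N : ℝ) / p ≤ N / z := div_le_div_of_nonneg_left hN0.le hz0 h7
        have h9 : (1 : ℝ) ≤ N / z := by rw [le_div_iff₀ hz0]; linarith
        have h10 : 2 * (N : ℝ) / z = N / z + N / z := by ring
        rw [h10]
        linarith
      calc _ ≤ ((∑ p ∈ (q i).primeFactors.filter (fun p => z < p),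
            (S.filter (fun s : ℕ => (p : ℤ) ∣ (s : ℤ) + a i)).card : ℕ) : ℝ) := by exact_mod_cast h5
        _ ≤ ∑ _p ∈ (q i).primeFactors.filter (fun p => z < p), 2 * (N : ℝ) / z := by
            push_cast
            exact sum_le_sum h6
        _ = ((q i).primeFactors.filter (fun p => z < p)).card * (2 * N / z) := by
            rw [sum_const, nsmul_eq_mul]
        _ ≤ 2 * L * (2 * N / z) := by
            have h11 : (((q i).primeFactors.filter (fun p => z < p)).card : ℝ) ≤ (q i).primeFactors.card := by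
              exact_mod_cast card_le_card (filter_subset _ _)
            have h12 := omega_le (hq i).1
            have h13 := hlq i
            have h14 : 0 ≤ 2 * (N : ℝ) / z := by positivity
            exact mul_le_mul_of_nonneg_right (by linarith) h14
    calc ((S1 \ S2).card : ℝ) ≤ (((univ : Finset (Fin k)).biUnion (fun i => ((q i).primeFactors.filter (fun p => z < p)).biUnion
        (fun p => S.filter (fun s : ℕ => (p : ℤ) ∣ (s : ℤ) + a i)))).card : ℝ) := by exact_mod_cast h3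
      _ ≤ ((∑ i : Fin k, (((q i).primeFactors.filter (fun p => z < p)).biUnion
        (fun p => S.filter (fun s : ℕ => (p : ℤ) ∣ (s : ℤ) + a i))).card : ℕ) : ℝ) := by exact_mod_cast card_biUnion_le
      _ ≤ ∑ _i : Fin k, 2 * L * (2 * N / z) := by
          push_cast
          exact sum_le_sum fun i _ => h4 i
      _ = k * (2 * L) * (2 * N / z) := by
          rw [sum_const, nsmul_eq_mul, card_univ, Fintype.card_fin]
          ring
  have hcard : (S1.card : ℝ) = S2.card + (S1 \ S2).card := by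
    have := card_sdiff_add_card_eq_card hsub
    have h2 : S1.card = S2.card + (S1 \ S2).card := by omega
    exact_mod_cast h2
  have hdiff2 : ((S1 \ S2).card : ℝ) ≤ 4 * k * N / L ^ 3 := by
    refine hdiff.trans ?_
    rw [mul_div_assoc', div_le_div_iff₀ hz0 (by positivity)]
    calc (k : ℝ) * (2 * L) * (2 * N) * L ^ 3 = 4 * k * N * L ^ 4 := by ring
      _ ≤ 4 * (k : ℝ) * N * z := by gcongr
  have hS2c : (S2.card : ℝ) ≤ N := by
    have h6 : S2.card ≤ (Icc 1 N).card := card_le_card (by rw [hS2]; exact (filter_subset _ _).trans hS)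
    rw [Nat.card_Icc] at h6
    exact_mod_cast (by omega : S2.card ≤ N)
  rw [← hΘ, ← hΘ', ← hS1, ← hS2]
  refine ⟨t1, t0, ?_⟩
  have hΘ0 : 0 ≤ Θ := by linarith
  have e1 : Θ * S1.card - Θ' * S2.card = Θ * (S1 \ S2).card - (Θ' - Θ) * S2.card := by rw [hcard]; ring
  have e2 : Θ * (S1 \ S2).card ≤ Θ' * (4 * k * N / L ^ 3) :=
    mul_le_mul t1 hdiff2 (Nat.cast_nonneg _) (by linarith)
  have e3 : (Θ' - Θ) * S2.card ≤ Θ' * (4 * k * N / L ^ 3) := by
    have e31 : Θ' - Θ ≤ Θ * (4 * k / L ^ 3) := by linarith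
    have e32 : 0 ≤ 4 * (k : ℝ) / L ^ 3 := by positivity
    calc (Θ' - Θ) * S2.card ≤ (Θ * (4 * k / L ^ 3)) * N :=
          mul_le_mul e31 hS2c (Nat.cast_nonneg _) (mul_nonneg hΘ0 e32)
      _ ≤ (Θ' * (4 * k / L ^ 3)) * N := mul_le_mul_of_nonneg_right (mul_le_mul_of_nonneg_right t1 e32) hN0.le
      _ = _ := by ring
  have e4 : 0 ≤ Θ * (S1 \ S2).card := by positivity
  have e5 : 0 ≤ (Θ' - Θ) * S2.card := mul_nonneg (by linarith) (Nat.cast_nonneg _)
  have e6 : 4 * k * N / L ^ 3 ≤ (N : ℝ) / (4 * L ^ 2) := by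
    rw [div_le_div_iff₀ (by positivity) (by positivity)]
    have h2 : 16 * (k : ℝ) ≤ L := by linarith
    calc 4 * (k : ℝ) * N * (4 * L ^ 2) = (16 * k) * (N * L ^ 2) := by ring
      _ ≤ L * (N * L ^ 2) := by gcongr
      _ = N * L ^ 3 := by ring
  have e7 : Θ' * (4 * k * N / L ^ 3) ≤ Θ' * (N / (4 * L ^ 2)) := mul_le_mul_of_nonneg_left e6 (by linarith)
  rw [e1, abs_le]
  constructor <;> linarith

end Pool.Agent.H579.G
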