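import Pool.Agent.H579.G.Dms1
import Pool.Agent.H579.G.Dns7

set_option autoImplicit false

/-! The second moment of the sieve model: several bases. -/

namespace Pool.Agent.H579.G

open Finset
open Pool.Agent.H373R2.T7
open Pool.Agent.Y614.GJ.Core (ev_log)

lemma prod_le_max {k : ℕ} (hk : 1 ≤ k) (W : Fin k → ℝ) (hW : ∀ i, 1 ≤ W i) :
    ∏ i, W i - 1 ≤ ∑ i, (W i ^ k - 1) := by
  classical
  have hne : (univ : Finset (Fin k)).Nonempty := ⟨⟨0, by omega⟩, mem_univ _⟩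
  obtain ⟨j, -, hj⟩ := exists_max_image (univ : Finset (Fin k)) W hne
  have h1 : ∏ i, W i ≤ W j ^ k := by
    calc ∏ i, W i ≤ ∏ _i : Fin k, W j := prod_le_prod (fun i _ => by linarith [hW i]) fun i _ => hj i (mem_univ _)
      _ = W j ^ k := by rw [prod_const, card_univ, Fintype.card_fin]
  have h2 : ∀ i, 0 ≤ W i ^ k - 1 := fun i => by linarith [one_le_pow₀ (n := k) (hW i)]
  have h3 : W j ^ k - 1 ≤ ∑ i, (W i ^ k - 1) :=
    single_le_sum (f := fun i => W i ^ k - 1) (fun i _ => h2 i) (mem_univ j)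
  linarith

open Classical in
/-- the second moment of the sieve model, several bases -/
theorem sieve_momM (k E : ℕ) (hk : 1 ≤ k) : ∃ N₀ : ℕ, ∀ N : ℕ, N₀ ≤ N → ∀ z : ℕ, z = ⌈Real.log N ^ E⌉₊ →
    ∀ q : Fin k → ℕ, (∀ i, 1 ≤ q i ∧ (q i : ℝ) ≤ (N : ℝ) ^ (2 / 3 : ℝ)) → ∀ a : Fin k → ℤ, ∀ w : ℕ,
    (∀ p : ℕ, p.Prime → p ≤ w → ∀ i, p ∣ q i) → ∀ S : Finset ℕ, S.card ≤ N → ∀ u : Fin k → ℕ → ℕ, ∀ B : ℝ,
    (∀ i, ∑ s ∈ S, ∑ t ∈ S.erase s, (∏ p ∈ (pz z).filter (fun p : ℕ => w < p ∧ (p : ℤ) ∣ (u i s : ℤ) - u i t),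
      ((1 - 1 / (p : ℝ))⁻¹) ^ k - 1) ≤ B) →
    ∑ h ∈ Fintype.piFinset (fun i => Hc N (q i) (a i)), (∑ s ∈ S, ∏ i, ex (lamz z) (h i) (u i s) -
        (∏ i, Qz z (q i)) * (S.filter (fun s => ∀ i, Gd z (q i) (a i) (u i s))).card) ^ 2 ≤
      (∏ i, ((Hc N (q i) (a i)).card : ℝ)) * ((∏ i, Qz z (q i)) ^ 2 * (k * B) + (N : ℝ) ^ 2 / Real.log N ^ 8) := by
  obtain ⟨U', hU'⟩ : ∃ U', U' = 5 * k + 12 := ⟨_, rfl⟩
  obtain ⟨n1, h1⟩ := zpar E
  obtain ⟨m2, h2⟩ := u_avg (E + 2) (U' + 3)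
  obtain ⟨m3, h3⟩ := v_avg (E + 2) (U' + 3)
  obtain ⟨n4, h4⟩ := card_lower (m2 + m3 + 1)
  obtain ⟨n5, h5⟩ := Filter.eventually_atTop.1 (ev_log (4 * k + 11) (s := 1) (by norm_num)
    ((4 : ℝ) ^ (E + 2) + 4 ^ (U' + 3) + k + 10))
  refine ⟨n1 + n4 + n5 + 1, fun N hN z hz q hq a w hw S hS u B hB => ?_⟩
  obtain ⟨hL10, hzlo, hzhi, hV⟩ := h1 N (by omega)
  obtain ⟨hLbig, hLN⟩ := h5 N (by omega)
  rw [← hz] at hzlo hzhi hV
  obtain ⟨L, hL⟩ : ∃ L, L = Real.log N := ⟨_, rfl⟩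
  rw [← hL] at hL10 hzlo hzhi hV hLbig hLN ⊢
  have hN0 : (0 : ℝ) < N := by exact_mod_cast (by omega : 0 < N)
  have hN1 : (1 : ℝ) ≤ N := by exact_mod_cast (by omega : 1 ≤ N)
  rw [Real.rpow_one] at hLN
  have hL0 : 0 < L := by linarith
  have hL1 : 1 ≤ L := by linarith
  have hE1 : (0 : ℝ) < 4 ^ (E + 2) := by positivity
  have hE2 : (0 : ℝ) < 4 ^ (U' + 3) := by positivity
  have hk0 : (0 : ℝ) ≤ k := Nat.cast_nonneg k
  have hVz := inv_pos.2 (Vz_pos z)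
  have hcard := fun i => h4 N (by omega) (q i) (hq i).1 (hq i).2 (a i)
  rw [← hL] at hcard
  have hz1 : 1 ≤ z := by
    have : (1 : ℝ) ≤ z := le_trans (one_le_pow₀ hL1) hzlo
    exact_mod_cast this
  have hlogc : ∀ i, L / 4 ≤ Real.log (Hc N (q i) (a i)).card := fun i => (hcard i).2
  have hzc : ∀ i, (z : ℝ) ≤ Real.log (Hc N (q i) (a i)).card ^ (E + 2) := by
    intro i
    have e1 : L ^ (E + 1) ≤ (L / 4) ^ (E + 2) := by
      rw [div_pow, le_div_iff₀ hE1, pow_succ L (E + 1)]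
      gcongr
      linarith
    exact hzhi.trans (e1.trans (pow_le_pow_left₀ (by linarith) (hlogc i) _))
  -- the error
  obtain ⟨e, he⟩ : ∃ e : ℝ, e = 1 / L ^ U' := ⟨_, rfl⟩
  have he0 : 0 ≤ e := by rw [he]; positivity
  have he1 : e ≤ 1 := by
    rw [he, div_le_one (by positivity)]
    exact one_le_pow₀ hL1
  have herr : ∀ i, ((Vz z)⁻¹ ^ 2) / Real.log (Hc N (q i) (a i)).card ^ (U' + 3) ≤ e := by
    intro i
    have e1 : (L / 4) ^ (U' + 3) ≤ Real.log (Hc N (q i) (a i)).card ^ (U' + 3) :=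
      pow_le_pow_left₀ (by linarith) (hlogc i) _
    have e2 : (Vz z)⁻¹ ^ 2 ≤ L ^ 2 := pow_le_pow_left₀ hVz.le hV 2
    calc ((Vz z)⁻¹ ^ 2) / Real.log (Hc N (q i) (a i)).card ^ (U' + 3) ≤ L ^ 2 / (L / 4) ^ (U' + 3) :=
          div_le_div₀ (by positivity) e2 (by positivity) e1
      _ = L ^ 2 * 4 ^ (U' + 3) / L ^ (U' + 3) := by rw [div_pow]; field_simp
      _ ≤ L ^ 2 * L / L ^ (U' + 3) := by
          gcongr
          linarith
      _ = e := by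
          rw [he, pow_add]
          field_simp
  have hV1 : 1 ≤ (Vz z)⁻¹ := (Qz_bd z 1).1.trans (Qz_bd z 1).2
  have herr1 : ∀ i, ((Vz z)⁻¹) / Real.log (Hc N (q i) (a i)).card ^ (U' + 3) ≤ e := by
    intro i
    refine le_trans ?_ (herr i)
    have : 0 < Real.log (Hc N (q i) (a i)).card := by linarith [hlogc i]
    gcongr
    nlinarith
  obtain ⟨K, hK⟩ : ∃ K, K = L ^ 4 := ⟨_, rfl⟩
  have hK1 : 1 ≤ K := by rw [hK]; exact one_le_pow₀ hL1
  obtain ⟨S', hS'⟩ : ∃ S', S' = S.filter (fun s => ∀ i, Gd z (q i) (a i) (u i s)) := ⟨_, rfl⟩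
  rw [← hS']
  have hSS : S' ⊆ S := by rw [hS']; exact filter_subset _ _
  have hgd : ∀ s ∈ S', ∀ i, Gd z (q i) (a i) (u i s) := fun s hs => by
    rw [hS', mem_filter] at hs
    exact hs.2
  have hsum : ∀ h ∈ Fintype.piFinset (fun i => Hc N (q i) (a i)), ∑ s ∈ S, ∏ i, ex (lamz z) (h i) (u i s) =
      ∑ s ∈ S', ∏ i, ex (lamz z) (h i) (u i s) := by
    intro h hh
    symm
    refine sum_subset hSS fun s hs hs' => ?_
    rw [hS', mem_filter, not_and] at hs'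
    have := hs' hs
    push Not at this
    obtain ⟨i, hi⟩ := this
    exact prod_eq_zero (mem_univ i) (ex_cls (Fintype.mem_piFinset.1 hh i) hi)
  rw [sum_congr rfl fun h hh => by rw [hsum h hh]]
  have hmain := sec_momM (fun i => Hc N (q i) (a i)) S' (fun i h s => ex (lamz z) h (u i s)) (fun i => Qz z (q i))
    (fun i s t => Wz z (q i) ((u i s : ℤ) - u i t)) hK1 he0 (fun i => by have := (hcard i).1; omega)
    (fun i h s => (ex_lamz_bd z h (u i s)).1)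
    (fun i => ⟨by linarith [(Qz_bd z (q i)).1], by
      have := (Qz_bd z (q i)).2
      rw [hK]
      have h6 : L + 1 ≤ L ^ 4 := by nlinarith [sq_nonneg (L - 1), sq_nonneg L, mul_pos hL0 hL0]
      linarith⟩)
    (fun i s t => ⟨by linarith [(Wz_bd z (q i) ((u i s : ℤ) - u i t)).1], by
      have e1 := (Qz_bd z (q i)).2
      have e2 := (Wz_bd z (q i) ((u i s : ℤ) - u i t)).2
      have e3 : Qz z (q i) ^ 2 * Wz z (q i) ((u i s : ℤ) - u i t) ≤ L ^ 2 * L := by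
        have e4 := (Qz_bd z (q i)).1
        have e5 := (Wz_bd z (q i) ((u i s : ℤ) - u i t)).1
        gcongr
        · linarith
        · linarith
      have e6 : L ^ 2 * L + 1 ≤ L ^ 4 := by
        have : 1 ≤ L ^ 2 * L := by
          have := one_le_pow₀ (n := 3) hL1
          nlinarith
        nlinarith
      rw [hK]
      linarith⟩)
    (fun i s hs => by
      have h6 := h2 N (q i) (hq i).1 (a i) (by have := (hcard i).1; omega) z hz1 (hzc i) (u i s) (hgd s hs i)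
      refine h6.trans ?_
      rw [mul_div_assoc]
      exact mul_le_mul_of_nonneg_left (herr1 i) (Nat.cast_nonneg _))
    (fun i s hs t ht => by
      have h6 := h3 N (q i) (hq i).1 (a i) (by have := (hcard i).1; omega) z hz1 (hzc i) (u i s) (u i t) (hgd s hs i)
        (hgd t (mem_of_mem_erase ht) i)
      refine h6.trans ?_
      rw [mul_div_assoc, ← mul_add]
      refine mul_le_mul_of_nonneg_left ?_ (Nat.cast_nonneg _)
      linarith [herr i])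
    (fun i s hs h hh => by
      obtain ⟨e1, e2⟩ := ex_lamz_bd z h (u i s)
      rw [hK]
      have e3 : ex (lamz z) h (u i s) ≤ L := e2.trans hV
      have e4 : ex (lamz z) h (u i s) * ex (lamz z) h (u i s) ≤ L * L := mul_le_mul e3 e3 e1 hL0.le
      have e5 : L * L ≤ L ^ 4 := by
        have : L ^ 2 ≤ L ^ 4 := pow_le_pow_right₀ hL1 (by norm_num)
        nlinarith
      linarith)
  refine hmain.trans (mul_le_mul_of_nonneg_left ?_ (prod_nonneg fun i _ => Nat.cast_nonneg _))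
  -- the pair sum
  obtain ⟨Θ, hΘ⟩ : ∃ Θ, Θ = ∏ i, Qz z (q i) := ⟨_, rfl⟩
  have hΘ1 : 0 ≤ Θ := by rw [hΘ]; exact prod_nonneg fun i _ => by linarith [(Qz_bd z (q i)).1]
  have hΘ2 : Θ ≤ L ^ k := by
    rw [hΘ]
    calc ∏ i, Qz z (q i) ≤ ∏ _i : Fin k, L := prod_le_prod (fun i _ => by linarith [(Qz_bd z (q i)).1])
          fun i _ => (Qz_bd z (q i)).2.trans hV
      _ = L ^ k := by rw [prod_const, card_univ, Fintype.card_fin]
  have hpt : ∀ s t : ℕ, ∏ i, Wz z (q i) ((u i s : ℤ) - u i t) - 1 ≤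
      ∑ i, (∏ p ∈ (pz z).filter (fun p : ℕ => w < p ∧ (p : ℤ) ∣ (u i s : ℤ) - u i t), ((1 - 1 / (p : ℝ))⁻¹) ^ k - 1) := by
    intro s t
    refine (prod_le_max hk _ fun i => (Wz_bd z (q i) ((u i s : ℤ) - u i t)).1).trans (sum_le_sum fun i _ => ?_)
    refine sub_le_sub_right ?_ 1
    rw [prod_pow]
    refine pow_le_pow_left₀ (by linarith [(Wz_bd z (q i) ((u i s : ℤ) - u i t)).1]) ?_ k
    unfold Wz
    refine prod_sub_le (fun p hp => ?_) _ fun p hp => one_le_fac (mem_pz.1 (mem_filter.1 hp).1).2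
    rw [mem_filter] at hp ⊢
    refine ⟨hp.1, ?_, hp.2.2⟩
    by_contra hc
    exact hp.2.1 (hw p (mem_pz.1 hp.1).2 (not_lt.1 hc) i)
  have hge1 : ∀ i, ∀ s t : ℕ, 1 ≤ ∏ p ∈ (pz z).filter (fun p : ℕ => w < p ∧ (p : ℤ) ∣ (u i s : ℤ) - u i t),
      ((1 - 1 / (p : ℝ))⁻¹) ^ k :=
    fun i s t => one_le_prod' _ fun p hp => one_le_pow₀ (one_le_fac (mem_pz.1 (mem_filter.1 hp).1).2)
  have hpair : ∑ s ∈ S', ∑ t ∈ S'.erase s, (∏ i, Wz z (q i) ((u i s : ℤ) - u i t) - 1) ≤ k * B := by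
    calc ∑ s ∈ S', ∑ t ∈ S'.erase s, (∏ i, Wz z (q i) ((u i s : ℤ) - u i t) - 1) ≤
        ∑ s ∈ S', ∑ t ∈ S'.erase s, ∑ i, (∏ p ∈ (pz z).filter (fun p : ℕ => w < p ∧ (p : ℤ) ∣ (u i s : ℤ) - u i t),
          ((1 - 1 / (p : ℝ))⁻¹) ^ k - 1) := sum_le_sum fun s _ => sum_le_sum fun t _ => hpt s t
      _ = ∑ i, ∑ s ∈ S', ∑ t ∈ S'.erase s, (∏ p ∈ (pz z).filter (fun p : ℕ => w < p ∧ (p : ℤ) ∣ (u i s : ℤ) - u i t),
          ((1 - 1 / (p : ℝ))⁻¹) ^ k - 1) := by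
          rw [sum_congr rfl fun s _ => sum_comm]
          rw [sum_comm]
      _ ≤ ∑ _i : Fin k, B := by
          refine sum_le_sum fun i _ => le_trans ?_ (hB i)
          calc ∑ s ∈ S', ∑ t ∈ S'.erase s, (∏ p ∈ (pz z).filter (fun p : ℕ => w < p ∧ (p : ℤ) ∣ (u i s : ℤ) - u i t),
                ((1 - 1 / (p : ℝ))⁻¹) ^ k - 1) ≤
              ∑ s ∈ S', ∑ t ∈ S.erase s, (∏ p ∈ (pz z).filter (fun p : ℕ => w < p ∧ (p : ℤ) ∣ (u i s : ℤ) - u i t),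
                ((1 - 1 / (p : ℝ))⁻¹) ^ k - 1) := by
                refine sum_le_sum fun s _ => ?_
                exact sum_le_sum_of_subset_of_nonneg (erase_subset_erase s hSS) fun t _ _ => by linarith [hge1 i s t]
            _ ≤ _ := sum_le_sum_of_subset_of_nonneg hSS fun s _ _ => sum_nonneg fun t _ => by linarith [hge1 i s t]
      _ = k * B := by rw [sum_const, nsmul_eq_mul, card_univ, Fintype.card_fin]
  rw [← hΘ]
  have hScard : (S'.card : ℝ) ≤ N := by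
    exact_mod_cast (card_le_card hSS).trans hS
  have hkL : (k : ℝ) ≤ L := by linarith
  have hErr : (k : ℝ) * K ^ k * e ≤ 1 / L ^ (k + 11) := by
    rw [he, hK, ← pow_mul]
    calc (k : ℝ) * L ^ (4 * k) * (1 / L ^ U') ≤ L * L ^ (4 * k) * (1 / L ^ U') := by gcongr
      _ = 1 / L ^ (k + 11) := by
          rw [hU', show 5 * k + 12 = (4 * k + 1) + (k + 11) by ring, pow_add L (4 * k + 1), pow_succ]
          field_simp
  have hErr0 : 0 ≤ (k : ℝ) * K ^ k * e := by positivity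
  have t1 : (S'.card : ℝ) * K ^ k ≤ (N : ℝ) ^ 2 / L ^ 11 := by
    rw [hK, ← pow_mul, le_div_iff₀ (by positivity)]
    calc (S'.card : ℝ) * L ^ (4 * k) * L ^ 11 = S'.card * L ^ (4 * k + 11) := by rw [pow_add]; ring
      _ ≤ N * N := by gcongr
      _ = (N : ℝ) ^ 2 := by ring
  have t2 : (S'.card : ℝ) ^ 2 * (k * K ^ k * e) ≤ (N : ℝ) ^ 2 / L ^ 11 := by
    calc (S'.card : ℝ) ^ 2 * (k * K ^ k * e) ≤ (N : ℝ) ^ 2 * (1 / L ^ (k + 11)) := by gcongr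
      _ ≤ (N : ℝ) ^ 2 * (1 / L ^ 11) := by
          have : L ^ 11 ≤ L ^ (k + 11) := pow_le_pow_right₀ hL1 (by omega)
          gcongr
      _ = _ := by ring
  have t3 : 2 * Θ * (S'.card : ℝ) ^ 2 * (k * K ^ k * e) ≤ 2 * ((N : ℝ) ^ 2 / L ^ 11) := by
    calc 2 * Θ * (S'.card : ℝ) ^ 2 * (k * K ^ k * e) ≤ 2 * L ^ k * (N : ℝ) ^ 2 * (1 / L ^ (k + 11)) := by gcongr
      _ = 2 * ((N : ℝ) ^ 2 / L ^ 11) := by
          rw [pow_add]
          field_simp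
  have t4 : 4 * ((N : ℝ) ^ 2 / L ^ 11) ≤ (N : ℝ) ^ 2 / L ^ 8 := by
    rw [show L ^ 11 = L ^ 8 * L ^ 3 by ring, ← div_div, ← mul_div_assoc, div_le_iff₀ (by positivity)]
    have h6 : (4 : ℝ) ≤ L ^ 3 := by nlinarith [sq_nonneg L, mul_pos hL0 hL0]
    have h7 : 0 ≤ (N : ℝ) ^ 2 / L ^ 8 := by positivity
    nlinarith
  have t5 : Θ ^ 2 * ∑ s ∈ S', ∑ t ∈ S'.erase s, (∏ i, Wz z (q i) ((u i s : ℤ) - u i t) - 1) ≤ Θ ^ 2 * (k * B) :=
    mul_le_mul_of_nonneg_left hpair (sq_nonneg _)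
  linarith

end Pool.Agent.H579.G
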