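import Pool.Agent.H579.G.Dns7

set_option autoImplicit false

/-! Prime shifts of dense sets of primes. -/

namespace Pool.Agent.H579.G

open Finset
open Pool.Agent.H373R2.T7
open Pool.Agent.Y614.GJ.Core (ev_log)

/-- a set whose differences are not divisible by many primes on average -/
def Thin (k : ℕ) (C₁ : ℝ) (N : ℕ) (S : Finset ℕ) : Prop :=
  ∀ z w : ℕ, (z : ℝ) * Real.log N ≤ Real.sqrt (Real.sqrt N) → 1 ≤ w →
    ∑ s ∈ S, ∑ t ∈ S.erase s, (∏ p ∈ (pz z).filter (fun p : ℕ => w < p ∧ (p : ℤ) ∣ (s : ℤ) - t),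
      ((1 - 1 / (p : ℝ))⁻¹) ^ k - 1) ≤ C₁ * (N / Real.log N) ^ 2 / w

/-- the good elements -/
noncomputable def cop {k : ℕ} (q : Fin k → ℕ) (a : Fin k → ℤ) (S : Finset ℕ) : Finset ℕ :=
  S.filter (fun s : ℕ => ∀ i, Int.gcd ((s : ℤ) + a i) (q i) = 1)

open Classical in
/-- prime shifts of sets like the primes -/
theorem dense (k : ℕ) (hk : 1 ≤ k) {C₁ : ℝ} (hC₁ : 0 < C₁) : ∃ C : ℝ, 0 < C ∧ ∀ ρ : ℝ, 0 < ρ →
    ∃ c : ℕ, ∀ A₀ : ℕ, ∃ N₀ : ℕ, ∀ N : ℕ, N₀ ≤ N →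
      ∃ D : Finset ℕ, (D.card : ℝ) ≤ Real.log N ^ c ∧ (∀ d ∈ D, Real.log N ^ A₀ < (d : ℝ)) ∧
      ∀ q : Fin k → ℕ, (∀ i, 1 ≤ q i ∧ (q i : ℝ) ≤ (N : ℝ) ^ (2 / 3 - ρ) ∧ ∀ d ∈ D, ¬ d ∣ q i) →
      ∀ w : ℕ, 1 ≤ w → (w : ℝ) ≤ Real.log N → (∀ p : ℕ, p.Prime → p ≤ w → ∀ i, p ∣ q i) → ∀ a : Fin k → ℤ,
      ∀ S : Finset ℕ, S ⊆ Icc 1 N → Thin k C₁ N S → ∀ η : ℝ, 0 < η → η ≤ 1 →
      ∀ T : Finset (Fin k → ℤ), (∀ h ∈ T, ∀ i, 1 ≤ h i ∧ h i ≤ N ∧ h i ≡ a i [ZMOD q i]) →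
        (∀ h ∈ T, η * (∏ i, Qf' (q i)) * (N / Real.log N) <
          |∑ s ∈ S, ∏ i, ex thp (h i) s - (∏ i, Qf' (q i)) * (cop q a S).card|) →
        (T.card : ℝ) ≤ C / (η ^ 2 * w) * ∏ i, ((N : ℝ) / q i) := by
  refine ⟨2 ^ k * (4 * C₁ + 4) + 1 + 2 ^ k, by positivity, fun ρ hρ => ?_⟩
  obtain ⟨c, hc⟩ := tup4 k hk hρ 3
  refine ⟨c, fun A₀ => ?_⟩
  obtain ⟨B, hB⟩ := hc A₀
  obtain ⟨n1, h1⟩ := hB (B + 4) (by omega)
  obtain ⟨n2, h2⟩ := sieve_mom k (B + 4)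
  obtain ⟨n3, h3⟩ := conv k (B + 4) (by omega)
  obtain ⟨n4, h4⟩ := zpar (B + 4)
  obtain ⟨n5, h5⟩ := Filter.eventually_atTop.1 (ev_log (B + 6) (s := 1 / 4) (by norm_num) 10)
  refine ⟨n1 + n2 + n3 + n4 + n5 + 1, fun N hN => ?_⟩
  obtain ⟨D, hD1, hD2, -, hD3⟩ := h1 N (by omega)
  refine ⟨D, hD1, hD2, fun q hq w hw1 hwL hwq a S hS hthin η hη0 hη1 T hT hT2 => ?_⟩
  obtain ⟨z, hz⟩ : ∃ z, z = ⌈Real.log N ^ (B + 4)⌉₊ := ⟨_, rfl⟩
  obtain ⟨hL10, hzlo, hzhi, hV⟩ := h4 N (by omega)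
  obtain ⟨-, hLN⟩ := h5 N (by omega)
  have hN0 : (0 : ℝ) < N := by exact_mod_cast (by omega : 0 < N)
  have hN1 : (1 : ℝ) ≤ N := by exact_mod_cast (by omega : 1 ≤ N)
  have hL0 : 0 < Real.log N := by linarith
  have hL1 : 1 ≤ Real.log N := by linarith
  have hqN : ∀ i, 1 ≤ q i ∧ (q i : ℝ) ≤ (N : ℝ) ^ (2 / 3 : ℝ) := fun i =>
    ⟨(hq i).1, (hq i).2.1.trans (Real.rpow_le_rpow_of_exponent_le hN1 (by linarith))⟩
  have hqN1 : ∀ i, (q i : ℝ) ≤ N := fun i => by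
    refine (hqN i).2.trans ?_
    calc (N : ℝ) ^ (2 / 3 : ℝ) ≤ (N : ℝ) ^ (1 : ℝ) := Real.rpow_le_rpow_of_exponent_le hN1 (by norm_num)
      _ = N := Real.rpow_one _
  have hqN2 : ∀ i, 1 ≤ q i ∧ q i ≤ N := fun i => ⟨(hq i).1, by exact_mod_cast hqN1 i⟩
  have hw0 : (0 : ℝ) < w := by exact_mod_cast hw1
  have hq0 : ∀ i, (0 : ℝ) < q i := fun i => by exact_mod_cast (hq i).1
  obtain ⟨Pi, hPi⟩ : ∃ Pi : ℝ, Pi = ∏ i, ((N : ℝ) / q i) := ⟨_, rfl⟩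
  have hPi0 : 0 < Pi := by
    rw [hPi]
    exact prod_pos fun i _ => div_pos hN0 (hq0 i)
  -- the box
  obtain ⟨𝓑, h𝓑⟩ : ∃ 𝓑, 𝓑 = Fintype.piFinset (fun i => Hc N (q i) (a i)) := ⟨_, rfl⟩
  have hT𝓑 : T ⊆ 𝓑 := by
    intro h hh
    rw [h𝓑, Fintype.mem_piFinset]
    intro i
    obtain ⟨e1, e2, e3⟩ := hT h hh i
    unfold Hc
    exact mem_filter.2 ⟨mem_Icc.2 ⟨e1, e2⟩, e3⟩
  have hM : ∏ i, ((Hc N (q i) (a i)).card : ℝ) ≤ 2 ^ k * Pi := by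
    rw [hPi]
    calc ∏ i, ((Hc N (q i) (a i)).card : ℝ) ≤ ∏ i, (2 * ((N : ℝ) / q i)) := by
          refine prod_le_prod (fun i _ => Nat.cast_nonneg _) fun i _ => ?_
          obtain ⟨b, -, -, -, -, e1⟩ := cls_sum (N := N) (hq i).1 (a i)
          have e2 : 1 ≤ (N : ℝ) / q i := by
            rw [le_div_iff₀ (hq0 i), one_mul]
            exact hqN1 i
          linarith
      _ = _ := by rw [prod_mul_distrib, prod_const, card_univ, Fintype.card_fin]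
  by_cases hηw : η ^ 2 * w ≤ 1
  · -- trivial case
    have e1 : (T.card : ℝ) ≤ 2 ^ k * Pi := by
      refine le_trans ?_ hM
      have e2 := card_le_card hT𝓑
      rw [h𝓑, Fintype.card_piFinset] at e2
      exact_mod_cast e2
    have e3 : (2 : ℝ) ^ k * (4 * C₁ + 4) + 1 + 2 ^ k ≤ (2 ^ k * (4 * C₁ + 4) + 1 + 2 ^ k) / (η ^ 2 * w) := by
      rw [le_div_iff₀ (by positivity)]
      have : (0 : ℝ) ≤ 2 ^ k * (4 * C₁ + 4) + 1 + 2 ^ k := by positivity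
      nlinarith
    have e4 : (0 : ℝ) ≤ 2 ^ k * (4 * C₁ + 4) + 1 := by positivity
    rw [← hPi]
    calc (T.card : ℝ) ≤ 2 ^ k * Pi := e1
      _ ≤ (2 ^ k * (4 * C₁ + 4) + 1 + 2 ^ k) / (η ^ 2 * w) * Pi := mul_le_mul_of_nonneg_right (by linarith) hPi0.le
  rw [not_le] at hηw
  have hηL : 1 / Real.log N ≤ η := by
    rw [div_le_iff₀ hL0]
    have e1 : η ^ 2 * w ≤ η * Real.log N := by
      calc η ^ 2 * w = η * (η * w) := by ring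
        _ ≤ η * (1 * Real.log N) := by gcongr
        _ = _ := by ring
    linarith
  have hm2 := h2 N (by omega) z hz q hqN a w hwq S hS (C₁ * (N / Real.log N) ^ 2 / w) (hthin z w (by
    have e1 : Real.sqrt (Real.sqrt N) = (N : ℝ) ^ (1 / 4 : ℝ) := by
      rw [Real.sqrt_eq_rpow, Real.sqrt_eq_rpow, ← Real.rpow_mul hN0.le]
      norm_num
    rw [e1, hz]
    calc ((⌈Real.log N ^ (B + 4)⌉₊ : ℕ) : ℝ) * Real.log N ≤ Real.log N ^ (B + 4 + 1) * Real.log N := by gcongr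
      _ = Real.log N ^ (B + 6) := by ring
      _ ≤ _ := hLN) hw1)
  obtain ⟨hΘ1, hΘ2, hΘ3⟩ := h3 N (by omega) z hz q hqN2 a S hS
  obtain ⟨hmain, -⟩ := hD3 q hq a
  rw [← hz] at hmain
  obtain ⟨Θ, hΘ⟩ : ∃ Θ, Θ = ∏ i, Qz z (q i) := ⟨_, rfl⟩
  obtain ⟨Θ', hΘ'⟩ : ∃ Θ', Θ' = ∏ i, Qf' (q i) := ⟨_, rfl⟩
  obtain ⟨S1, hS1⟩ : ∃ S1, S1 = S.filter (fun s => ∀ i, Gd z (q i) (a i) s) := ⟨_, rfl⟩
  have hcop : cop q a S = S.filter (fun s : ℕ => ∀ i, Int.gcd ((s : ℤ) + a i) (q i) = 1) := rfl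
  rw [← hcop] at hΘ3
  rw [← hΘ, ← hS1, ← h𝓑] at hm2
  rw [← hΘ, ← hΘ'] at hΘ1
  rw [← hΘ] at hΘ2
  rw [← hΘ, ← hS1, ← hΘ'] at hΘ3
  rw [← hΘ'] at hT2
  rw [← hPi]
  obtain ⟨X, hX⟩ : ∃ X, X = (N : ℝ) / Real.log N := ⟨_, rfl⟩
  have hX0 : 0 < X := by rw [hX]; positivity
  rw [← hX] at hT2 hm2
  obtain ⟨T1, hT1⟩ : ∃ T1, T1 = T.filter (fun h => N / Real.log N ^ 3 <
    |∑ n ∈ S, (1 : ℝ) * (∏ i, ex thp (h i) n - ∏ i, ex (lamz z) (h i) n)|) := ⟨_, rfl⟩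
  obtain ⟨T2, hT2d⟩ : ∃ T2, T2 = 𝓑.filter (fun h => η / 2 * Θ * X <
    |∑ s ∈ S, ∏ i, ex (lamz z) (h i) s - Θ * S1.card|) := ⟨_, rfl⟩
  have hsub : T ⊆ T1 ∪ T2 := by
    intro h hh
    by_contra hcon
    rw [mem_union, not_or, hT1, hT2d, mem_filter, mem_filter, not_and, not_and] at hcon
    have c1 := not_lt.1 (hcon.1 hh)
    have c2 := not_lt.1 (hcon.2 (hT𝓑 hh))
    have c3 := hT2 h hh
    have e1 : ∑ n ∈ S, (1 : ℝ) * (∏ i, ex thp (h i) n - ∏ i, ex (lamz z) (h i) n) =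
        ∑ n ∈ S, ∏ i, ex thp (h i) n - ∑ n ∈ S, ∏ i, ex (lamz z) (h i) n := by
      rw [← sum_sub_distrib]
      exact sum_congr rfl fun n _ => one_mul _
    rw [e1] at c1
    have e2 : (N : ℝ) / Real.log N ^ 3 ≤ η / 4 * Θ' * X := by
      have e3 : (N : ℝ) / Real.log N ^ 3 ≤ (1 / Real.log N) / 4 * 1 * X := by
        rw [hX]
        have e4 : (1 / Real.log N) / 4 * 1 * ((N : ℝ) / Real.log N) = N / (4 * Real.log N ^ 2) := by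
          field_simp
        rw [e4]
        refine div_le_div_of_nonneg_left hN0.le (by positivity) ?_
        have : Real.log N ^ 3 = Real.log N * Real.log N ^ 2 := by ring
        rw [this]
        have h6 : 0 < Real.log N ^ 2 := by positivity
        nlinarith
      refine e3.trans ?_
      have : 1 ≤ Θ' := by linarith
      gcongr
    have e5 : Θ' * (N / (4 * Real.log N ^ 2)) ≤ η / 4 * Θ' * X := by
      rw [hX]
      have e6 : Θ' * (N / (4 * Real.log N ^ 2)) = (1 / Real.log N) / 4 * Θ' * (N / Real.log N) := by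
        field_simp
      rw [e6]
      have : 0 ≤ Θ' := by linarith
      gcongr
    have e7 : η / 2 * Θ * X ≤ η / 2 * Θ' * X := by gcongr
    have e8 : |∑ s ∈ S, ∏ i, ex thp (h i) s - Θ' * (cop q a S).card| ≤ η * Θ' * X := by
      have e9 : ∑ s ∈ S, ∏ i, ex thp (h i) s - Θ' * (cop q a S).card =
          (∑ n ∈ S, ∏ i, ex thp (h i) n - ∑ n ∈ S, ∏ i, ex (lamz z) (h i) n) +
          (∑ s ∈ S, ∏ i, ex (lamz z) (h i) s - Θ * S1.card) +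
          (Θ * S1.card - Θ' * (cop q a S).card) := by ring
      rw [e9]
      refine (abs_add_le _ _).trans ?_
      have e10 := abs_add_le (∑ n ∈ S, ∏ i, ex thp (h i) n - ∑ n ∈ S, ∏ i, ex (lamz z) (h i) n)
        (∑ s ∈ S, ∏ i, ex (lamz z) (h i) s - Θ * S1.card)
      linarith
    linarith
  have hc1 : (T1.card : ℝ) ≤ Pi / Real.log N ^ 3 := by
    rw [hPi]
    refine hmain S hS (fun _ => 1) (fun n _ => by rw [abs_one]) T1 (fun h hh i => ?_) (fun h hh => ?_)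
    · rw [hT1, mem_filter] at hh
      obtain ⟨e1, e2, e3⟩ := hT h hh.1 i
      refine ⟨?_, e3⟩
      rw [abs_of_nonneg (by omega)]
      exact e2
    · rw [hT1, mem_filter] at hh
      exact hh.2
  have hc2 : (T2.card : ℝ) ≤ 2 ^ k * Pi * ((4 * C₁ + 4) / (η ^ 2 * w)) := by
    have e1 : (T2.card : ℝ) * (η / 2 * Θ * X) ^ 2 ≤
        ∑ h ∈ 𝓑, (∑ s ∈ S, ∏ i, ex (lamz z) (h i) s - Θ * S1.card) ^ 2 := by
      rw [← nsmul_eq_mul, ← sum_const]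
      refine le_trans (sum_le_sum fun h hh => ?_) (sum_le_sum_of_subset_of_nonneg (s := T2)
        (by rw [hT2d]; exact filter_subset _ _) fun _ _ _ => sq_nonneg _)
      rw [hT2d, mem_filter] at hh
      rw [← sq_abs (∑ s ∈ S, ∏ i, ex (lamz z) (h i) s - Θ * S1.card)]
      exact pow_le_pow_left₀ (by positivity) hh.2.le 2
    have e2 : Θ ^ 2 * (C₁ * X ^ 2 / w) + (N : ℝ) ^ 2 / Real.log N ^ 8 ≤ (C₁ + 1) * Θ ^ 2 * X ^ 2 / w := by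
      have e3 : (N : ℝ) ^ 2 / Real.log N ^ 8 ≤ Θ ^ 2 * X ^ 2 / w := by
        calc (N : ℝ) ^ 2 / Real.log N ^ 8 ≤ (N : ℝ) ^ 2 / Real.log N ^ 3 :=
              div_le_div_of_nonneg_left (by positivity) (by positivity) (pow_le_pow_right₀ hL1 (by norm_num))
          _ = 1 ^ 2 * X ^ 2 / Real.log N := by
              rw [hX]
              field_simp
          _ ≤ Θ ^ 2 * X ^ 2 / w := by gcongr
      calc Θ ^ 2 * (C₁ * X ^ 2 / w) + (N : ℝ) ^ 2 / Real.log N ^ 8 ≤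
          Θ ^ 2 * (C₁ * X ^ 2 / w) + Θ ^ 2 * X ^ 2 / w := by linarith
        _ = _ := by ring
    have e4 : (T2.card : ℝ) * (η / 2 * Θ * X) ^ 2 ≤ 2 ^ k * Pi * ((C₁ + 1) * Θ ^ 2 * X ^ 2 / w) := by
      refine e1.trans (hm2.trans ?_)
      refine mul_le_mul hM e2 ?_ (by positivity)
      positivity
    have e5 : 0 < (η / 2 * Θ * X) ^ 2 := by positivity
    rw [← le_div_iff₀ e5] at e4
    refine e4.trans (le_of_eq ?_)
    have : Θ ≠ 0 := by linarith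
    field_simp
    ring
  have hcard : (T.card : ℝ) ≤ T1.card + T2.card := by
    exact_mod_cast (card_le_card hsub).trans (card_union_le _ _)
  have e6 : Pi / Real.log N ^ 3 ≤ Pi * (1 / (η ^ 2 * w)) := by
    rw [mul_one_div]
    refine div_le_div_of_nonneg_left hPi0.le (by positivity) ?_
    calc η ^ 2 * w ≤ 1 ^ 2 * Real.log N := by gcongr
      _ ≤ Real.log N ^ 3 := by
          have := pow_le_pow_right₀ hL1 (show 1 ≤ 3 by norm_num)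
          rw [pow_one] at this
          linarith
  have e7 : 0 ≤ 2 ^ k * (1 / (η ^ 2 * w)) * Pi := by positivity
  calc (T.card : ℝ) ≤ Pi * (1 / (η ^ 2 * w)) + 2 ^ k * Pi * ((4 * C₁ + 4) / (η ^ 2 * w)) +
        2 ^ k * (1 / (η ^ 2 * w)) * Pi := by linarith
    _ = _ := by ring

end Pool.Agent.H579.G
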