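import Pool.Agent.H579.G.Near

set_option autoImplicit false

/-! Tuples of primes: the asymptotic formula for almost all tuples of shifts in given residue classes. -/

namespace Pool.Agent.H579.G

open Finset
open Pool.Agent.H373R2.T7
open Pool.Agent.Y614.GJ.Core (ev_log)

/-- the sum of the products of the logarithms over the prime tuples -/
noncomputable def wsum {k : ℕ} (N : ℕ) (h : Fin k → ℤ) : ℝ := ∑ n ∈ Icc 1 N, thp n * ∏ i, ex thp (h i) n

/-- prime tuples with the weights -/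
theorem tupP (k : ℕ) (hk : 1 ≤ k) {ρ : ℝ} (hρ : 0 < ρ) (A : ℕ) :
    ∃ c : ℕ, ∀ A₀ : ℕ, ∃ N₀ : ℕ, ∀ N : ℕ, N₀ ≤ N →
      ∃ D : Finset ℕ, (D.card : ℝ) ≤ Real.log N ^ c ∧ (∀ d ∈ D, Real.log N ^ A₀ < (d : ℝ)) ∧
      ∀ q : Fin k → ℕ, (∀ i, 1 ≤ q i ∧ (q i : ℝ) ≤ (N : ℝ) ^ (2 / 3 - ρ) ∧ ∀ d ∈ D, ¬ d ∣ q i) → ∀ a : Fin k → ℤ,
      ∀ T : Finset (Fin k → ℤ), (∀ h ∈ T, Function.Injective h ∧ ∀ i, 0 < h i ∧ h i ≤ N ∧ h i ≡ a i [ZMOD q i]) →
        (∀ h ∈ T, N / Real.log N ^ A < |wsum N h - sing (fun _ => 1) (cons0 h) * N|) →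
        (T.card : ℝ) ≤ (∏ i, ((N : ℝ) / q i)) / Real.log N ^ A := by
  classical
  obtain ⟨c, hc⟩ := tup4 k hk hρ (A + 2)
  obtain ⟨B₂, hB₂⟩ := prime_main k hk (A + 1)
  refine ⟨c, fun A₀ => ?_⟩
  obtain ⟨B, hB⟩ := hc A₀
  obtain ⟨n1, h1⟩ := hB (B + B₂) (by omega)
  obtain ⟨n2, h2⟩ := hB₂ (B + B₂ + 1)
  obtain ⟨n3, h3⟩ := zpar (B + B₂)
  refine ⟨n1 + n2 + n3 + 1, fun N hN => ?_⟩
  obtain ⟨D, hD1, hD2, -, hD3⟩ := h1 N (by omega)
  obtain ⟨hL10, hzlo, hzhi, hV⟩ := h3 N (by omega)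
  have hN1 : 1 ≤ N := by omega
  have hN0 : (0 : ℝ) < N := by exact_mod_cast hN1
  refine ⟨D, hD1, hD2, fun q hq a T hT hT2 => ?_⟩
  obtain ⟨hD4, -⟩ := hD3 q hq a
  obtain ⟨z, hz⟩ : ∃ z, z = ⌈Real.log N ^ (B + B₂)⌉₊ := ⟨_, rfl⟩
  rw [← hz] at hD4 hzlo hzhi
  have hL0 : 0 < Real.log N := by linarith
  have hL1 : 1 ≤ Real.log N := by linarith
  have hPr : 0 ≤ ∏ i : Fin k, ((N : ℝ) / q i) := prod_nonneg fun i _ => by positivity
  refine (hD4 (Icc 1 N) (Subset.refl _) (fun n => thp n / (2 * Real.log N)) (fun n hn => ?_) T (fun h hh i => ?_)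
    (fun h hh => ?_)).trans (div_le_div_of_nonneg_left hPr (by positivity) (pow_le_pow_right₀ hL1 (by omega)))
  · rw [mem_Icc] at hn
    rw [abs_div, abs_of_pos (show 0 < 2 * Real.log N by linarith), div_le_one (by linarith)]
    exact thp_le (by linarith) (by omega)
  · obtain ⟨e1, e2, e3⟩ := (hT h hh).2 i
    exact ⟨abs_le.2 ⟨by linarith, e2⟩, e3⟩
  · obtain ⟨hinj, hh0⟩ := hT h hh
    have e1 := hT2 h hh
    have e2 := h2 N (by omega) z ((pow_le_pow_right₀ hL1 (by omega)).trans hzlo) hzhi h hinj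
      (fun i => ⟨(hh0 i).1, (hh0 i).2.1⟩)
    unfold wsum at e1
    have e3 : ∑ n ∈ Icc 1 N, thp n / (2 * Real.log N) * (∏ i, ex thp (h i) n - ∏ i, ex (lamz z) (h i) n) =
        (∑ n ∈ Icc 1 N, thp n * ∏ i, ex thp (h i) n - ∑ n ∈ Icc 1 N, thp n * ∏ i, ex (lamz z) (h i) n) /
          (2 * Real.log N) := by
      rw [← sum_sub_distrib, sum_div]
      refine sum_congr rfl fun n _ => ?_
      ring
    rw [e3, abs_div, abs_of_pos (show 0 < 2 * Real.log N by linarith), lt_div_iff₀ (by linarith)]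
    have e4 := abs_sub_le (∑ n ∈ Icc 1 N, thp n * ∏ i, ex thp (h i) n)
      (∑ n ∈ Icc 1 N, thp n * ∏ i, ex (lamz z) (h i) n) (sing (fun _ => 1) (cons0 h) * N)
    have e5 : (N : ℝ) / Real.log N ^ (A + 2) * (2 * Real.log N) + N / Real.log N ^ (A + 1) ≤ N / Real.log N ^ A := by
      calc (N : ℝ) / Real.log N ^ (A + 2) * (2 * Real.log N) + N / Real.log N ^ (A + 1) =
          N / Real.log N ^ A * (3 / Real.log N) := by
            rw [pow_add, pow_add]
            field_simp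
            ring
        _ ≤ N / Real.log N ^ A * 1 := by
            refine mul_le_mul_of_nonneg_left ?_ (by positivity)
            rw [div_le_one hL0]
            linarith
        _ = _ := mul_one _
    linarith

/-- the number of the primes `p ≤ N` with all `p + h i` prime -/
noncomputable def cntP {k : ℕ} (N : ℕ) (h : Fin k → ℤ) : ℕ := by
  classical
  exact ((Icc 1 N).filter (fun n => n.Prime ∧ ∀ i, PrP (h i) n)).card

lemma ex_thp_prime {n : ℕ} {h : ℤ} (hp : PrP h n) : ex thp h n = Real.log ((n : ℤ) + h).toNat := by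
  obtain ⟨p, hp, he⟩ := hp
  unfold ex thp
  have e : ((n : ℤ) + h).toNat = p := by omega
  have := hp.pos
  rw [if_pos (by omega), e, if_pos hp]

lemma ex_thp_not {n : ℕ} {h : ℤ} (hp : ¬ PrP h n) : ex thp h n = 0 := by
  unfold ex thp
  by_cases h1 : 0 < (n : ℤ) + h
  · rw [if_pos h1, if_neg]
    intro h2
    exact hp ⟨_, h2, by omega⟩
  · rw [if_neg h1]

lemma wsum_eq {k : ℕ} (N : ℕ) (h : Fin k → ℤ) [DecidablePred fun n : ℕ => n.Prime ∧ ∀ i, PrP (h i) n] :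
    wsum N h = ∑ n ∈ (Icc 1 N).filter (fun n : ℕ => n.Prime ∧ ∀ i, PrP (h i) n),
      Real.log n * ∏ i, Real.log ((n : ℤ) + h i).toNat := by
  unfold wsum
  rw [sum_filter]
  refine sum_congr rfl fun n _ => ?_
  split_ifs with h1
  · have e1 : thp n = Real.log n := by
      unfold thp
      rw [if_pos h1.1]
    rw [e1]
    congr 1
    exact prod_congr rfl fun i _ => ex_thp_prime (h1.2 i)
  · rw [not_and_or] at h1
    rcases h1 with h1 | h1
    · have e1 : thp n = 0 := by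
        unfold thp
        rw [if_neg h1]
      rw [e1, zero_mul]
    · push Not at h1
      obtain ⟨i, hi⟩ := h1
      rw [prod_eq_zero (mem_univ i) (ex_thp_not hi), mul_zero]

lemma ev_ratio (m K : ℕ) {ε : ℝ} (hε : 0 < ε) : ∃ N₀ : ℕ, ∀ N : ℕ, N₀ ≤ N →
    10 ≤ Real.log N ∧ 1 ≤ Real.log N - K * Real.log (Real.log N) ∧
    (1 - ε) * (Real.log N + 1) ^ m ≤ Real.log N ^ m ∧
    Real.log N ^ m ≤ (1 + ε) * (Real.log N - K * Real.log (Real.log N)) ^ m := by
  have hLt : Filter.Tendsto (fun N : ℕ => Real.log (N : ℝ)) Filter.atTop Filter.atTop :=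
    Real.tendsto_log_atTop.comp tendsto_natCast_atTop_atTop
  have h1 : Filter.Tendsto (fun x : ℝ => (1 + 1 / x) ^ m) Filter.atTop (nhds 1) := by
    have : Filter.Tendsto (fun x : ℝ => 1 / x) Filter.atTop (nhds 0) := by
      simpa using tendsto_inv_atTop_zero (𝕜 := ℝ)
    simpa using (this.const_add 1).pow m
  have h0 : Filter.Tendsto (fun x : ℝ => Real.log x / x) Filter.atTop (nhds 0) :=
    Real.isLittleO_log_id_atTop.tendsto_div_nhds_zero
  have h2' : Filter.Tendsto (fun x : ℝ => 1 - K * (Real.log x / x)) Filter.atTop (nhds 1) := by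
    simpa using (h0.const_mul (K : ℝ)).const_sub 1
  have h2 : Filter.Tendsto (fun x : ℝ => (1 - K * (Real.log x / x)) ^ m) Filter.atTop (nhds 1) := by
    simpa using h2'.pow m
  have e1 : ∀ᶠ x : ℝ in Filter.atTop, (1 - ε) * (1 + 1 / x) ^ m < 1 := by
    have := h1.const_mul (1 - ε)
    refine this.eventually_lt_const ?_
    linarith
  have e2 : ∀ᶠ x : ℝ in Filter.atTop, 1 < (1 + ε) * (1 - K * (Real.log x / x)) ^ m := by
    have := h2.const_mul (1 + ε)
    refine this.eventually_const_lt ?_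
    linarith
  have e3 : ∀ᶠ x : ℝ in Filter.atTop, 1 / 2 < 1 - K * (Real.log x / x) := h2'.eventually_const_lt (by norm_num)
  have e4 : ∀ᶠ x : ℝ in Filter.atTop, (10 : ℝ) ≤ x := Filter.eventually_ge_atTop 10
  obtain ⟨N₀, hN₀⟩ := Filter.eventually_atTop.1 (hLt.eventually (e1.and (e2.and (e3.and e4))))
  refine ⟨N₀, fun N hN => ?_⟩
  obtain ⟨f1, f2, f3, f4⟩ := hN₀ N hN
  obtain ⟨L, hL⟩ : ∃ L, L = Real.log (N : ℝ) := ⟨_, rfl⟩
  rw [← hL] at f1 f2 f3 f4 ⊢
  have hL0 : 0 < L := by linarith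
  have e5 : L * (1 + 1 / L) = L + 1 := by field_simp
  have e6 : L * (1 - K * (Real.log L / L)) = L - K * Real.log L := by field_simp
  refine ⟨f4, ?_, ?_, ?_⟩
  · rw [← e6]
    nlinarith
  · rw [← e5, mul_pow]
    have : 0 < L ^ m := by positivity
    nlinarith
  · rw [← e6, mul_pow]
    have : 0 < L ^ m := by positivity
    nlinarith

/-- from the weights to the number -/
theorem cnt_of_wsum (k : ℕ) (A : ℕ) {ε : ℝ} (hε : 0 < ε) : ∃ N₀ : ℕ, ∀ N : ℕ, N₀ ≤ N → ∀ h : Fin k → ℤ,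
    (∀ i, 0 < h i ∧ h i ≤ N) → ∀ s : ℝ, 0 ≤ s → |wsum N h - s * N| ≤ N / Real.log N ^ (A + 2) →
    |(cntP N h : ℝ) - s * (N / Real.log N ^ (k + 1))| ≤ ε * (s * (N / Real.log N ^ (k + 1))) + N / Real.log N ^ A := by
  classical
  obtain ⟨n1, h1⟩ := ev_ratio (k + 1) (A + 1) hε
  refine ⟨n1 + 1, fun N hN h hh s hs hW => ?_⟩
  obtain ⟨f4, f3, f1, f2⟩ := h1 N (by omega)
  have hN1 : 1 ≤ N := by omega
  have hN0 : (0 : ℝ) < N := by exact_mod_cast hN1
  obtain ⟨C, hC⟩ : ∃ C : ℝ, C = (cntP N h : ℝ) := ⟨_, rfl⟩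
  have hC' : C = (((Icc 1 N).filter (fun n : ℕ => n.Prime ∧ ∀ i, PrP (h i) n)).card : ℝ) := by
    rw [hC]
    unfold cntP
    rfl
  have hC0 : 0 ≤ C := by rw [hC']; exact Nat.cast_nonneg _
  have hw := wsum_eq N h
  obtain ⟨W, hWd⟩ : ∃ W : ℝ, W = wsum N h := ⟨_, rfl⟩
  rw [← hWd] at hw hW
  rw [← hC]
  obtain ⟨L, hL⟩ : ∃ L, L = Real.log (N : ℝ) := ⟨_, rfl⟩
  have hpos : ∀ n ∈ (Icc 1 N).filter (fun n : ℕ => n.Prime ∧ ∀ i, PrP (h i) n),
      0 ≤ Real.log n ∧ ∀ i, Real.log n ≤ Real.log ((n : ℤ) + h i).toNat ∧ Real.log ((n : ℤ) + h i).toNat ≤ L + 1 := by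
    intro n hn
    rw [mem_filter, mem_Icc] at hn
    have hn0 : (0 : ℝ) < n := by exact_mod_cast hn.1.1
    refine ⟨Real.log_natCast_nonneg n, fun i => ⟨?_, ?_⟩⟩
    · refine Real.log_le_log hn0 ?_
      have := (hh i).1
      exact_mod_cast (by omega : n ≤ ((n : ℤ) + h i).toNat)
    · have e1 : ((((n : ℤ) + h i).toNat : ℕ) : ℝ) ≤ 2 * N := by
        have := (hh i).2
        exact_mod_cast (by omega : ((n : ℤ) + h i).toNat ≤ 2 * N)
      have e0 : (0 : ℝ) < (((n : ℤ) + h i).toNat : ℕ) := by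
        have := (hh i).1
        exact_mod_cast (by omega : 0 < ((n : ℤ) + h i).toNat)
      have e2 := Real.log_le_log e0 e1
      rw [Real.log_mul (by norm_num) hN0.ne', ← hL] at e2
      have := Real.log_two_lt_d9
      linarith
  rw [← hL] at f1 f2 f3 f4 hW ⊢
  have hL0 : 0 < L := by linarith
  have hL1 : 1 ≤ L := by linarith
  -- the upper bound for the weighted sum
  have hup : W ≤ (L + 1) ^ (k + 1) * C := by
    rw [hw, hC', mul_comm, ← nsmul_eq_mul]
    refine sum_le_card_nsmul _ _ _ fun n hn => ?_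
    obtain ⟨g1, g2⟩ := hpos n hn
    have g3 : Real.log n ≤ L + 1 := by
      rw [mem_filter, mem_Icc] at hn
      have := Real.log_le_log (by exact_mod_cast hn.1.1) (show (n : ℝ) ≤ N by exact_mod_cast hn.1.2)
      rw [← hL] at this
      linarith
    calc Real.log n * ∏ i, Real.log ((n : ℤ) + h i).toNat ≤ (L + 1) * (L + 1) ^ k := by
          refine mul_le_mul g3 ?_ (prod_nonneg fun i _ => g1.trans (g2 i).1) (by linarith)
          refine (prod_le_prod (fun i _ => g1.trans (g2 i).1) fun i _ => (g2 i).2).trans (le_of_eq ?_)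
          rw [prod_const, card_univ, Fintype.card_fin]
      _ = _ := by ring
  -- the lower bound
  obtain ⟨y, hy⟩ : ∃ y : ℝ, y = N / L ^ (A + 1) := ⟨_, rfl⟩
  have hy0 : 0 < y := by rw [hy]; positivity
  obtain ⟨L₁, hL₁⟩ : ∃ L₁, L₁ = L - ((A + 1 : ℕ) : ℝ) * Real.log L := ⟨_, rfl⟩
  rw [← hL₁] at f3 f2
  have hlogy : Real.log y = L₁ := by
    rw [hy, Real.log_div hN0.ne' (by positivity), Real.log_pow, ← hL, hL₁]
  have hL₁0 : 0 < L₁ := by linarith
  have hlow : L₁ ^ (k + 1) * (C - y) ≤ W := by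
    have k1 : (((Icc 1 N).filter (fun n : ℕ => n.Prime ∧ ∀ i, PrP (h i) n)).filter (fun n : ℕ => (n : ℝ) ≤ y)).card ≤
        ⌊y⌋₊ := by
      have : ((Icc 1 N).filter (fun n : ℕ => n.Prime ∧ ∀ i, PrP (h i) n)).filter (fun n : ℕ => (n : ℝ) ≤ y) ⊆
          Icc 1 ⌊y⌋₊ := by
        intro n hn
        rw [mem_filter, mem_filter, mem_Icc] at hn
        exact mem_Icc.2 ⟨hn.1.1.1, Nat.le_floor hn.2⟩
      have := card_le_card this
      rwa [Nat.card_Icc, Nat.add_sub_cancel] at this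
    have k2 : C - y ≤ ((((Icc 1 N).filter (fun n : ℕ => n.Prime ∧ ∀ i, PrP (h i) n)).filter
        (fun n : ℕ => ¬ (n : ℝ) ≤ y)).card : ℝ) := by
      have e1 := card_filter_add_card_filter_not (s := (Icc 1 N).filter (fun n : ℕ => n.Prime ∧ ∀ i, PrP (h i) n))
        (fun n : ℕ => (n : ℝ) ≤ y)
      have e2 : C = ((((Icc 1 N).filter (fun n : ℕ => n.Prime ∧ ∀ i, PrP (h i) n)).filter
          (fun n : ℕ => (n : ℝ) ≤ y)).card : ℝ) + ((((Icc 1 N).filter (fun n : ℕ => n.Prime ∧ ∀ i, PrP (h i) n)).filter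
          (fun n : ℕ => ¬ (n : ℝ) ≤ y)).card : ℝ) := by
        rw [hC', ← e1]
        push_cast
        rfl
      have e3 : ((((Icc 1 N).filter (fun n : ℕ => n.Prime ∧ ∀ i, PrP (h i) n)).filter
          (fun n : ℕ => (n : ℝ) ≤ y)).card : ℝ) ≤ y := by
        refine le_trans ?_ (Nat.floor_le hy0.le)
        exact_mod_cast k1
      linarith
    calc L₁ ^ (k + 1) * (C - y) ≤ L₁ ^ (k + 1) * ((((Icc 1 N).filter (fun n : ℕ => n.Prime ∧ ∀ i, PrP (h i) n)).filter
        (fun n : ℕ => ¬ (n : ℝ) ≤ y)).card : ℝ) := mul_le_mul_of_nonneg_left k2 (by positivity)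
      _ ≤ ∑ n ∈ ((Icc 1 N).filter (fun n : ℕ => n.Prime ∧ ∀ i, PrP (h i) n)).filter (fun n : ℕ => ¬ (n : ℝ) ≤ y),
          Real.log n * ∏ i, Real.log ((n : ℤ) + h i).toNat := by
          rw [mul_comm, ← nsmul_eq_mul]
          refine card_nsmul_le_sum _ _ _ fun n hn => ?_
          rw [mem_filter, not_le] at hn
          obtain ⟨g1, g2⟩ := hpos n hn.1
          have g3 : L₁ ≤ Real.log n := by
            rw [← hlogy]
            exact Real.log_le_log hy0 hn.2.le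
          calc L₁ ^ (k + 1) = L₁ * ∏ _i : Fin k, L₁ := by
                rw [prod_const, card_univ, Fintype.card_fin, pow_succ]
                ring
            _ ≤ _ := by
                refine mul_le_mul g3 ?_ (prod_nonneg fun i _ => hL₁0.le) g1
                exact prod_le_prod (fun i _ => hL₁0.le) fun i _ => g3.trans (g2 i).1
      _ ≤ W := by
          rw [hw]
          refine sum_le_sum_of_subset_of_nonneg (filter_subset _ _) fun n hn _ => ?_
          obtain ⟨g1, g2⟩ := hpos n hn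
          exact mul_nonneg g1 (prod_nonneg fun i _ => g1.trans (g2 i).1)
  obtain ⟨hW1, hW2⟩ := abs_le.1 hW
  obtain ⟨X, hX⟩ : ∃ X : ℝ, X = s * (N / L ^ (k + 1)) := ⟨_, rfl⟩
  have hX0 : 0 ≤ X := by rw [hX]; positivity
  have hsN : s * N = X * L ^ (k + 1) := by
    rw [hX]
    field_simp
  rw [← hX]
  have hLk : 0 < L ^ (k + 1) := by positivity
  have hLk1 : 0 < (L + 1) ^ (k + 1) := by positivity
  have hLk2 : 0 < L₁ ^ (k + 1) := by positivity
  have hLk3 : 1 ≤ (L + 1) ^ (k + 1) := one_le_pow₀ (by linarith)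
  have hLk4 : 1 ≤ L₁ ^ (k + 1) := one_le_pow₀ f3
  obtain ⟨t, ht⟩ : ∃ t : ℝ, t = N / L ^ (A + 2) := ⟨_, rfl⟩
  have ht0 : 0 ≤ t := by rw [ht]; positivity
  rw [← ht] at hW1 hW2
  have htot : t + y ≤ N / L ^ A := by
    rw [ht, hy]
    calc (N : ℝ) / L ^ (A + 2) + N / L ^ (A + 1) = N / L ^ A * (1 / L ^ 2 + 1 / L) := by
          rw [pow_add, pow_add]
          field_simp
      _ ≤ N / L ^ A * 1 := by
          refine mul_le_mul_of_nonneg_left ?_ (by positivity)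
          have g1 : 1 / L ≤ 1 / 10 := one_div_le_one_div_of_le (by norm_num) f4
          have g2 : 1 / L ^ 2 ≤ 1 / 10 := one_div_le_one_div_of_le (by norm_num) (by nlinarith)
          linarith
      _ = _ := mul_one _
  rw [abs_le]
  constructor
  · -- lower bound of C
    have g1 : (1 - ε) * X - t ≤ C := by
      have g2 : X * L ^ (k + 1) - t ≤ (L + 1) ^ (k + 1) * C := by linarith
      have g3 : X * ((1 - ε) * (L + 1) ^ (k + 1)) ≤ X * L ^ (k + 1) := mul_le_mul_of_nonneg_left f1 hX0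
      have g4 : t ≤ t * (L + 1) ^ (k + 1) := le_mul_of_one_le_right ht0 hLk3
      have g5 : ((1 - ε) * X - t) * (L + 1) ^ (k + 1) ≤ C * (L + 1) ^ (k + 1) := by nlinarith
      exact le_of_mul_le_mul_right g5 hLk1
    linarith
  · have g1 : C ≤ (1 + ε) * X + t + y := by
      have g2 : L₁ ^ (k + 1) * (C - y) ≤ X * L ^ (k + 1) + t := by linarith
      have g3 : X * L ^ (k + 1) ≤ X * ((1 + ε) * L₁ ^ (k + 1)) := mul_le_mul_of_nonneg_left f2 hX0
      have g4 : t ≤ t * L₁ ^ (k + 1) := le_mul_of_one_le_right ht0 hLk4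
      have g5 : (C - y) * L₁ ^ (k + 1) ≤ ((1 + ε) * X + t) * L₁ ^ (k + 1) := by nlinarith
      have := le_of_mul_le_mul_right g5 hLk2
      linarith
    linarith

end Pool.Agent.H579.G
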