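import Pool.Agent.H579.G.Dns8
import Pool.Agent.H579.G.TupP

set_option autoImplicit false

/-! Prime shifts of dense sets of primes: numbers. -/

namespace Pool.Agent.H579.G

open Finset
open Pool.Agent.H373R2.T7
open Pool.Agent.Y614.GJ.Core (ev_log)

/-- the elements all of whose shifts are primes -/
noncomputable def prs {k : ℕ} (h : Fin k → ℤ) (S : Finset ℕ) : Finset ℕ := by
  classical
  exact S.filter (fun s => ∀ i, PrP (h i) s)

lemma sum_prs {k : ℕ} (h : Fin k → ℤ) (S : Finset ℕ) :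
    ∑ s ∈ S, ∏ i, ex thp (h i) s = ∑ s ∈ prs h S, ∏ i, Real.log ((s : ℤ) + h i).toNat := by
  classical
  unfold prs
  rw [sum_filter]
  refine sum_congr rfl fun n _ => ?_
  split_ifs with h1
  · exact prod_congr rfl fun i _ => ex_thp_prime (h1 i)
  · push Not at h1
    obtain ⟨i, hi⟩ := h1
    exact prod_eq_zero (mem_univ i) (ex_thp_not hi)

/-- a quantitative comparison of logarithms -/
lemma ev_ratio2 (m K : ℕ) (C : ℝ) : ∃ N₀ : ℕ, ∀ N : ℕ, N₀ ≤ N →
    16 ≤ Real.log N ∧ 1 ≤ Real.log N - K * Real.log (Real.log N) ∧ ∃ δ : ℝ, 0 ≤ δ ∧ δ ≤ 1 ∧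
    C * δ ≤ 1 / (4 * Real.sqrt (Real.log N)) ∧
    (1 - δ) * (Real.log N + 1) ^ m ≤ Real.log N ^ m ∧
    Real.log N ^ m ≤ (1 + δ) * (Real.log N - K * Real.log (Real.log N)) ^ m := by
  have hLt : Filter.Tendsto (fun N : ℕ => Real.log (N : ℝ)) Filter.atTop Filter.atTop :=
    Real.tendsto_log_atTop.comp tendsto_natCast_atTop_atTop
  have h0 : Filter.Tendsto (fun x : ℝ => Real.log x / x ^ (1 / 2 : ℝ)) Filter.atTop (nhds 0) :=
    (isLittleO_log_rpow_atTop (by norm_num : (0 : ℝ) < 1 / 2)).tendsto_div_nhds_zero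
  have h1 : Filter.Tendsto (fun x : ℝ => (2 * (m * K) * (|C| + 1) * 4) * (Real.log x / x ^ (1 / 2 : ℝ))) Filter.atTop (nhds 0) := by
    simpa using h0.const_mul (2 * (m * K) * (|C| + 1) * 4 : ℝ)
  have e1 : ∀ᶠ x : ℝ in Filter.atTop, (2 * (m * K) * (|C| + 1) * 4) * (Real.log x / x ^ (1 / 2 : ℝ)) < 1 / 2 :=
    h1.eventually_lt_const (by norm_num)
  have h2 : Filter.Tendsto (fun x : ℝ => (K : ℝ) * (Real.log x / x)) Filter.atTop (nhds 0) := by
    simpa using Real.isLittleO_log_id_atTop.tendsto_div_nhds_zero.const_mul (K : ℝ)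
  have e2 : ∀ᶠ x : ℝ in Filter.atTop, (K : ℝ) * (Real.log x / x) < 1 / 2 := h2.eventually_lt_const (by norm_num)
  have e3 : ∀ᶠ x : ℝ in Filter.atTop, (16 + (2 * m * (|C| + 1) * 8) ^ 2 : ℝ) ≤ x := Filter.eventually_ge_atTop _
  obtain ⟨N₀, hN₀⟩ := Filter.eventually_atTop.1 (hLt.eventually (e1.and (e2.and e3)))
  refine ⟨N₀, fun N hN => ?_⟩
  obtain ⟨f1, f2, f3⟩ := hN₀ N hN
  obtain ⟨L, hL⟩ : ∃ L, L = Real.log (N : ℝ) := ⟨_, rfl⟩
  rw [← hL] at f1 f2 f3 ⊢
  have hm0 : (0 : ℝ) ≤ m := Nat.cast_nonneg m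
  have hK0 : (0 : ℝ) ≤ K := Nat.cast_nonneg K
  have hC0 := abs_nonneg C
  have hL16 : 16 ≤ L := by nlinarith [sq_nonneg (2 * m * (|C| + 1) * 8 : ℝ)]
  have hL0 : 0 < L := by linarith
  have hsq : 0 < Real.sqrt L := Real.sqrt_pos.2 hL0
  have hsq2 : Real.sqrt L * Real.sqrt L = L := Real.mul_self_sqrt hL0.le
  have hlL : 0 ≤ Real.log L := Real.log_nonneg (by linarith)
  rw [← Real.sqrt_eq_rpow] at f1
  obtain ⟨x, hx⟩ : ∃ x, x = (m : ℝ) * K * (Real.log L / L) + m / L := ⟨_, rfl⟩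
  have hx0 : 0 ≤ x := by rw [hx]; positivity
  -- the bound for `x`
  have g1 : (|C| + 1) * (2 * x) ≤ 1 / (4 * Real.sqrt L) := by
    have k1 : (|C| + 1) * (2 * (m * K * (Real.log L / L))) ≤ 1 / 2 / (4 * Real.sqrt L) := by
      rw [le_div_iff₀ (by positivity)]
      have : (|C| + 1) * (2 * (m * K * (Real.log L / L))) * (4 * Real.sqrt L) =
          (2 * (m * K) * (|C| + 1) * 4) * (Real.log L / Real.sqrt L) := by
        have d1 : Real.log L / L = Real.log L / Real.sqrt L / Real.sqrt L := by rw [div_div, hsq2]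
        rw [d1]
        obtain ⟨y, hy⟩ : ∃ y, y = Real.sqrt L := ⟨_, rfl⟩
        rw [← hy] at hsq ⊢
        field_simp
      rw [this]
      exact f1.le
    have k2 : (|C| + 1) * (2 * (m / L)) ≤ 1 / 2 / (4 * Real.sqrt L) := by
      rw [le_div_iff₀ (by positivity)]
      have k3 : 2 * m * (|C| + 1) * 8 ≤ Real.sqrt L := by
        refine Real.le_sqrt_of_sq_le ?_
        linarith
      have k4 : (|C| + 1) * (2 * (m / L)) * (4 * Real.sqrt L) = (2 * m * (|C| + 1) * 8) / Real.sqrt L * (1 / 2) := by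
        have d1 : (m : ℝ) / L = m / Real.sqrt L / Real.sqrt L := by rw [div_div, hsq2]
        rw [d1]
        obtain ⟨y, hy⟩ : ∃ y, y = Real.sqrt L := ⟨_, rfl⟩
        rw [← hy] at hsq ⊢
        field_simp
        ring
      rw [k4]
      have k5 : (2 * m * (|C| + 1) * 8) / Real.sqrt L ≤ 1 := by
        rw [div_le_one hsq]
        exact k3
      linarith
    calc (|C| + 1) * (2 * x) = (|C| + 1) * (2 * (m * K * (Real.log L / L))) + (|C| + 1) * (2 * (m / L)) := by
          rw [hx]; ring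
      _ ≤ 1 / 2 / (4 * Real.sqrt L) + 1 / 2 / (4 * Real.sqrt L) := add_le_add k1 k2
      _ = _ := by ring
  have hs4 : 4 ≤ Real.sqrt L := by
    refine Real.le_sqrt_of_sq_le ?_
    linarith
  have g2 : 2 * x ≤ 1 / 2 := by
    have k1 : 2 * x ≤ (|C| + 1) * (2 * x) := by nlinarith
    have k2 : 1 / (4 * Real.sqrt L) ≤ 1 / 2 := one_div_le_one_div_of_le (by norm_num) (by linarith)
    linarith
  refine ⟨hL16, ?_, 2 * x, by linarith, by linarith, ?_, ?_, ?_⟩
  · have e6 : L * (1 - K * (Real.log L / L)) = L - K * Real.log L := by field_simp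
    rw [← e6]
    nlinarith
  · refine le_trans ?_ g1
    exact mul_le_mul_of_nonneg_right (by linarith [le_abs_self C]) (by linarith)
  · have e5 : (L + 1) ^ m = L ^ m * (1 + 1 / L) ^ m := by
      rw [← mul_pow]
      congr 1
      field_simp
    have e7 : (1 + 1 / L) ^ m ≤ Real.exp (m / L) := by
      have := Real.add_one_le_exp (1 / L)
      calc (1 + 1 / L) ^ m ≤ Real.exp (1 / L) ^ m := pow_le_pow_left₀ (by positivity) (by linarith) m
        _ = Real.exp (m / L) := by rw [← Real.exp_nat_mul]; congr 1; ring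
    have e8 : (m : ℝ) / L ≤ x := by rw [hx]; have : 0 ≤ (m : ℝ) * K * (Real.log L / L) := by positivity
                                    linarith
    have e9 : Real.exp (m / L) ≤ Real.exp x := Real.exp_le_exp.2 e8
    have e10 : (1 - 2 * x) * Real.exp x ≤ 1 := by
      have k1 := Real.add_one_le_exp (-x)
      have k2 : Real.exp x * Real.exp (-x) = 1 := by rw [← Real.exp_add]; simp
      have k3 := Real.exp_pos x
      have k4 : (1 - 2 * x) * Real.exp x ≤ Real.exp (-x) * Real.exp x :=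
        mul_le_mul_of_nonneg_right (by linarith) k3.le
      linarith
    rw [e5]
    have k5 : 0 < L ^ m := by positivity
    have k6 : (1 - 2 * x) * (1 + 1 / L) ^ m ≤ 1 :=
      (mul_le_mul_of_nonneg_left (e7.trans e9) (by linarith)).trans e10
    nlinarith
  · have e6 : L - K * Real.log L = L * (1 - K * (Real.log L / L)) := by field_simp
    rw [e6, mul_pow]
    have k1 : 1 - x ≤ (1 - K * (Real.log L / L)) ^ m := by
      have k2 := one_add_mul_le_pow (a := -(K * (Real.log L / L))) (by linarith) m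
      have k3 : 0 ≤ (m : ℝ) / L := by positivity
      have k4 : 1 + -(K * (Real.log L / L)) = 1 - K * (Real.log L / L) := by ring
      rw [k4] at k2
      rw [hx]
      linarith
    have k5 : 0 < L ^ m := by positivity
    have k6 : 1 ≤ (1 + 2 * x) * (1 - K * (Real.log L / L)) ^ m := by
      have k7 : (1 + 2 * x) * (1 - x) ≤ (1 + 2 * x) * (1 - K * (Real.log L / L)) ^ m :=
        mul_le_mul_of_nonneg_left k1 (by linarith)
      nlinarith
    calc L ^ m = 1 * L ^ m := (one_mul _).symm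
      _ ≤ ((1 + 2 * x) * (1 - K * (Real.log L / L)) ^ m) * L ^ m := mul_le_mul_of_nonneg_right k6 k5.le
      _ = _ := by ring

end Pool.Agent.H579.G
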