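import Pool.Agent.H579.G.Dms4

set_option autoImplicit false

/-! Prime shifts along several sequences: the counting form. -/

namespace Pool.Agent.H579.G

open Finset
open Pool.Agent.H373R2.T7

/-- the elements all of whose shifts are primes -/
noncomputable def prsM {k : ℕ} (h : Fin k → ℤ) (S : Finset ℕ) (u : Fin k → ℕ → ℕ) : Finset ℕ := by
  classical
  exact S.filter (fun s => ∀ i, PrP (h i) (u i s))

lemma sum_prsM {k : ℕ} (h : Fin k → ℤ) (S : Finset ℕ) (u : Fin k → ℕ → ℕ) :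
    ∑ s ∈ S, ∏ i, ex thp (h i) (u i s) = ∑ s ∈ prsM h S u, ∏ i, Real.log ((u i s : ℤ) + h i).toNat := by
  classical
  unfold prsM
  rw [sum_filter]
  refine sum_congr rfl fun n _ => ?_
  split_ifs with h1
  · exact prod_congr rfl fun i _ => ex_thp_prime (h1 i)
  · push Not at h1
    obtain ⟨i, hi⟩ := h1
    exact prod_eq_zero (mem_univ i) (ex_thp_not hi)

/-- from the weights to the number -/
lemma cnt_of_sumM (k : ℕ) {C₁ : ℝ} (hC₁ : 0 < C₁) : ∃ N₀ : ℕ, ∀ N : ℕ, N₀ ≤ N → ∀ h : Fin k → ℤ,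
    (∀ i, 1 ≤ h i ∧ h i ≤ N) → ∀ S : Finset ℕ, ∀ u : Fin k → ℕ → ℕ, (∀ i, ∀ s ∈ S, u i s ∈ Icc 1 N) →
    (∀ i, Set.InjOn (u i) S) → ∀ Θ c η : ℝ, 1 ≤ Θ → 0 ≤ c → c ≤ C₁ * (N / Real.log N) →
    1 / Real.sqrt (Real.log N) ≤ η → η ≤ 1 →
    |∑ s ∈ S, ∏ i, ex thp (h i) (u i s) - Θ * c| ≤ η / 4 * Θ * (N / Real.log N) →
    |((prsM h S u).card : ℝ) - Θ * (c / Real.log N ^ k)| ≤ η * Θ * (N / Real.log N ^ (k + 1)) := by
  classical
  obtain ⟨n1, h1⟩ := ev_ratio2 k (k + 3) C₁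
  obtain ⟨n2, h2⟩ := Filter.eventually_atTop.1 (Pool.Agent.Y614.GJ.Core.ev_log 1 (s := 1) (by norm_num) (k : ℝ))
  refine ⟨n1 + n2 + 1, fun N hN h hh S u hu1 hu2 Θ c η hΘ hc0 hc1 hη hη1 hF => ?_⟩
  obtain ⟨hL16, f3, δ, hδ0, hδ1, hCδ, f1, f2⟩ := h1 N (by omega)
  obtain ⟨hkL, -⟩ := h2 N (by omega)
  have hN0 : (0 : ℝ) < N := by exact_mod_cast (by omega : 0 < N)
  rw [sum_prsM] at hF
  obtain ⟨F, hFd⟩ : ∃ F, F = ∑ s ∈ prsM h S u, ∏ i, Real.log ((u i s : ℤ) + h i).toNat := ⟨_, rfl⟩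
  rw [← hFd] at hF
  obtain ⟨n, hn⟩ : ∃ n : ℝ, n = ((prsM h S u).card : ℝ) := ⟨_, rfl⟩
  have hn0 : 0 ≤ n := by rw [hn]; exact Nat.cast_nonneg _
  obtain ⟨L, hL⟩ : ∃ L, L = Real.log (N : ℝ) := ⟨_, rfl⟩
  have hpS : prsM h S u ⊆ S := by
    unfold prsM
    exact filter_subset _ _
  have hpos : ∀ s ∈ prsM h S u, ∀ i, Real.log (u i s) ≤ Real.log ((u i s : ℤ) + h i).toNat ∧
      0 ≤ Real.log ((u i s : ℤ) + h i).toNat ∧ Real.log ((u i s : ℤ) + h i).toNat ≤ L + 1 := by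
    intro s hs i
    have hs1 := mem_Icc.1 (hu1 i s (hpS hs))
    have hs0 : (0 : ℝ) < u i s := by exact_mod_cast hs1.1
    refine ⟨?_, Real.log_natCast_nonneg _, ?_⟩
    · refine Real.log_le_log hs0 ?_
      have := (hh i).1
      exact_mod_cast (by omega : u i s ≤ ((u i s : ℤ) + h i).toNat)
    · have e1 : ((((u i s : ℤ) + h i).toNat : ℕ) : ℝ) ≤ 2 * N := by
        have := (hh i).2
        exact_mod_cast (by omega : ((u i s : ℤ) + h i).toNat ≤ 2 * N)
      have e0 : (0 : ℝ) < (((u i s : ℤ) + h i).toNat : ℕ) := by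
        have := (hh i).1
        exact_mod_cast (by omega : 0 < ((u i s : ℤ) + h i).toNat)
      have e2 := Real.log_le_log e0 e1
      rw [Real.log_mul (by norm_num) hN0.ne', ← hL] at e2
      have := Real.log_two_lt_d9
      linarith
  rw [← hn]
  rw [← hL] at hL16 f3 hCδ f1 f2 hc1 hη hF hkL ⊢
  have hL0 : 0 < L := by linarith
  have hL1 : 1 ≤ L := by linarith
  have hsq : 0 < Real.sqrt L := Real.sqrt_pos.2 hL0
  have hη0 : 0 < η := lt_of_lt_of_le (by positivity) hη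
  have hk0 : (0 : ℝ) ≤ k := Nat.cast_nonneg k
  obtain ⟨X, hX⟩ : ∃ X, X = (N : ℝ) / L := ⟨_, rfl⟩
  have hX0 : 0 < X := by rw [hX]; positivity
  rw [← hX] at hc1 hF
  -- the upper bound for the weighted sum
  have hup : F ≤ (L + 1) ^ k * n := by
    rw [hFd, hn, mul_comm, ← nsmul_eq_mul]
    refine sum_le_card_nsmul _ _ _ fun s hs => ?_
    refine (prod_le_prod (fun i _ => (hpos s hs i).2.1) fun i _ => (hpos s hs i).2.2).trans (le_of_eq ?_)
    rw [prod_const, card_univ, Fintype.card_fin]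
  have hF0 : 0 ≤ F := by
    rw [hFd]
    exact sum_nonneg fun s hs => prod_nonneg fun i _ => (hpos s hs i).2.1
  -- the lower bound
  obtain ⟨y, hy⟩ : ∃ y : ℝ, y = N / L ^ (k + 3) := ⟨_, rfl⟩
  have hy0 : 0 < y := by rw [hy]; positivity
  obtain ⟨L₁, hL₁⟩ : ∃ L₁, L₁ = L - ((k + 3 : ℕ) : ℝ) * Real.log L := ⟨_, rfl⟩
  rw [← hL₁] at f3 f2
  have hlogy : Real.log y = L₁ := by
    rw [hy, Real.log_div hN0.ne' (by positivity), Real.log_pow, ← hL, hL₁]
  have hL₁0 : 0 < L₁ := by linarith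
  have hlow : L₁ ^ k * (n - k * y) ≤ F := by
    have k0 : ∀ i, (((prsM h S u).filter (fun s : ℕ => (u i s : ℝ) ≤ y)).card : ℝ) ≤ y := by
      intro i
      have k1 : ((prsM h S u).filter (fun s : ℕ => (u i s : ℝ) ≤ y)).card ≤ (Icc 1 ⌊y⌋₊).card := by
        refine card_le_card_of_injOn (u i) (fun s hs => ?_) (fun s hs t ht hst => ?_)
        · rw [mem_coe, mem_filter] at hs
          rw [mem_coe]
          exact mem_Icc.2 ⟨(mem_Icc.1 (hu1 i s (hpS hs.1))).1, Nat.le_floor hs.2⟩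
        · rw [mem_coe, mem_filter] at hs ht
          exact hu2 i (mem_coe.2 (hpS hs.1)) (mem_coe.2 (hpS ht.1)) hst
      rw [Nat.card_Icc, Nat.add_sub_cancel] at k1
      refine le_trans ?_ (Nat.floor_le hy0.le)
      exact_mod_cast k1
    have k1 : (((prsM h S u).filter (fun s : ℕ => ∃ i, (u i s : ℝ) ≤ y)).card : ℝ) ≤ k * y := by
      have e1 : (prsM h S u).filter (fun s : ℕ => ∃ i, (u i s : ℝ) ≤ y) ⊆
          (univ : Finset (Fin k)).biUnion (fun i => (prsM h S u).filter (fun s : ℕ => (u i s : ℝ) ≤ y)) := by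
        intro s hs
        rw [mem_filter] at hs
        obtain ⟨i, hi⟩ := hs.2
        exact mem_biUnion.2 ⟨i, mem_univ _, mem_filter.2 ⟨hs.1, hi⟩⟩
      calc (((prsM h S u).filter (fun s : ℕ => ∃ i, (u i s : ℝ) ≤ y)).card : ℝ) ≤
          ((∑ i : Fin k, ((prsM h S u).filter (fun s : ℕ => (u i s : ℝ) ≤ y)).card : ℕ) : ℝ) := by
            exact_mod_cast (card_le_card e1).trans card_biUnion_le
        _ ≤ ∑ _i : Fin k, y := by
            push_cast
            exact sum_le_sum fun i _ => k0 i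
        _ = k * y := by rw [sum_const, nsmul_eq_mul, card_univ, Fintype.card_fin]
    have k2 : n - k * y ≤ (((prsM h S u).filter (fun s : ℕ => ¬ ∃ i, (u i s : ℝ) ≤ y)).card : ℝ) := by
      have e1 := card_filter_add_card_filter_not (s := prsM h S u) (fun s : ℕ => ∃ i, (u i s : ℝ) ≤ y)
      have e2 : n = (((prsM h S u).filter (fun s : ℕ => ∃ i, (u i s : ℝ) ≤ y)).card : ℝ) +
          (((prsM h S u).filter (fun s : ℕ => ¬ ∃ i, (u i s : ℝ) ≤ y)).card : ℝ) := by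
        rw [hn, ← e1]
        push_cast
        rfl
      linarith
    calc L₁ ^ k * (n - k * y) ≤ L₁ ^ k * (((prsM h S u).filter (fun s : ℕ => ¬ ∃ i, (u i s : ℝ) ≤ y)).card : ℝ) :=
          mul_le_mul_of_nonneg_left k2 (by positivity)
      _ ≤ ∑ s ∈ (prsM h S u).filter (fun s : ℕ => ¬ ∃ i, (u i s : ℝ) ≤ y), ∏ i, Real.log ((u i s : ℤ) + h i).toNat := by
          rw [mul_comm, ← nsmul_eq_mul]
          refine card_nsmul_le_sum _ _ _ fun s hs => ?_
          rw [mem_filter] at hs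
          have hs2 := hs.2
          push Not at hs2
          calc L₁ ^ k = ∏ _i : Fin k, L₁ := by rw [prod_const, card_univ, Fintype.card_fin]
            _ ≤ _ := prod_le_prod (fun _ _ => hL₁0.le) fun i _ => by
                have e1 : L₁ ≤ Real.log (u i s) := by
                  rw [← hlogy]
                  exact Real.log_le_log hy0 (hs2 i).le
                exact e1.trans (hpos s hs.1 i).1
      _ ≤ F := by
          rw [hFd]
          exact sum_le_sum_of_subset_of_nonneg (filter_subset _ _) fun s hs _ =>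
            prod_nonneg fun i _ => (hpos s hs i).2.1
  -- comparison
  have hLk : 0 < L ^ k := by positivity
  have hyL : k * y * L ^ k ≤ η / 4 * (Θ * X) := by
    have e1 : k * y * L ^ k = (k / L) * (X / L) := by
      rw [hy, hX, pow_add]
      field_simp
    rw [e1]
    have e0 : (k : ℝ) / L ≤ 1 := by
      rw [div_le_one hL0]
      exact hkL
    have e2 : 1 / L ≤ η / 4 := by
      have e3 : 1 / L ≤ 1 / Real.sqrt L / 4 := by
        rw [div_div]
        refine one_div_le_one_div_of_le (by positivity) ?_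
        have e4 : 4 ≤ Real.sqrt L := Real.le_sqrt_of_sq_le (by linarith)
        calc Real.sqrt L * 4 ≤ Real.sqrt L * Real.sqrt L := by gcongr
          _ = L := Real.mul_self_sqrt hL0.le
      linarith
    calc (k / L) * (X / L) ≤ 1 * (X / L) := by gcongr
      _ = 1 / L * X := by ring
      _ ≤ η / 4 * X := by gcongr
      _ ≤ η / 4 * (Θ * X) := by
          refine mul_le_mul_of_nonneg_left ?_ (by linarith)
          nlinarith
  have hδc : δ * (Θ * c) ≤ η / 4 * (Θ * X) := by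
    have e1 : C₁ * δ ≤ η / 4 := by
      refine hCδ.trans ?_
      rw [mul_comm (4 : ℝ), ← div_div]
      linarith
    calc δ * (Θ * c) ≤ δ * (Θ * (C₁ * X)) := by gcongr
      _ = C₁ * δ * (Θ * X) := by ring
      _ ≤ η / 4 * (Θ * X) := by gcongr
  have hF1 := abs_le.1 hF
  have hΘX : 0 ≤ η / 4 * (Θ * X) := by positivity
  have hup2 : n * L ^ k - Θ * c ≤ η * (Θ * X) := by
    have e1 : (n - k * y) * L ^ k ≤ (1 + δ) * F := by
      by_cases hny : n - k * y ≤ 0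
      · have e2 : (n - k * y) * L ^ k ≤ 0 := mul_nonpos_of_nonpos_of_nonneg hny hLk.le
        have e3 : 0 ≤ (1 + δ) * F := by positivity
        linarith
      · rw [not_le] at hny
        calc (n - k * y) * L ^ k ≤ (n - k * y) * ((1 + δ) * L₁ ^ k) := mul_le_mul_of_nonneg_left f2 hny.le
          _ = (1 + δ) * (L₁ ^ k * (n - k * y)) := by ring
          _ ≤ (1 + δ) * F := mul_le_mul_of_nonneg_left hlow (by linarith)
    have e4 : F ≤ Θ * c + η / 4 * (Θ * X) := by linarith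
    have e5 : (1 + δ) * F ≤ (1 + δ) * (Θ * c + η / 4 * (Θ * X)) := mul_le_mul_of_nonneg_left e4 (by linarith)
    have e6 : δ * (η / 4 * (Θ * X)) ≤ 1 * (η / 4 * (Θ * X)) := mul_le_mul_of_nonneg_right hδ1 hΘX
    have e7 : (1 + δ) * (Θ * c + η / 4 * (Θ * X)) =
        Θ * c + η / 4 * (Θ * X) + δ * (Θ * c) + δ * (η / 4 * (Θ * X)) := by ring
    have e8 : n * L ^ k = (n - k * y) * L ^ k + k * y * L ^ k := by ring
    linarith
  have hlow2 : -(η * (Θ * X)) ≤ n * L ^ k - Θ * c := by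
    have e1 : (1 - δ) * F ≤ n * L ^ k := by
      calc (1 - δ) * F ≤ (1 - δ) * ((L + 1) ^ k * n) := mul_le_mul_of_nonneg_left hup (by linarith)
        _ = ((1 - δ) * (L + 1) ^ k) * n := by ring
        _ ≤ L ^ k * n := mul_le_mul_of_nonneg_right f1 hn0
        _ = _ := by ring
    have e4 : Θ * c - η / 4 * (Θ * X) ≤ F := by linarith
    have e5 : (1 - δ) * (Θ * c - η / 4 * (Θ * X)) ≤ (1 - δ) * F := mul_le_mul_of_nonneg_left e4 (by linarith)
    have e6 : 0 ≤ δ * (η / 4 * (Θ * X)) := mul_nonneg hδ0 hΘX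
    have e7 : (1 - δ) * (Θ * c - η / 4 * (Θ * X)) =
        Θ * c - η / 4 * (Θ * X) - δ * (Θ * c) + δ * (η / 4 * (Θ * X)) := by ring
    linarith
  have e1 : n - Θ * (c / L ^ k) = (n * L ^ k - Θ * c) / L ^ k := by field_simp
  have e2 : η * Θ * (N / L ^ (k + 1)) = η * (Θ * X) / L ^ k := by
    rw [hX, pow_succ]
    field_simp
  rw [e1, e2, abs_div, abs_of_pos hLk]
  refine div_le_div_of_nonneg_right ?_ hLk.le
  exact abs_le.2 ⟨hlow2, hup2⟩

/-- prime shifts along several sequences: numbers -/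
theorem dense_cntM (k : ℕ) (hk : 1 ≤ k) {C₁ : ℝ} (hC₁ : 0 < C₁) : ∃ C : ℝ, 0 < C ∧ ∀ ρ : ℝ, 0 < ρ →
    ∃ c : ℕ, ∀ A₀ : ℕ, ∃ N₀ : ℕ, ∀ N : ℕ, N₀ ≤ N →
      ∃ D : Finset ℕ, (D.card : ℝ) ≤ Real.log N ^ c ∧ (∀ d ∈ D, Real.log N ^ A₀ < (d : ℝ)) ∧
      ∀ q : Fin k → ℕ, (∀ i, 1 ≤ q i ∧ (q i : ℝ) ≤ (N : ℝ) ^ (2 / 3 - ρ) ∧ ∀ d ∈ D, ¬ d ∣ q i) →
      ∀ w : ℕ, 1 ≤ w → (w : ℝ) ≤ Real.log N → (∀ p : ℕ, p.Prime → p ≤ w → ∀ i, p ∣ q i) → ∀ a : Fin k → ℤ,
      ∀ S : Finset ℕ, (S.card : ℝ) ≤ C₁ * (N / Real.log N) → ∀ u : Fin k → ℕ → ℕ, (∀ i, ∀ s ∈ S, u i s ∈ Icc 1 N) →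
      (∀ i, Set.InjOn (u i) S) → ∀ b : ℕ, b ≤ w → (∀ i, GThin b k C₁ N S (u i)) → ∀ η : ℝ, 0 < η → η ≤ 1 →
      ∀ T : Finset (Fin k → ℤ), (∀ h ∈ T, ∀ i, 1 ≤ h i ∧ h i ≤ N ∧ h i ≡ a i [ZMOD q i]) →
        (∀ h ∈ T, η * (∏ i, Qf' (q i)) * (N / Real.log N ^ (k + 1)) <
          |((prsM h S u).card : ℝ) - (∏ i, Qf' (q i)) * ((copM q a S u).card / Real.log N ^ k)|) →
        (T.card : ℝ) ≤ C / (η ^ 2 * w) * ∏ i, ((N : ℝ) / q i) := by
  classical
  obtain ⟨C, hC, h1⟩ := denseM k hk hC₁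
  refine ⟨16 * C + 2 ^ k, by positivity, fun ρ hρ => ?_⟩
  obtain ⟨c, h2⟩ := h1 ρ hρ
  refine ⟨c, fun A₀ => ?_⟩
  obtain ⟨n1, h3⟩ := h2 A₀
  obtain ⟨n2, h4⟩ := cnt_of_sumM k hC₁
  refine ⟨n1 + n2 + 3, fun N hN => ?_⟩
  obtain ⟨D, hD1, hD2, hD3⟩ := h3 N (by omega)
  refine ⟨D, hD1, hD2, fun q hq w hw1 hwL hwq a S hcard u hu1 hu2 b hbw hthin η hη0 hη1 T hT hT2 => ?_⟩
  have hN0 : (0 : ℝ) < N := by exact_mod_cast (by omega : 0 < N)
  have hN1 : (1 : ℝ) ≤ N := by exact_mod_cast (by omega : 1 ≤ N)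
  have hw0 : (0 : ℝ) < w := by exact_mod_cast hw1
  have hL0 : 0 < Real.log N := by
    have : (1 : ℝ) ≤ w := by exact_mod_cast hw1
    linarith
  have hSN : S.card ≤ N := by
    have e1 : S.card ≤ (Icc 1 N).card :=
      card_le_card_of_injOn (u ⟨0, by omega⟩) (fun s hs => mem_coe.2 (hu1 _ s (mem_coe.1 hs))) (hu2 _)
    rwa [Nat.card_Icc, Nat.add_sub_cancel] at e1
  have hq0 : ∀ i, (0 : ℝ) < q i := fun i => by exact_mod_cast (hq i).1
  have hqN1 : ∀ i, (q i : ℝ) ≤ N := fun i => by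
    refine (hq i).2.1.trans ?_
    calc (N : ℝ) ^ (2 / 3 - ρ) ≤ (N : ℝ) ^ (1 : ℝ) := Real.rpow_le_rpow_of_exponent_le hN1 (by linarith)
      _ = N := Real.rpow_one _
  have hPi0 : 0 < ∏ i, ((N : ℝ) / q i) := prod_pos fun i _ => div_pos hN0 (hq0 i)
  by_cases hηw : η ^ 2 * w ≤ 1
  · have hT𝓑 : T ⊆ Fintype.piFinset (fun i => Hc N (q i) (a i)) := by
      intro h hh
      rw [Fintype.mem_piFinset]
      intro i
      obtain ⟨e1, e2, e3⟩ := hT h hh i
      unfold Hc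
      exact mem_filter.2 ⟨mem_Icc.2 ⟨e1, e2⟩, e3⟩
    have hM : ∏ i, ((Hc N (q i) (a i)).card : ℝ) ≤ 2 ^ k * ∏ i, ((N : ℝ) / q i) := by
      calc ∏ i, ((Hc N (q i) (a i)).card : ℝ) ≤ ∏ i, (2 * ((N : ℝ) / q i)) := by
            refine prod_le_prod (fun i _ => Nat.cast_nonneg _) fun i _ => ?_
            obtain ⟨b, -, -, -, -, e1⟩ := cls_sum (N := N) (hq i).1 (a i)
            have e2 : 1 ≤ (N : ℝ) / q i := by
              rw [le_div_iff₀ (hq0 i), one_mul]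
              exact hqN1 i
            linarith
        _ = _ := by rw [prod_mul_distrib, prod_const, card_univ, Fintype.card_fin]
    have e1 : (T.card : ℝ) ≤ 2 ^ k * ∏ i, ((N : ℝ) / q i) := by
      refine le_trans ?_ hM
      have e2 := card_le_card hT𝓑
      rw [Fintype.card_piFinset] at e2
      exact_mod_cast e2
    have e3 : 16 * C + (2 : ℝ) ^ k ≤ (16 * C + 2 ^ k) / (η ^ 2 * w) := by
      rw [le_div_iff₀ (by positivity)]
      have : (0 : ℝ) ≤ 16 * C + 2 ^ k := by positivity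
      nlinarith
    calc (T.card : ℝ) ≤ 2 ^ k * ∏ i, ((N : ℝ) / q i) := e1
      _ ≤ (16 * C + 2 ^ k) / (η ^ 2 * w) * ∏ i, ((N : ℝ) / q i) := mul_le_mul_of_nonneg_right (by linarith) hPi0.le
  rw [not_le] at hηw
  have hηL : 1 / Real.sqrt (Real.log N) ≤ η := by
    rw [div_le_iff₀ (Real.sqrt_pos.2 hL0)]
    have e1 : 1 ≤ (η * Real.sqrt (Real.log N)) ^ 2 := by
      rw [mul_pow, Real.sq_sqrt hL0.le]
      have : η ^ 2 * w ≤ η ^ 2 * Real.log N := by gcongr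
      linarith
    have e2 : 0 ≤ η * Real.sqrt (Real.log N) := by positivity
    nlinarith
  have hΘ1 : 1 ≤ ∏ i, Qf' (q i) := by
    calc (1 : ℝ) = ∏ _i : Fin k, (1 : ℝ) := by simp
      _ ≤ _ := prod_le_prod (fun _ _ => zero_le_one) fun i _ =>
        (Qz_bd 1 (q i)).1.trans (Qf'_bd le_rfl (hq i).1).1
  have h5 := hD3 q hq w hw1 hwL hwq a S hSN u hu1 hu2 b hbw hthin (η / 4) (by linarith) (by linarith) T hT
    (fun h hh => by
      by_contra hcon
      rw [not_lt] at hcon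
      have e1 : ((copM q a S u).card : ℝ) ≤ C₁ * (N / Real.log N) := by
        refine le_trans ?_ hcard
        have : (copM q a S u).card ≤ S.card := by
          unfold copM
          exact card_le_card (filter_subset _ _)
        exact_mod_cast this
      have e2 := h4 N (by omega) h (fun i => ⟨(hT h hh i).1, (hT h hh i).2.1⟩) S u hu1 hu2 (∏ i, Qf' (q i))
        (copM q a S u).card η hΘ1 (Nat.cast_nonneg _) e1 hηL hη1 hcon
      linarith [hT2 h hh])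
  refine h5.trans (mul_le_mul_of_nonneg_right ?_ hPi0.le)
  have e3 : C / ((η / 4) ^ 2 * w) = 16 * C / (η ^ 2 * w) := by
    field_simp
    ring
  rw [e3]
  exact div_le_div_of_nonneg_right (by linarith [pow_pos (zero_lt_two' ℝ) k]) (by positivity)

/-- sequences in the primes, or in a reflected copy of the primes -/
theorem gthin_primes (k : ℕ) : ∃ C₁ : ℝ, 88 ≤ C₁ ∧ ∀ N : ℕ, 16 ≤ N → ∀ S : Finset ℕ, ∀ u v : ℕ → ℕ, ∀ b : ℕ,
    (∀ s ∈ S, v s ∈ Icc 1 N ∧ (v s).Prime) → Set.InjOn v S →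
    (∀ s ∈ S, ∀ t ∈ S, ((u s : ℤ) - u t = v s - v t) ∨ ((u s : ℤ) - u t = v t - v s)) →
    GThin b k C₁ N S u ∧ (S.card : ℝ) ≤ C₁ * (N / Real.log N) := by
  classical
  obtain ⟨C, hC, h1⟩ := pair_bd k
  refine ⟨C + 88, by linarith, fun N hN S u v b hv1 hv2 huv => ?_⟩
  have hN16 : (16 : ℝ) ≤ N := by exact_mod_cast hN
  have hlogN : 0 < Real.log N := Real.log_pos (by linarith)
  have hX : 0 < (N : ℝ) / Real.log N := by positivity
  have hS' : S.image v ⊆ Icc 1 N := by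
    intro n hn
    obtain ⟨s, hs, rfl⟩ := mem_image.1 hn
    exact (hv1 s hs).1
  have hSp : ∀ n ∈ S.image v, n.Prime := by
    intro n hn
    obtain ⟨s, hs, rfl⟩ := mem_image.1 hn
    exact (hv1 s hs).2
  constructor
  · intro z w hz hw _
    have h2 := h1 N hN z w hz hw (S.image v) hS' hSp
    have hw0 : (0 : ℝ) < w := by exact_mod_cast hw
    have h3 : ∑ s ∈ S, ∑ t ∈ S.erase s, (∏ p ∈ (pz z).filter (fun p : ℕ => w < p ∧ (p : ℤ) ∣ (u s : ℤ) - u t),
        ((1 - 1 / (p : ℝ))⁻¹) ^ k - 1) =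
        ∑ n ∈ S.image v, ∑ m ∈ (S.image v).erase n, (∏ p ∈ (pz z).filter (fun p : ℕ => w < p ∧ (p : ℤ) ∣ (n : ℤ) - m),
        ((1 - 1 / (p : ℝ))⁻¹) ^ k - 1) := by
      rw [sum_image hv2]
      refine sum_congr rfl fun s hs => ?_
      have e1 : (S.image v).erase (v s) = (S.erase s).image v := by
        ext n
        rw [mem_erase, mem_image, mem_image]
        constructor
        · rintro ⟨e2, t, ht, rfl⟩
          exact ⟨t, mem_erase.2 ⟨fun e => e2 (by rw [e]), ht⟩, rfl⟩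
        · rintro ⟨t, ht, rfl⟩
          rw [mem_erase] at ht
          exact ⟨fun e => ht.1 (hv2 (mem_coe.2 ht.2) (mem_coe.2 hs) e), t, ht.2, rfl⟩
      rw [e1, sum_image (hv2.mono (by exact_mod_cast erase_subset s S))]
      refine sum_congr rfl fun t ht => ?_
      rw [mem_erase] at ht
      have e3 : ∀ p : ℕ, (p : ℤ) ∣ (u s : ℤ) - u t ↔ (p : ℤ) ∣ (v s : ℤ) - v t := by
        intro p
        rcases huv s hs t ht.2 with e | e
        · rw [e]
        · rw [e, ← neg_sub (v s : ℤ) (v t : ℤ), dvd_neg]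
      simp only [e3]
    rw [h3]
    refine h2.trans ?_
    gcongr
    linarith
  · have h1 := cnt_ap (s := 0) hN le_rfl (by omega : 1 ^ 2 ≤ N)
    have h2 : S.card ≤ ((Icc 1 N).filter (fun t => t.Prime ∧ t ≡ 0 [MOD 1])).card := by
      rw [← card_image_of_injOn hv2]
      refine card_le_card fun t ht => ?_
      rw [mem_filter]
      exact ⟨hS' ht, hSp t ht, Nat.modEq_one⟩
    rw [Nat.totient_one, Nat.cast_one, div_one] at h1
    have h3 : (S.card : ℝ) ≤ 88 * (N / Real.log N) := le_trans (by exact_mod_cast h2) h1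
    refine h3.trans ?_
    gcongr
    linarith

end Pool.Agent.H579.G
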