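import Pool.Agent.H579.G.Near

set_option autoImplicit false

/-! Averages of the sieve model over a residue class. -/

namespace Pool.Agent.H579.G

open Finset
open Pool.Agent.H373R2.T7

/-- the shifts in a residue class -/
noncomputable def Hc (N q : ℕ) (a : ℤ) : Finset ℤ := (Icc 1 (N : ℤ)).filter (fun h => h ≡ a [ZMOD q])

/-- sums over a residue class -/
lemma cls_sum {N q : ℕ} (hq : 1 ≤ q) (a : ℤ) : ∃ b : ℤ, (1 - (q : ℤ) ≤ b ∧ b ≤ 0) ∧ b ≡ a [ZMOD q] ∧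
    (∀ F : ℤ → ℝ, ∑ h ∈ Hc N q a, F h = ∑ m ∈ Icc 1 (Hc N q a).card, F (q * (m : ℤ) + b)) ∧
    (N : ℝ) / q - 1 ≤ (Hc N q a).card ∧ ((Hc N q a).card : ℝ) ≤ N / q + 1 := by
  classical
  have hq0 : (0 : ℤ) < q := by exact_mod_cast hq
  have hqr : (0 : ℝ) < q := by exact_mod_cast hq
  obtain ⟨b, hb⟩ : ∃ b, b = (a - 1) % (q : ℤ) + 1 - q := ⟨_, rfl⟩
  have h1 := Int.emod_nonneg (a - 1) hq0.ne'
  have h2 := Int.emod_lt_of_pos (a - 1) hq0
  have hbq : 1 - (q : ℤ) ≤ b ∧ b ≤ 0 := ⟨by omega, by omega⟩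
  have hba : b ≡ a [ZMOD q] := by
    have e : (a : ℤ) - b = q * ((a - 1) / q + 1) := by
      have := Int.emod_add_mul_ediv (a - 1) (q : ℤ)
      rw [hb]
      linarith
    exact (Int.modEq_iff_dvd.2 (by rw [e]; exact dvd_mul_right _ _))
  obtain ⟨M, hM⟩ : ∃ M : ℕ, M = (((N : ℤ) - b) / q).toNat := ⟨_, rfl⟩
  have hdiv0 : 0 ≤ ((N : ℤ) - b) / q := Int.ediv_nonneg (by omega) hq0.le
  have hMz : (M : ℤ) = ((N : ℤ) - b) / q := by rw [hM, Int.toNat_of_nonneg hdiv0]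
  have hset : Hc N q a = (Icc 1 M).image (fun m : ℕ => (q : ℤ) * m + b) := by
    ext h
    unfold Hc
    rw [mem_filter, mem_Icc, mem_image]
    constructor
    · rintro ⟨⟨h3, h4⟩, h5⟩
      obtain ⟨t, ht⟩ := Int.modEq_iff_dvd.1 (hba.trans h5.symm)
      have hht : h = q * t + b := by linarith
      have ht1 : 1 ≤ t := by
        by_contra hc
        rw [not_le] at hc
        have : t ≤ 0 := by omega
        have : (q : ℤ) * t ≤ 0 := mul_nonpos_of_nonneg_of_nonpos hq0.le this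
        omega
      refine ⟨t.toNat, ?_, ?_⟩
      · rw [mem_Icc]
        refine ⟨by omega, ?_⟩
        have : t ≤ ((N : ℤ) - b) / q := by
          rw [Int.le_ediv_iff_mul_le hq0]
          linarith
        rw [← hMz] at this
        omega
      · rw [Int.toNat_of_nonneg (by omega)]
        exact hht.symm
    · rintro ⟨m, hm, rfl⟩
      rw [mem_Icc] at hm
      have hm1 : (1 : ℤ) ≤ m := by exact_mod_cast hm.1
      have hm2 : (m : ℤ) ≤ ((N : ℤ) - b) / q := by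
        rw [← hMz]
        exact_mod_cast hm.2
      rw [Int.le_ediv_iff_mul_le hq0] at hm2
      refine ⟨⟨?_, by linarith⟩, ?_⟩
      · have : (q : ℤ) * 1 ≤ q * m := mul_le_mul_of_nonneg_left hm1 hq0.le
        linarith [hbq.1]
      · refine Int.ModEq.trans ?_ hba
        exact (Int.modEq_iff_dvd.2 ⟨-(m : ℤ), by ring⟩)
  have hinj : Set.InjOn (fun m : ℕ => (q : ℤ) * m + b) (Icc 1 M : Finset ℕ) := by
    intro x _ y _ hxy
    have : (q : ℤ) * x = q * y := by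
      have := hxy
      simp only at this
      linarith
    have := mul_left_cancel₀ hq0.ne' this
    exact_mod_cast this
  have hcard : (Hc N q a).card = M := by
    rw [hset, card_image_of_injOn hinj, Nat.card_Icc]
    omega
  refine ⟨b, hbq, hba, fun F => ?_, ?_, ?_⟩
  · rw [hcard, hset, sum_image hinj]
  · rw [hcard]
    have e1 : (((N : ℤ) - b : ℤ) : ℝ) < ((((N : ℤ) - b) / q : ℤ) + 1) * q := by
      have := Int.lt_ediv_add_one_mul_self ((N : ℤ) - b) hq0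
      exact_mod_cast this
    rw [← hMz] at e1
    push_cast at e1
    have e2 : (b : ℝ) ≤ 0 := by exact_mod_cast hbq.2
    rw [sub_le_iff_le_add, div_le_iff₀ hqr]
    linarith
  · rw [hcard]
    have e1 : ((((N : ℤ) - b) / q : ℤ) : ℝ) * q ≤ (((N : ℤ) - b : ℤ) : ℝ) := by
      have := Int.ediv_mul_le ((N : ℤ) - b) hq0.ne'
      exact_mod_cast this
    rw [← hMz] at e1
    push_cast at e1
    have e2 : (1 : ℝ) - q ≤ b := by exact_mod_cast hbq.1
    have e3 : (M : ℝ) * q ≤ N + q := by linarith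
    have e4 : (N : ℝ) / q + 1 = (N + q) / q := by field_simp
    rw [e4, le_div_iff₀ hqr]
    exact e3

open Classical in
/-- the sieve count for several forms -/
theorem sysF (k E U : ℕ) (hk : 1 ≤ k) : ∃ M₀ : ℕ, ∀ M : ℕ, M₀ ≤ M → ∀ z : ℕ, 1 ≤ z → (z : ℝ) ≤ Real.log M ^ E →
    ∀ q b : Fin k → ℤ, (∀ p ∈ pz z, ∀ i, ¬ ((p : ℤ) ∣ q i ∧ (p : ℤ) ∣ b i)) →
    |(((Icc 1 M).filter (fun m => ∀ p ∈ pz z, ¬ Qf q b p m)).card : ℝ) -
      M * ∏ p ∈ pz z, (1 - (nuB (Qf q b) p : ℝ) / p)| ≤ M / Real.log M ^ U := by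
  obtain ⟨n1, h1⟩ := sys_count k E U hk
  refine ⟨n1, fun M hM z hz hzE q b hqb => ?_⟩
  obtain ⟨Q, hQ⟩ : ∃ Q : ℕ → ℕ → Prop, ∀ p n, Q p n ↔ (p ≤ z ∧ Qf q b p n) := ⟨_, fun _ _ => Iff.rfl⟩
  have hnu : ∀ p ∈ pz z, nuB Q p = nuB (Qf q b) p := by
    intro p hp
    have := (mem_pz.1 hp).1
    unfold nuB
    congr 1
    refine filter_congr fun r _ => ?_
    rw [hQ]
    simp [this]
  have h2 := h1 M hM z hz hzE Q ⟨fun p n => by
    rw [hQ, hQ, ← Qf_per], fun p hp => ?_⟩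
  · have e1 : (Icc 1 M).filter (fun n : ℕ => ∀ p ∈ pz z, ¬ Q p n) =
        (Icc 1 M).filter (fun m => ∀ p ∈ pz z, ¬ Qf q b p m) := by
      refine filter_congr fun n _ => ?_
      refine forall₂_congr fun p hp => ?_
      have := (mem_pz.1 hp).1
      rw [hQ]
      simp [this]
    have e2 : ∏ p ∈ pz z, (1 - (nuB Q p : ℝ) / p) =
        ∏ p ∈ pz z, (1 - (nuB (Qf q b) p : ℝ) / p) := prod_congr rfl fun p hp => by rw [hnu p hp]
    rw [e2, e1] at h2
    exact h2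
  · by_cases hpz : p ≤ z
    · rw [hnu p (mem_pz.2 ⟨hpz, hp⟩)]
      exact nu_few hp (hqb p (mem_pz.2 ⟨hpz, hp⟩))
    · unfold nuB
      have : (range p).filter (fun r => Q p r) = ∅ := by
        refine filter_false_of_mem fun r _ => ?_
        rw [hQ]
        tauto
      rw [this]
      simp

end Pool.Agent.H579.G
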