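import Pool.Agent.H579.G.Dns9

set_option autoImplicit false

/-! Prime shifts of dense sets of primes: the counting form. -/

namespace Pool.Agent.H579.G

open Finset
open Pool.Agent.H373R2.T7

/-- from the weights to the number -/
lemma cnt_of_sum (k : ℕ) {C₁ : ℝ} (hC₁ : 0 < C₁) : ∃ N₀ : ℕ, ∀ N : ℕ, N₀ ≤ N → ∀ h : Fin k → ℤ,
    (∀ i, 1 ≤ h i ∧ h i ≤ N) → ∀ S : Finset ℕ, S ⊆ Icc 1 N → ∀ Θ c η : ℝ, 1 ≤ Θ → 0 ≤ c → c ≤ C₁ * (N / Real.log N) →
    1 / Real.sqrt (Real.log N) ≤ η → η ≤ 1 →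
    |∑ s ∈ S, ∏ i, ex thp (h i) s - Θ * c| ≤ η / 4 * Θ * (N / Real.log N) →
    |((prs h S).card : ℝ) - Θ * (c / Real.log N ^ k)| ≤ η * Θ * (N / Real.log N ^ (k + 1)) := by
  classical
  obtain ⟨n1, h1⟩ := ev_ratio2 k (k + 2) C₁
  refine ⟨n1 + 1, fun N hN h hh S hS Θ c η hΘ hc0 hc1 hη hη1 hF => ?_⟩
  obtain ⟨hL16, f3, δ, hδ0, hδ1, hCδ, f1, f2⟩ := h1 N (by omega)
  have hN0 : (0 : ℝ) < N := by exact_mod_cast (by omega : 0 < N)
  rw [sum_prs] at hF
  obtain ⟨F, hFd⟩ : ∃ F, F = ∑ s ∈ prs h S, ∏ i, Real.log ((s : ℤ) + h i).toNat := ⟨_, rfl⟩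
  rw [← hFd] at hF
  obtain ⟨n, hn⟩ : ∃ n : ℝ, n = ((prs h S).card : ℝ) := ⟨_, rfl⟩
  have hn0 : 0 ≤ n := by rw [hn]; exact Nat.cast_nonneg _
  obtain ⟨L, hL⟩ : ∃ L, L = Real.log (N : ℝ) := ⟨_, rfl⟩
  have hpS : prs h S ⊆ Icc 1 N := by
    unfold prs
    exact (filter_subset _ _).trans hS
  have hpos : ∀ s ∈ prs h S, ∀ i, Real.log s ≤ Real.log ((s : ℤ) + h i).toNat ∧ 0 ≤ Real.log ((s : ℤ) + h i).toNat ∧
      Real.log ((s : ℤ) + h i).toNat ≤ L + 1 := by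
    intro s hs i
    have hs1 := mem_Icc.1 (hpS hs)
    have hs0 : (0 : ℝ) < s := by exact_mod_cast hs1.1
    refine ⟨?_, Real.log_natCast_nonneg _, ?_⟩
    · refine Real.log_le_log hs0 ?_
      have := (hh i).1
      exact_mod_cast (by omega : s ≤ ((s : ℤ) + h i).toNat)
    · have e1 : ((((s : ℤ) + h i).toNat : ℕ) : ℝ) ≤ 2 * N := by
        have := (hh i).2
        exact_mod_cast (by omega : ((s : ℤ) + h i).toNat ≤ 2 * N)
      have e0 : (0 : ℝ) < (((s : ℤ) + h i).toNat : ℕ) := by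
        have := (hh i).1
        exact_mod_cast (by omega : 0 < ((s : ℤ) + h i).toNat)
      have e2 := Real.log_le_log e0 e1
      rw [Real.log_mul (by norm_num) hN0.ne', ← hL] at e2
      have := Real.log_two_lt_d9
      linarith
  rw [← hn]
  rw [← hL] at hL16 f3 hCδ f1 f2 hc1 hη hF ⊢
  have hL0 : 0 < L := by linarith
  have hL1 : 1 ≤ L := by linarith
  have hsq : 0 < Real.sqrt L := Real.sqrt_pos.2 hL0
  have hη0 : 0 < η := lt_of_lt_of_le (by positivity) hη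
  obtain ⟨X, hX⟩ : ∃ X, X = (N : ℝ) / L := ⟨_, rfl⟩
  have hX0 : 0 < X := by rw [hX]; positivity
  rw [← hX] at hc1 hF
  -- the upper bound for the weighted sum
  have hup : F ≤ (L + 1) ^ k * n := by
    rw [hFd, hn, mul_comm, ← nsmul_eq_mul]
    refine sum_le_card_nsmul _ _ _ fun s hs => ?_
    refine (prod_le_prod (fun i _ => (hpos s hs i).2.1) fun i _ => (hpos s hs i).2.2).trans (le_of_eq ?_)
    rw [prod_const, card_univ, Fintype.card_fin]
  have hF0 : 0 ≤ F := by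
    rw [hFd]
    exact sum_nonneg fun s hs => prod_nonneg fun i _ => (hpos s hs i).2.1
  -- the lower bound
  obtain ⟨y, hy⟩ : ∃ y : ℝ, y = N / L ^ (k + 2) := ⟨_, rfl⟩
  have hy0 : 0 < y := by rw [hy]; positivity
  obtain ⟨L₁, hL₁⟩ : ∃ L₁, L₁ = L - ((k + 2 : ℕ) : ℝ) * Real.log L := ⟨_, rfl⟩
  rw [← hL₁] at f3 f2
  have hlogy : Real.log y = L₁ := by
    rw [hy, Real.log_div hN0.ne' (by positivity), Real.log_pow, ← hL, hL₁]
  have hL₁0 : 0 < L₁ := by linarith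
  have hlow : L₁ ^ k * (n - y) ≤ F := by
    have k1 : ((prs h S).filter (fun s : ℕ => (s : ℝ) ≤ y)).card ≤ ⌊y⌋₊ := by
      have : (prs h S).filter (fun s : ℕ => (s : ℝ) ≤ y) ⊆ Icc 1 ⌊y⌋₊ := by
        intro s hs
        rw [mem_filter] at hs
        exact mem_Icc.2 ⟨(mem_Icc.1 (hpS hs.1)).1, Nat.le_floor hs.2⟩
      have := card_le_card this
      rwa [Nat.card_Icc, Nat.add_sub_cancel] at this
    have k2 : n - y ≤ (((prs h S).filter (fun s : ℕ => ¬ (s : ℝ) ≤ y)).card : ℝ) := by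
      have e1 := card_filter_add_card_filter_not (s := prs h S) (fun s : ℕ => (s : ℝ) ≤ y)
      have e2 : n = (((prs h S).filter (fun s : ℕ => (s : ℝ) ≤ y)).card : ℝ) +
          (((prs h S).filter (fun s : ℕ => ¬ (s : ℝ) ≤ y)).card : ℝ) := by
        rw [hn, ← e1]
        push_cast
        rfl
      have e3 : (((prs h S).filter (fun s : ℕ => (s : ℝ) ≤ y)).card : ℝ) ≤ y := by
        refine le_trans ?_ (Nat.floor_le hy0.le)
        exact_mod_cast k1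
      linarith
    calc L₁ ^ k * (n - y) ≤ L₁ ^ k * (((prs h S).filter (fun s : ℕ => ¬ (s : ℝ) ≤ y)).card : ℝ) :=
          mul_le_mul_of_nonneg_left k2 (by positivity)
      _ ≤ ∑ s ∈ (prs h S).filter (fun s : ℕ => ¬ (s : ℝ) ≤ y), ∏ i, Real.log ((s : ℤ) + h i).toNat := by
          rw [mul_comm, ← nsmul_eq_mul]
          refine card_nsmul_le_sum _ _ _ fun s hs => ?_
          rw [mem_filter, not_le] at hs
          have e1 : L₁ ≤ Real.log s := by
            rw [← hlogy]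
            exact Real.log_le_log hy0 hs.2.le
          calc L₁ ^ k = ∏ _i : Fin k, L₁ := by rw [prod_const, card_univ, Fintype.card_fin]
            _ ≤ _ := prod_le_prod (fun _ _ => hL₁0.le) fun i _ => e1.trans (hpos s hs.1 i).1
      _ ≤ F := by
          rw [hFd]
          exact sum_le_sum_of_subset_of_nonneg (filter_subset _ _) fun s hs _ =>
            prod_nonneg fun i _ => (hpos s hs i).2.1
  -- comparison
  have hLk : 0 < L ^ k := by positivity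
  have hyL : y * L ^ k ≤ η / 4 * (Θ * X) := by
    have e1 : y * L ^ k = X / L := by
      rw [hy, hX, pow_add]
      field_simp
    rw [e1]
    have e2 : 1 / L ≤ η / 4 := by
      have e3 : 1 / L ≤ 1 / Real.sqrt L / 4 := by
        rw [div_div]
        refine one_div_le_one_div_of_le (by positivity) ?_
        have e4 : 4 ≤ Real.sqrt L := Real.le_sqrt_of_sq_le (by linarith)
        calc Real.sqrt L * 4 ≤ Real.sqrt L * Real.sqrt L := by gcongr
          _ = L := Real.mul_self_sqrt hL0.le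
      linarith
    calc X / L = 1 / L * X := by ring
      _ ≤ η / 4 * X := by gcongr
      _ ≤ η / 4 * (Θ * X) := by
          refine mul_le_mul_of_nonneg_left ?_ (by linarith)
          nlinarith
  have hδc : δ * (Θ * c) ≤ η / 4 * (Θ * X) := by
    have e1 : C₁ * δ ≤ η / 4 := by
      refine hCδ.trans ?_
      rw [mul_comm (4 : ℝ), ← div_div]
      linarith
    calc δ * (Θ * c) ≤ δ * (Θ * (C₁ * X)) := by gcongr
      _ = C₁ * δ * (Θ * X) := by ring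
      _ ≤ η / 4 * (Θ * X) := by gcongr
  have hF1 := abs_le.1 hF
  have hΘX : 0 ≤ η / 4 * (Θ * X) := by positivity
  have hup2 : n * L ^ k - Θ * c ≤ η * (Θ * X) := by
    have e1 : (n - y) * L ^ k ≤ (1 + δ) * F := by
      by_cases hny : n - y ≤ 0
      · have e2 : (n - y) * L ^ k ≤ 0 := mul_nonpos_of_nonpos_of_nonneg hny hLk.le
        have e3 : 0 ≤ (1 + δ) * F := by positivity
        linarith
      · rw [not_le] at hny
        calc (n - y) * L ^ k ≤ (n - y) * ((1 + δ) * L₁ ^ k) := mul_le_mul_of_nonneg_left f2 hny.le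
          _ = (1 + δ) * (L₁ ^ k * (n - y)) := by ring
          _ ≤ (1 + δ) * F := mul_le_mul_of_nonneg_left hlow (by linarith)
    have e4 : F ≤ Θ * c + η / 4 * (Θ * X) := by linarith
    have e5 : (1 + δ) * F ≤ (1 + δ) * (Θ * c + η / 4 * (Θ * X)) := mul_le_mul_of_nonneg_left e4 (by linarith)
    have e6 : δ * (η / 4 * (Θ * X)) ≤ 1 * (η / 4 * (Θ * X)) := mul_le_mul_of_nonneg_right hδ1 hΘX
    have e7 : (1 + δ) * (Θ * c + η / 4 * (Θ * X)) =
        Θ * c + η / 4 * (Θ * X) + δ * (Θ * c) + δ * (η / 4 * (Θ * X)) := by ring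
    have e8 : n * L ^ k = (n - y) * L ^ k + y * L ^ k := by ring
    linarith
  have hlow2 : -(η * (Θ * X)) ≤ n * L ^ k - Θ * c := by
    have e1 : (1 - δ) * F ≤ n * L ^ k := by
      calc (1 - δ) * F ≤ (1 - δ) * ((L + 1) ^ k * n) := mul_le_mul_of_nonneg_left hup (by linarith)
        _ = ((1 - δ) * (L + 1) ^ k) * n := by ring
        _ ≤ L ^ k * n := mul_le_mul_of_nonneg_right f1 hn0
        _ = _ := by ring
    have e4 : Θ * c - η / 4 * (Θ * X) ≤ F := by linarith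
    have e5 : (1 - δ) * (Θ * c - η / 4 * (Θ * X)) ≤ (1 - δ) * F := mul_le_mul_of_nonneg_left e4 (by linarith)
    have e6 : 0 ≤ δ * (η / 4 * (Θ * X)) := mul_nonneg hδ0 hΘX
    have e7 : (1 - δ) * (Θ * c - η / 4 * (Θ * X)) =
        Θ * c - η / 4 * (Θ * X) - δ * (Θ * c) + δ * (η / 4 * (Θ * X)) := by ring
    linarith
  have e1 : n - Θ * (c / L ^ k) = (n * L ^ k - Θ * c) / L ^ k := by field_simp
  have e2 : η * Θ * (N / L ^ (k + 1)) = η * (Θ * X) / L ^ k := by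
    rw [hX, pow_succ]
    field_simp
  rw [e1, e2, abs_div, abs_of_pos hLk]
  refine div_le_div_of_nonneg_right ?_ hLk.le
  exact abs_le.2 ⟨hlow2, hup2⟩

/-- prime shifts of sets like the primes: numbers -/
theorem dense_cnt (k : ℕ) (hk : 1 ≤ k) {C₁ : ℝ} (hC₁ : 0 < C₁) : ∃ C : ℝ, 0 < C ∧ ∀ ρ : ℝ, 0 < ρ →
    ∃ c : ℕ, ∀ A₀ : ℕ, ∃ N₀ : ℕ, ∀ N : ℕ, N₀ ≤ N →
      ∃ D : Finset ℕ, (D.card : ℝ) ≤ Real.log N ^ c ∧ (∀ d ∈ D, Real.log N ^ A₀ < (d : ℝ)) ∧
      ∀ q : Fin k → ℕ, (∀ i, 1 ≤ q i ∧ (q i : ℝ) ≤ (N : ℝ) ^ (2 / 3 - ρ) ∧ ∀ d ∈ D, ¬ d ∣ q i) →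
      ∀ w : ℕ, 1 ≤ w → (w : ℝ) ≤ Real.log N → (∀ p : ℕ, p.Prime → p ≤ w → ∀ i, p ∣ q i) → ∀ a : Fin k → ℤ,
      ∀ S : Finset ℕ, S ⊆ Icc 1 N → Thin k C₁ N S → (S.card : ℝ) ≤ C₁ * (N / Real.log N) → ∀ η : ℝ, 0 < η → η ≤ 1 →
      ∀ T : Finset (Fin k → ℤ), (∀ h ∈ T, ∀ i, 1 ≤ h i ∧ h i ≤ N ∧ h i ≡ a i [ZMOD q i]) →
        (∀ h ∈ T, η * (∏ i, Qf' (q i)) * (N / Real.log N ^ (k + 1)) <
          |((prs h S).card : ℝ) - (∏ i, Qf' (q i)) * ((cop q a S).card / Real.log N ^ k)|) →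
        (T.card : ℝ) ≤ C / (η ^ 2 * w) * ∏ i, ((N : ℝ) / q i) := by
  classical
  obtain ⟨C, hC, h1⟩ := dense k hk hC₁
  refine ⟨16 * C + 2 ^ k, by positivity, fun ρ hρ => ?_⟩
  obtain ⟨c, h2⟩ := h1 ρ hρ
  refine ⟨c, fun A₀ => ?_⟩
  obtain ⟨n1, h3⟩ := h2 A₀
  obtain ⟨n2, h4⟩ := cnt_of_sum k hC₁
  refine ⟨n1 + n2 + 3, fun N hN => ?_⟩
  obtain ⟨D, hD1, hD2, hD3⟩ := h3 N (by omega)
  refine ⟨D, hD1, hD2, fun q hq w hw1 hwL hwq a S hS hthin hcard η hη0 hη1 T hT hT2 => ?_⟩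
  have hN0 : (0 : ℝ) < N := by exact_mod_cast (by omega : 0 < N)
  have hN1 : (1 : ℝ) ≤ N := by exact_mod_cast (by omega : 1 ≤ N)
  have hw0 : (0 : ℝ) < w := by exact_mod_cast hw1
  have hL0 : 0 < Real.log N := by
    have : (1 : ℝ) ≤ w := by exact_mod_cast hw1
    linarith
  have hq0 : ∀ i, (0 : ℝ) < q i := fun i => by exact_mod_cast (hq i).1
  have hqN1 : ∀ i, (q i : ℝ) ≤ N := fun i => by
    refine (hq i).2.1.trans ?_
    calc (N : ℝ) ^ (2 / 3 - ρ) ≤ (N : ℝ) ^ (1 : ℝ) := Real.rpow_le_rpow_of_exponent_le hN1 (by linarith)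
      _ = N := Real.rpow_one _
  have hPi0 : 0 < ∏ i, ((N : ℝ) / q i) := prod_pos fun i _ => div_pos hN0 (hq0 i)
  by_cases hηw : η ^ 2 * w ≤ 1
  · have hT𝓑 : T ⊆ Fintype.piFinset (fun i => Hc N (q i) (a i)) := by
      intro h hh
      rw [Fintype.mem_piFinset]
      intro i
      obtain ⟨e1, e2, e3⟩ := hT h hh i
      unfold Hc
      exact mem_filter.2 ⟨mem_Icc.2 ⟨e1, e2⟩, e3⟩
    have hM : ∏ i, ((Hc N (q i) (a i)).card : ℝ) ≤ 2 ^ k * ∏ i, ((N : ℝ) / q i) := by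
      calc ∏ i, ((Hc N (q i) (a i)).card : ℝ) ≤ ∏ i, (2 * ((N : ℝ) / q i)) := by
            refine prod_le_prod (fun i _ => Nat.cast_nonneg _) fun i _ => ?_
            obtain ⟨b, -, -, -, -, e1⟩ := cls_sum (N := N) (hq i).1 (a i)
            have e2 : 1 ≤ (N : ℝ) / q i := by
              rw [le_div_iff₀ (hq0 i), one_mul]
              exact hqN1 i
            linarith
        _ = _ := by rw [prod_mul_distrib, prod_const, card_univ, Fintype.card_fin]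
    have e1 : (T.card : ℝ) ≤ 2 ^ k * ∏ i, ((N : ℝ) / q i) := by
      refine le_trans ?_ hM
      have e2 := card_le_card hT𝓑
      rw [Fintype.card_piFinset] at e2
      exact_mod_cast e2
    have e3 : 16 * C + (2 : ℝ) ^ k ≤ (16 * C + 2 ^ k) / (η ^ 2 * w) := by
      rw [le_div_iff₀ (by positivity)]
      have : (0 : ℝ) ≤ 16 * C + 2 ^ k := by positivity
      nlinarith
    calc (T.card : ℝ) ≤ 2 ^ k * ∏ i, ((N : ℝ) / q i) := e1
      _ ≤ (16 * C + 2 ^ k) / (η ^ 2 * w) * ∏ i, ((N : ℝ) / q i) := mul_le_mul_of_nonneg_right (by linarith) hPi0.le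
  rw [not_le] at hηw
  have hηL : 1 / Real.sqrt (Real.log N) ≤ η := by
    rw [div_le_iff₀ (Real.sqrt_pos.2 hL0)]
    have e1 : 1 ≤ (η * Real.sqrt (Real.log N)) ^ 2 := by
      rw [mul_pow, Real.sq_sqrt hL0.le]
      have : η ^ 2 * w ≤ η ^ 2 * Real.log N := by gcongr
      linarith
    have e2 : 0 ≤ η * Real.sqrt (Real.log N) := by positivity
    nlinarith
  have hΘ1 : 1 ≤ ∏ i, Qf' (q i) := by
    calc (1 : ℝ) = ∏ _i : Fin k, (1 : ℝ) := by simp
      _ ≤ _ := prod_le_prod (fun _ _ => zero_le_one) fun i _ =>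
        (Qz_bd 1 (q i)).1.trans (Qf'_bd le_rfl (hq i).1).1
  have h5 := hD3 q hq w hw1 hwL hwq a S hS hthin (η / 4) (by linarith) (by linarith) T hT (fun h hh => by
    by_contra hcon
    rw [not_lt] at hcon
    have e1 : ((cop q a S).card : ℝ) ≤ C₁ * (N / Real.log N) := by
      refine le_trans ?_ hcard
      have : (cop q a S).card ≤ S.card := by
        unfold cop
        exact card_le_card (filter_subset _ _)
      exact_mod_cast this
    have e2 := h4 N (by omega) h (fun i => ⟨(hT h hh i).1, (hT h hh i).2.1⟩) S hS (∏ i, Qf' (q i)) (cop q a S).card η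
      hΘ1 (Nat.cast_nonneg _) e1 hηL hη1 hcon
    linarith [hT2 h hh])
  refine h5.trans (mul_le_mul_of_nonneg_right ?_ hPi0.le)
  have e3 : C / ((η / 4) ^ 2 * w) = 16 * C / (η ^ 2 * w) := by
    field_simp
    ring
  rw [e3]
  exact div_le_div_of_nonneg_right (by linarith [pow_pos (zero_lt_two' ℝ) k]) (by positivity)

/-- sets of primes -/
theorem thin_primes (k : ℕ) : ∃ C₁ : ℝ, 0 < C₁ ∧ ∀ N : ℕ, 16 ≤ N → ∀ S : Finset ℕ, S ⊆ Icc 1 N → (∀ s ∈ S, s.Prime) →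
    Thin k C₁ N S ∧ (S.card : ℝ) ≤ C₁ * (N / Real.log N) := by
  classical
  obtain ⟨C, hC, h1⟩ := pair_bd k
  refine ⟨C + 88, by linarith, fun N hN S hS hSp => ?_⟩
  have hN16 : (16 : ℝ) ≤ N := by exact_mod_cast hN
  have hlogN : 0 < Real.log N := Real.log_pos (by linarith)
  have hX : 0 < (N : ℝ) / Real.log N := by positivity
  constructor
  · intro z w hz hw
    refine (h1 N hN z w hz hw S hS hSp).trans ?_
    have : (0 : ℝ) < w := by exact_mod_cast hw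
    gcongr
    linarith
  · have h1 := cnt_ap (s := 0) hN le_rfl (by omega : 1 ^ 2 ≤ N)
    have h2 : S.card ≤ ((Icc 1 N).filter (fun t => t.Prime ∧ t ≡ 0 [MOD 1])).card := by
      refine card_le_card fun t ht => ?_
      rw [mem_filter]
      exact ⟨hS ht, hSp t ht, Nat.modEq_one⟩
    rw [Nat.totient_one, Nat.cast_one, div_one] at h1
    have h3 : (S.card : ℝ) ≤ 88 * (N / Real.log N) := le_trans (by exact_mod_cast h2) h1
    refine h3.trans ?_
    gcongr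
    linarith

end Pool.Agent.H579.G
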