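import Pool.Agent.H579.G.Dns1

set_option autoImplicit false

/-! First and second moments of the sieve model over a residue class. -/

namespace Pool.Agent.H579.G

open Finset
open Pool.Agent.H373R2.T7

/-- the primes up to `z` dividing `q` -/
noncomputable def Qz (z q : ℕ) : ℝ := ∏ p ∈ (pz z).filter (fun p => p ∣ q), (1 - 1 / (p : ℝ))⁻¹

/-- the primes up to `z` dividing `n` and not `q` -/
noncomputable def Wz (z q : ℕ) (n : ℤ) : ℝ :=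
  ∏ p ∈ (pz z).filter (fun p => ¬ p ∣ q ∧ (p : ℤ) ∣ n), (1 - 1 / (p : ℝ))⁻¹

/-- no common prime factor up to `z` -/
def Gd (z q : ℕ) (a : ℤ) (s : ℕ) : Prop := ∀ p ∈ pz z, ¬ (p ∣ q ∧ (p : ℤ) ∣ s + a)

lemma nu_zero {k p : ℕ} {q b : Fin k → ℤ} (h1 : ∀ i, (p : ℤ) ∣ q i) (h2 : ∀ i, ¬ (p : ℤ) ∣ b i) :
    nuB (Qf q b) p = 0 := by
  classical
  unfold nuB
  rw [card_eq_zero]
  refine filter_false_of_mem fun r _ => ?_
  rintro ⟨i, hi⟩
  exact h2 i ((dvd_add_right (Dvd.dvd.mul_right (h1 i) _)).1 hi)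

lemma ex_cls {N q z : ℕ} {a h : ℤ} {s : ℕ} (hh : h ∈ Hc N q a) (hs : ¬ Gd z q a s) : ex (lamz z) h s = 0 := by
  unfold Gd at hs
  push Not at hs
  obtain ⟨p, hp, h1, h2⟩ := hs
  unfold Hc at hh
  rw [mem_filter, mem_Icc] at hh
  rw [ex_lamz (by omega)]
  refine if_neg fun hc => hc p hp ?_
  have h3 : (p : ℤ) ∣ a - h := (Int.natCast_dvd_natCast.2 h1).trans (Int.modEq_iff_dvd.1 hh.2)
  have h4 : (s : ℤ) + h = (s + a) - (a - h) := by ring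
  rw [h4]
  exact dvd_sub h2 h3

open Classical in
/-- the first moment -/
theorem u_avg (E U : ℕ) : ∃ M₀ : ℕ, ∀ N q : ℕ, 1 ≤ q → ∀ a : ℤ, M₀ ≤ (Hc N q a).card → ∀ z : ℕ, 1 ≤ z →
    (z : ℝ) ≤ Real.log (Hc N q a).card ^ E → ∀ s : ℕ, Gd z q a s →
    |∑ h ∈ Hc N q a, ex (lamz z) h s - (Hc N q a).card * Qz z q| ≤
      (Hc N q a).card * (Vz z)⁻¹ / Real.log (Hc N q a).card ^ U := by
  obtain ⟨n1, h1⟩ := sysF 1 E U le_rfl
  refine ⟨n1, fun N q hq a hM z hz hzE s hs => ?_⟩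
  obtain ⟨b, hb1, hb2, hb3, -, -⟩ := cls_sum (N := N) hq a
  obtain ⟨M, hMd⟩ : ∃ M, M = (Hc N q a).card := ⟨_, rfl⟩
  rw [← hMd] at hM hzE hb3 ⊢
  have hV := Vz_pos z
  have hgood : ∀ p ∈ pz z, ¬ ((p : ℤ) ∣ (q : ℤ) ∧ (p : ℤ) ∣ (s : ℤ) + b) := by
    rintro p hp ⟨e1, e2⟩
    refine hs p hp ⟨Int.natCast_dvd_natCast.1 e1, ?_⟩
    have h3 : (p : ℤ) ∣ a - b := e1.trans (Int.modEq_iff_dvd.1 hb2)
    have h4 : (s : ℤ) + a = (s + b) + (a - b) := by ring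
    rw [h4]
    exact dvd_add e2 h3
  have h2 := h1 M hM z hz hzE (fun _ => (q : ℤ)) (fun _ => (s : ℤ) + b) (fun p hp _ => hgood p hp)
  have e1 : ∀ p ∈ pz z, (1 - (nuB (Qf (fun _ : Fin 1 => (q : ℤ)) (fun _ => (s : ℤ) + b)) p : ℝ) / p) =
      if p ∣ q then 1 else 1 - 1 / (p : ℝ) := by
    intro p hp
    have hpp := (mem_pz.1 hp).2
    split_ifs with hd
    · rw [nu_zero (fun _ => Int.natCast_dvd_natCast.2 hd) (fun _ hc => hgood p hp ⟨Int.natCast_dvd_natCast.2 hd, hc⟩)]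
      simp
    · rw [nu_full hpp (fun _ hc => hd (Int.natCast_dvd_natCast.1 hc))
        (fun i j hij => absurd (Subsingleton.elim i j) hij)]
      simp
  rw [prod_congr rfl e1] at h2
  have e2 : (Vz z)⁻¹ * ∏ p ∈ pz z, (if p ∣ q then (1 : ℝ) else 1 - 1 / (p : ℝ)) = Qz z q := by
    unfold Vz Qz
    rw [prod_filter, ← prod_inv_distrib, ← prod_mul_distrib]
    refine prod_congr rfl fun p hp => ?_
    have := one_sub_pos (mem_pz.1 hp).2
    split_ifs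
    · rw [mul_one]
    · exact inv_mul_cancel₀ this.ne'
  have e3 : ∑ h ∈ Hc N q a, ex (lamz z) h s = (Vz z)⁻¹ *
      (((Icc 1 M).filter (fun m => ∀ p ∈ pz z, ¬ Qf (fun _ : Fin 1 => (q : ℤ)) (fun _ => (s : ℤ) + b) p m)).card : ℝ) := by
    rw [hb3, card_filter, Nat.cast_sum, mul_sum]
    refine sum_congr rfl fun m hm => ?_
    rw [mem_Icc] at hm
    have hqm : (q : ℤ) * 1 ≤ q * (m : ℤ) := mul_le_mul_of_nonneg_left (by exact_mod_cast hm.1) (by positivity)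
    rw [ex_lamz (by linarith [hb1.1, Int.natCast_nonneg s])]
    have e4 : (∀ p ∈ pz z, ¬ (p : ℤ) ∣ (s : ℤ) + (q * (m : ℤ) + b)) ↔
        (∀ p ∈ pz z, ¬ Qf (fun _ : Fin 1 => (q : ℤ)) (fun _ => (s : ℤ) + b) p m) := by
      refine forall₂_congr fun p _ => ?_
      unfold Qf
      have e5 : (s : ℤ) + (q * (m : ℤ) + b) = q * (m : ℤ) + (s + b) := by ring
      rw [e5, exists_const]
    simp only [e4]
    split_ifs <;> simp
  rw [e3]
  have e6 : (Vz z)⁻¹ * (((Icc 1 M).filter (fun m => ∀ p ∈ pz z, ¬ Qf (fun _ : Fin 1 => (q : ℤ)) (fun _ => (s : ℤ) + b) p m)).card : ℝ) -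
      M * Qz z q = (Vz z)⁻¹ * ((((Icc 1 M).filter (fun m => ∀ p ∈ pz z, ¬ Qf (fun _ : Fin 1 => (q : ℤ)) (fun _ => (s : ℤ) + b) p m)).card : ℝ) -
        M * ∏ p ∈ pz z, (if p ∣ q then (1 : ℝ) else 1 - 1 / (p : ℝ))) := by
    rw [← e2]
    ring
  rw [e6, abs_mul, abs_of_pos (inv_pos.2 hV)]
  calc (Vz z)⁻¹ * _ ≤ (Vz z)⁻¹ * (M / Real.log M ^ U) := mul_le_mul_of_nonneg_left h2 (inv_pos.2 hV).le
    _ = _ := by ring

open Classical in
/-- the second moment -/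
theorem v_avg (E U : ℕ) : ∃ M₀ : ℕ, ∀ N q : ℕ, 1 ≤ q → ∀ a : ℤ, M₀ ≤ (Hc N q a).card → ∀ z : ℕ, 1 ≤ z →
    (z : ℝ) ≤ Real.log (Hc N q a).card ^ E → ∀ s t : ℕ, Gd z q a s → Gd z q a t →
    ∑ h ∈ Hc N q a, ex (lamz z) h s * ex (lamz z) h t ≤ (Hc N q a).card * (Qz z q ^ 2 * Wz z q (s - t)) +
      (Hc N q a).card * (Vz z)⁻¹ ^ 2 / Real.log (Hc N q a).card ^ U := by
  obtain ⟨n1, h1⟩ := sysF 2 E U (by norm_num)
  refine ⟨n1, fun N q hq a hM z hz hzE s t hs ht => ?_⟩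
  obtain ⟨b, hb1, hb2, hb3, -, -⟩ := cls_sum (N := N) hq a
  obtain ⟨M, hMd⟩ : ∃ M, M = (Hc N q a).card := ⟨_, rfl⟩
  rw [← hMd] at hM hzE hb3 ⊢
  have hV := Vz_pos z
  have hgood : ∀ s : ℕ, Gd z q a s → ∀ p ∈ pz z, ¬ ((p : ℤ) ∣ (q : ℤ) ∧ (p : ℤ) ∣ (s : ℤ) + b) := by
    rintro s hs p hp ⟨e1, e2⟩
    refine hs p hp ⟨Int.natCast_dvd_natCast.1 e1, ?_⟩
    have h3 : (p : ℤ) ∣ a - b := e1.trans (Int.modEq_iff_dvd.1 hb2)
    have h4 : (s : ℤ) + a = (s + b) + (a - b) := by ring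
    rw [h4]
    exact dvd_add e2 h3
  obtain ⟨B, hB⟩ : ∃ B : Fin 2 → ℤ, B = ![(s : ℤ) + b, (t : ℤ) + b] := ⟨_, rfl⟩
  have hB0 : B 0 = (s : ℤ) + b := by rw [hB]; rfl
  have hB1 : B 1 = (t : ℤ) + b := by rw [hB]; rfl
  have hgB : ∀ p ∈ pz z, ∀ i, ¬ ((p : ℤ) ∣ (q : ℤ) ∧ (p : ℤ) ∣ B i) := by
    intro p hp i
    fin_cases i
    · show ¬ ((p : ℤ) ∣ (q : ℤ) ∧ (p : ℤ) ∣ B 0)
      rw [hB0]
      exact hgood s hs p hp
    · show ¬ ((p : ℤ) ∣ (q : ℤ) ∧ (p : ℤ) ∣ B 1)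
      rw [hB1]
      exact hgood t ht p hp
  have h2 := h1 M hM z hz hzE (fun _ => (q : ℤ)) B hgB
  obtain ⟨G, hG⟩ : ∃ G : ℕ → ℝ, ∀ p, G p = if p ∣ q then 1 else
      if (p : ℤ) ∣ (s : ℤ) - t then 1 - 1 / (p : ℝ) else (1 - 1 / (p : ℝ)) ^ 2 := ⟨_, fun _ => rfl⟩
  have e1 : ∏ p ∈ pz z, (1 - (nuB (Qf (fun _ : Fin 2 => (q : ℤ)) B) p : ℝ) / p) ≤ ∏ p ∈ pz z, G p := by
    refine prod_le_prod (fun p hp => ?_) fun p hp => ?_
    · have hpp := (mem_pz.1 hp).2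
      have hp0 : (0 : ℝ) < p := by exact_mod_cast hpp.pos
      rw [sub_nonneg, div_le_one hp0]
      exact_mod_cast nuB_le _ _
    · have hpp := (mem_pz.1 hp).2
      have hp0 : (0 : ℝ) < p := by exact_mod_cast hpp.pos
      rw [hG]
      split_ifs with hd hd2
      · rw [nu_zero (fun _ => Int.natCast_dvd_natCast.2 hd) (fun i hc => hgB p hp i ⟨Int.natCast_dvd_natCast.2 hd, hc⟩)]
        simp
      · have h3 : 1 ≤ nuB (Qf (fun _ : Fin 2 => (q : ℤ)) B) p := by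
          obtain ⟨r, hr1, hr2⟩ := root hpp (q := (q : ℤ)) (b := B 0) (fun hc => hd (Int.natCast_dvd_natCast.1 hc))
          unfold nuB
          rw [Nat.one_le_iff_ne_zero, Ne, card_eq_zero]
          intro hc
          have : r ∈ (range p).filter (fun r => Qf (fun _ : Fin 2 => (q : ℤ)) B p r) :=
            mem_filter.2 ⟨mem_range.2 hr1, 0, hr2⟩
          rw [hc] at this
          exact absurd this (notMem_empty _)
        have h4 : (1 : ℝ) ≤ nuB (Qf (fun _ : Fin 2 => (q : ℤ)) B) p := by exact_mod_cast h3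
        gcongr
      · rw [nu_full hpp (fun _ hc => hd (Int.natCast_dvd_natCast.1 hc))]
        · push_cast
          have : (1 - 1 / (p : ℝ)) ^ 2 - (1 - 2 / p) = (1 / (p : ℝ)) ^ 2 := by ring
          have h5 : 0 ≤ (1 / (p : ℝ)) ^ 2 := by positivity
          linarith
        · intro i j hij hc
          have h6 : (p : ℤ) ∣ (q : ℤ) * (B j - B i) := by
            rw [mul_sub]
            exact hc
          have h7 := (Nat.prime_iff_prime_int.1 hpp).dvd_or_dvd h6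
          rcases h7 with h7 | h7
          · exact hd (Int.natCast_dvd_natCast.1 h7)
          · refine hd2 ?_
            fin_cases i <;> fin_cases j
            · exact absurd rfl hij
            · have h8 : (p : ℤ) ∣ B 1 - B 0 := h7
              rw [hB0, hB1] at h8
              have h9 : (s : ℤ) - t = -((t + b) - (s + b)) := by ring
              rw [h9]
              exact (dvd_neg).2 h8
            · have h8 : (p : ℤ) ∣ B 0 - B 1 := h7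
              rw [hB0, hB1] at h8
              have h9 : (s : ℤ) - t = ((s + b) - (t + b)) := by ring
              rw [h9]
              exact h8
            · exact absurd rfl hij
  have e2 : (Vz z)⁻¹ ^ 2 * ∏ p ∈ pz z, G p = Qz z q ^ 2 * Wz z q (s - t) := by
    unfold Vz Qz Wz
    rw [prod_filter, prod_filter, ← prod_inv_distrib, ← prod_pow, ← prod_mul_distrib, ← prod_pow, ← prod_mul_distrib]
    refine prod_congr rfl fun p hp => ?_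
    have := one_sub_pos (mem_pz.1 hp).2
    rw [hG]
    by_cases hd : p ∣ q
    · simp [hd]
    · by_cases hd2 : (p : ℤ) ∣ (s : ℤ) - t
      · simp only [hd, hd2, if_true, if_false, not_false_eq_true, and_self]
        field_simp
      · simp only [hd, hd2, if_false, not_false_eq_true, and_false]
        field_simp
  have e3 : ∑ h ∈ Hc N q a, ex (lamz z) h s * ex (lamz z) h t = (Vz z)⁻¹ ^ 2 *
      (((Icc 1 M).filter (fun m => ∀ p ∈ pz z, ¬ Qf (fun _ : Fin 2 => (q : ℤ)) B p m)).card : ℝ) := by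
    rw [hb3, card_filter, Nat.cast_sum, mul_sum]
    refine sum_congr rfl fun m hm => ?_
    rw [mem_Icc] at hm
    have hqm : (q : ℤ) * 1 ≤ q * (m : ℤ) := mul_le_mul_of_nonneg_left (by exact_mod_cast hm.1) (by positivity)
    rw [ex_lamz (by linarith [hb1.1, Int.natCast_nonneg s]), ex_lamz (by linarith [hb1.1, Int.natCast_nonneg t])]
    have e4 : (∀ p ∈ pz z, ¬ Qf (fun _ : Fin 2 => (q : ℤ)) B p m) ↔
        ((∀ p ∈ pz z, ¬ (p : ℤ) ∣ (s : ℤ) + (q * (m : ℤ) + b)) ∧ (∀ p ∈ pz z, ¬ (p : ℤ) ∣ (t : ℤ) + (q * (m : ℤ) + b))) := by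
      rw [← forall₂_and]
      refine forall₂_congr fun p _ => ?_
      unfold Qf
      rw [Fin.exists_fin_two, hB0, hB1, not_or]
      have e5 : (s : ℤ) + (q * (m : ℤ) + b) = q * (m : ℤ) + (s + b) := by ring
      have e6 : (t : ℤ) + (q * (m : ℤ) + b) = q * (m : ℤ) + (t + b) := by ring
      rw [e5, e6]
    simp only [e4]
    by_cases c1 : (∀ p ∈ pz z, ¬ (p : ℤ) ∣ (s : ℤ) + (q * (m : ℤ) + b)) <;>
      by_cases c2 : (∀ p ∈ pz z, ¬ (p : ℤ) ∣ (t : ℤ) + (q * (m : ℤ) + b))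
    · rw [if_pos c1, if_pos c2, if_pos ⟨c1, c2⟩]
      push_cast
      ring
    · have c3 := fun hc : ((∀ p ∈ pz z, ¬ (p : ℤ) ∣ (s : ℤ) + (q * (m : ℤ) + b)) ∧
        (∀ p ∈ pz z, ¬ (p : ℤ) ∣ (t : ℤ) + (q * (m : ℤ) + b))) => c2 hc.2
      rw [if_neg c2, if_neg c3]
      simp
    · have c3 := fun hc : ((∀ p ∈ pz z, ¬ (p : ℤ) ∣ (s : ℤ) + (q * (m : ℤ) + b)) ∧
        (∀ p ∈ pz z, ¬ (p : ℤ) ∣ (t : ℤ) + (q * (m : ℤ) + b))) => c1 hc.1
      rw [if_neg c1, if_neg c3]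
      simp
    · have c3 := fun hc : ((∀ p ∈ pz z, ¬ (p : ℤ) ∣ (s : ℤ) + (q * (m : ℤ) + b)) ∧
        (∀ p ∈ pz z, ¬ (p : ℤ) ∣ (t : ℤ) + (q * (m : ℤ) + b))) => c1 hc.1
      rw [if_neg c1, if_neg c3]
      simp
  rw [e3]
  have h3 := (abs_le.1 h2).2
  have hV2 : 0 < (Vz z)⁻¹ ^ 2 := pow_pos (inv_pos.2 hV) 2
  have h4 : (((Icc 1 M).filter (fun m => ∀ p ∈ pz z, ¬ Qf (fun _ : Fin 2 => (q : ℤ)) B p m)).card : ℝ) ≤
      M * ∏ p ∈ pz z, G p + M / Real.log M ^ U := by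
    have : (M : ℝ) * ∏ p ∈ pz z, (1 - (nuB (Qf (fun _ : Fin 2 => (q : ℤ)) B) p : ℝ) / p) ≤ M * ∏ p ∈ pz z, G p :=
      mul_le_mul_of_nonneg_left e1 (Nat.cast_nonneg _)
    linarith
  calc (Vz z)⁻¹ ^ 2 * _ ≤ (Vz z)⁻¹ ^ 2 * (M * ∏ p ∈ pz z, G p + M / Real.log M ^ U) :=
        mul_le_mul_of_nonneg_left h4 hV2.le
    _ = M * ((Vz z)⁻¹ ^ 2 * ∏ p ∈ pz z, G p) + M * (Vz z)⁻¹ ^ 2 / Real.log M ^ U := by ring
    _ = _ := by rw [e2]

end Pool.Agent.H579.G
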