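import Pool.Agent.H579.G.Dns2
import Pool.Graph.R_seed8.H692R2.USS.T1

set_option autoImplicit false

/-! Pairs of primes whose difference is divisible by many primes. -/

namespace Pool.Agent.H579.G

open Finset
open Pool.Agent.H373R2.T7
open Pool.Agent.Y614.GJ.Core (ev_log)

/-- primes in a progression -/
lemma cnt_ap {N d s : ℕ} (hN : 16 ≤ N) (hd : 1 ≤ d) (hdN : d ^ 2 ≤ N) :
    (((Icc 1 N).filter (fun t => t.Prime ∧ t ≡ s [MOD d])).card : ℝ) ≤ 88 * (N / Real.log N) / Nat.totient d := by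
  classical
  obtain ⟨K, hK⟩ : ∃ K, K = N / d + 1 := ⟨_, rfl⟩
  have hd0 : (0 : ℝ) < d := by exact_mod_cast hd
  have hN0 : (0 : ℝ) < N := by positivity
  have hN16 : (16 : ℝ) ≤ N := by exact_mod_cast hN
  have hdN' : (d : ℝ) ^ 2 ≤ N := by exact_mod_cast hdN
  have hK1 : (N : ℝ) / d ≤ K := by
    rw [hK, div_le_iff₀ hd0]
    have := Nat.lt_div_mul_add (a := N) (b := d) (by omega)
    have h2 : N ≤ (N / d + 1) * d := by
      rw [add_mul, one_mul]
      exact this.le
    exact_mod_cast h2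
  have hK2 : (K : ℝ) ≤ 2 * (N / d) := by
    have h1 : ((N / d : ℕ) : ℝ) ≤ N / d := Nat.cast_div_le
    have h2 : (1 : ℝ) ≤ N / d := by
      rw [le_div_iff₀ hd0]
      have : (1 : ℝ) ≤ d := by exact_mod_cast hd
      nlinarith
    rw [hK]
    push_cast
    linarith
  have hsq : Real.sqrt N ≤ K := by
    refine le_trans ?_ hK1
    rw [le_div_iff₀ hd0]
    have h1 : (d : ℝ) ≤ Real.sqrt N := Real.le_sqrt_of_sq_le hdN'
    have h2 := Real.mul_self_sqrt hN0.le
    have h3 := Real.sqrt_nonneg (N : ℝ)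
    nlinarith
  have hsq4 : (4 : ℝ) ≤ Real.sqrt N := by
    rw [show (4 : ℝ) = Real.sqrt 16 by
      rw [show (16 : ℝ) = 4 ^ 2 by norm_num, Real.sqrt_sq (by norm_num)]]
    exact Real.sqrt_le_sqrt hN16
  have hKr : (2 : ℝ) ≤ K := by linarith
  have hK2' : 2 ≤ K := by exact_mod_cast hKr
  have hlogN : 0 < Real.log N := Real.log_pos (by linarith)
  have hlogK : Real.log N / 2 ≤ Real.log K := by
    rw [← Real.log_sqrt hN0.le]
    exact Real.log_le_log (by linarith) hsq
  have h1 := Pool.Agent.H692R2.USS.t1_brun_titchmarsh (s % d) d K hK2' hd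
  have h2 : ((Icc 1 N).filter (fun t => t.Prime ∧ t ≡ s [MOD d])).card ≤
      ((range K).filter (fun k => (s % d + k * d).Prime)).card := by
    refine card_le_card_of_injOn (fun t => t / d) (fun t ht => ?_) (fun t ht t' ht' htt => ?_)
    · rw [mem_coe, mem_filter, mem_Icc] at ht
      rw [mem_coe, mem_filter, mem_range]
      have e1 : s % d + t / d * d = t := by
        rw [← ht.2.2]
        have := Nat.mod_add_div t d
        rw [mul_comm] at this
        exact this
      refine ⟨?_, by rw [e1]; exact ht.2.1⟩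
      rw [hK]
      exact Nat.lt_succ_of_le (Nat.div_le_div_right ht.1.2)
    · rw [mem_coe, mem_filter, mem_Icc] at ht ht'
      have e1 := Nat.mod_add_div t d
      have e2 := Nat.mod_add_div t' d
      have e3 : t % d = t' % d := by
        have := ht.2.2
        have := ht'.2.2
        unfold Nat.ModEq at *
        omega
      have e4 : t / d = t' / d := htt
      rw [← e1, ← e2, e3, e4]
  have hφ : (0 : ℝ) < Nat.totient d := by exact_mod_cast Nat.totient_pos.2 hd
  calc (((Icc 1 N).filter (fun t => t.Prime ∧ t ≡ s [MOD d])).card : ℝ) ≤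
      (((range K).filter (fun k => (s % d + k * d).Prime)).card : ℝ) := by exact_mod_cast h2
    _ ≤ 22 * ((d : ℝ) / Nat.totient d) * K / Real.log K := h1
    _ ≤ 22 * ((d : ℝ) / Nat.totient d) * (2 * (N / d)) / (Real.log N / 2) := by
        gcongr
    _ = 88 * (N / Real.log N) / Nat.totient d := by
        field_simp
        ring

/-- integers in a progression with a large modulus -/
lemma cnt_big {N d s : ℕ} (hN : 1 ≤ N) (hs : s ∈ Icc 1 N) (hd : 1 ≤ d) :
    (((Icc 1 N).filter (fun t => t ≠ s ∧ t ≡ s [MOD d])).card : ℝ) ≤ 2 * N / d := by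
  classical
  have hd0 : (0 : ℝ) < d := by exact_mod_cast hd
  have hN0 : (0 : ℝ) < N := by exact_mod_cast hN
  rw [mem_Icc] at hs
  by_cases hdN : N ≤ d
  · have : (Icc 1 N).filter (fun t => t ≠ s ∧ t ≡ s [MOD d]) = ∅ := by
      refine filter_false_of_mem fun t ht hc => ?_
      rw [mem_Icc] at ht
      have h2 := hc.2
      rcases lt_trichotomy t s with h | h | h
      · have h3 := (Nat.modEq_iff_dvd' h.le).1 h2
        have := Nat.le_of_dvd (by omega) h3
        omega
      · exact hc.1 h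
      · have h3 := (Nat.modEq_iff_dvd' h.le).1 h2.symm
        have := Nat.le_of_dvd (by omega) h3
        omega
    rw [this]
    simp only [card_empty, Nat.cast_zero]
    positivity
  · have h2 : ((Icc 1 N).filter (fun t => t ≠ s ∧ t ≡ s [MOD d])).card ≤ (range (N / d + 1)).card := by
      refine card_le_card_of_injOn (fun t => t / d) (fun t ht => ?_) (fun t ht t' ht' htt => ?_)
      · rw [mem_coe, mem_filter, mem_Icc] at ht
        rw [mem_coe, mem_range]
        exact Nat.lt_succ_of_le (Nat.div_le_div_right ht.1.2)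
      · rw [mem_coe, mem_filter, mem_Icc] at ht ht'
        have e1 := Nat.mod_add_div t d
        have e2 := Nat.mod_add_div t' d
        have e3 : t % d = t' % d := by
          have := ht.2.2
          have := ht'.2.2
          unfold Nat.ModEq at *
          omega
        have e4 : t / d = t' / d := htt
        rw [← e1, ← e2, e3, e4]
    rw [card_range] at h2
    have h3 : ((N / d : ℕ) : ℝ) ≤ N / d := Nat.cast_div_le
    have h4 : (1 : ℝ) ≤ N / d := by
      rw [le_div_iff₀ hd0, one_mul]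
      exact_mod_cast (not_le.1 hdN).le
    have h5 : (((Icc 1 N).filter (fun t => t ≠ s ∧ t ≡ s [MOD d])).card : ℝ) ≤ (N / d : ℕ) + 1 := by exact_mod_cast h2
    have h6 : 2 * (N : ℝ) / d = N / d + N / d := by ring
    rw [h6]
    linarith

lemma pow_le_lin {x : ℝ} (h0 : 0 ≤ x) (h1 : x ≤ 1) (k : ℕ) : (1 + x) ^ k ≤ 1 + (2 ^ k - 1) * x := by
  induction k with
  | zero => simp
  | succ k ih =>
    have h2 : (1 : ℝ) ≤ 2 ^ k := one_le_pow₀ (by norm_num)
    rw [pow_succ, pow_succ]
    have h3 : (1 + (2 ^ k - 1) * x) * (1 + x) ≤ 1 + (2 ^ k * 2 - 1) * x := by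
      have : x * x ≤ x := by nlinarith
      nlinarith
    exact (mul_le_mul_of_nonneg_right ih (by linarith)).trans h3

/-- the local weight -/
noncomputable def gk (k p : ℕ) : ℝ := ((1 - 1 / (p : ℝ))⁻¹) ^ k - 1

lemma gk_bd {k p : ℕ} (hp : p.Prime) : 0 ≤ gk k p ∧ gk k p ≤ 2 ^ (k + 1) / p := by
  have hp2 : (2 : ℝ) ≤ p := by exact_mod_cast hp.two_le
  have e1 : (1 - 1 / (p : ℝ))⁻¹ = 1 + 1 / (p - 1) := by
    have : (p : ℝ) - 1 ≠ 0 := by linarith
    have h0 : (p : ℝ) ≠ 0 := by linarith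
    field_simp
    ring
  have h1 : 0 ≤ 1 / ((p : ℝ) - 1) := by
    apply div_nonneg <;> linarith
  have h2 : 1 / ((p : ℝ) - 1) ≤ 1 := by
    rw [div_le_one (by linarith)]
    linarith
  have h3 : 1 / ((p : ℝ) - 1) ≤ 2 / p := by
    rw [div_le_div_iff₀ (by linarith) (by linarith)]
    linarith
  unfold gk
  rw [e1]
  constructor
  · have : (1 : ℝ) ≤ (1 + 1 / ((p : ℝ) - 1)) ^ k := one_le_pow₀ (by linarith)
    linarith
  · have h4 := pow_le_lin h1 h2 k
    have h5 : (0 : ℝ) < 2 ^ k := by positivity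
    have h6 : (2 ^ k - 1) * (1 / ((p : ℝ) - 1)) ≤ 2 ^ k * (2 / p) := by
      have : (2 ^ k - 1 : ℝ) ≤ 2 ^ k := by linarith
      exact mul_le_mul this h3 h1 h5.le
    have h7 : (2 : ℝ) ^ (k + 1) / p = 2 ^ k * (2 / p) := by ring
    rw [h7]
    linarith

end Pool.Agent.H579.G
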