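import Pool.Agent.H579.G.Dns3

set_option autoImplicit false

/-! The mean of the local factors over pairs of primes. -/

namespace Pool.Agent.H579.G

open Finset
open Pool.Agent.H373R2.T7

open Classical in
lemma expand_dvd {P : Finset ℕ} (hP : ∀ p ∈ P, p.Prime) (g : ℕ → ℝ) (n : ℤ) :
    ∏ p ∈ P.filter (fun p : ℕ => (p : ℤ) ∣ n), (1 + g p) =
      ∑ T ∈ P.powerset, (∏ p ∈ T, g p) * (if ((∏ p ∈ T, p : ℕ) : ℤ) ∣ n then 1 else 0) := by
  rw [prod_filter]
  have e1 : ∏ p ∈ P, (if (p : ℤ) ∣ n then 1 + g p else 1) = ∏ p ∈ P, (1 + if (p : ℤ) ∣ n then g p else 0) := by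
    refine prod_congr rfl fun p _ => ?_
    split_ifs <;> simp
  rw [e1, prod_one_add]
  refine sum_congr rfl fun T hT => ?_
  rw [mem_powerset] at hT
  by_cases h : ((∏ p ∈ T, p : ℕ) : ℤ) ∣ n
  · rw [if_pos h, mul_one]
    refine prod_congr rfl fun p hp => if_pos ?_
    refine dvd_trans ?_ h
    exact_mod_cast dvd_prod_of_mem (fun p => p) hp
  · rw [if_neg h, mul_zero]
    have : ∃ p ∈ T, ¬ (p : ℤ) ∣ n := by
      by_contra hc
      push Not at hc
      refine h ?_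
      rw [Int.natCast_dvd]
      refine Finset.prod_primes_dvd _ (fun p hp => (hP p (hT hp)).prime) fun p hp => ?_
      exact Int.natCast_dvd.1 (hc p hp)
    obtain ⟨p, hp, hpn⟩ := this
    exact prod_eq_zero hp (if_neg hpn)

lemma totient_prod {T : Finset ℕ} (hT : ∀ p ∈ T, p.Prime) :
    ((Nat.totient (∏ p ∈ T, p) : ℕ) : ℝ) = ∏ p ∈ T, ((p : ℝ) - 1) := by
  classical
  induction T using Finset.induction_on with
  | empty => simp
  | insert p T hp ih =>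
    rw [prod_insert hp, prod_insert hp, Nat.totient_mul]
    · rw [Nat.totient_prime (hT p (mem_insert_self _ _)), Nat.cast_mul, ih fun r hr => hT r (mem_insert_of_mem hr),
        Nat.cast_sub (hT p (mem_insert_self _ _)).one_lt.le, Nat.cast_one]
    · refine Nat.Coprime.prod_right fun r hr => ?_
      rw [Nat.coprime_primes (hT p (mem_insert_self _ _)) (hT r (mem_insert_of_mem hr))]
      intro hc
      exact hp (hc ▸ hr)

lemma sqrt_prod' (T : Finset ℕ) : Real.sqrt ((∏ p ∈ T, p : ℕ) : ℝ) = ∏ p ∈ T, Real.sqrt p := by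
  classical
  induction T using Finset.induction_on with
  | empty => simp
  | insert p T hp ih =>
    rw [prod_insert hp, prod_insert hp, Nat.cast_mul, Real.sqrt_mul (Nat.cast_nonneg _), ih]

open Classical in
lemma cnt_pair {N d s : ℕ} (hN : 16 ≤ N) (hd : 1 ≤ d) {S : Finset ℕ} (hS : S ⊆ Icc 1 N) (hSp : ∀ s ∈ S, s.Prime)
    (hs : s ∈ S) :
    (((S.erase s).filter (fun t : ℕ => (d : ℤ) ∣ (s : ℤ) - t)).card : ℝ) ≤
      88 * (N / Real.log N) / Nat.totient d + 2 * (N / Real.sqrt (Real.sqrt N)) / Real.sqrt d := by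
  have hN0 : (0 : ℝ) < N := by positivity
  have hN16 : (16 : ℝ) ≤ N := by exact_mod_cast hN
  have hlogN : 0 < Real.log N := Real.log_pos (by linarith)
  have hd0 : (0 : ℝ) < d := by exact_mod_cast hd
  have hr : 0 < Real.sqrt (Real.sqrt N) := Real.sqrt_pos.2 (Real.sqrt_pos.2 hN0)
  have hsd : 0 < Real.sqrt d := Real.sqrt_pos.2 hd0
  have hA : 0 ≤ 88 * (N / Real.log N) / Nat.totient d := by positivity
  have hB : 0 ≤ 2 * (N / Real.sqrt (Real.sqrt N)) / Real.sqrt d := by positivity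
  by_cases h : d ^ 2 ≤ N
  · have h1 := cnt_ap (s := s) hN hd h
    have h2 : ((S.erase s).filter (fun t : ℕ => (d : ℤ) ∣ (s : ℤ) - t)).card ≤
        ((Icc 1 N).filter (fun t => t.Prime ∧ t ≡ s [MOD d])).card := by
      refine card_le_card fun t ht => ?_
      rw [mem_filter, mem_erase] at ht
      rw [mem_filter]
      exact ⟨hS ht.1.2, hSp t ht.1.2, Nat.modEq_iff_dvd.2 ht.2⟩
    have h3 : (((S.erase s).filter (fun t : ℕ => (d : ℤ) ∣ (s : ℤ) - t)).card : ℝ) ≤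
        (((Icc 1 N).filter (fun t => t.Prime ∧ t ≡ s [MOD d])).card : ℝ) := by exact_mod_cast h2
    linarith
  · have h1 := cnt_big (by omega) (hS hs) hd
    have h2 : ((S.erase s).filter (fun t : ℕ => (d : ℤ) ∣ (s : ℤ) - t)).card ≤
        ((Icc 1 N).filter (fun t => t ≠ s ∧ t ≡ s [MOD d])).card := by
      refine card_le_card fun t ht => ?_
      rw [mem_filter, mem_erase] at ht
      rw [mem_filter]
      exact ⟨hS ht.1.2, ht.1.1, Nat.modEq_iff_dvd.2 ht.2⟩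
    have h3 : (((S.erase s).filter (fun t : ℕ => (d : ℤ) ∣ (s : ℤ) - t)).card : ℝ) ≤
        (((Icc 1 N).filter (fun t => t ≠ s ∧ t ≡ s [MOD d])).card : ℝ) := by exact_mod_cast h2
    have h4 : Real.sqrt N ≤ d := by
      have : (N : ℝ) ≤ (d : ℝ) ^ 2 := by exact_mod_cast (not_le.1 h).le
      rw [Real.sqrt_le_left hd0.le]
      exact this
    have h5 : Real.sqrt (Real.sqrt N) * Real.sqrt d ≤ d := by
      have h6 := Real.sqrt_le_sqrt h4
      calc Real.sqrt (Real.sqrt N) * Real.sqrt d ≤ Real.sqrt d * Real.sqrt d := by gcongr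
        _ = d := Real.mul_self_sqrt hd0.le
    have h7 : 2 * (N : ℝ) / d ≤ 2 * (N / Real.sqrt (Real.sqrt N)) / Real.sqrt d := by
      have e : 2 * (N / Real.sqrt (Real.sqrt N)) / Real.sqrt d = 2 * N / (Real.sqrt (Real.sqrt N) * Real.sqrt d) := by
        field_simp
      rw [e]
      exact div_le_div_of_nonneg_left (by positivity) (by positivity) h5
    linarith

open Classical in
/-- the mean of the local factors over pairs of primes -/
theorem pair_bd (k : ℕ) : ∃ C : ℝ, 0 < C ∧ ∀ N : ℕ, 16 ≤ N → ∀ z w : ℕ, (z : ℝ) * Real.log N ≤ Real.sqrt (Real.sqrt N) →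
    1 ≤ w → ∀ S : Finset ℕ, S ⊆ Icc 1 N → (∀ s ∈ S, s.Prime) →
    ∑ s ∈ S, ∑ t ∈ S.erase s, (∏ p ∈ (pz z).filter (fun p : ℕ => w < p ∧ (p : ℤ) ∣ (s : ℤ) - t),
      ((1 - 1 / (p : ℝ))⁻¹) ^ k - 1) ≤ C * (N / Real.log N) ^ 2 / w := by
  obtain ⟨K, hK⟩ : ∃ K, K = ∑' n : ℕ, 1 / (n : ℝ) ^ (3 / 2 : ℝ) := ⟨_, rfl⟩
  obtain ⟨G, hG⟩ : ∃ G : ℝ, G = 2 ^ (k + 1) := ⟨_, rfl⟩
  have hG0 : 0 < G := by rw [hG]; positivity
  have hsum : Summable fun n : ℕ => 1 / (n : ℝ) ^ (3 / 2 : ℝ) := Real.summable_one_div_nat_rpow.2 (by norm_num)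
  refine ⟨88 * (88 * (2 * G * Real.exp (2 * G)) + 2 * Real.exp (G * K)), by positivity,
    fun N hN z w hz hw S hS hSp => ?_⟩
  have hN0 : (0 : ℝ) < N := by positivity
  have hN16 : (16 : ℝ) ≤ N := by exact_mod_cast hN
  have hlogN : 0 < Real.log N := Real.log_pos (by linarith)
  have hw0 : (0 : ℝ) < w := by exact_mod_cast hw
  have hw1 : (1 : ℝ) ≤ w := by exact_mod_cast hw
  by_cases hwz : z ≤ w
  · have : ∀ s ∈ S, ∀ t ∈ S.erase s, (∏ p ∈ (pz z).filter (fun p : ℕ => w < p ∧ (p : ℤ) ∣ (s : ℤ) - t),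
        ((1 - 1 / (p : ℝ))⁻¹) ^ k - 1) = 0 := by
      intro s _ t _
      have : (pz z).filter (fun p : ℕ => w < p ∧ (p : ℤ) ∣ (s : ℤ) - t) = ∅ := by
        refine filter_false_of_mem fun p hp => ?_
        have := (mem_pz.1 hp).1
        omega
      rw [this]
      simp
    rw [sum_congr rfl fun s hs => sum_eq_zero (this s hs)]
    simp only [sum_const_zero]
    positivity
  rw [not_le] at hwz
  obtain ⟨P, hP⟩ : ∃ P, P = (pz z).filter (fun p => w < p) := ⟨_, rfl⟩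
  have hPp : ∀ p ∈ P, p.Prime := fun p hp => by
    rw [hP, mem_filter] at hp
    exact (mem_pz.1 hp.1).2
  have hPw : ∀ p ∈ P, w < p ∧ p ≤ z := fun p hp => by
    rw [hP, mem_filter] at hp
    exact ⟨hp.2, (mem_pz.1 hp.1).1⟩
  have hg0 : ∀ p ∈ P, 0 ≤ gk k p := fun p hp => (gk_bd (hPp p hp)).1
  have hg1 : ∀ p ∈ P, gk k p ≤ G / p := fun p hp => by rw [hG]; exact (gk_bd (hPp p hp)).2
  have e1 : ∀ s t : ℕ, (∏ p ∈ (pz z).filter (fun p : ℕ => w < p ∧ (p : ℤ) ∣ (s : ℤ) - t),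
      ((1 - 1 / (p : ℝ))⁻¹) ^ k - 1) = ∑ T ∈ P.powerset.erase ∅, (∏ p ∈ T, gk k p) *
        (if ((∏ p ∈ T, p : ℕ) : ℤ) ∣ (s : ℤ) - t then 1 else 0) := by
    intro s t
    have h1 : (pz z).filter (fun p : ℕ => w < p ∧ (p : ℤ) ∣ (s : ℤ) - t) = P.filter (fun p : ℕ => (p : ℤ) ∣ (s : ℤ) - t) := by
      rw [hP, filter_filter]
    have h2 := expand_dvd hPp (gk k) ((s : ℤ) - t)
    have h3 : ∏ p ∈ P.filter (fun p : ℕ => (p : ℤ) ∣ (s : ℤ) - t), (1 + gk k p) =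
        ∏ p ∈ P.filter (fun p : ℕ => (p : ℤ) ∣ (s : ℤ) - t), ((1 - 1 / (p : ℝ))⁻¹) ^ k := by
      refine prod_congr rfl fun p _ => ?_
      unfold gk
      ring
    rw [h1, ← h3, h2, ← sum_erase_add _ _ (empty_mem_powerset P)]
    simp
  have e2 : ∑ s ∈ S, ∑ t ∈ S.erase s, (∏ p ∈ (pz z).filter (fun p : ℕ => w < p ∧ (p : ℤ) ∣ (s : ℤ) - t),
      ((1 - 1 / (p : ℝ))⁻¹) ^ k - 1) = ∑ T ∈ P.powerset.erase ∅, (∏ p ∈ T, gk k p) *
        ∑ s ∈ S, (((S.erase s).filter (fun t : ℕ => ((∏ p ∈ T, p : ℕ) : ℤ) ∣ (s : ℤ) - t)).card : ℝ) := by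
    rw [sum_congr rfl fun s _ => sum_congr rfl fun t _ => e1 s t]
    rw [sum_congr rfl fun s _ => sum_comm]
    rw [sum_comm]
    refine sum_congr rfl fun T _ => ?_
    rw [mul_sum]
    refine sum_congr rfl fun s _ => ?_
    rw [← mul_sum, card_filter, Nat.cast_sum]
    congr 1
    refine sum_congr rfl fun t _ => ?_
    split_ifs <;> simp
  have hS2 : (S.card : ℝ) ≤ 88 * (N / Real.log N) := by
    have h1 := cnt_ap (s := 0) hN le_rfl (by omega : 1 ^ 2 ≤ N)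
    have h2 : S.card ≤ ((Icc 1 N).filter (fun t => t.Prime ∧ t ≡ 0 [MOD 1])).card := by
      refine card_le_card fun t ht => ?_
      rw [mem_filter]
      exact ⟨hS ht, hSp t ht, Nat.modEq_one⟩
    rw [Nat.totient_one, Nat.cast_one, div_one] at h1
    exact le_trans (by exact_mod_cast h2) h1
  have hr : 0 < Real.sqrt (Real.sqrt N) := Real.sqrt_pos.2 (Real.sqrt_pos.2 hN0)
  have hTp : ∀ T ∈ P.powerset, ∀ p ∈ T, p.Prime := fun T hT p hp => hPp p (mem_powerset.1 hT hp)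
  have e3 : ∀ T ∈ P.powerset.erase ∅, (∏ p ∈ T, gk k p) *
        ∑ s ∈ S, (((S.erase s).filter (fun t : ℕ => ((∏ p ∈ T, p : ℕ) : ℤ) ∣ (s : ℤ) - t)).card : ℝ) ≤
      S.card * (88 * (N / Real.log N)) * ∏ p ∈ T, (gk k p / ((p : ℝ) - 1)) +
      S.card * (2 * (N / Real.sqrt (Real.sqrt N))) * ∏ p ∈ T, (gk k p / Real.sqrt p) := by
    intro T hT
    have hT' := mem_of_mem_erase hT
    have hd1 : 1 ≤ ∏ p ∈ T, p := Finset.prod_pos fun p hp => (hTp T hT' p hp).pos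
    have hg : 0 ≤ ∏ p ∈ T, gk k p := prod_nonneg fun p hp => hg0 p (mem_powerset.1 hT' hp)
    calc (∏ p ∈ T, gk k p) * ∑ s ∈ S, (((S.erase s).filter (fun t : ℕ => ((∏ p ∈ T, p : ℕ) : ℤ) ∣ (s : ℤ) - t)).card : ℝ)
        ≤ (∏ p ∈ T, gk k p) * ∑ _s ∈ S, (88 * (N / Real.log N) / Nat.totient (∏ p ∈ T, p) +
          2 * (N / Real.sqrt (Real.sqrt N)) / Real.sqrt ((∏ p ∈ T, p : ℕ) : ℝ)) := by
          refine mul_le_mul_of_nonneg_left (sum_le_sum fun s hs => ?_) hg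
          exact cnt_pair hN hd1 hS hSp hs
      _ = _ := by
          rw [sum_const, nsmul_eq_mul, totient_prod (hTp T hT'), sqrt_prod', prod_div_distrib, prod_div_distrib]
          ring
  rw [e2]
  refine (sum_le_sum e3).trans ?_
  rw [sum_add_distrib, ← mul_sum, ← mul_sum]
  have hA0 : ∀ p ∈ P, 0 ≤ gk k p / ((p : ℝ) - 1) := fun p hp => by
    have : (2 : ℝ) ≤ p := by exact_mod_cast (hPp p hp).two_le
    exact div_nonneg (hg0 p hp) (by linarith)
  have hB0 : ∀ p ∈ P, 0 ≤ gk k p / Real.sqrt p := fun p hp => div_nonneg (hg0 p hp) (Real.sqrt_nonneg _)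
  have hA1 : ∑ p ∈ P, gk k p / ((p : ℝ) - 1) ≤ 2 * G / w := by
    have h1 : ∀ p ∈ P, gk k p / ((p : ℝ) - 1) ≤ 2 * G * ((p : ℝ) ^ 2)⁻¹ := by
      intro p hp
      have h2 : (2 : ℝ) ≤ p := by exact_mod_cast (hPp p hp).two_le
      have h3 : (p : ℝ) / 2 ≤ p - 1 := by linarith
      calc gk k p / ((p : ℝ) - 1) ≤ (G / p) / (p / 2) :=
            div_le_div₀ (by positivity) (hg1 p hp) (by positivity) h3
        _ = 2 * G * ((p : ℝ) ^ 2)⁻¹ := by
            field_simp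
    refine (sum_le_sum h1).trans ?_
    rw [← mul_sum]
    have h4 : ∑ p ∈ P, ((p : ℝ) ^ 2)⁻¹ ≤ ∑ p ∈ Ioc w z, ((p : ℝ) ^ 2)⁻¹ := by
      refine sum_le_sum_of_subset_of_nonneg (fun p hp => mem_Ioc.2 (hPw p hp)) fun p _ _ => by positivity
    have h5 := sum_Ioc_inv_sq_le_sub (α := ℝ) (k := w) (n := z) (by omega) hwz.le
    have h6 : (0 : ℝ) ≤ (z : ℝ)⁻¹ := by positivity
    calc 2 * G * ∑ p ∈ P, ((p : ℝ) ^ 2)⁻¹ ≤ 2 * G * (w : ℝ)⁻¹ := by gcongr; linarith
      _ = 2 * G / w := by ring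
  have hA2 : ∑ T ∈ P.powerset.erase ∅, ∏ p ∈ T, (gk k p / ((p : ℝ) - 1)) ≤ 2 * G / w * Real.exp (2 * G) := by
    have h1 : ∑ T ∈ P.powerset.erase ∅, ∏ p ∈ T, (gk k p / ((p : ℝ) - 1)) =
        ∏ p ∈ P, (1 + gk k p / ((p : ℝ) - 1)) - 1 := by
      rw [prod_one_add, ← sum_erase_add _ _ (empty_mem_powerset P)]
      simp
    have h2 : ∏ p ∈ P, (1 + gk k p / ((p : ℝ) - 1)) ≤ Real.exp (∑ p ∈ P, gk k p / ((p : ℝ) - 1)) := by
      rw [Real.exp_sum]
      refine prod_le_prod (fun p hp => by linarith [hA0 p hp]) fun p _ => ?_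
      linarith [Real.add_one_le_exp (gk k p / ((p : ℝ) - 1))]
    have h3 : Real.exp (∑ p ∈ P, gk k p / ((p : ℝ) - 1)) ≤ Real.exp (2 * G / w) := Real.exp_le_exp.2 hA1
    have h4 : 2 * G / w ≤ 2 * G := div_le_self (by positivity) hw1
    have h5 : Real.exp (2 * G / w) - 1 ≤ 2 * G / w * Real.exp (2 * G / w) := by
      have h6 := Real.add_one_le_exp (-(2 * G / w))
      have h7 : Real.exp (2 * G / w) * Real.exp (-(2 * G / w)) = 1 := by rw [← Real.exp_add]; simp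
      have h8 := Real.exp_pos (2 * G / w)
      nlinarith
    have h9 : 2 * G / w * Real.exp (2 * G / w) ≤ 2 * G / w * Real.exp (2 * G) :=
      mul_le_mul_of_nonneg_left (Real.exp_le_exp.2 h4) (by positivity)
    linarith
  have hB1 : ∑ p ∈ P, gk k p / Real.sqrt p ≤ G * K := by
    have h1 : ∀ p ∈ P, gk k p / Real.sqrt p ≤ G * (1 / (p : ℝ) ^ (3 / 2 : ℝ)) := by
      intro p hp
      have h2 : (0 : ℝ) < p := by exact_mod_cast (hPp p hp).pos
      have h3 : (p : ℝ) ^ (3 / 2 : ℝ) = p * Real.sqrt p := by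
        rw [Real.sqrt_eq_rpow, show (3 / 2 : ℝ) = 1 + 1 / 2 by norm_num, Real.rpow_add h2, Real.rpow_one]
      have h4 : 0 < Real.sqrt p := Real.sqrt_pos.2 h2
      rw [h3]
      calc gk k p / Real.sqrt p ≤ (G / p) / Real.sqrt p := div_le_div_of_nonneg_right (hg1 p hp) h4.le
        _ = _ := by field_simp
    refine (sum_le_sum h1).trans ?_
    rw [← mul_sum, hK]
    exact mul_le_mul_of_nonneg_left (hsum.sum_le_tsum _ fun p _ => by positivity) hG0.le
  have hB2 : ∑ T ∈ P.powerset.erase ∅, ∏ p ∈ T, (gk k p / Real.sqrt p) ≤ Real.exp (G * K) := by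
    have h1 : ∑ T ∈ P.powerset.erase ∅, ∏ p ∈ T, (gk k p / Real.sqrt p) ≤
        ∏ p ∈ P, (1 + gk k p / Real.sqrt p) := by
      rw [prod_one_add]
      refine sum_le_sum_of_subset_of_nonneg (erase_subset _ _) fun T hT _ => ?_
      exact prod_nonneg fun p hp => hB0 p (mem_powerset.1 hT hp)
    have h2 : ∏ p ∈ P, (1 + gk k p / Real.sqrt p) ≤ Real.exp (∑ p ∈ P, gk k p / Real.sqrt p) := by
      rw [Real.exp_sum]
      refine prod_le_prod (fun p hp => by linarith [hB0 p hp]) fun p _ => ?_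
      linarith [Real.add_one_le_exp (gk k p / Real.sqrt p)]
    exact h1.trans (h2.trans (Real.exp_le_exp.2 hB1))
  have hX : 0 < (N : ℝ) / Real.log N := by positivity
  have hrw : (N : ℝ) / Real.sqrt (Real.sqrt N) ≤ N / Real.log N / w := by
    rw [div_div]
    refine div_le_div_of_nonneg_left hN0.le (by positivity) (le_trans ?_ hz)
    rw [mul_comm]
    have : (w : ℝ) ≤ z := by exact_mod_cast hwz.le
    gcongr
  calc S.card * (88 * (N / Real.log N)) * ∑ T ∈ P.powerset.erase ∅, ∏ p ∈ T, (gk k p / ((p : ℝ) - 1)) +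
      S.card * (2 * (N / Real.sqrt (Real.sqrt N))) * ∑ T ∈ P.powerset.erase ∅, ∏ p ∈ T, (gk k p / Real.sqrt p)
      ≤ (88 * (N / Real.log N)) * (88 * (N / Real.log N)) * (2 * G / w * Real.exp (2 * G)) +
      (88 * (N / Real.log N)) * (2 * (N / Real.log N / w)) * Real.exp (G * K) := by
        gcongr
        · exact sum_nonneg fun T hT => prod_nonneg fun p hp => hA0 p (mem_powerset.1 (mem_of_mem_erase hT) hp)
        · exact sum_nonneg fun T hT => prod_nonneg fun p hp => hB0 p (mem_powerset.1 (mem_of_mem_erase hT) hp)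
    _ = _ := by
        field_simp

end Pool.Agent.H579.G
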