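import Mathlib

set_option autoImplicit false

/-! From one form to several forms: replacing several factors one after the other, with arbitrary weights. -/

namespace Pool.Agent.H579.G

open Finset

lemma abs_prod_le_one {k : ℕ} {f : Fin k → ℝ} (h : ∀ i, |f i| ≤ 1) : |∏ i, f i| ≤ 1 := by
  rw [abs_prod]
  exact prod_le_one (fun i _ => abs_nonneg _) fun i _ => h i

/-- the iteration -/
lemma multi2 {δ η : ℝ} (hη : 0 ≤ η) : ∀ (k : ℕ) (S : Finset ℕ) (H : Fin k → Finset ℤ) (X : Fin k → ℝ)
    (f g : Fin k → ℤ → ℕ → ℝ), (∀ i, ((H i).card : ℝ) ≤ X i) →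
    (∀ i, ∀ h ∈ H i, ∀ n ∈ S, |f i h n| ≤ 1) → (∀ i, ∀ h ∈ H i, ∀ n ∈ S, |g i h n| ≤ 1) →
    (∀ i, ∀ w : ℕ → ℝ, (∀ n ∈ S, |w n| ≤ 1) → ∀ F : Finset ℤ, F ⊆ H i →
      (∀ h ∈ F, δ < |∑ n ∈ S, w n * (f i h n - g i h n)|) → (F.card : ℝ) ≤ η * X i) →
    ∀ w : ℕ → ℝ, (∀ n ∈ S, |w n| ≤ 1) → ∀ T : Finset (Fin k → ℤ), (∀ h ∈ T, ∀ i, h i ∈ H i) →
      (∀ h ∈ T, k * δ < |∑ n ∈ S, w n * (∏ i, f i (h i) n - ∏ i, g i (h i) n)|) →
      (T.card : ℝ) ≤ k * η * ∏ i, X i := by
  classical
  intro k
  induction k with
  | zero =>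
    intro S H X f g _ _ _ _ w _ T _ hT
    have : T = ∅ := by
      rw [Finset.eq_empty_iff_forall_notMem]
      intro h hh
      have h1 := hT h hh
      simp at h1
    rw [this]
    simp
  | succ k ih =>
    intro S H X f g hH hf hg hone w hw T hTH hT
    have hX0 : ∀ i, 0 ≤ X i := fun i => (Nat.cast_nonneg _).trans (hH i)
    obtain ⟨T1, hT1⟩ : ∃ T1 : Finset (Fin (k + 1) → ℤ), T1 = T.filter (fun h =>
      δ < |∑ n ∈ S, (w n * ∏ i : Fin k, g i.succ (h i.succ) n) * (f 0 (h 0) n - g 0 (h 0) n)|) := ⟨_, rfl⟩
    obtain ⟨T2, hT2⟩ : ∃ T2 : Finset (Fin (k + 1) → ℤ), T2 = T.filter (fun h =>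
      k * δ < |∑ n ∈ S, (w n * f 0 (h 0) n) *
        (∏ i : Fin k, f i.succ (h i.succ) n - ∏ i : Fin k, g i.succ (h i.succ) n)|) := ⟨_, rfl⟩
    have hsub : T ⊆ T1 ∪ T2 := by
      intro h hh
      rw [mem_union, hT1, hT2, mem_filter, mem_filter]
      by_contra hcon
      push Not at hcon
      have c1 := hcon.1 hh
      have c2 := hcon.2 hh
      have c3 := hT h hh
      have e1 : ∑ n ∈ S, w n * (∏ i, f i (h i) n - ∏ i, g i (h i) n) =
          ∑ n ∈ S, (w n * f 0 (h 0) n) *
            (∏ i : Fin k, f i.succ (h i.succ) n - ∏ i : Fin k, g i.succ (h i.succ) n) +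
          ∑ n ∈ S, (w n * ∏ i : Fin k, g i.succ (h i.succ) n) * (f 0 (h 0) n - g 0 (h 0) n) := by
        rw [← sum_add_distrib]
        refine sum_congr rfl fun n _ => ?_
        rw [Fin.prod_univ_succ, Fin.prod_univ_succ]
        ring
      rw [e1] at c3
      have c4 := abs_add_le (∑ n ∈ S, (w n * f 0 (h 0) n) *
            (∏ i : Fin k, f i.succ (h i.succ) n - ∏ i : Fin k, g i.succ (h i.succ) n))
          (∑ n ∈ S, (w n * ∏ i : Fin k, g i.succ (h i.succ) n) * (f 0 (h 0) n - g 0 (h 0) n))
      push_cast at c3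
      linarith
    have hcard := (card_le_card hsub).trans (card_union_le _ _)
    -- the first kind
    have hb1 : (T1.card : ℝ) ≤ (η * X 0) * ∏ i : Fin k, X i.succ := by
      have q1 : (T1.card : ℝ) = ∑ g' ∈ T1.image (fun h => fun i : Fin k => h i.succ),
          ((T1.filter (fun h => (fun i : Fin k => h i.succ) = g')).card : ℝ) := by
        rw [card_eq_sum_card_image (fun h => fun i : Fin k => h i.succ) T1]
        push_cast
        rfl
      rw [q1]
      have q2 : ∀ g' ∈ T1.image (fun h => fun i : Fin k => h i.succ),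
          ((T1.filter (fun h => (fun i : Fin k => h i.succ) = g')).card : ℝ) ≤ η * X 0 := by
        intro g' hg'
        have q3 : (T1.filter (fun h => (fun i : Fin k => h i.succ) = g')).card =
            ((T1.filter (fun h => (fun i : Fin k => h i.succ) = g')).image (fun h => h 0)).card := by
          rw [card_image_of_injOn]
          intro x hx y hy hxy
          rw [mem_coe, mem_filter] at hx hy
          funext i
          refine Fin.cases hxy (fun j => ?_) i
          have := hx.2.trans hy.2.symm
          exact congrFun this j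
        rw [q3]
        have hg'' : ∀ i : Fin k, g' i ∈ H i.succ := by
          intro i
          rw [mem_image] at hg'
          obtain ⟨h, hh, rfl⟩ := hg'
          rw [hT1, mem_filter] at hh
          exact hTH h hh.1 i.succ
        refine hone 0 (fun n => w n * ∏ i : Fin k, g i.succ (g' i) n) (fun n hn => ?_) _ ?_ ?_
        · rw [abs_mul]
          exact mul_le_one₀ (hw n hn) (abs_nonneg _) (abs_prod_le_one fun i => hg i.succ (g' i) (hg'' i) n hn)
        · intro a ha
          rw [mem_image] at ha
          obtain ⟨h, hh, rfl⟩ := ha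
          rw [mem_filter, hT1, mem_filter] at hh
          exact hTH h hh.1.1 0
        · intro a ha
          rw [mem_image] at ha
          obtain ⟨h, hh, rfl⟩ := ha
          rw [mem_filter, hT1, mem_filter] at hh
          obtain ⟨⟨-, h2⟩, h3⟩ := hh
          have h4 : ∀ i : Fin k, h i.succ = g' i := fun i => congrFun h3 i
          simp only [h4] at h2
          exact h2
      refine (sum_le_sum q2).trans ?_
      rw [sum_const, nsmul_eq_mul, mul_comm]
      refine mul_le_mul_of_nonneg_left ?_ (mul_nonneg hη (hX0 0))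
      have q4 : (T1.image (fun h => fun i : Fin k => h i.succ)) ⊆ Fintype.piFinset (fun i : Fin k => H i.succ) := by
        intro g hg
        rw [mem_image] at hg
        obtain ⟨h, hh, rfl⟩ := hg
        rw [Fintype.mem_piFinset]
        intro i
        rw [hT1, mem_filter] at hh
        exact hTH h hh.1 i.succ
      have q5 := card_le_card q4
      rw [Fintype.card_piFinset] at q5
      calc ((T1.image (fun h => fun i : Fin k => h i.succ)).card : ℝ) ≤ ((∏ i : Fin k, (H i.succ).card : ℕ) : ℝ) := by
            exact_mod_cast q5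
        _ = ∏ i : Fin k, ((H i.succ).card : ℝ) := by push_cast; rfl
        _ ≤ _ := prod_le_prod (fun i _ => Nat.cast_nonneg _) fun i _ => hH i.succ
    -- the second kind
    have hb2 : (T2.card : ℝ) ≤ X 0 * (k * η * ∏ i : Fin k, X i.succ) := by
      have q1 : (T2.card : ℝ) = ∑ a ∈ T2.image (fun h => h 0), ((T2.filter (fun h => h 0 = a)).card : ℝ) := by
        rw [card_eq_sum_card_image (fun h => h 0) T2]
        push_cast
        rfl
      rw [q1]
      have hXp : 0 ≤ ∏ i : Fin k, X i.succ := prod_nonneg fun i _ => hX0 _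
      have q2 : ∀ a ∈ T2.image (fun h => h 0), ((T2.filter (fun h => h 0 = a)).card : ℝ) ≤
          k * η * ∏ i : Fin k, X i.succ := by
        intro a ha
        have haH : a ∈ H 0 := by
          rw [mem_image] at ha
          obtain ⟨h, hh, rfl⟩ := ha
          rw [hT2, mem_filter] at hh
          exact hTH h hh.1 0
        have q3 : (T2.filter (fun h => h 0 = a)).card =
            ((T2.filter (fun h => h 0 = a)).image (fun h => fun i : Fin k => h i.succ)).card := by
          rw [card_image_of_injOn]
          intro x hx y hy hxy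
          rw [mem_coe, mem_filter] at hx hy
          funext i
          refine Fin.cases (hx.2.trans hy.2.symm) (fun j => ?_) i
          exact congrFun hxy j
        rw [q3]
        refine ih S (fun i => H i.succ) (fun i => X i.succ) (fun i => f i.succ) (fun i => g i.succ)
          (fun i => hH i.succ) (fun i => hf i.succ) (fun i => hg i.succ) (fun i => hone i.succ)
          (fun n => w n * f 0 a n) (fun n hn => ?_) _ ?_ ?_
        · rw [abs_mul]
          exact mul_le_one₀ (hw n hn) (abs_nonneg _) (hf 0 a haH n hn)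
        · intro g hg i
          rw [mem_image] at hg
          obtain ⟨h, hh, rfl⟩ := hg
          rw [mem_filter, hT2, mem_filter] at hh
          exact hTH h hh.1.1 i.succ
        · intro g' hg'
          rw [mem_image] at hg'
          obtain ⟨h, hh, rfl⟩ := hg'
          rw [mem_filter, hT2, mem_filter] at hh
          obtain ⟨⟨-, h2⟩, h3⟩ := hh
          rw [h3] at h2
          exact h2
      refine (sum_le_sum q2).trans ?_
      rw [sum_const, nsmul_eq_mul]
      refine mul_le_mul_of_nonneg_right ?_ (by positivity)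
      have q4 : T2.image (fun h => h 0) ⊆ H 0 := by
        intro g hg
        rw [mem_image] at hg
        obtain ⟨h, hh, rfl⟩ := hg
        rw [hT2, mem_filter] at hh
        exact hTH h hh.1 0
      have q5 := card_le_card q4
      have q6 : ((T2.image (fun h => h 0)).card : ℝ) ≤ ((H 0).card : ℝ) := by exact_mod_cast q5
      exact q6.trans (hH 0)
    have hc : (T.card : ℝ) ≤ (T1.card : ℝ) + (T2.card : ℝ) := by exact_mod_cast hcard
    rw [Fin.prod_univ_succ]
    push_cast
    nlinarith

end Pool.Agent.H579.G
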