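import Mathlib

set_option autoImplicit false

/-! From one form to several forms: iteration of a statement on arbitrary sets. -/

namespace Pool.Agent.H579.G

open Finset

/-- the iteration -/
lemma multi {δ η : ℝ} (hδ : 0 ≤ δ) (hη : 0 ≤ η) : ∀ (k : ℕ) (S : Finset ℕ) (H : Fin k → Finset ℤ) (X : Fin k → ℝ)
    (lam : Fin k → ℝ) (pr ro : Fin k → ℤ → ℕ → Prop), (∀ i, ((H i).card : ℝ) ≤ X i) → (∀ i, 0 ≤ lam i) →
    (∀ i, lam i ≤ 1) →
    (∀ i, ∀ S' ⊆ S, ∀ F : Finset ℤ, F ⊆ H i →
      (∀ h ∈ F, ((S' : Set ℕ) ∩ {n | pr i h n}).ncard < lam i * ((S' : Set ℕ) ∩ {n | ro i h n}).ncard - δ) →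
      (F.card : ℝ) ≤ η * X i) →
    ∀ T : Finset (Fin k → ℤ), (∀ h ∈ T, ∀ i, h i ∈ H i) →
      (∀ h ∈ T, ((S : Set ℕ) ∩ {n | ∀ i, pr i (h i) n}).ncard <
        (∏ i, lam i) * ((S : Set ℕ) ∩ {n | ∀ i, ro i (h i) n}).ncard - k * δ) →
      (T.card : ℝ) ≤ k * η * ∏ i, X i := by
  classical
  intro k
  induction k with
  | zero =>
    intro S H X lam pr ro _ _ _ _ T _ hT
    have : T = ∅ := by
      rw [Finset.eq_empty_iff_forall_notMem]
      intro h hh
      have h1 := hT h hh
      simp at h1
    rw [this]
    simp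
  | succ k ih =>
    intro S H X lam pr ro hH hlam0 hlam1 hone T hTH hT
    have hX0 : ∀ i, 0 ≤ X i := fun i => (Nat.cast_nonneg _).trans (hH i)
    -- the two kinds of exceptional tuples
    obtain ⟨T1, hT1⟩ : ∃ T1 : Finset (Fin (k + 1) → ℤ), T1 = T.filter (fun h =>
      (((S.filter (fun n => ∀ i : Fin k, pr i.succ (h i.succ) n) : Finset ℕ) : Set ℕ) ∩
        {n | pr 0 (h 0) n}).ncard <
      lam 0 * (((S.filter (fun n => ∀ i : Fin k, pr i.succ (h i.succ) n) : Finset ℕ) : Set ℕ) ∩
        {n | ro 0 (h 0) n}).ncard - δ) := ⟨_, rfl⟩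
    obtain ⟨T2, hT2⟩ : ∃ T2 : Finset (Fin (k + 1) → ℤ), T2 = T.filter (fun h =>
      (((S.filter (fun n => ro 0 (h 0) n) : Finset ℕ) : Set ℕ) ∩
        {n | ∀ i : Fin k, pr i.succ (h i.succ) n}).ncard <
      (∏ i : Fin k, lam i.succ) * (((S.filter (fun n => ro 0 (h 0) n) : Finset ℕ) : Set ℕ) ∩
        {n | ∀ i : Fin k, ro i.succ (h i.succ) n}).ncard - k * δ) := ⟨_, rfl⟩
    have hsub : T ⊆ T1 ∪ T2 := by
      intro h hh
      rw [mem_union, hT1, hT2, mem_filter, mem_filter]
      by_contra hcon
      push Not at hcon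
      have c1 := hcon.1 hh
      have c2 := hcon.2 hh
      have c3 := hT h hh
      have e1 : ((S.filter (fun n => ∀ i : Fin k, pr i.succ (h i.succ) n) : Finset ℕ) : Set ℕ) ∩
          {n | pr 0 (h 0) n} = (S : Set ℕ) ∩ {n | ∀ i, pr i (h i) n} := by
        ext n
        simp only [coe_filter, Set.mem_inter_iff, Set.mem_setOf_eq, mem_coe, Fin.forall_fin_succ]
        tauto
      have e2 : ((S.filter (fun n => ∀ i : Fin k, pr i.succ (h i.succ) n) : Finset ℕ) : Set ℕ) ∩
          {n | ro 0 (h 0) n} = ((S.filter (fun n => ro 0 (h 0) n) : Finset ℕ) : Set ℕ) ∩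
        {n | ∀ i : Fin k, pr i.succ (h i.succ) n} := by
        ext n
        simp only [coe_filter, Set.mem_inter_iff, Set.mem_setOf_eq]
        tauto
      have e3 : ((S.filter (fun n => ro 0 (h 0) n) : Finset ℕ) : Set ℕ) ∩
          {n | ∀ i : Fin k, ro i.succ (h i.succ) n} = (S : Set ℕ) ∩ {n | ∀ i, ro i (h i) n} := by
        ext n
        simp only [coe_filter, Set.mem_inter_iff, Set.mem_setOf_eq, mem_coe, Fin.forall_fin_succ]
        tauto
      rw [e1, e2] at c1
      rw [e3] at c2
      rw [Fin.prod_univ_succ] at c3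
      push_cast at c3
      have l0 := hlam0 0
      have l1 := hlam1 0
      have c4 := mul_le_mul_of_nonneg_left c2 l0
      have c5 : lam 0 * (k * δ) ≤ k * δ := mul_le_of_le_one_left (by positivity) l1
      nlinarith
    have hcard := (card_le_card hsub).trans (card_union_le _ _)
    -- the first kind
    have hb1 : (T1.card : ℝ) ≤ (η * X 0) * ∏ i : Fin k, X i.succ := by
      have q1 : (T1.card : ℝ) = ∑ g ∈ T1.image (fun h => fun i : Fin k => h i.succ),
          ((T1.filter (fun h => (fun i : Fin k => h i.succ) = g)).card : ℝ) := by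
        rw [card_eq_sum_card_image (fun h => fun i : Fin k => h i.succ) T1]
        push_cast
        rfl
      rw [q1]
      have q2 : ∀ g ∈ T1.image (fun h => fun i : Fin k => h i.succ),
          ((T1.filter (fun h => (fun i : Fin k => h i.succ) = g)).card : ℝ) ≤ η * X 0 := by
        intro g _
        have q3 : (T1.filter (fun h => (fun i : Fin k => h i.succ) = g)).card =
            ((T1.filter (fun h => (fun i : Fin k => h i.succ) = g)).image (fun h => h 0)).card := by
          rw [card_image_of_injOn]
          intro x hx y hy hxy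
          rw [mem_coe, mem_filter] at hx hy
          funext i
          refine Fin.cases hxy (fun j => ?_) i
          have := hx.2.trans hy.2.symm
          exact congrFun this j
        rw [q3]
        refine hone 0 (S.filter (fun n => ∀ i : Fin k, pr i.succ (g i) n)) (filter_subset _ _) _ ?_ ?_
        · intro a ha
          rw [mem_image] at ha
          obtain ⟨h, hh, rfl⟩ := ha
          rw [mem_filter, hT1, mem_filter] at hh
          exact hTH h hh.1.1 0
        · intro a ha
          rw [mem_image] at ha
          obtain ⟨h, hh, rfl⟩ := ha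
          rw [mem_filter, hT1, mem_filter] at hh
          obtain ⟨⟨-, h2⟩, h3⟩ := hh
          have h4 : ∀ i : Fin k, h i.succ = g i := fun i => congrFun h3 i
          simp only [h4] at h2
          exact h2
      refine (sum_le_sum q2).trans ?_
      rw [sum_const, nsmul_eq_mul, mul_comm]
      refine mul_le_mul_of_nonneg_left ?_ (mul_nonneg hη (hX0 0))
      have q4 : (T1.image (fun h => fun i : Fin k => h i.succ)) ⊆ Fintype.piFinset (fun i : Fin k => H i.succ) := by
        intro g hg
        rw [mem_image] at hg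
        obtain ⟨h, hh, rfl⟩ := hg
        rw [Fintype.mem_piFinset]
        intro i
        rw [hT1, mem_filter] at hh
        exact hTH h hh.1 i.succ
      have q5 := card_le_card q4
      rw [Fintype.card_piFinset] at q5
      calc ((T1.image (fun h => fun i : Fin k => h i.succ)).card : ℝ) ≤ ((∏ i : Fin k, (H i.succ).card : ℕ) : ℝ) := by
            exact_mod_cast q5
        _ = ∏ i : Fin k, ((H i.succ).card : ℝ) := by push_cast; rfl
        _ ≤ _ := prod_le_prod (fun i _ => Nat.cast_nonneg _) fun i _ => hH i.succ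
    -- the second kind
    have hb2 : (T2.card : ℝ) ≤ X 0 * (k * η * ∏ i : Fin k, X i.succ) := by
      have q1 : (T2.card : ℝ) = ∑ a ∈ T2.image (fun h => h 0), ((T2.filter (fun h => h 0 = a)).card : ℝ) := by
        rw [card_eq_sum_card_image (fun h => h 0) T2]
        push_cast
        rfl
      rw [q1]
      have hXp : 0 ≤ ∏ i : Fin k, X i.succ := prod_nonneg fun i _ => hX0 _
      have q2 : ∀ a ∈ T2.image (fun h => h 0), ((T2.filter (fun h => h 0 = a)).card : ℝ) ≤
          k * η * ∏ i : Fin k, X i.succ := by
        intro a _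
        have q3 : (T2.filter (fun h => h 0 = a)).card =
            ((T2.filter (fun h => h 0 = a)).image (fun h => fun i : Fin k => h i.succ)).card := by
          rw [card_image_of_injOn]
          intro x hx y hy hxy
          rw [mem_coe, mem_filter] at hx hy
          funext i
          refine Fin.cases (hx.2.trans hy.2.symm) (fun j => ?_) i
          exact congrFun hxy j
        rw [q3]
        refine ih (S.filter (fun n => ro 0 a n)) (fun i => H i.succ) (fun i => X i.succ) (fun i => lam i.succ)
          (fun i => pr i.succ) (fun i => ro i.succ) (fun i => hH i.succ) (fun i => hlam0 i.succ)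
          (fun i => hlam1 i.succ) ?_ _ ?_ ?_
        · intro i S' hS' F hF hF2
          exact hone i.succ S' (hS'.trans (filter_subset _ _)) F hF hF2
        · intro g hg i
          rw [mem_image] at hg
          obtain ⟨h, hh, rfl⟩ := hg
          rw [mem_filter, hT2, mem_filter] at hh
          exact hTH h hh.1.1 i.succ
        · intro g hg
          rw [mem_image] at hg
          obtain ⟨h, hh, rfl⟩ := hg
          rw [mem_filter, hT2, mem_filter] at hh
          obtain ⟨⟨-, h2⟩, h3⟩ := hh
          rw [h3] at h2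
          exact h2
      refine (sum_le_sum q2).trans ?_
      rw [sum_const, nsmul_eq_mul]
      refine mul_le_mul_of_nonneg_right ?_ (by positivity)
      have q4 : T2.image (fun h => h 0) ⊆ H 0 := by
        intro g hg
        rw [mem_image] at hg
        obtain ⟨h, hh, rfl⟩ := hg
        rw [hT2, mem_filter] at hh
        exact hTH h hh.1 0
      have q5 := card_le_card q4
      have q6 : ((T2.image (fun h => h 0)).card : ℝ) ≤ ((H 0).card : ℝ) := by exact_mod_cast q5
      exact q6.trans (hH 0)
    have hc : (T.card : ℝ) ≤ (T1.card : ℝ) + (T2.card : ℝ) := by exact_mod_cast hcard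
    rw [Fin.prod_univ_succ]
    push_cast
    nlinarith

end Pool.Agent.H579.G
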