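import Pool.Agent.H579.D.AsmF
import Pool.Agent.H579.G.Multi

set_option autoImplicit false

/-! Prime tuples in translates of arbitrary sets: almost all tuples of shifts in given residue classes. -/

namespace Pool.Agent.H579.G

open Finset
open Pool.Agent.H579.Dk
open Pool.Agent.H373R2.T7 (lamz Vz pz Vz_pos Vz_inv_small)
open Pool.Agent.Y614.GJ.Core (ev_log)

/-- the number of the integers in a residue class -/
lemma cls_card {N q : ℕ} (hq : 1 ≤ q) (hqN : q + 1 ≤ N) (a : ℤ) :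
    (((Icc (-(N : ℤ)) N).filter (fun h : ℤ => h ≡ a [ZMOD q])).card : ℝ) ≤ 3 * N / q := by
  have hq0 : (0 : ℤ) < q := by exact_mod_cast hq
  have hqr : (0 : ℝ) < q := by exact_mod_cast hq
  have e : (Icc (-(N : ℤ)) N) = Ico (-(N : ℤ)) (N + 1) := by
    ext x
    rw [mem_Icc, mem_Ico]
    omega
  have h1 := Int.Ico_filter_modEq_card (-(N : ℤ)) (N + 1) hq0 a
  rw [← e] at h1
  have h2 : ((((Icc (-(N : ℤ)) N).filter (fun h : ℤ => h ≡ a [ZMOD q])).card : ℤ) : ℚ) ≤ (2 * N + 1) / q + 1 := by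
    rw [h1]
    have hqq : (0 : ℚ) < q := by exact_mod_cast hq
    have b1 := Int.ceil_lt_add_one ((((N : ℤ) + 1 : ℤ) - a : ℚ) / ((q : ℤ) : ℚ))
    have b2 := Int.le_ceil ((((-(N : ℤ)) : ℤ) - a : ℚ) / ((q : ℤ) : ℚ))
    rw [Int.cast_max]
    refine max_le ?_ (by push_cast; positivity)
    push_cast at b1 b2 ⊢
    have b3 : ((N : ℚ) + 1 - a) / q - (-N - a) / q = (2 * N + 1) / q := by
      rw [← sub_div]
      congr 1
      ring
    linarith
  have h3 : (((Icc (-(N : ℤ)) N).filter (fun h : ℤ => h ≡ a [ZMOD q])).card : ℝ) ≤ (2 * N + 1) / q + 1 := by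
    have : ((((((Icc (-(N : ℤ)) N).filter (fun h : ℤ => h ≡ a [ZMOD q])).card : ℤ) : ℚ) : ℚ) : ℝ) ≤
      (((2 * N + 1) / q + 1 : ℚ) : ℝ) := by exact_mod_cast h2
    push_cast at this
    exact this
  refine h3.trans ?_
  rw [div_add_one hqr.ne', div_le_div_iff_of_pos_right hqr]
  have : ((q : ℝ) + 1) ≤ N := by exact_mod_cast hqN
  linarith

/-- the property to be prime -/
def PrP (h : ℤ) (n : ℕ) : Prop := ∃ p : ℕ, p.Prime ∧ (n : ℤ) + h = p

/-- the property to have no small prime factors -/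
def RoP (z : ℕ) (h : ℤ) (n : ℕ) : Prop := 0 < (n : ℤ) + h ∧ ∀ p : ℕ, p.Prime → p ≤ z → ¬ (p : ℤ) ∣ n + h

theorem tupS (k : ℕ) (ρ : ℝ) (hρ : 0 < ρ) (A : ℕ) :
    ∃ c : ℕ, ∀ A₀ : ℕ, ∃ B : ℕ, ∀ E : ℕ, B ≤ E → ∃ N₀ : ℕ, ∀ N : ℕ, N₀ ≤ N →
      ∃ D : Finset ℕ, (D.card : ℝ) ≤ Real.log N ^ c ∧ (∀ d ∈ D, Real.log N ^ A₀ < (d : ℝ)) ∧
      ∀ q : Fin k → ℕ, (∀ i, 1 ≤ q i ∧ (q i : ℝ) ≤ (N : ℝ) ^ (4 / 5 - ρ) ∧ ∀ d ∈ D, ¬ d ∣ q i) → ∀ a : Fin k → ℤ,
      ∀ S : Finset ℕ, S ⊆ Icc 1 N → ∀ T : Finset (Fin k → ℤ), (∀ h ∈ T, ∀ i, |h i| ≤ N ∧ h i ≡ a i [ZMOD q i]) →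
      (∀ h ∈ T, (((S : Set ℕ) ∩ {n | ∀ i, PrP (h i) n}).ncard : ℝ) <
        (138 / 1000 / (Vz ⌈Real.log N ^ E⌉₊ * Real.log N)) ^ k *
          ((S : Set ℕ) ∩ {n | ∀ i, RoP ⌈Real.log N ^ E⌉₊ (h i) n}).ncard - N / Real.log N ^ A) →
      (T.card : ℝ) ≤ (∏ i, ((N : ℝ) / q i)) / Real.log N ^ A := by
  classical
  obtain ⟨c, hc⟩ := sets_main errPF_all ρ hρ (A + 1)
  refine ⟨c, fun A₀ => ?_⟩
  obtain ⟨B, hB⟩ := hc A₀
  refine ⟨B, fun E hE => ?_⟩
  obtain ⟨n1, h1⟩ := hB E hE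
  obtain ⟨n2, h2⟩ := Vz_inv_small (E + 1)
  obtain ⟨n3, h3⟩ := Filter.eventually_atTop.1 (ev_log 1 (s := 1) (by norm_num) (k * 3 ^ k + 10))
  obtain ⟨n4, h4⟩ := Filter.eventually_atTop.1 (ev_log 1 (s := 1 / 5) (by norm_num) 10)
  refine ⟨n1 + n2 + n3 + n4 + 2, fun N hN => ?_⟩
  obtain ⟨D, hD1, hD2, hD3⟩ := h1 N (by omega)
  obtain ⟨hLk, -⟩ := h3 N (by omega)
  obtain ⟨-, hL5⟩ := h4 N (by omega)
  refine ⟨D, hD1, hD2, fun q hq a S hS T hTH hT => ?_⟩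
  have hN1 : 1 ≤ N := by omega
  have hN0 : (0 : ℝ) < N := by exact_mod_cast hN1
  have hNr1 : (1 : ℝ) ≤ N := by exact_mod_cast hN1
  obtain ⟨z, hz⟩ : ∃ z, z = ⌈Real.log N ^ E⌉₊ := ⟨_, rfl⟩
  rw [← hz] at hD3 hT
  obtain ⟨L, hL⟩ : ∃ L, L = Real.log (N : ℝ) := ⟨_, rfl⟩
  have hkk : (0 : ℝ) ≤ (k : ℝ) * 3 ^ k := by positivity
  have hL10 : 10 ≤ L := by rw [hL]; linarith
  have hL0 : 0 < L := by linarith
  have hL1 : 1 ≤ L := by linarith
  have hzlo : L ^ E ≤ z := by rw [hz, hL]; exact Nat.le_ceil _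
  have hLE : 1 ≤ L ^ E := one_le_pow₀ hL1
  have hz1 : 1 ≤ z := by
    have : (1 : ℝ) ≤ z := hLE.trans hzlo
    exact_mod_cast this
  have hzhi : (z : ℝ) ≤ L ^ (E + 1) := by
    have := Nat.ceil_lt_add_one (show 0 ≤ Real.log N ^ E by rw [← hL]; positivity)
    rw [← hz, ← hL] at this
    calc (z : ℝ) ≤ L ^ E + 1 := this.le
      _ ≤ L ^ E + L ^ E := by linarith
      _ = 2 * L ^ E := by ring
      _ ≤ L * L ^ E := mul_le_mul_of_nonneg_right (by linarith) (by positivity)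
      _ = L ^ (E + 1) := by ring
  have hV := Vz_pos z
  have hVi := h2 N (by omega) z hz1 (by rw [← hL]; exact hzhi)
  rw [← hL] at hVi hLk hT ⊢
  have hVL : 1 ≤ Vz z * L := by
    rw [inv_le_iff_one_le_mul₀ hV] at hVi
    linarith
  obtain ⟨lam, hlam⟩ : ∃ lam : ℝ, lam = 138 / 1000 / (Vz z * L) := ⟨_, rfl⟩
  have hlam0 : 0 ≤ lam := by rw [hlam]; positivity
  have hlam1 : lam ≤ 1 := by
    rw [hlam, div_le_one (by linarith)]
    linarith
  have hqN : ∀ i, q i + 1 ≤ N := by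
    intro i
    have e1 : (q i : ℝ) ≤ (N : ℝ) ^ (4 / 5 : ℝ) :=
      (hq i).2.1.trans (Real.rpow_le_rpow_of_exponent_le hNr1 (by linarith))
    have e2 : (10 : ℝ) ≤ (N : ℝ) ^ (1 / 5 : ℝ) := by
      refine le_trans ?_ hL5
      rw [← hL, pow_one]
      exact hL10
    have e3 : (N : ℝ) ^ (4 / 5 : ℝ) * (N : ℝ) ^ (1 / 5 : ℝ) = N := by
      rw [← Real.rpow_add hN0]
      norm_num
    have e4 : (1 : ℝ) ≤ (N : ℝ) ^ (4 / 5 : ℝ) := Real.one_le_rpow hNr1 (by norm_num)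
    have e5 : (q i : ℝ) + 1 ≤ N := by nlinarith
    exact_mod_cast e5
  have hLA : 0 < L ^ (A + 1) := by positivity
  have hmul := multi (δ := N / L ^ (A + 1)) (η := 1 / (3 * L ^ (A + 1))) (by positivity) (by positivity) k S
    (fun i => (Icc (-(N : ℤ)) N).filter (fun h : ℤ => h ≡ a i [ZMOD q i])) (fun i => 3 * N / q i)
    (fun _ => lam) (fun _ => PrP) (fun _ => RoP z) (fun i => cls_card (hq i).1 (hqN i) (a i)) (fun _ => hlam0)
    (fun _ => hlam1) ?_ T ?_ ?_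
  · have hp : ∏ i : Fin k, (3 * (N : ℝ) / q i) = 3 ^ k * ∏ i : Fin k, ((N : ℝ) / q i) := by
      have : ∀ i : Fin k, (3 * (N : ℝ) / q i) = 3 * (N / q i) := fun i => by ring
      rw [prod_congr rfl fun i _ => this i, prod_mul_distrib, prod_const, card_univ, Fintype.card_fin]
    rw [hp] at hmul
    refine hmul.trans ?_
    have hPr : 0 ≤ ∏ i : Fin k, ((N : ℝ) / q i) := prod_nonneg fun i _ => by positivity
    calc (k : ℝ) * (1 / (3 * L ^ (A + 1))) * (3 ^ k * ∏ i : Fin k, ((N : ℝ) / q i)) =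
        ((∏ i : Fin k, ((N : ℝ) / q i)) / L ^ A) * ((k * 3 ^ k) / (3 * L)) := by
          rw [pow_succ]
          field_simp
      _ ≤ ((∏ i : Fin k, ((N : ℝ) / q i)) / L ^ A) * 1 := by
          refine mul_le_mul_of_nonneg_left ?_ (by positivity)
          rw [div_le_one (by positivity)]
          linarith
      _ = _ := mul_one _
  · intro i S' hS' F hF hF2
    have hsub : F ⊆ bads (A + 1) N z (q i) (a i) S' := by
      intro h hh
      have e1 := hF hh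
      rw [mem_filter] at e1
      unfold bads
      rw [mem_filter]
      refine ⟨e1.1, e1.2, ?_⟩
      have e2 := hF2 h hh
      have e3 : ((S' : Set ℕ) ∩ {n | PrP h n}).ncard = ((tr' S' h).filter Nat.Prime).card := by
        rw [← primesIn_eq]
        rfl
      have e4 : ∑ m ∈ tr' S' h, lamz z m = (((S' : Set ℕ) ∩ {n | RoP z h n}).ncard : ℝ) * (Vz z)⁻¹ := by
        rw [roughIn_eq]
        rfl
      rw [e3] at e2
      rw [e4, ← hL]
      have e5 := mul_lt_mul_of_pos_left e2 hL0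
      refine e5.trans_le ?_
      have e6 : L * (lam * (((S' : Set ℕ) ∩ {n | RoP z h n}).ncard : ℝ) - N / L ^ (A + 1)) =
          138 / 1000 * ((((S' : Set ℕ) ∩ {n | RoP z h n}).ncard : ℝ) * (Vz z)⁻¹) - L * (N / L ^ (A + 1)) := by
        rw [hlam]
        field_simp
      rw [e6]
      have e7 : (N : ℝ) / L ^ (A + 1) ≤ L * (N / L ^ (A + 1)) := le_mul_of_one_le_left (by positivity) hL1
      linarith
    have h5 := hD3 (q i) (hq i).1 (hq i).2.1 (hq i).2.2 (a i) S' (hS'.trans hS)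
    have h6 : (F.card : ℝ) ≤ ((bads (A + 1) N z (q i) (a i) S').card : ℝ) := by exact_mod_cast card_le_card hsub
    refine h6.trans (h5.trans (le_of_eq ?_))
    rw [← hL]
    have : (q i : ℝ) ≠ 0 := by
      have := (hq i).1
      positivity
    field_simp
  · intro h hh i
    obtain ⟨e1, e2⟩ := hTH h hh i
    rw [abs_le] at e1
    rw [mem_filter, mem_Icc]
    exact ⟨e1, e2⟩
  · intro h hh
    have e1 := hT h hh
    rw [prod_const, card_univ, Fintype.card_fin, hlam]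
    refine e1.trans_le ?_
    have e2 : (k : ℝ) * (N / L ^ (A + 1)) ≤ N / L ^ A := by
      rw [pow_succ]
      calc (k : ℝ) * (N / (L ^ A * L)) = N / L ^ A * (k / L) := by field_simp
        _ ≤ N / L ^ A * 1 := by
            refine mul_le_mul_of_nonneg_left ?_ (by positivity)
            rw [div_le_one hL0]
            have : (k : ℝ) ≤ k * 3 ^ k := le_mul_of_one_le_right (Nat.cast_nonneg _) (one_le_pow₀ (by norm_num))
            linarith
        _ = _ := mul_one _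
    linarith

end Pool.Agent.H579.G
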