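import Pool.Agent.H579.G.Wt4
import Pool.Agent.H579.G.Multi2
import Pool.Agent.H579.G.Asym
import Pool.Agent.H579.G.TupS

set_option autoImplicit false

/-! Prime tuples: the asymptotic formula for almost all tuples of shifts in given residue classes. -/

namespace Pool.Agent.H579.G

open Finset
open Pool.Agent.H373R2.T7 (lamz Vz pz Vz_pos Vz_inv_small mem_pz)
open Pool.Agent.Y614.GJ.Core (ev_log)

/-- one step: for almost all shifts in a class the weighted sums of `f` and `g` are close -/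
def Step (N : ℕ) (A : ℕ) (q : ℕ) (a : ℤ) (S : Finset ℕ) (f g : ℤ → ℕ → ℝ) : Prop :=
  ∀ w : ℕ → ℝ, (∀ n ∈ S, |w n| ≤ 1) → ∀ T : Finset ℤ, (∀ h ∈ T, |h| ≤ N ∧ h ≡ a [ZMOD q]) →
    (∀ h ∈ T, N / Real.log N ^ A < |∑ s ∈ S, w s * (f h s - g h s)|) → (T.card : ℝ) ≤ N / (q * Real.log N ^ A)

/-- several steps -/
lemma steps (k A : ℕ) : ∃ N₀ : ℕ, ∀ N : ℕ, N₀ ≤ N → ∀ (q : Fin k → ℕ) (a : Fin k → ℤ) (S : Finset ℕ)
    (f g : Fin k → ℤ → ℕ → ℝ), (∀ i, 1 ≤ q i ∧ q i + 1 ≤ N) → (∀ i, Step N (A + k + 1) (q i) (a i) S (f i) (g i)) →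
    (∀ i, ∀ h : ℤ, |h| ≤ N → ∀ n ∈ S, |f i h n| ≤ 2 * Real.log N) →
    (∀ i, ∀ h : ℤ, |h| ≤ N → ∀ n ∈ S, |g i h n| ≤ 2 * Real.log N) →
    ∀ w : ℕ → ℝ, (∀ n ∈ S, |w n| ≤ 1) → ∀ T : Finset (Fin k → ℤ), (∀ h ∈ T, ∀ i, |h i| ≤ N ∧ h i ≡ a i [ZMOD q i]) →
    (∀ h ∈ T, N / Real.log N ^ A < |∑ n ∈ S, w n * (∏ i, f i (h i) n - ∏ i, g i (h i) n)|) →
    (T.card : ℝ) ≤ (∏ i, ((N : ℝ) / q i)) / Real.log N ^ A := by
  classical
  obtain ⟨n1, h1⟩ := Filter.eventually_atTop.1 (ev_log 1 (s := 1) (by norm_num) (k * 6 ^ k + 10))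
  refine ⟨n1 + 2, fun N hN q a S f g hq hstep hf hg w hw T hT hT2 => ?_⟩
  obtain ⟨hLk, -⟩ := h1 N (by omega)
  have hN0 : (0 : ℝ) < N := by exact_mod_cast (show 0 < N by omega)
  obtain ⟨L, hL⟩ : ∃ L, L = Real.log (N : ℝ) := ⟨_, rfl⟩
  have hkk : (0 : ℝ) ≤ (k : ℝ) * 6 ^ k := by positivity
  rw [← hL] at hLk hf hg hT2 ⊢
  unfold Step at hstep
  rw [← hL] at hstep
  have hL10 : 10 ≤ L := by linarith
  have hL0 : 0 < L := by linarith
  have hL1 : 1 ≤ L := by linarith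
  obtain ⟨K, hK⟩ : ∃ K : ℝ, K = 2 * L := ⟨_, rfl⟩
  have hK0 : 0 < K := by rw [hK]; positivity
  rw [← hK] at hf hg
  obtain ⟨A', hA'⟩ : ∃ A', A' = A + k + 1 := ⟨_, rfl⟩
  rw [← hA'] at hstep
  have hLA : 0 < L ^ A' := by positivity
  have hmul := multi2 (δ := N / L ^ A' / K) (η := 1 / (3 * L ^ A')) (by positivity) k S
    (fun i => (Icc (-(N : ℤ)) N).filter (fun h : ℤ => h ≡ a i [ZMOD q i])) (fun i => 3 * N / q i)
    (fun i h n => f i h n / K) (fun i h n => g i h n / K) (fun i => cls_card (hq i).1 (hq i).2 (a i)) ?_ ?_ ?_ w hw T ?_ ?_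
  · have hp : ∏ i : Fin k, (3 * (N : ℝ) / q i) = 3 ^ k * ∏ i : Fin k, ((N : ℝ) / q i) := by
      have : ∀ i : Fin k, (3 * (N : ℝ) / q i) = 3 * (N / q i) := fun i => by ring
      rw [prod_congr rfl fun i _ => this i, prod_mul_distrib, prod_const, card_univ, Fintype.card_fin]
    rw [hp] at hmul
    refine hmul.trans ?_
    have hPr : 0 ≤ ∏ i : Fin k, ((N : ℝ) / q i) := prod_nonneg fun i _ => by positivity
    calc (k : ℝ) * (1 / (3 * L ^ A')) * (3 ^ k * ∏ i : Fin k, ((N : ℝ) / q i)) =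
        ((∏ i : Fin k, ((N : ℝ) / q i)) / L ^ A) * ((k * 3 ^ k) / (3 * L ^ (k + 1))) := by
          rw [hA', add_assoc, pow_add L A]
          field_simp
      _ ≤ ((∏ i : Fin k, ((N : ℝ) / q i)) / L ^ A) * 1 := by
          refine mul_le_mul_of_nonneg_left ?_ (by positivity)
          rw [div_le_one (by positivity)]
          have e1 : (3 : ℝ) ^ k ≤ 6 ^ k := pow_le_pow_left₀ (by norm_num) (by norm_num) k
          have e2 : (k : ℝ) * 3 ^ k ≤ k * 6 ^ k := by gcongr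
          have e3 : L ≤ L ^ (k + 1) := le_self_pow₀ hL1 (by omega)
          linarith
      _ = _ := mul_one _
  · intro i h hh n hn
    rw [mem_filter, mem_Icc] at hh
    rw [abs_div, abs_of_pos hK0, div_le_one hK0]
    exact hf i h (abs_le.2 hh.1) n hn
  · intro i h hh n hn
    rw [mem_filter, mem_Icc] at hh
    rw [abs_div, abs_of_pos hK0, div_le_one hK0]
    exact hg i h (abs_le.2 hh.1) n hn
  · intro i w' hw' F hF hF2
    have h5 := hstep i w' hw' F (fun h hh => ?_) (fun h hh => ?_)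
    · refine h5.trans (le_of_eq ?_)
      have : (q i : ℝ) ≠ 0 := by
        have := (hq i).1
        positivity
      field_simp
    · have := hF hh
      rw [mem_filter, mem_Icc] at this
      exact ⟨abs_le.2 this.1, this.2⟩
    · have e1 := hF2 h hh
      have e2 : ∑ n ∈ S, w' n * (f i h n / K - g i h n / K) = (∑ n ∈ S, w' n * (f i h n - g i h n)) / K := by
        rw [sum_div]
        refine sum_congr rfl fun n _ => ?_
        ring
      rw [e2, abs_div, abs_of_pos hK0, div_lt_div_iff_of_pos_right hK0] at e1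
      exact e1
  · intro h hh i
    obtain ⟨e1, e2⟩ := hT h hh i
    rw [abs_le] at e1
    rw [mem_filter, mem_Icc]
    exact ⟨e1, e2⟩
  · intro h hh
    have e1 := hT2 h hh
    have e2 : ∑ n ∈ S, w n * (∏ i, f i (h i) n / K - ∏ i, g i (h i) n / K) =
        (∑ n ∈ S, w n * (∏ i, f i (h i) n - ∏ i, g i (h i) n)) / K ^ k := by
      rw [sum_div]
      refine sum_congr rfl fun n _ => ?_
      rw [prod_div_distrib, prod_div_distrib, prod_const, card_univ, Fintype.card_fin]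
      ring
    rw [e2, abs_div, abs_of_pos (pow_pos hK0 k), lt_div_iff₀ (pow_pos hK0 k)]
    refine lt_of_le_of_lt ?_ e1
    have e3 : (k : ℝ) * (N / L ^ A' / K) * K ^ k ≤ k * (N / L ^ A') * K ^ k := by
      have : (N : ℝ) / L ^ A' / K ≤ N / L ^ A' := div_le_self (by positivity) (by rw [hK]; linarith)
      gcongr
    refine e3.trans ?_
    calc (k : ℝ) * (N / L ^ A') * K ^ k = (N / L ^ A) * ((k * 2 ^ k) / L) := by
          rw [hA', hK, mul_pow, pow_add, pow_add]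
          field_simp
      _ ≤ (N / L ^ A) * 1 := by
          refine mul_le_mul_of_nonneg_left ?_ (by positivity)
          rw [div_le_one hL0]
          have : (2 : ℝ) ^ k ≤ 6 ^ k := pow_le_pow_left₀ (by norm_num) (by norm_num) k
          have e4 : (k : ℝ) * 2 ^ k ≤ k * 6 ^ k := by gcongr
          linarith
      _ = _ := mul_one _

lemma log_two_mul_le {N m : ℕ} (hN : 3 ≤ Real.log N) (hm : m ≤ 2 * N) : Real.log m ≤ 2 * Real.log N := by
  have hN0 : 0 < N := by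
    rcases Nat.eq_zero_or_pos N with h | h
    · rw [h] at hN
      norm_num at hN
    · exact h
  have hNr : (0 : ℝ) < N := by exact_mod_cast hN0
  rcases Nat.eq_zero_or_pos m with h | h
  · rw [h, Nat.cast_zero, Real.log_zero]
    linarith
  · have h1 : Real.log m ≤ Real.log (2 * N) := Real.log_le_log (by exact_mod_cast h) (by exact_mod_cast hm)
    rw [Real.log_mul (by norm_num) hNr.ne'] at h1
    have := Real.log_two_lt_d9
    linarith

lemma thp_le {N m : ℕ} (hN : 3 ≤ Real.log N) (hm : m ≤ 2 * N) : |thp m| ≤ 2 * Real.log N := by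
  rw [abs_of_nonneg (thp_nn m)]
  unfold thp
  split_ifs
  · exact log_two_mul_le hN hm
  · linarith

lemma lamz_abs_le {N m z : ℕ} (hN : 3 ≤ Real.log N) (hV : (Vz z)⁻¹ ≤ Real.log N) : |lamz z m| ≤ 2 * Real.log N := by
  have h1 : 0 < (Vz z)⁻¹ := inv_pos.2 (Vz_pos z)
  unfold lamz
  split_ifs
  · rw [abs_of_pos h1]
    linarith
  · rw [abs_zero]
    linarith

/-- `z` is small -/
lemma zpar (E : ℕ) : ∃ N₀ : ℕ, ∀ N : ℕ, N₀ ≤ N → 10 ≤ Real.log N ∧ Real.log N ^ E ≤ (⌈Real.log N ^ E⌉₊ : ℕ) ∧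
    ((⌈Real.log N ^ E⌉₊ : ℕ) : ℝ) ≤ Real.log N ^ (E + 1) ∧ (Vz ⌈Real.log N ^ E⌉₊)⁻¹ ≤ Real.log N := by
  obtain ⟨n2, h2⟩ := Vz_inv_small (E + 1)
  obtain ⟨n3, h3⟩ := Filter.eventually_atTop.1 (ev_log 1 (s := 1) (by norm_num) 10)
  refine ⟨n2 + n3 + 1, fun N hN => ?_⟩
  obtain ⟨hL, -⟩ := h3 N (by omega)
  have hL1 : 1 ≤ Real.log N := by linarith
  have hLE : 1 ≤ Real.log N ^ E := one_le_pow₀ hL1
  have hlo : Real.log N ^ E ≤ (⌈Real.log N ^ E⌉₊ : ℕ) := Nat.le_ceil _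
  have hhi : ((⌈Real.log N ^ E⌉₊ : ℕ) : ℝ) ≤ Real.log N ^ (E + 1) := by
    have := Nat.ceil_lt_add_one (show 0 ≤ Real.log N ^ E by positivity)
    calc ((⌈Real.log N ^ E⌉₊ : ℕ) : ℝ) ≤ Real.log N ^ E + 1 := this.le
      _ ≤ Real.log N ^ E + Real.log N ^ E := by linarith
      _ = 2 * Real.log N ^ E := by ring
      _ ≤ Real.log N * Real.log N ^ E := mul_le_mul_of_nonneg_right (by linarith) (by positivity)
      _ = Real.log N ^ (E + 1) := by ring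
  refine ⟨hL, hlo, hhi, ?_⟩
  refine h2 N (by omega) _ ?_ hhi
  have : (1 : ℝ) ≤ (⌈Real.log N ^ E⌉₊ : ℕ) := hLE.trans hlo
  exact_mod_cast this

lemma q_add_one {N q : ℕ} {s : ℝ} (hN : 1 ≤ N) (hs : s ≤ 4 / 5) (hL5 : 10 ≤ (N : ℝ) ^ (1 / 5 : ℝ)) (hq : (q : ℝ) ≤ (N : ℝ) ^ s) :
    q + 1 ≤ N := by
  have hN0 : (0 : ℝ) < N := by exact_mod_cast hN
  have hNr1 : (1 : ℝ) ≤ N := by exact_mod_cast hN
  have e1 : (q : ℝ) ≤ (N : ℝ) ^ (4 / 5 : ℝ) := hq.trans (Real.rpow_le_rpow_of_exponent_le hNr1 hs)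
  have e3 : (N : ℝ) ^ (4 / 5 : ℝ) * (N : ℝ) ^ (1 / 5 : ℝ) = N := by
    rw [← Real.rpow_add hN0]
    norm_num
  have e4 : (1 : ℝ) ≤ (N : ℝ) ^ (4 / 5 : ℝ) := Real.one_le_rpow hNr1 (by norm_num)
  have e5 : (q : ℝ) + 1 ≤ N := by nlinarith
  exact_mod_cast e5

open Classical in
/-- the product of the models -/
lemma model_prod {k N z : ℕ} {h : Fin k → ℤ} (h0 : ∀ i, 0 ≤ h i) :
    ∑ n ∈ Icc 1 N, ∏ i, ex (lamz z) (h i) n =
      ((Vz z)⁻¹) ^ k * (((Icc 1 N).filter (fun m => ∀ p ∈ pz z, ¬ Qf (fun _ => 1) h p m)).card : ℝ) := by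
  classical
  have e1 : ∀ n ∈ Icc 1 N, ∏ i, ex (lamz z) (h i) n =
      if (∀ p ∈ pz z, ¬ Qf (fun _ => 1) h p n) then ((Vz z)⁻¹) ^ k else 0 := by
    intro n hn
    rw [mem_Icc] at hn
    have e2 : ∀ i, ex (lamz z) (h i) n = if (∀ p ∈ pz z, ¬ (p : ℤ) ∣ n + h i) then (Vz z)⁻¹ else 0 := by
      intro i
      have := h0 i
      unfold ex lamz
      rw [if_pos (by omega)]
      have e3 : (∀ p ∈ pz z, ¬ p ∣ ((n : ℤ) + h i).toNat) ↔ (∀ p ∈ pz z, ¬ (p : ℤ) ∣ n + h i) := by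
        refine forall₂_congr fun p _ => ?_
        rw [← Int.natCast_dvd_natCast, Int.toNat_of_nonneg (by omega)]
      simp only [e3]
    rw [prod_congr rfl fun i _ => e2 i]
    split_ifs with h1
    · have e4 : ∀ i ∈ (univ : Finset (Fin k)), (if (∀ p ∈ pz z, ¬ (p : ℤ) ∣ n + h i) then (Vz z)⁻¹ else 0) = (Vz z)⁻¹ := by
        intro i _
        refine if_pos fun p hp hd => h1 p hp ⟨i, ?_⟩
        rw [one_mul]
        exact hd
      rw [prod_congr rfl e4, prod_const, card_univ, Fintype.card_fin]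
    · push Not at h1
      obtain ⟨p, hp, i, hi⟩ := h1
      rw [one_mul] at hi
      refine prod_eq_zero (mem_univ i) (if_neg fun hc => hc p hp hi)
  rw [sum_congr rfl e1, ← sum_filter, sum_const, nsmul_eq_mul, mul_comm]

/-- the asymptotic formula for almost all tuples of shifts -/
theorem tup4 (k : ℕ) (hk : 1 ≤ k) {ρ : ℝ} (hρ : 0 < ρ) (A : ℕ) :
    ∃ c : ℕ, ∀ A₀ : ℕ, ∃ B : ℕ, ∀ E : ℕ, B ≤ E → ∃ N₀ : ℕ, ∀ N : ℕ, N₀ ≤ N →
      ∃ D : Finset ℕ, (D.card : ℝ) ≤ Real.log N ^ c ∧ (∀ d ∈ D, Real.log N ^ A₀ < (d : ℝ)) ∧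
      (∀ q : ℕ, 1 ≤ q → (q : ℝ) ≤ (N : ℝ) ^ (2 / 3 - ρ) → (∀ d ∈ D, ¬ d ∣ q) → ∀ a : ℤ, ∀ S : Finset ℕ, S ⊆ Icc 1 N →
        Step N A q a S (ex thp) (ex (lamz ⌈Real.log N ^ E⌉₊))) ∧
      ∀ q : Fin k → ℕ, (∀ i, 1 ≤ q i ∧ (q i : ℝ) ≤ (N : ℝ) ^ (2 / 3 - ρ) ∧ ∀ d ∈ D, ¬ d ∣ q i) → ∀ a : Fin k → ℤ,
      (∀ S : Finset ℕ, S ⊆ Icc 1 N → ∀ w : ℕ → ℝ, (∀ n ∈ S, |w n| ≤ 1) →
        ∀ T : Finset (Fin k → ℤ), (∀ h ∈ T, ∀ i, |h i| ≤ N ∧ h i ≡ a i [ZMOD q i]) →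
        (∀ h ∈ T, N / Real.log N ^ A <
          |∑ n ∈ S, w n * (∏ i, ex thp (h i) n - ∏ i, ex (lamz ⌈Real.log N ^ E⌉₊) (h i) n)|) →
        (T.card : ℝ) ≤ (∏ i, ((N : ℝ) / q i)) / Real.log N ^ A) ∧
      ∀ T : Finset (Fin k → ℤ), (∀ h ∈ T, Function.Injective h ∧ ∀ i, 0 ≤ h i ∧ h i ≤ N ∧ h i ≡ a i [ZMOD q i]) →
        (∀ h ∈ T, N / Real.log N ^ A < |∑ n ∈ Icc 1 N, ∏ i, ex thp (h i) n - sing (fun _ => 1) h * N|) →
        (T.card : ℝ) ≤ (∏ i, ((N : ℝ) / q i)) / Real.log N ^ A := by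
  classical
  obtain ⟨c, hc⟩ := wt4 hρ (A + 1 + k + 1)
  obtain ⟨ns, hs⟩ := steps k (A + 1)
  obtain ⟨Br, hBr⟩ := rough_asym k hk (A + k + 1) 1
  refine ⟨c, fun A₀ => ?_⟩
  obtain ⟨B, hB⟩ := hc A₀
  refine ⟨B + Br, fun E hE => ?_⟩
  obtain ⟨n1, h1⟩ := hB E (by omega)
  obtain ⟨n2, h2⟩ := zpar E
  obtain ⟨n3, h3⟩ := hBr (E + 1)
  obtain ⟨n4, h4⟩ := Filter.eventually_atTop.1 (ev_log 1 (s := 1 / 5) (by norm_num) 10)
  refine ⟨n1 + n2 + n3 + n4 + ns + 2, fun N hN => ?_⟩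
  have hN1 : 1 ≤ N := by omega
  have hN0 : (0 : ℝ) < N := by exact_mod_cast hN1
  obtain ⟨D, hD1, hD2, hD3⟩ := h1 N (by omega)
  obtain ⟨hL10, hzlo, hzhi, hV⟩ := h2 N (by omega)
  obtain ⟨-, hL5⟩ := h4 N (by omega)
  obtain ⟨z, hz⟩ : ∃ z, z = ⌈Real.log N ^ E⌉₊ := ⟨_, rfl⟩
  rw [← hz] at hD3 hzlo hzhi hV ⊢
  have hL0 : 0 < Real.log N := by linarith
  have hL1 : 1 ≤ Real.log N := by linarith
  refine ⟨D, hD1, hD2, ?_, fun q hq a => ?_⟩
  · intro q hq1 hq2 hq3 a S hS w hw T hT hT2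
    refine (hD3 q hq1 hq2 hq3 S hS w hw a T hT (fun h hh => lt_of_le_of_lt ?_ (hT2 h hh))).trans ?_
    · exact div_le_div_of_nonneg_left hN0.le (by positivity) (pow_le_pow_right₀ hL1 (by omega))
    · apply div_le_div_of_nonneg_left hN0.le
      · have : (0 : ℝ) < q := by exact_mod_cast hq1
        positivity
      · have : (0 : ℝ) < q := by exact_mod_cast hq1
        gcongr
        · omega
  have hPr : 0 ≤ ∏ i : Fin k, ((N : ℝ) / q i) := prod_nonneg fun i _ => by positivity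
  have hqN : ∀ i, 1 ≤ q i ∧ q i + 1 ≤ N := fun i =>
    ⟨(hq i).1, q_add_one hN1 (by linarith) (by rw [pow_one] at hL5; linarith) (hq i).2.1⟩
  have hmain : ∀ S : Finset ℕ, S ⊆ Icc 1 N → ∀ w : ℕ → ℝ, (∀ n ∈ S, |w n| ≤ 1) →
        ∀ T : Finset (Fin k → ℤ), (∀ h ∈ T, ∀ i, |h i| ≤ N ∧ h i ≡ a i [ZMOD q i]) →
        (∀ h ∈ T, N / Real.log N ^ (A + 1) <
          |∑ n ∈ S, w n * (∏ i, ex thp (h i) n - ∏ i, ex (lamz z) (h i) n)|) →
        (T.card : ℝ) ≤ (∏ i, ((N : ℝ) / q i)) / Real.log N ^ (A + 1) := by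
    intro S hS w hw T hT hT2
    refine hs N (by omega) q a S (fun _ => ex thp) (fun _ => ex (lamz z)) hqN ?_ ?_ ?_ w hw T hT hT2
    · intro i w' hw' T' hT' hT2'
      exact hD3 (q i) (hq i).1 (hq i).2.1 (hq i).2.2 S hS w' hw' (a i) T' hT' hT2'
    · intro i h hh n hn
      rw [abs_le] at hh
      have hnN := mem_Icc.1 (hS hn)
      exact ex_abs_le (M := 2 * N) (by linarith) hnN.2 hh.2 le_rfl
        (fun m hm => thp_le (by linarith) (mem_Icc.1 hm).2)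
    · intro i h hh n hn
      rw [abs_le] at hh
      have hnN := mem_Icc.1 (hS hn)
      exact ex_abs_le (M := 2 * N) (by linarith) hnN.2 hh.2 le_rfl
        (fun m hm => lamz_abs_le (by linarith) hV)
  have hle : (∏ i, ((N : ℝ) / q i)) / Real.log N ^ (A + 1) ≤ (∏ i, ((N : ℝ) / q i)) / Real.log N ^ A :=
    div_le_div_of_nonneg_left hPr (by positivity) (pow_le_pow_right₀ hL1 (by omega))
  refine ⟨fun S hS w hw T hT hT2 => ?_, fun T hT hT2 => ?_⟩
  · refine (hmain S hS w hw T hT fun h hh => lt_of_le_of_lt ?_ (hT2 h hh)).trans hle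
    exact div_le_div_of_nonneg_left hN0.le (by positivity) (pow_le_pow_right₀ hL1 (by omega))
  · refine (hmain (Icc 1 N) (Subset.refl _) (fun _ => 1) (fun _ _ => by simp) T (fun h hh i => ?_)
      (fun h hh => ?_)).trans hle
    · obtain ⟨e1, e2, e3⟩ := (hT h hh).2 i
      exact ⟨abs_le.2 ⟨by linarith, e2⟩, e3⟩
    · obtain ⟨hinj, hh0⟩ := hT h hh
      have e1 := hT2 h hh
      have e2 := h3 N (by omega) z ((pow_le_pow_right₀ hL1 (by omega)).trans hzlo) hzhi (fun _ => 1) h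
        (fun _ => one_ne_zero) (fun i j hij e => hij (hinj (by linarith)).symm)
        (fun _ => by
          rw [Int.natAbs_one]
          exact Nat.one_le_pow _ _ hN1)
        (fun i => by
          have := (hh0 i).1
          have := (hh0 i).2.1
          rw [pow_one]
          omega)
        (fun p hp _ i hpi => by
          have := Int.le_of_dvd one_pos hpi.1
          have := hp.two_le
          omega)
      have e3 := model_prod (N := N) (z := z) (fun i => (hh0 i).1)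
      have hVp := Vz_pos z
      obtain ⟨R, hR⟩ : ∃ R : ℝ, R = (((Icc 1 N).filter (fun m => ∀ p ∈ pz z, ¬ Qf (fun _ => 1) h p m)).card : ℝ) := ⟨_, rfl⟩
      rw [← hR] at e2 e3
      have e4 : |((Vz z)⁻¹) ^ k * R - sing (fun _ => 1) h * N| ≤ N / Real.log N ^ (A + 1) := by
        have e5 : ((Vz z)⁻¹) ^ k * R - sing (fun _ => 1) h * N =
            ((Vz z)⁻¹) ^ k * (R - sing (fun _ => 1) h * Vz z ^ k * N) := by
          have : ((Vz z)⁻¹) ^ k * Vz z ^ k = 1 := by rw [← mul_pow, inv_mul_cancel₀ hVp.ne', one_pow]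
          linear_combination (sing (fun _ => 1) h * N) * this
        rw [e5, abs_mul, abs_of_nonneg (by positivity)]
        calc ((Vz z)⁻¹) ^ k * |R - sing (fun _ => 1) h * Vz z ^ k * N| ≤
            Real.log N ^ k * (N / Real.log N ^ (A + k + 1)) := by gcongr
          _ = N / Real.log N ^ (A + 1) := by
              rw [show A + k + 1 = (A + 1) + k by ring, pow_add]
              field_simp
      have e6 : ∑ n ∈ Icc 1 N, (fun _ => (1 : ℝ)) n * (∏ i, ex thp (h i) n - ∏ i, ex (lamz z) (h i) n) =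
          ∑ n ∈ Icc 1 N, ∏ i, ex thp (h i) n - ((Vz z)⁻¹) ^ k * R := by
        rw [← e3, ← sum_sub_distrib]
        refine sum_congr rfl fun n _ => ?_
        simp
      rw [e6]
      have e7 := abs_sub_le (∑ n ∈ Icc 1 N, ∏ i, ex thp (h i) n) (((Vz z)⁻¹) ^ k * R) (sing (fun _ => 1) h * N)
      have e8 : (N : ℝ) / Real.log N ^ (A + 1) + N / Real.log N ^ (A + 1) ≤ N / Real.log N ^ A := by
        calc (N : ℝ) / Real.log N ^ (A + 1) + N / Real.log N ^ (A + 1) = N / Real.log N ^ A * (2 / Real.log N) := by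
              rw [pow_succ]
              field_simp
              ring
          _ ≤ N / Real.log N ^ A * 1 := by
              refine mul_le_mul_of_nonneg_left ?_ (by positivity)
              rw [div_le_one hL0]
              linarith
          _ = _ := mul_one _
      linarith

end Pool.Agent.H579.G
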