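import Pool.Agent.H579.G.Dns5
import Pool.Agent.H579.G.Tup4

set_option autoImplicit false

/-! The second moment of the sieve model. -/

namespace Pool.Agent.H579.G

open Finset
open Pool.Agent.H373R2.T7
open Pool.Agent.Y614.GJ.Core (ev_log)

lemma card_lower (m₀ : ℕ) : ∃ N₀ : ℕ, ∀ N : ℕ, N₀ ≤ N → ∀ q : ℕ, 1 ≤ q → (q : ℝ) ≤ (N : ℝ) ^ (2 / 3 : ℝ) → ∀ a : ℤ,
    m₀ ≤ (Hc N q a).card ∧ Real.log N / 4 ≤ Real.log (Hc N q a).card := by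
  obtain ⟨n1, h1⟩ := Filter.eventually_atTop.1 (ev_log 1 (s := 1 / 12) (by norm_num) 10)
  obtain ⟨n2, h2⟩ := Filter.eventually_atTop.1 (ev_log 1 (s := 1 / 4) (by norm_num) m₀)
  refine ⟨n1 + n2 + 1, fun N hN q hq hqN a => ?_⟩
  obtain ⟨hL, h3⟩ := h1 N (by omega)
  obtain ⟨hm, h4⟩ := h2 N (by omega)
  rw [pow_one] at h3 h4
  have hN0 : (0 : ℝ) < N := by exact_mod_cast (by omega : 0 < N)
  have hq0 : (0 : ℝ) < q := by exact_mod_cast hq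
  obtain ⟨b, -, -, -, h5, -⟩ := cls_sum (N := N) hq a
  have h6 : (N : ℝ) ^ (1 / 3 : ℝ) ≤ N / q := by
    rw [le_div_iff₀ hq0]
    calc (N : ℝ) ^ (1 / 3 : ℝ) * q ≤ (N : ℝ) ^ (1 / 3 : ℝ) * (N : ℝ) ^ (2 / 3 : ℝ) := by gcongr
      _ = N := by rw [← Real.rpow_add hN0]; norm_num
  have h7 : (N : ℝ) ^ (1 / 3 : ℝ) = (N : ℝ) ^ (1 / 4 : ℝ) * (N : ℝ) ^ (1 / 12 : ℝ) := by
    rw [← Real.rpow_add hN0]; norm_num
  have h8 : (N : ℝ) ^ (1 / 4 : ℝ) ≤ (Hc N q a).card := by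
    have h9 : 10 ≤ (N : ℝ) ^ (1 / 12 : ℝ) := by linarith
    have h10 : (0 : ℝ) < (N : ℝ) ^ (1 / 4 : ℝ) := Real.rpow_pos_of_pos hN0 _
    have h11 : (1 : ℝ) ≤ (N : ℝ) ^ (1 / 4 : ℝ) := Real.one_le_rpow (by exact_mod_cast (by omega : 1 ≤ N)) (by norm_num)
    nlinarith
  constructor
  · have : (m₀ : ℝ) ≤ (Hc N q a).card := by linarith
    exact_mod_cast this
  · have h9 := Real.log_le_log (Real.rpow_pos_of_pos hN0 _) h8
    rw [Real.log_rpow hN0] at h9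
    linarith

lemma one_le_fac {p : ℕ} (hp : p.Prime) : 1 ≤ (1 - 1 / (p : ℝ))⁻¹ := by
  have hp2 : (2 : ℝ) ≤ p := by exact_mod_cast hp.two_le
  have h1 := one_sub_pos hp
  rw [one_le_inv₀ h1]
  have : 0 ≤ 1 / (p : ℝ) := by positivity
  linarith

lemma prod_sub_le {s t : Finset ℕ} (h : s ⊆ t) (f : ℕ → ℝ) (hf : ∀ p ∈ t, 1 ≤ f p) :
    ∏ p ∈ s, f p ≤ ∏ p ∈ t, f p := by
  classical
  rw [← prod_sdiff h]
  have h1 : 1 ≤ ∏ p ∈ t \ s, f p := by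
    have : ∏ _p ∈ t \ s, (1 : ℝ) ≤ ∏ p ∈ t \ s, f p :=
      prod_le_prod (fun _ _ => zero_le_one) fun p hp => hf p (mem_sdiff.1 hp).1
    simpa using this
  have h2 : 0 ≤ ∏ p ∈ s, f p := prod_nonneg fun p hp => zero_le_one.trans (hf p (h hp))
  nlinarith

lemma one_le_prod' {s : Finset ℕ} (f : ℕ → ℝ) (hf : ∀ p ∈ s, 1 ≤ f p) : 1 ≤ ∏ p ∈ s, f p := by
  have := prod_sub_le (empty_subset s) f hf
  simpa using this

lemma Vz_inv_eq (z : ℕ) : (Vz z)⁻¹ = ∏ p ∈ pz z, (1 - 1 / (p : ℝ))⁻¹ := by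
  unfold Vz
  rw [prod_inv_distrib]

lemma Qz_bd (z q : ℕ) : 1 ≤ Qz z q ∧ Qz z q ≤ (Vz z)⁻¹ := by
  rw [Vz_inv_eq]
  unfold Qz
  exact ⟨one_le_prod' _ fun p hp => one_le_fac (mem_pz.1 (mem_filter.1 hp).1).2,
    prod_sub_le (filter_subset _ _) _ fun p hp => one_le_fac (mem_pz.1 hp).2⟩

lemma Wz_bd (z q : ℕ) (n : ℤ) : 1 ≤ Wz z q n ∧ Wz z q n ≤ (Vz z)⁻¹ := by
  classical
  rw [Vz_inv_eq]
  unfold Wz
  exact ⟨one_le_prod' _ fun p hp => one_le_fac (mem_pz.1 (mem_filter.1 hp).1).2,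
    prod_sub_le (filter_subset _ _) _ fun p hp => one_le_fac (mem_pz.1 hp).2⟩

lemma ex_lamz_bd (z : ℕ) (h : ℤ) (s : ℕ) : 0 ≤ ex (lamz z) h s ∧ ex (lamz z) h s ≤ (Vz z)⁻¹ := by
  have := inv_pos.2 (Vz_pos z)
  unfold ex lamz
  split_ifs <;> exact ⟨by linarith, by linarith⟩

open Classical in
/-- the second moment of the sieve model -/
theorem sieve_mom (k E : ℕ) : ∃ N₀ : ℕ, ∀ N : ℕ, N₀ ≤ N → ∀ z : ℕ, z = ⌈Real.log N ^ E⌉₊ →
    ∀ q : Fin k → ℕ, (∀ i, 1 ≤ q i ∧ (q i : ℝ) ≤ (N : ℝ) ^ (2 / 3 : ℝ)) → ∀ a : Fin k → ℤ, ∀ w : ℕ,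
    (∀ p : ℕ, p.Prime → p ≤ w → ∀ i, p ∣ q i) → ∀ S : Finset ℕ, S ⊆ Icc 1 N → ∀ B : ℝ,
    ∑ s ∈ S, ∑ t ∈ S.erase s, (∏ p ∈ (pz z).filter (fun p : ℕ => w < p ∧ (p : ℤ) ∣ (s : ℤ) - t),
      ((1 - 1 / (p : ℝ))⁻¹) ^ k - 1) ≤ B →
    ∑ h ∈ Fintype.piFinset (fun i => Hc N (q i) (a i)), (∑ s ∈ S, ∏ i, ex (lamz z) (h i) s -
        (∏ i, Qz z (q i)) * (S.filter (fun s => ∀ i, Gd z (q i) (a i) s)).card) ^ 2 ≤
      (∏ i, ((Hc N (q i) (a i)).card : ℝ)) * ((∏ i, Qz z (q i)) ^ 2 * B + (N : ℝ) ^ 2 / Real.log N ^ 8) := by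
  obtain ⟨U', hU'⟩ : ∃ U', U' = 5 * k + 12 := ⟨_, rfl⟩
  obtain ⟨n1, h1⟩ := zpar E
  obtain ⟨m2, h2⟩ := u_avg (E + 2) (U' + 3)
  obtain ⟨m3, h3⟩ := v_avg (E + 2) (U' + 3)
  obtain ⟨n4, h4⟩ := card_lower (m2 + m3 + 1)
  obtain ⟨n5, h5⟩ := Filter.eventually_atTop.1 (ev_log (4 * k + 11) (s := 1) (by norm_num)
    ((4 : ℝ) ^ (E + 2) + 4 ^ (U' + 3) + k + 10))
  refine ⟨n1 + n4 + n5 + 1, fun N hN z hz q hq a w hw S hS B hB => ?_⟩
  obtain ⟨hL10, hzlo, hzhi, hV⟩ := h1 N (by omega)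
  obtain ⟨hLbig, hLN⟩ := h5 N (by omega)
  rw [← hz] at hzlo hzhi hV
  obtain ⟨L, hL⟩ : ∃ L, L = Real.log N := ⟨_, rfl⟩
  rw [← hL] at hL10 hzlo hzhi hV hLbig hLN ⊢
  have hN0 : (0 : ℝ) < N := by exact_mod_cast (by omega : 0 < N)
  have hN1 : (1 : ℝ) ≤ N := by exact_mod_cast (by omega : 1 ≤ N)
  rw [Real.rpow_one] at hLN
  have hL0 : 0 < L := by linarith
  have hL1 : 1 ≤ L := by linarith
  have hE1 : (0 : ℝ) < 4 ^ (E + 2) := by positivity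
  have hE2 : (0 : ℝ) < 4 ^ (U' + 3) := by positivity
  have hk0 : (0 : ℝ) ≤ k := Nat.cast_nonneg k
  have hVz := inv_pos.2 (Vz_pos z)
  have hcard := fun i => h4 N (by omega) (q i) (hq i).1 (hq i).2 (a i)
  rw [← hL] at hcard
  have hz1 : 1 ≤ z := by
    have : (1 : ℝ) ≤ z := le_trans (one_le_pow₀ hL1) hzlo
    exact_mod_cast this
  have hlogc : ∀ i, L / 4 ≤ Real.log (Hc N (q i) (a i)).card := fun i => (hcard i).2
  have hzc : ∀ i, (z : ℝ) ≤ Real.log (Hc N (q i) (a i)).card ^ (E + 2) := by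
    intro i
    have e1 : L ^ (E + 1) ≤ (L / 4) ^ (E + 2) := by
      rw [div_pow, le_div_iff₀ hE1, pow_succ L (E + 1)]
      gcongr
      linarith
    exact hzhi.trans (e1.trans (pow_le_pow_left₀ (by linarith) (hlogc i) _))
  -- the error
  obtain ⟨e, he⟩ : ∃ e : ℝ, e = 1 / L ^ U' := ⟨_, rfl⟩
  have he0 : 0 ≤ e := by rw [he]; positivity
  have he1 : e ≤ 1 := by
    rw [he, div_le_one (by positivity)]
    exact one_le_pow₀ hL1
  have herr : ∀ i, ((Vz z)⁻¹ ^ 2) / Real.log (Hc N (q i) (a i)).card ^ (U' + 3) ≤ e := by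
    intro i
    have e1 : (L / 4) ^ (U' + 3) ≤ Real.log (Hc N (q i) (a i)).card ^ (U' + 3) :=
      pow_le_pow_left₀ (by linarith) (hlogc i) _
    have e2 : (Vz z)⁻¹ ^ 2 ≤ L ^ 2 := pow_le_pow_left₀ hVz.le hV 2
    calc ((Vz z)⁻¹ ^ 2) / Real.log (Hc N (q i) (a i)).card ^ (U' + 3) ≤ L ^ 2 / (L / 4) ^ (U' + 3) :=
          div_le_div₀ (by positivity) e2 (by positivity) e1
      _ = L ^ 2 * 4 ^ (U' + 3) / L ^ (U' + 3) := by rw [div_pow]; field_simp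
      _ ≤ L ^ 2 * L / L ^ (U' + 3) := by
          gcongr
          linarith
      _ = e := by
          rw [he, pow_add]
          field_simp
  have hV1 : 1 ≤ (Vz z)⁻¹ := (Qz_bd z 1).1.trans (Qz_bd z 1).2
  have herr1 : ∀ i, ((Vz z)⁻¹) / Real.log (Hc N (q i) (a i)).card ^ (U' + 3) ≤ e := by
    intro i
    refine le_trans ?_ (herr i)
    have : 0 < Real.log (Hc N (q i) (a i)).card := by linarith [hlogc i]
    gcongr
    nlinarith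
  obtain ⟨K, hK⟩ : ∃ K, K = L ^ 4 := ⟨_, rfl⟩
  have hK1 : 1 ≤ K := by rw [hK]; exact one_le_pow₀ hL1
  obtain ⟨S', hS'⟩ : ∃ S', S' = S.filter (fun s => ∀ i, Gd z (q i) (a i) s) := ⟨_, rfl⟩
  rw [← hS']
  have hSS : S' ⊆ S := by rw [hS']; exact filter_subset _ _
  have hgd : ∀ s ∈ S', ∀ i, Gd z (q i) (a i) s := fun s hs => by
    rw [hS', mem_filter] at hs
    exact hs.2
  have hsum : ∀ h ∈ Fintype.piFinset (fun i => Hc N (q i) (a i)), ∑ s ∈ S, ∏ i, ex (lamz z) (h i) s =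
      ∑ s ∈ S', ∏ i, ex (lamz z) (h i) s := by
    intro h hh
    symm
    refine sum_subset hSS fun s hs hs' => ?_
    rw [hS', mem_filter, not_and] at hs'
    have := hs' hs
    push Not at this
    obtain ⟨i, hi⟩ := this
    exact prod_eq_zero (mem_univ i) (ex_cls (Fintype.mem_piFinset.1 hh i) hi)
  rw [sum_congr rfl fun h hh => by rw [hsum h hh]]
  have hmain := sec_mom (fun i => Hc N (q i) (a i)) S' (fun h s => ex (lamz z) h s) (fun i => Qz z (q i))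
    (fun i s t => Wz z (q i) ((s : ℤ) - t)) hK1 he0 (fun i => by have := (hcard i).1; omega)
    (fun h s => (ex_lamz_bd z h s).1)
    (fun i => ⟨by linarith [(Qz_bd z (q i)).1], by
      have := (Qz_bd z (q i)).2
      rw [hK]
      have h6 : L + 1 ≤ L ^ 4 := by nlinarith [sq_nonneg (L - 1), sq_nonneg L, mul_pos hL0 hL0]
      linarith⟩)
    (fun i s t => ⟨by linarith [(Wz_bd z (q i) ((s : ℤ) - t)).1], by
      have e1 := (Qz_bd z (q i)).2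
      have e2 := (Wz_bd z (q i) ((s : ℤ) - t)).2
      have e3 : Qz z (q i) ^ 2 * Wz z (q i) ((s : ℤ) - t) ≤ L ^ 2 * L := by
        have e4 := (Qz_bd z (q i)).1
        have e5 := (Wz_bd z (q i) ((s : ℤ) - t)).1
        gcongr
        · linarith
        · linarith
      have e6 : L ^ 2 * L + 1 ≤ L ^ 4 := by
        have : 1 ≤ L ^ 2 * L := by
          have := one_le_pow₀ (n := 3) hL1
          nlinarith
        nlinarith
      rw [hK]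
      linarith⟩)
    (fun i s hs => by
      have h6 := h2 N (q i) (hq i).1 (a i) (by have := (hcard i).1; omega) z hz1 (hzc i) s (hgd s hs i)
      refine h6.trans ?_
      rw [mul_div_assoc]
      exact mul_le_mul_of_nonneg_left (herr1 i) (Nat.cast_nonneg _))
    (fun i s hs t ht => by
      have h6 := h3 N (q i) (hq i).1 (a i) (by have := (hcard i).1; omega) z hz1 (hzc i) s t (hgd s hs i)
        (hgd t (mem_of_mem_erase ht) i)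
      refine h6.trans ?_
      rw [mul_div_assoc, ← mul_add]
      refine mul_le_mul_of_nonneg_left ?_ (Nat.cast_nonneg _)
      linarith [herr i])
    (fun i s hs h hh => by
      obtain ⟨e1, e2⟩ := ex_lamz_bd z h s
      rw [hK]
      have e3 : ex (lamz z) h s ≤ L := e2.trans hV
      have e4 : ex (lamz z) h s * ex (lamz z) h s ≤ L * L := mul_le_mul e3 e3 e1 hL0.le
      have e5 : L * L ≤ L ^ 4 := by
        have : L ^ 2 ≤ L ^ 4 := pow_le_pow_right₀ hL1 (by norm_num)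
        nlinarith
      linarith)
  refine hmain.trans (mul_le_mul_of_nonneg_left ?_ (prod_nonneg fun i _ => Nat.cast_nonneg _))
  -- the pair sum
  obtain ⟨Θ, hΘ⟩ : ∃ Θ, Θ = ∏ i, Qz z (q i) := ⟨_, rfl⟩
  have hΘ1 : 0 ≤ Θ := by rw [hΘ]; exact prod_nonneg fun i _ => by linarith [(Qz_bd z (q i)).1]
  have hΘ2 : Θ ≤ L ^ k := by
    rw [hΘ]
    calc ∏ i, Qz z (q i) ≤ ∏ _i : Fin k, L := prod_le_prod (fun i _ => by linarith [(Qz_bd z (q i)).1])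
          fun i _ => (Qz_bd z (q i)).2.trans hV
      _ = L ^ k := by rw [prod_const, card_univ, Fintype.card_fin]
  have hpt : ∀ s t : ℕ, ∏ i, Wz z (q i) ((s : ℤ) - t) ≤
      ∏ p ∈ (pz z).filter (fun p : ℕ => w < p ∧ (p : ℤ) ∣ (s : ℤ) - t), ((1 - 1 / (p : ℝ))⁻¹) ^ k := by
    intro s t
    have e1 : ∀ i, Wz z (q i) ((s : ℤ) - t) ≤
        ∏ p ∈ (pz z).filter (fun p : ℕ => w < p ∧ (p : ℤ) ∣ (s : ℤ) - t), (1 - 1 / (p : ℝ))⁻¹ := by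
      intro i
      unfold Wz
      refine prod_sub_le (fun p hp => ?_) _ fun p hp => one_le_fac (mem_pz.1 (mem_filter.1 hp).1).2
      rw [mem_filter] at hp ⊢
      refine ⟨hp.1, ?_, hp.2.2⟩
      by_contra hc
      exact hp.2.1 (hw p (mem_pz.1 hp.1).2 (not_lt.1 hc) i)
    calc ∏ i, Wz z (q i) ((s : ℤ) - t) ≤
        ∏ _i : Fin k, ∏ p ∈ (pz z).filter (fun p : ℕ => w < p ∧ (p : ℤ) ∣ (s : ℤ) - t), (1 - 1 / (p : ℝ))⁻¹ :=
          prod_le_prod (fun i _ => by linarith [(Wz_bd z (q i) ((s : ℤ) - t)).1]) fun i _ => e1 i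
      _ = _ := by rw [prod_const, card_univ, Fintype.card_fin, prod_pow]
  have hge1 : ∀ s t : ℕ, 1 ≤ ∏ p ∈ (pz z).filter (fun p : ℕ => w < p ∧ (p : ℤ) ∣ (s : ℤ) - t), ((1 - 1 / (p : ℝ))⁻¹) ^ k :=
    fun s t => one_le_prod' _ fun p hp => one_le_pow₀ (one_le_fac (mem_pz.1 (mem_filter.1 hp).1).2)
  have hpair : ∑ s ∈ S', ∑ t ∈ S'.erase s, (∏ i, Wz z (q i) ((s : ℤ) - t) - 1) ≤ B := by
    refine le_trans ?_ hB
    calc ∑ s ∈ S', ∑ t ∈ S'.erase s, (∏ i, Wz z (q i) ((s : ℤ) - t) - 1) ≤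
        ∑ s ∈ S', ∑ t ∈ S.erase s, (∏ p ∈ (pz z).filter (fun p : ℕ => w < p ∧ (p : ℤ) ∣ (s : ℤ) - t),
          ((1 - 1 / (p : ℝ))⁻¹) ^ k - 1) := by
          refine sum_le_sum fun s _ => ?_
          refine (sum_le_sum fun t _ => sub_le_sub_right (hpt s t) 1).trans ?_
          exact sum_le_sum_of_subset_of_nonneg (erase_subset_erase s hSS) fun t _ _ => by linarith [hge1 s t]
      _ ≤ _ := sum_le_sum_of_subset_of_nonneg hSS fun s _ _ => sum_nonneg fun t _ => by linarith [hge1 s t]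
  rw [← hΘ]
  have hScard : (S'.card : ℝ) ≤ N := by
    have h6 := card_le_card (hSS.trans hS)
    rw [Nat.card_Icc] at h6
    exact_mod_cast (by omega : S'.card ≤ N)
  have hkL : (k : ℝ) ≤ L := by linarith
  have hErr : (k : ℝ) * K ^ k * e ≤ 1 / L ^ (k + 11) := by
    rw [he, hK, ← pow_mul]
    calc (k : ℝ) * L ^ (4 * k) * (1 / L ^ U') ≤ L * L ^ (4 * k) * (1 / L ^ U') := by gcongr
      _ = 1 / L ^ (k + 11) := by
          rw [hU', show 5 * k + 12 = (4 * k + 1) + (k + 11) by ring, pow_add L (4 * k + 1), pow_succ]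
          field_simp
  have hErr0 : 0 ≤ (k : ℝ) * K ^ k * e := by positivity
  have t1 : (S'.card : ℝ) * K ^ k ≤ (N : ℝ) ^ 2 / L ^ 11 := by
    rw [hK, ← pow_mul, le_div_iff₀ (by positivity)]
    calc (S'.card : ℝ) * L ^ (4 * k) * L ^ 11 = S'.card * L ^ (4 * k + 11) := by rw [pow_add]; ring
      _ ≤ N * N := by gcongr
      _ = (N : ℝ) ^ 2 := by ring
  have t2 : (S'.card : ℝ) ^ 2 * (k * K ^ k * e) ≤ (N : ℝ) ^ 2 / L ^ 11 := by
    calc (S'.card : ℝ) ^ 2 * (k * K ^ k * e) ≤ (N : ℝ) ^ 2 * (1 / L ^ (k + 11)) := by gcongr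
      _ ≤ (N : ℝ) ^ 2 * (1 / L ^ 11) := by
          have : L ^ 11 ≤ L ^ (k + 11) := pow_le_pow_right₀ hL1 (by omega)
          gcongr
      _ = _ := by ring
  have t3 : 2 * Θ * (S'.card : ℝ) ^ 2 * (k * K ^ k * e) ≤ 2 * ((N : ℝ) ^ 2 / L ^ 11) := by
    calc 2 * Θ * (S'.card : ℝ) ^ 2 * (k * K ^ k * e) ≤ 2 * L ^ k * (N : ℝ) ^ 2 * (1 / L ^ (k + 11)) := by gcongr
      _ = 2 * ((N : ℝ) ^ 2 / L ^ 11) := by
          rw [pow_add]
          field_simp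
  have t4 : 4 * ((N : ℝ) ^ 2 / L ^ 11) ≤ (N : ℝ) ^ 2 / L ^ 8 := by
    rw [show L ^ 11 = L ^ 8 * L ^ 3 by ring, ← div_div, ← mul_div_assoc, div_le_iff₀ (by positivity)]
    have h6 : (4 : ℝ) ≤ L ^ 3 := by nlinarith [sq_nonneg L, mul_pos hL0 hL0]
    have h7 : 0 ≤ (N : ℝ) ^ 2 / L ^ 8 := by positivity
    nlinarith
  have t5 : Θ ^ 2 * ∑ s ∈ S', ∑ t ∈ S'.erase s, (∏ i, Wz z (q i) ((s : ℤ) - t) - 1) ≤ Θ ^ 2 * B :=
    mul_le_mul_of_nonneg_left hpair (sq_nonneg _)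
  linarith

end Pool.Agent.H579.G
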