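import Pool.Agent.H579.G.Dms5

set_option autoImplicit false

/-! The mean of the local factors over pairs of elements of arbitrary sets. -/

namespace Pool.Agent.H579.G

open Finset
open Pool.Agent.H373R2.T7
open Pool.Agent.Y614.GJ.Core (ev_log)

lemma gk_bd2 {r p : ℕ} (hp : p.Prime) (hr : 2 * r ≤ p) : 0 ≤ gk r p ∧ gk r p ≤ 4 * r / p := by
  have hp2 : (2 : ℝ) ≤ p := by exact_mod_cast hp.two_le
  have hp0 : (0 : ℝ) < p := by linarith
  refine ⟨(gk_bd hp).1, ?_⟩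
  have e1 : (1 - 1 / (p : ℝ))⁻¹ = 1 + 1 / (p - 1) := by
    have : (p : ℝ) - 1 ≠ 0 := by linarith
    have h0 : (p : ℝ) ≠ 0 := by linarith
    field_simp
    ring
  have h3 : 1 / ((p : ℝ) - 1) ≤ 2 / p := by
    rw [div_le_div_iff₀ (by linarith) (by linarith)]
    linarith
  have h4 : (1 - 1 / (p : ℝ))⁻¹ ≤ Real.exp (2 / p) := by
    rw [e1]
    linarith [Real.add_one_le_exp (2 / (p : ℝ))]
  have h5 : ((1 - 1 / (p : ℝ))⁻¹) ^ r ≤ Real.exp (2 * r / p) := by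
    calc ((1 - 1 / (p : ℝ))⁻¹) ^ r ≤ Real.exp (2 / p) ^ r :=
          pow_le_pow_left₀ (inv_pos.2 (one_sub_pos hp)).le h4 r
      _ = Real.exp (2 * r / p) := by rw [← Real.exp_nat_mul]; congr 1; ring
  obtain ⟨y, hy⟩ : ∃ y, y = 2 * (r : ℝ) / p := ⟨_, rfl⟩
  have hy0 : 0 ≤ y := by rw [hy]; positivity
  have hy1 : y ≤ 1 := by
    rw [hy, div_le_one hp0]
    exact_mod_cast hr
  rw [← hy] at h5
  have h6 : Real.exp y ≤ 1 + 2 * y := by
    have := Real.abs_exp_sub_one_sub_id_le (x := y) (by rw [abs_of_nonneg hy0]; exact hy1)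
    have h6 := (abs_le.1 this).2
    nlinarith
  unfold gk
  have h7 : 4 * (r : ℝ) / p = 2 * y := by rw [hy]; ring
  rw [h7]
  linarith

open Classical in
/-- high moments over all pairs -/
lemma mom_bd {N z w r : ℕ} (hN : 1 ≤ N) (hw : 1 ≤ w) (hr : 2 * r ≤ w) :
    ∑ s ∈ Icc 1 N, ∑ t ∈ (Icc 1 N).erase s, ∏ p ∈ (pz z).filter (fun p : ℕ => w < p ∧ (p : ℤ) ∣ (s : ℤ) - t),
      ((1 - 1 / (p : ℝ))⁻¹) ^ r ≤ 2 * Real.exp 2 * (N : ℝ) ^ 2 := by
  have hN0 : (0 : ℝ) < N := by exact_mod_cast hN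
  have hw0 : (0 : ℝ) < w := by exact_mod_cast hw
  obtain ⟨P, hP⟩ : ∃ P, P = (pz z).filter (fun p => w < p) := ⟨_, rfl⟩
  have hPp : ∀ p ∈ P, p.Prime := fun p hp => by
    rw [hP, mem_filter] at hp
    exact (mem_pz.1 hp.1).2
  have hPw : ∀ p ∈ P, w < p ∧ p ≤ z := fun p hp => by
    rw [hP, mem_filter] at hp
    exact ⟨hp.2, (mem_pz.1 hp.1).1⟩
  have hg0 : ∀ p ∈ P, 0 ≤ gk r p := fun p hp => (gk_bd (hPp p hp)).1
  have hg1 : ∀ p ∈ P, gk r p ≤ 4 * r / p := fun p hp => (gk_bd2 (hPp p hp) (by have := (hPw p hp).1; omega)).2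
  have e1 : ∀ s t : ℕ, ∏ p ∈ (pz z).filter (fun p : ℕ => w < p ∧ (p : ℤ) ∣ (s : ℤ) - t),
      ((1 - 1 / (p : ℝ))⁻¹) ^ r = ∑ T ∈ P.powerset, (∏ p ∈ T, gk r p) *
        (if ((∏ p ∈ T, p : ℕ) : ℤ) ∣ (s : ℤ) - t then 1 else 0) := by
    intro s t
    have h1 : (pz z).filter (fun p : ℕ => w < p ∧ (p : ℤ) ∣ (s : ℤ) - t) = P.filter (fun p : ℕ => (p : ℤ) ∣ (s : ℤ) - t) := by
      rw [hP, filter_filter]
    rw [h1, ← expand_dvd hPp (gk r) ((s : ℤ) - t)]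
    refine prod_congr rfl fun p _ => ?_
    unfold gk
    ring
  have e2 : ∑ s ∈ Icc 1 N, ∑ t ∈ (Icc 1 N).erase s, ∏ p ∈ (pz z).filter (fun p : ℕ => w < p ∧ (p : ℤ) ∣ (s : ℤ) - t),
      ((1 - 1 / (p : ℝ))⁻¹) ^ r = ∑ T ∈ P.powerset, (∏ p ∈ T, gk r p) *
        ∑ s ∈ Icc 1 N, ((((Icc 1 N).erase s).filter (fun t : ℕ => ((∏ p ∈ T, p : ℕ) : ℤ) ∣ (s : ℤ) - t)).card : ℝ) := by
    rw [sum_congr rfl fun s _ => sum_congr rfl fun t _ => e1 s t]
    rw [sum_congr rfl fun s _ => sum_comm]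
    rw [sum_comm]
    refine sum_congr rfl fun T _ => ?_
    rw [mul_sum]
    refine sum_congr rfl fun s _ => ?_
    rw [← mul_sum, card_filter, Nat.cast_sum]
    congr 1
    refine sum_congr rfl fun t _ => ?_
    split_ifs <;> simp
  have e3 : ∀ T ∈ P.powerset, (∏ p ∈ T, gk r p) *
        ∑ s ∈ Icc 1 N, ((((Icc 1 N).erase s).filter (fun t : ℕ => ((∏ p ∈ T, p : ℕ) : ℤ) ∣ (s : ℤ) - t)).card : ℝ) ≤
      2 * (N : ℝ) ^ 2 * ∏ p ∈ T, (gk r p / p) := by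
    intro T hT
    rw [mem_powerset] at hT
    have hd1 : 1 ≤ ∏ p ∈ T, p := Finset.prod_pos fun p hp => (hPp p (hT hp)).pos
    have hg : 0 ≤ ∏ p ∈ T, gk r p := prod_nonneg fun p hp => hg0 p (hT hp)
    calc (∏ p ∈ T, gk r p) * ∑ s ∈ Icc 1 N,
          ((((Icc 1 N).erase s).filter (fun t : ℕ => ((∏ p ∈ T, p : ℕ) : ℤ) ∣ (s : ℤ) - t)).card : ℝ)
        ≤ (∏ p ∈ T, gk r p) * ∑ _s ∈ Icc 1 N, (2 * (N : ℝ) / ((∏ p ∈ T, p : ℕ) : ℝ)) := by
          refine mul_le_mul_of_nonneg_left (sum_le_sum fun s hs => ?_) hg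
          refine le_trans ?_ (cnt_big hN hs hd1)
          have : (((Icc 1 N).erase s).filter (fun t : ℕ => ((∏ p ∈ T, p : ℕ) : ℤ) ∣ (s : ℤ) - t)).card ≤
              ((Icc 1 N).filter (fun t => t ≠ s ∧ t ≡ s [MOD ∏ p ∈ T, p])).card := by
            refine card_le_card fun t ht => ?_
            rw [mem_filter, mem_erase] at ht
            rw [mem_filter]
            exact ⟨ht.1.2, ht.1.1, Nat.modEq_iff_dvd.2 ht.2⟩
          exact_mod_cast this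
      _ = _ := by
          rw [sum_const, nsmul_eq_mul, Nat.card_Icc, Nat.add_sub_cancel, prod_div_distrib, Nat.cast_prod]
          ring
  rw [e2]
  refine (sum_le_sum e3).trans ?_
  rw [← mul_sum, ← prod_one_add]
  have hA1 : ∑ p ∈ P, gk r p / (p : ℝ) ≤ 2 := by
    by_cases hwz : z ≤ w
    · have : P = ∅ := by
        rw [Finset.eq_empty_iff_forall_notMem]
        intro p hp
        have := hPw p hp
        omega
      rw [this, sum_empty]
      norm_num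
    rw [not_le] at hwz
    have h1 : ∀ p ∈ P, gk r p / (p : ℝ) ≤ 4 * r * ((p : ℝ) ^ 2)⁻¹ := by
      intro p hp
      have h2 : (0 : ℝ) < p := by exact_mod_cast (hPp p hp).pos
      calc gk r p / (p : ℝ) ≤ (4 * r / p) / p := div_le_div_of_nonneg_right (hg1 p hp) h2.le
        _ = 4 * r * ((p : ℝ) ^ 2)⁻¹ := by field_simp
    refine (sum_le_sum h1).trans ?_
    rw [← mul_sum]
    have h4 : ∑ p ∈ P, ((p : ℝ) ^ 2)⁻¹ ≤ ∑ p ∈ Ioc w z, ((p : ℝ) ^ 2)⁻¹ :=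
      sum_le_sum_of_subset_of_nonneg (fun p hp => mem_Ioc.2 (hPw p hp)) fun p _ _ => by positivity
    have h5 := sum_Ioc_inv_sq_le_sub (α := ℝ) (k := w) (n := z) (by omega) hwz.le
    have h6 : (0 : ℝ) ≤ (z : ℝ)⁻¹ := by positivity
    calc 4 * (r : ℝ) * ∑ p ∈ P, ((p : ℝ) ^ 2)⁻¹ ≤ 4 * r * (w : ℝ)⁻¹ := by gcongr; linarith
      _ = 2 * (2 * r / w) := by ring
      _ ≤ 2 * 1 := by
          have : 2 * (r : ℝ) / w ≤ 1 := by
            rw [div_le_one hw0]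
            exact_mod_cast hr
          linarith
      _ = 2 := by ring
  have hA0 : ∀ p ∈ P, 0 ≤ gk r p / (p : ℝ) := fun p hp => div_nonneg (hg0 p hp) (Nat.cast_nonneg _)
  have h2 : ∏ p ∈ P, (1 + gk r p / (p : ℝ)) ≤ Real.exp 2 := by
    refine le_trans ?_ (Real.exp_le_exp.2 hA1)
    rw [Real.exp_sum]
    refine prod_le_prod (fun p hp => by linarith [hA0 p hp]) fun p _ => ?_
    linarith [Real.add_one_le_exp (gk r p / (p : ℝ))]
  calc 2 * (N : ℝ) ^ 2 * ∏ p ∈ P, (1 + gk r p / (p : ℝ)) ≤ 2 * (N : ℝ) ^ 2 * Real.exp 2 := by gcongr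
    _ = _ := by ring

open Classical in
/-- the mean of the local factors over pairs of an arbitrary sequence -/
theorem pair_rk (k A : ℕ) (hk : 1 ≤ k) : ∃ C : ℝ, 1 ≤ C ∧ ∃ N₀ : ℕ, ∀ N : ℕ, N₀ ≤ N → ∀ z w : ℕ,
    C * Real.log (Real.log N) ≤ w → ∀ S : Finset ℕ, ∀ u : ℕ → ℕ, (∀ s ∈ S, u s ∈ Icc 1 N) → Set.InjOn u S →
    ∑ s ∈ S, ∑ t ∈ S.erase s, (∏ p ∈ (pz z).filter (fun p : ℕ => w < p ∧ (p : ℤ) ∣ (u s : ℤ) - u t),
      ((1 - 1 / (p : ℝ))⁻¹) ^ k - 1) ≤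
    C * Real.log (Real.log N) / w * (S.card : ℝ) ^ 2 + (N : ℝ) ^ 2 / Real.log N ^ A := by
  have hkr : (1 : ℝ) ≤ k := by exact_mod_cast hk
  obtain ⟨C, hC⟩ : ∃ C : ℝ, C = 16 * k * (A + 1) := ⟨_, rfl⟩
  have hA0 : (0 : ℝ) ≤ A := Nat.cast_nonneg A
  have hC1 : 16 * (k : ℝ) ≤ C := by rw [hC]; nlinarith
  refine ⟨C, by linarith, ?_⟩
  obtain ⟨n1, h1⟩ := Filter.eventually_atTop.1 (ev_log 1 (s := 1) (by norm_num) (2 * Real.exp 2 + Real.exp 1))
  refine ⟨n1 + 1, fun N hN z w hw S u hu1 hu2 => ?_⟩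
  obtain ⟨hLb, -⟩ := h1 N (by omega)
  obtain ⟨L, hL⟩ : ∃ L, L = Real.log N := ⟨_, rfl⟩
  rw [← hL] at hLb hw ⊢
  have hN0 : (0 : ℝ) < N := by exact_mod_cast (by omega : 0 < N)
  have he2 := Real.exp_pos 2
  have he1 := Real.exp_pos 1
  have hLe : Real.exp 1 ≤ L := by linarith
  have hL0 : 0 < L := by linarith
  obtain ⟨l, hl⟩ : ∃ l, l = Real.log L := ⟨_, rfl⟩
  have hl1 : 1 ≤ l := by
    rw [hl]
    have := Real.log_le_log he1 hLe
    rwa [Real.log_exp] at this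
  rw [← hl] at hw ⊢
  have hw8 : 16 * (k : ℝ) ≤ w := by nlinarith
  have hw0 : (0 : ℝ) < w := by linarith
  have hwk : 16 * k ≤ w := by exact_mod_cast hw8
  obtain ⟨e, he⟩ : ∃ e, e = C * l / w := ⟨_, rfl⟩
  have hCp : 0 < C := by linarith
  have he0 : 0 < e := by rw [he]; positivity
  have he1' : e ≤ 1 := by
    rw [he, div_le_one hw0]
    exact hw
  obtain ⟨j, hj⟩ : ∃ j, j = w / (4 * k) := ⟨_, rfl⟩
  have hk4 : 0 < 4 * k := by omega
  have hj1 : 2 * (k * (j + 1)) ≤ w := by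
    have := Nat.div_mul_le_self w (4 * k)
    rw [← hj] at this
    nlinarith
  have hj2 : (w : ℝ) / (8 * k) ≤ j := by
    have h2 := Nat.lt_div_mul_add (a := w) (b := 4 * k) hk4
    rw [← hj] at h2
    have h3 : (w : ℝ) < j * (4 * k) + 4 * k := by exact_mod_cast h2
    rw [div_le_iff₀ (by positivity)]
    nlinarith
  -- pointwise
  have hpt : ∀ x : ℝ, 1 ≤ x → x - 1 ≤ e + (1 / (1 + e) ^ j) * x ^ (j + 1) := by
    intro x hx
    by_cases hx1 : x ≤ 1 + e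
    · have : 0 ≤ (1 / (1 + e) ^ j) * x ^ (j + 1) :=
        mul_nonneg (by positivity) (pow_nonneg (by linarith) _)
      linarith
    · rw [not_le] at hx1
      have h2 : (1 + e) ^ j ≤ x ^ j := pow_le_pow_left₀ (by linarith) hx1.le j
      have h3 : 0 < (1 + e) ^ j := by positivity
      have h4 : x ≤ (1 / (1 + e) ^ j) * x ^ (j + 1) := by
        rw [one_div, pow_succ, ← mul_assoc, ← div_eq_inv_mul]
        have : 1 ≤ x ^ j / (1 + e) ^ j := by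
          rw [le_div_iff₀ h3]
          linarith
        nlinarith
      linarith
  obtain ⟨W, hW⟩ : ∃ W : ℤ → ℝ, ∀ n, W n = ∏ p ∈ (pz z).filter (fun p : ℕ => w < p ∧ (p : ℤ) ∣ n),
      ((1 - 1 / (p : ℝ))⁻¹) ^ k := ⟨_, fun _ => rfl⟩
  have hW1 : ∀ n, 1 ≤ W n := fun n => by
    rw [hW]
    exact one_le_prod' _ fun p hp => one_le_pow₀ (one_le_fac (mem_pz.1 (mem_filter.1 hp).1).2)
  have hWj : ∀ n, W n ^ (j + 1) = ∏ p ∈ (pz z).filter (fun p : ℕ => w < p ∧ (p : ℤ) ∣ n),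
      ((1 - 1 / (p : ℝ))⁻¹) ^ (k * (j + 1)) := by
    intro n
    rw [hW, ← prod_pow]
    exact prod_congr rfl fun p _ => by rw [← pow_mul]
  have hmom := mom_bd (N := N) (z := z) (w := w) (r := k * (j + 1)) (by omega) (by omega) hj1
  have hall : ∑ s ∈ S, ∑ t ∈ S.erase s, W ((u s : ℤ) - u t) ^ (j + 1) ≤ 2 * Real.exp 2 * (N : ℝ) ^ 2 := by
    have e1 : ∑ s ∈ S, ∑ t ∈ S.erase s, W ((u s : ℤ) - u t) ^ (j + 1) =
        ∑ n ∈ S.image u, ∑ m ∈ (S.image u).erase n, W ((n : ℤ) - m) ^ (j + 1) := by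
      rw [sum_image hu2]
      refine sum_congr rfl fun s hs => ?_
      have e1 : (S.image u).erase (u s) = (S.erase s).image u := by
        ext n
        rw [mem_erase, mem_image, mem_image]
        constructor
        · rintro ⟨e2, t, ht, rfl⟩
          exact ⟨t, mem_erase.2 ⟨fun e => e2 (by rw [e]), ht⟩, rfl⟩
        · rintro ⟨t, ht, rfl⟩
          rw [mem_erase] at ht
          exact ⟨fun e => ht.1 (hu2 (mem_coe.2 ht.2) (mem_coe.2 hs) e), t, ht.2, rfl⟩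
      rw [e1, sum_image (hu2.mono (by exact_mod_cast erase_subset s S))]
    rw [e1]
    refine le_trans ?_ hmom
    have hsub : S.image u ⊆ Icc 1 N := by
      intro n hn
      obtain ⟨s, hs, rfl⟩ := mem_image.1 hn
      exact hu1 s hs
    have hnn : ∀ n : ℤ, 0 ≤ W n ^ (j + 1) := fun n => by have := hW1 n; positivity
    calc ∑ n ∈ S.image u, ∑ m ∈ (S.image u).erase n, W ((n : ℤ) - m) ^ (j + 1) ≤
        ∑ n ∈ S.image u, ∑ m ∈ (Icc 1 N).erase n, W ((n : ℤ) - m) ^ (j + 1) :=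
          sum_le_sum fun n _ => sum_le_sum_of_subset_of_nonneg (erase_subset_erase n hsub) fun m _ _ => hnn _
      _ ≤ ∑ n ∈ Icc 1 N, ∑ m ∈ (Icc 1 N).erase n, W ((n : ℤ) - m) ^ (j + 1) :=
          sum_le_sum_of_subset_of_nonneg hsub fun n _ _ => sum_nonneg fun m _ => hnn _
      _ = _ := sum_congr rfl fun s _ => sum_congr rfl fun t _ => hWj _
  have hsmall : (1 / (1 + e) ^ j) * (2 * Real.exp 2 * (N : ℝ) ^ 2) ≤ (N : ℝ) ^ 2 / L ^ A := by
    have h2 : L ^ (A + 1) ≤ (1 + e) ^ j := by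
      have h3 : Real.exp (e / 2) ≤ 1 + e := by
        have := Real.abs_exp_sub_one_sub_id_le (x := e / 2) (by rw [abs_of_nonneg (by linarith)]; linarith)
        have h6 := (abs_le.1 this).2
        nlinarith
      calc L ^ (A + 1) = Real.exp ((A + 1) * l) := by
            rw [hl, show ((A : ℝ) + 1) * Real.log L = ((A + 1 : ℕ) : ℝ) * Real.log L by push_cast; ring,
              Real.exp_nat_mul, Real.exp_log hL0]
        _ ≤ Real.exp (j * (e / 2)) := by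
            refine Real.exp_le_exp.2 ?_
            have h4 : (w : ℝ) / (8 * k) * (e / 2) = (A + 1) * l := by
              rw [he, hC]
              field_simp
              ring
            rw [← h4]
            exact mul_le_mul_of_nonneg_right hj2 (by linarith)
        _ = Real.exp (e / 2) ^ j := by rw [Real.exp_nat_mul]
        _ ≤ (1 + e) ^ j := pow_le_pow_left₀ (Real.exp_pos _).le h3 j
    have h5 : 0 < (1 + e) ^ j := by positivity
    calc (1 / (1 + e) ^ j) * (2 * Real.exp 2 * (N : ℝ) ^ 2) ≤ (1 / L ^ (A + 1)) * (L * (N : ℝ) ^ 2) := by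
          gcongr
          linarith
      _ = (N : ℝ) ^ 2 / L ^ A := by
          rw [pow_succ]
          field_simp
  have hScard : ∑ s ∈ S, ∑ _t ∈ S.erase s, e ≤ e * (S.card : ℝ) ^ 2 := by
    calc ∑ s ∈ S, ∑ _t ∈ S.erase s, e ≤ ∑ _s ∈ S, ∑ _t ∈ S, e :=
          sum_le_sum fun s _ => sum_le_sum_of_subset_of_nonneg (erase_subset _ _) fun _ _ _ => he0.le
      _ = e * (S.card : ℝ) ^ 2 := by
          rw [sum_const, sum_const, nsmul_eq_mul, nsmul_eq_mul]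
          ring
  calc ∑ s ∈ S, ∑ t ∈ S.erase s, (∏ p ∈ (pz z).filter (fun p : ℕ => w < p ∧ (p : ℤ) ∣ (u s : ℤ) - u t),
      ((1 - 1 / (p : ℝ))⁻¹) ^ k - 1) = ∑ s ∈ S, ∑ t ∈ S.erase s, (W ((u s : ℤ) - u t) - 1) := by
        refine sum_congr rfl fun s _ => sum_congr rfl fun t _ => ?_
        rw [hW]
    _ ≤ ∑ s ∈ S, ∑ t ∈ S.erase s, (e + (1 / (1 + e) ^ j) * W ((u s : ℤ) - u t) ^ (j + 1)) :=
        sum_le_sum fun s _ => sum_le_sum fun t _ => hpt _ (hW1 _)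
    _ = ∑ s ∈ S, ∑ _t ∈ S.erase s, e + (1 / (1 + e) ^ j) * ∑ s ∈ S, ∑ t ∈ S.erase s, W ((u s : ℤ) - u t) ^ (j + 1) := by
        rw [mul_sum, ← sum_add_distrib]
        refine sum_congr rfl fun s _ => ?_
        rw [sum_add_distrib, mul_sum]
    _ ≤ e * (S.card : ℝ) ^ 2 + (1 / (1 + e) ^ j) * (2 * Real.exp 2 * (N : ℝ) ^ 2) := by
        refine add_le_add hScard (mul_le_mul_of_nonneg_left hall (by positivity))
    _ ≤ _ := by
        rw [he]
        rw [he] at hsmall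
        linarith

end Pool.Agent.H579.G
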