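import Pool.Agent.H579.G.Dsp1

set_option autoImplicit false

/-! The second moment of the sieve model and the conversion, arbitrary powers of the logarithm. -/

namespace Pool.Agent.H579.G

open Finset
open Pool.Agent.H373R2.T7
open Pool.Agent.Y614.GJ.Core (ev_log)

open Classical in
/-- the second moment of the sieve model, several bases -/
theorem sieve_momR (k E R : ℕ) (hk : 1 ≤ k) : ∃ N₀ : ℕ, ∀ N : ℕ, N₀ ≤ N → ∀ z : ℕ, z = ⌈Real.log N ^ E⌉₊ →
    ∀ q : Fin k → ℕ, (∀ i, 1 ≤ q i ∧ (q i : ℝ) ≤ (N : ℝ) ^ (2 / 3 : ℝ)) → ∀ a : Fin k → ℤ, ∀ w : ℕ,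
    (∀ p : ℕ, p.Prime → p ≤ w → ∀ i, p ∣ q i) → ∀ S : Finset ℕ, S.card ≤ N → ∀ u : Fin k → ℕ → ℕ, ∀ B : ℝ,
    (∀ i, ∑ s ∈ S, ∑ t ∈ S.erase s, (∏ p ∈ (pz z).filter (fun p : ℕ => w < p ∧ (p : ℤ) ∣ (u i s : ℤ) - u i t),
      ((1 - 1 / (p : ℝ))⁻¹) ^ k - 1) ≤ B) →
    ∑ h ∈ Fintype.piFinset (fun i => Hc N (q i) (a i)), (∑ s ∈ S, ∏ i, ex (lamz z) (h i) (u i s) -
        (∏ i, Qz z (q i)) * (S.filter (fun s => ∀ i, Gd z (q i) (a i) (u i s))).card) ^ 2 ≤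
      (∏ i, ((Hc N (q i) (a i)).card : ℝ)) * ((∏ i, Qz z (q i)) ^ 2 * (k * B) + (N : ℝ) ^ 2 / Real.log N ^ R) := by
  obtain ⟨U', hU'⟩ : ∃ U', U' = 5 * k + (R + 4) := ⟨_, rfl⟩
  obtain ⟨n1, h1⟩ := zpar E
  obtain ⟨m2, h2⟩ := u_avg (E + 2) (U' + 3)
  obtain ⟨m3, h3⟩ := v_avg (E + 2) (U' + 3)
  obtain ⟨n4, h4⟩ := card_lower (m2 + m3 + 1)
  obtain ⟨n5, h5⟩ := Filter.eventually_atTop.1 (ev_log (4 * k + (R + 3)) (s := 1) (by norm_num)
    ((4 : ℝ) ^ (E + 2) + 4 ^ (U' + 3) + k + 10))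
  refine ⟨n1 + n4 + n5 + 1, fun N hN z hz q hq a w hw S hS u B hB => ?_⟩
  obtain ⟨hL10, hzlo, hzhi, hV⟩ := h1 N (by omega)
  obtain ⟨hLbig, hLN⟩ := h5 N (by omega)
  rw [← hz] at hzlo hzhi hV
  obtain ⟨L, hL⟩ : ∃ L, L = Real.log N := ⟨_, rfl⟩
  rw [← hL] at hL10 hzlo hzhi hV hLbig hLN ⊢
  have hN0 : (0 : ℝ) < N := by exact_mod_cast (by omega : 0 < N)
  have hN1 : (1 : ℝ) ≤ N := by exact_mod_cast (by omega : 1 ≤ N)
  rw [Real.rpow_one] at hLN
  have hL0 : 0 < L := by linarith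
  have hL1 : 1 ≤ L := by linarith
  have hE1 : (0 : ℝ) < 4 ^ (E + 2) := by positivity
  have hE2 : (0 : ℝ) < 4 ^ (U' + 3) := by positivity
  have hk0 : (0 : ℝ) ≤ k := Nat.cast_nonneg k
  have hVz := inv_pos.2 (Vz_pos z)
  have hcard := fun i => h4 N (by omega) (q i) (hq i).1 (hq i).2 (a i)
  rw [← hL] at hcard
  have hz1 : 1 ≤ z := by
    have : (1 : ℝ) ≤ z := le_trans (one_le_pow₀ hL1) hzlo
    exact_mod_cast this
  have hlogc : ∀ i, L / 4 ≤ Real.log (Hc N (q i) (a i)).card := fun i => (hcard i).2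
  have hzc : ∀ i, (z : ℝ) ≤ Real.log (Hc N (q i) (a i)).card ^ (E + 2) := by
    intro i
    have e1 : L ^ (E + 1) ≤ (L / 4) ^ (E + 2) := by
      rw [div_pow, le_div_iff₀ hE1, pow_succ L (E + 1)]
      gcongr
      linarith
    exact hzhi.trans (e1.trans (pow_le_pow_left₀ (by linarith) (hlogc i) _))
  -- the error
  obtain ⟨e, he⟩ : ∃ e : ℝ, e = 1 / L ^ U' := ⟨_, rfl⟩
  have he0 : 0 ≤ e := by rw [he]; positivity
  have he1 : e ≤ 1 := by
    rw [he, div_le_one (by positivity)]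
    exact one_le_pow₀ hL1
  have herr : ∀ i, ((Vz z)⁻¹ ^ 2) / Real.log (Hc N (q i) (a i)).card ^ (U' + 3) ≤ e := by
    intro i
    have e1 : (L / 4) ^ (U' + 3) ≤ Real.log (Hc N (q i) (a i)).card ^ (U' + 3) :=
      pow_le_pow_left₀ (by linarith) (hlogc i) _
    have e2 : (Vz z)⁻¹ ^ 2 ≤ L ^ 2 := pow_le_pow_left₀ hVz.le hV 2
    calc ((Vz z)⁻¹ ^ 2) / Real.log (Hc N (q i) (a i)).card ^ (U' + 3) ≤ L ^ 2 / (L / 4) ^ (U' + 3) :=
          div_le_div₀ (by positivity) e2 (by positivity) e1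
      _ = L ^ 2 * 4 ^ (U' + 3) / L ^ (U' + 3) := by rw [div_pow]; field_simp
      _ ≤ L ^ 2 * L / L ^ (U' + 3) := by
          gcongr
          linarith
      _ = e := by
          rw [he, pow_add]
          field_simp
  have hV1 : 1 ≤ (Vz z)⁻¹ := (Qz_bd z 1).1.trans (Qz_bd z 1).2
  have herr1 : ∀ i, ((Vz z)⁻¹) / Real.log (Hc N (q i) (a i)).card ^ (U' + 3) ≤ e := by
    intro i
    refine le_trans ?_ (herr i)
    have : 0 < Real.log (Hc N (q i) (a i)).card := by linarith [hlogc i]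
    gcongr
    nlinarith
  obtain ⟨K, hK⟩ : ∃ K, K = L ^ 4 := ⟨_, rfl⟩
  have hK1 : 1 ≤ K := by rw [hK]; exact one_le_pow₀ hL1
  obtain ⟨S', hS'⟩ : ∃ S', S' = S.filter (fun s => ∀ i, Gd z (q i) (a i) (u i s)) := ⟨_, rfl⟩
  rw [← hS']
  have hSS : S' ⊆ S := by rw [hS']; exact filter_subset _ _
  have hgd : ∀ s ∈ S', ∀ i, Gd z (q i) (a i) (u i s) := fun s hs => by
    rw [hS', mem_filter] at hs
    exact hs.2
  have hsum : ∀ h ∈ Fintype.piFinset (fun i => Hc N (q i) (a i)), ∑ s ∈ S, ∏ i, ex (lamz z) (h i) (u i s) =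
      ∑ s ∈ S', ∏ i, ex (lamz z) (h i) (u i s) := by
    intro h hh
    symm
    refine sum_subset hSS fun s hs hs' => ?_
    rw [hS', mem_filter, not_and] at hs'
    have := hs' hs
    push Not at this
    obtain ⟨i, hi⟩ := this
    exact prod_eq_zero (mem_univ i) (ex_cls (Fintype.mem_piFinset.1 hh i) hi)
  rw [sum_congr rfl fun h hh => by rw [hsum h hh]]
  have hmain := sec_momM (fun i => Hc N (q i) (a i)) S' (fun i h s => ex (lamz z) h (u i s)) (fun i => Qz z (q i))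
    (fun i s t => Wz z (q i) ((u i s : ℤ) - u i t)) hK1 he0 (fun i => by have := (hcard i).1; omega)
    (fun i h s => (ex_lamz_bd z h (u i s)).1)
    (fun i => ⟨by linarith [(Qz_bd z (q i)).1], by
      have := (Qz_bd z (q i)).2
      rw [hK]
      have h6 : L + 1 ≤ L ^ 4 := by nlinarith [sq_nonneg (L - 1), sq_nonneg L, mul_pos hL0 hL0]
      linarith⟩)
    (fun i s t => ⟨by linarith [(Wz_bd z (q i) ((u i s : ℤ) - u i t)).1], by
      have e1 := (Qz_bd z (q i)).2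
      have e2 := (Wz_bd z (q i) ((u i s : ℤ) - u i t)).2
      have e3 : Qz z (q i) ^ 2 * Wz z (q i) ((u i s : ℤ) - u i t) ≤ L ^ 2 * L := by
        have e4 := (Qz_bd z (q i)).1
        have e5 := (Wz_bd z (q i) ((u i s : ℤ) - u i t)).1
        gcongr
        · linarith
        · linarith
      have e6 : L ^ 2 * L + 1 ≤ L ^ 4 := by
        have : 1 ≤ L ^ 2 * L := by
          have := one_le_pow₀ (n := 3) hL1
          nlinarith
        nlinarith
      rw [hK]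
      linarith⟩)
    (fun i s hs => by
      have h6 := h2 N (q i) (hq i).1 (a i) (by have := (hcard i).1; omega) z hz1 (hzc i) (u i s) (hgd s hs i)
      refine h6.trans ?_
      rw [mul_div_assoc]
      exact mul_le_mul_of_nonneg_left (herr1 i) (Nat.cast_nonneg _))
    (fun i s hs t ht => by
      have h6 := h3 N (q i) (hq i).1 (a i) (by have := (hcard i).1; omega) z hz1 (hzc i) (u i s) (u i t) (hgd s hs i)
        (hgd t (mem_of_mem_erase ht) i)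
      refine h6.trans ?_
      rw [mul_div_assoc, ← mul_add]
      refine mul_le_mul_of_nonneg_left ?_ (Nat.cast_nonneg _)
      linarith [herr i])
    (fun i s hs h hh => by
      obtain ⟨e1, e2⟩ := ex_lamz_bd z h (u i s)
      rw [hK]
      have e3 : ex (lamz z) h (u i s) ≤ L := e2.trans hV
      have e4 : ex (lamz z) h (u i s) * ex (lamz z) h (u i s) ≤ L * L := mul_le_mul e3 e3 e1 hL0.le
      have e5 : L * L ≤ L ^ 4 := by
        have : L ^ 2 ≤ L ^ 4 := pow_le_pow_right₀ hL1 (by norm_num)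
        nlinarith
      linarith)
  refine hmain.trans (mul_le_mul_of_nonneg_left ?_ (prod_nonneg fun i _ => Nat.cast_nonneg _))
  -- the pair sum
  obtain ⟨Θ, hΘ⟩ : ∃ Θ, Θ = ∏ i, Qz z (q i) := ⟨_, rfl⟩
  have hΘ1 : 0 ≤ Θ := by rw [hΘ]; exact prod_nonneg fun i _ => by linarith [(Qz_bd z (q i)).1]
  have hΘ2 : Θ ≤ L ^ k := by
    rw [hΘ]
    calc ∏ i, Qz z (q i) ≤ ∏ _i : Fin k, L := prod_le_prod (fun i _ => by linarith [(Qz_bd z (q i)).1])
          fun i _ => (Qz_bd z (q i)).2.trans hV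
      _ = L ^ k := by rw [prod_const, card_univ, Fintype.card_fin]
  have hpt : ∀ s t : ℕ, ∏ i, Wz z (q i) ((u i s : ℤ) - u i t) - 1 ≤
      ∑ i, (∏ p ∈ (pz z).filter (fun p : ℕ => w < p ∧ (p : ℤ) ∣ (u i s : ℤ) - u i t), ((1 - 1 / (p : ℝ))⁻¹) ^ k - 1) := by
    intro s t
    refine (prod_le_max hk _ fun i => (Wz_bd z (q i) ((u i s : ℤ) - u i t)).1).trans (sum_le_sum fun i _ => ?_)
    refine sub_le_sub_right ?_ 1
    rw [prod_pow]
    refine pow_le_pow_left₀ (by linarith [(Wz_bd z (q i) ((u i s : ℤ) - u i t)).1]) ?_ k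
    unfold Wz
    refine prod_sub_le (fun p hp => ?_) _ fun p hp => one_le_fac (mem_pz.1 (mem_filter.1 hp).1).2
    rw [mem_filter] at hp ⊢
    refine ⟨hp.1, ?_, hp.2.2⟩
    by_contra hc
    exact hp.2.1 (hw p (mem_pz.1 hp.1).2 (not_lt.1 hc) i)
  have hge1 : ∀ i, ∀ s t : ℕ, 1 ≤ ∏ p ∈ (pz z).filter (fun p : ℕ => w < p ∧ (p : ℤ) ∣ (u i s : ℤ) - u i t),
      ((1 - 1 / (p : ℝ))⁻¹) ^ k :=
    fun i s t => one_le_prod' _ fun p hp => one_le_pow₀ (one_le_fac (mem_pz.1 (mem_filter.1 hp).1).2)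
  have hpair : ∑ s ∈ S', ∑ t ∈ S'.erase s, (∏ i, Wz z (q i) ((u i s : ℤ) - u i t) - 1) ≤ k * B := by
    calc ∑ s ∈ S', ∑ t ∈ S'.erase s, (∏ i, Wz z (q i) ((u i s : ℤ) - u i t) - 1) ≤
        ∑ s ∈ S', ∑ t ∈ S'.erase s, ∑ i, (∏ p ∈ (pz z).filter (fun p : ℕ => w < p ∧ (p : ℤ) ∣ (u i s : ℤ) - u i t),
          ((1 - 1 / (p : ℝ))⁻¹) ^ k - 1) := sum_le_sum fun s _ => sum_le_sum fun t _ => hpt s t
      _ = ∑ i, ∑ s ∈ S', ∑ t ∈ S'.erase s, (∏ p ∈ (pz z).filter (fun p : ℕ => w < p ∧ (p : ℤ) ∣ (u i s : ℤ) - u i t),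
          ((1 - 1 / (p : ℝ))⁻¹) ^ k - 1) := by
          rw [sum_congr rfl fun s _ => sum_comm]
          rw [sum_comm]
      _ ≤ ∑ _i : Fin k, B := by
          refine sum_le_sum fun i _ => le_trans ?_ (hB i)
          calc ∑ s ∈ S', ∑ t ∈ S'.erase s, (∏ p ∈ (pz z).filter (fun p : ℕ => w < p ∧ (p : ℤ) ∣ (u i s : ℤ) - u i t),
                ((1 - 1 / (p : ℝ))⁻¹) ^ k - 1) ≤
              ∑ s ∈ S', ∑ t ∈ S.erase s, (∏ p ∈ (pz z).filter (fun p : ℕ => w < p ∧ (p : ℤ) ∣ (u i s : ℤ) - u i t),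
                ((1 - 1 / (p : ℝ))⁻¹) ^ k - 1) := by
                refine sum_le_sum fun s _ => ?_
                exact sum_le_sum_of_subset_of_nonneg (erase_subset_erase s hSS) fun t _ _ => by linarith [hge1 i s t]
            _ ≤ _ := sum_le_sum_of_subset_of_nonneg hSS fun s _ _ => sum_nonneg fun t _ => by linarith [hge1 i s t]
      _ = k * B := by rw [sum_const, nsmul_eq_mul, card_univ, Fintype.card_fin]
  rw [← hΘ]
  have hScard : (S'.card : ℝ) ≤ N := by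
    exact_mod_cast (card_le_card hSS).trans hS
  have hkL : (k : ℝ) ≤ L := by linarith
  have hErr : (k : ℝ) * K ^ k * e ≤ 1 / L ^ (k + (R + 3)) := by
    rw [he, hK, ← pow_mul]
    calc (k : ℝ) * L ^ (4 * k) * (1 / L ^ U') ≤ L * L ^ (4 * k) * (1 / L ^ U') := by gcongr
      _ = 1 / L ^ (k + (R + 3)) := by
          rw [hU', show 5 * k + (R + 4) = (4 * k + 1) + (k + (R + 3)) by ring, pow_add L (4 * k + 1), pow_succ]
          field_simp
  have hErr0 : 0 ≤ (k : ℝ) * K ^ k * e := by positivity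
  have t1 : (S'.card : ℝ) * K ^ k ≤ (N : ℝ) ^ 2 / L ^ (R + 3) := by
    rw [hK, ← pow_mul, le_div_iff₀ (by positivity)]
    calc (S'.card : ℝ) * L ^ (4 * k) * L ^ (R + 3) = S'.card * L ^ (4 * k + (R + 3)) := by rw [pow_add]; ring
      _ ≤ N * N := by gcongr
      _ = (N : ℝ) ^ 2 := by ring
  have t2 : (S'.card : ℝ) ^ 2 * (k * K ^ k * e) ≤ (N : ℝ) ^ 2 / L ^ (R + 3) := by
    calc (S'.card : ℝ) ^ 2 * (k * K ^ k * e) ≤ (N : ℝ) ^ 2 * (1 / L ^ (k + (R + 3))) := by gcongr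
      _ ≤ (N : ℝ) ^ 2 * (1 / L ^ (R + 3)) := by
          have : L ^ (R + 3) ≤ L ^ (k + (R + 3)) := pow_le_pow_right₀ hL1 (by omega)
          gcongr
      _ = _ := by ring
  have t3 : 2 * Θ * (S'.card : ℝ) ^ 2 * (k * K ^ k * e) ≤ 2 * ((N : ℝ) ^ 2 / L ^ (R + 3)) := by
    calc 2 * Θ * (S'.card : ℝ) ^ 2 * (k * K ^ k * e) ≤ 2 * L ^ k * (N : ℝ) ^ 2 * (1 / L ^ (k + (R + 3))) := by gcongr
      _ = 2 * ((N : ℝ) ^ 2 / L ^ (R + 3)) := by
          rw [pow_add]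
          field_simp
  have t4 : 4 * ((N : ℝ) ^ 2 / L ^ (R + 3)) ≤ (N : ℝ) ^ 2 / L ^ R := by
    rw [show L ^ (R + 3) = L ^ R * L ^ 3 by ring, ← div_div, ← mul_div_assoc, div_le_iff₀ (by positivity)]
    have h6 : (4 : ℝ) ≤ L ^ 3 := by nlinarith [sq_nonneg L, mul_pos hL0 hL0]
    have h7 : 0 ≤ (N : ℝ) ^ 2 / L ^ R := by positivity
    nlinarith
  have t5 : Θ ^ 2 * ∑ s ∈ S', ∑ t ∈ S'.erase s, (∏ i, Wz z (q i) ((u i s : ℤ) - u i t) - 1) ≤ Θ ^ 2 * (k * B) :=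
    mul_le_mul_of_nonneg_left hpair (sq_nonneg _)
  linarith

open Classical in
/-- the conversion -/
theorem convR (k E R : ℕ) (hE : R + 2 ≤ E) : ∃ N₀ : ℕ, ∀ N : ℕ, N₀ ≤ N → ∀ z : ℕ, z = ⌈Real.log N ^ E⌉₊ →
    ∀ q : Fin k → ℕ, (∀ i, 1 ≤ q i ∧ q i ≤ N) → ∀ a : Fin k → ℤ, ∀ S : Finset ℕ, S.card ≤ N → ∀ u : Fin k → ℕ → ℕ,
    (∀ i, ∀ s ∈ S, u i s ∈ Icc 1 N) → (∀ i, Set.InjOn (u i) S) →
    (∏ i, Qz z (q i)) ≤ ∏ i, Qf' (q i) ∧ 1 ≤ ∏ i, Qz z (q i) ∧
    |(∏ i, Qz z (q i)) * (S.filter (fun s => ∀ i, Gd z (q i) (a i) (u i s))).card -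
      (∏ i, Qf' (q i)) * (S.filter (fun s : ℕ => ∀ i, Int.gcd ((u i s : ℤ) + a i) (q i) = 1)).card| ≤
      (∏ i, Qf' (q i)) * (N / (4 * Real.log N ^ R)) := by
  obtain ⟨n1, h1⟩ := zpar E
  obtain ⟨n5, h5⟩ := Filter.eventually_atTop.1 (ev_log (E + 1) (s := 1) (by norm_num) (32 * k + 10))
  refine ⟨n1 + n5 + 1, fun N hN z hz q hq a S hSc u hS hu => ?_⟩
  obtain ⟨hL10, hzlo, hzhi, hV⟩ := h1 N (by omega)
  obtain ⟨hLbig, hLN⟩ := h5 N (by omega)
  rw [← hz] at hzlo hzhi hV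
  obtain ⟨L, hL⟩ : ∃ L, L = Real.log N := ⟨_, rfl⟩
  rw [← hL] at hL10 hzlo hzhi hV hLbig hLN ⊢
  rw [Real.rpow_one] at hLN
  have hN0 : (0 : ℝ) < N := by exact_mod_cast (by omega : 0 < N)
  have hL0 : 0 < L := by linarith
  have hL1 : 1 ≤ L := by linarith
  have hk0 : (0 : ℝ) ≤ k := Nat.cast_nonneg k
  have hz4 : L ^ (R + 2) ≤ z := (pow_le_pow_right₀ hL1 hE).trans hzlo
  have hz0 : (0 : ℝ) < z := lt_of_lt_of_le (by positivity) hz4
  have hz1 : 1 ≤ z := by exact_mod_cast hz0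
  have hzN : (z : ℝ) ≤ N := hzhi.trans hLN
  have hQ1 : ∀ i, 1 ≤ Qz z (q i) := fun i => (Qz_bd z (q i)).1
  have hQf := fun i => Qf'_bd hz1 (hq i).1
  have hlq : ∀ i, Real.log (q i) ≤ L := fun i => by
    rw [hL]
    exact Real.log_le_log (by exact_mod_cast (hq i).1) (by exact_mod_cast (hq i).2)
  obtain ⟨Θ, hΘ⟩ : ∃ Θ, Θ = ∏ i, Qz z (q i) := ⟨_, rfl⟩
  obtain ⟨Θ', hΘ'⟩ : ∃ Θ', Θ' = ∏ i, Qf' (q i) := ⟨_, rfl⟩
  have t1 : Θ ≤ Θ' := by
    rw [hΘ, hΘ']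
    exact prod_le_prod (fun i _ => by linarith [hQ1 i]) fun i _ => (hQf i).1
  have t0 : 1 ≤ Θ := by
    rw [hΘ]
    calc (1 : ℝ) = ∏ _i : Fin k, (1 : ℝ) := by simp
      _ ≤ _ := prod_le_prod (fun _ _ => zero_le_one) fun i _ => hQ1 i
  have hx : k * (2 * L / z) ≤ 2 * k / L ^ (R + 1) := by
    rw [mul_div_assoc', div_le_div_iff₀ hz0 (by positivity)]
    calc (k : ℝ) * (2 * L) * L ^ (R + 1) = 2 * k * L ^ (R + 2) := by ring
      _ ≤ 2 * (k : ℝ) * z := by gcongr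
  have hx2 : 2 * (k : ℝ) / L ^ (R + 1) ≤ 1 := by
    rw [div_le_one (by positivity)]
    have h2 : L ≤ L ^ (R + 1) := by
      have := pow_le_pow_right₀ hL1 (show 1 ≤ R + 1 by omega)
      simpa using this
    linarith
  have t2 : Θ' ≤ Θ * (1 + 4 * k / L ^ (R + 1)) := by
    have e1 : Θ' ≤ Θ * Real.exp (k * (2 * L / z)) := by
      rw [hΘ, hΘ', Real.exp_nat_mul]
      calc ∏ i, Qf' (q i) ≤ ∏ i, (Qz z (q i) * Real.exp (2 * L / z)) := by
            refine prod_le_prod (fun i _ => by linarith [hQ1 i, (hQf i).1]) fun i _ => (hQf i).2.trans ?_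
            refine mul_le_mul_of_nonneg_left (Real.exp_le_exp.2 ?_) (by linarith [hQ1 i])
            refine div_le_div_of_nonneg_right ?_ hz0.le
            linarith [hlq i]
        _ = _ := by rw [prod_mul_distrib, prod_const, card_univ, Fintype.card_fin]
    refine e1.trans (mul_le_mul_of_nonneg_left ?_ (by linarith))
    obtain ⟨y, hy⟩ : ∃ y, y = 2 * (k : ℝ) / L ^ (R + 1) := ⟨_, rfl⟩
    have hy0 : 0 ≤ y := by rw [hy]; positivity
    rw [← hy] at hx hx2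
    have e2 : Real.exp (k * (2 * L / z)) ≤ Real.exp y := Real.exp_le_exp.2 hx
    have e3 : Real.exp y ≤ 1 + 2 * y := by
      have := Real.abs_exp_sub_one_sub_id_le (x := y) (by rw [abs_of_nonneg hy0]; exact hx2)
      have h6 := (abs_le.1 this).2
      nlinarith
    have e4 : 4 * (k : ℝ) / L ^ (R + 1) = 2 * y := by rw [hy]; ring
    rw [e4]
    linarith
  obtain ⟨S1, hS1⟩ : ∃ S1, S1 = S.filter (fun s => ∀ i, Gd z (q i) (a i) (u i s)) := ⟨_, rfl⟩
  obtain ⟨S2, hS2⟩ : ∃ S2, S2 = S.filter (fun s : ℕ => ∀ i, Int.gcd ((u i s : ℤ) + a i) (q i) = 1) := ⟨_, rfl⟩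
  have hsub : S2 ⊆ S1 := by
    intro s hs
    rw [hS2, mem_filter] at hs
    rw [hS1, mem_filter]
    refine ⟨hs.1, fun i p hp hc => ?_⟩
    have h2 := (mem_pz.1 hp).2
    have h3 : (p : ℤ) ∣ (Int.gcd ((u i s : ℤ) + a i) (q i) : ℤ) :=
      Int.dvd_coe_gcd hc.2 (Int.natCast_dvd_natCast.2 hc.1)
    rw [hs.2 i] at h3
    have h4 := Int.le_of_dvd (by norm_num) h3
    have := h2.two_le
    omega
  have hdiff : ((S1 \ S2).card : ℝ) ≤ k * (2 * L) * (2 * N / z) := by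
    have h2 : S1 \ S2 ⊆ (univ : Finset (Fin k)).biUnion (fun i => ((q i).primeFactors.filter (fun p => z < p)).biUnion
        (fun p => S.filter (fun s : ℕ => (p : ℤ) ∣ (u i s : ℤ) + a i))) := by
      intro s hs
      rw [mem_sdiff, hS1, hS2, mem_filter, mem_filter, not_and] at hs
      obtain ⟨⟨h3, h4⟩, h5⟩ := hs
      have h6 := h5 h3
      push Not at h6
      obtain ⟨i, hi⟩ := h6
      obtain ⟨p, hp, hpd⟩ := Nat.exists_prime_and_dvd hi
      rw [mem_biUnion]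
      refine ⟨i, mem_univ _, ?_⟩
      rw [mem_biUnion]
      have h7 : (p : ℤ) ∣ (u i s : ℤ) + a i := (Int.natCast_dvd_natCast.2 hpd).trans (Int.gcd_dvd_left ..)
      have h8 : p ∣ q i := by
        have : (p : ℤ) ∣ (q i : ℤ) := (Int.natCast_dvd_natCast.2 hpd).trans (Int.gcd_dvd_right ..)
        exact Int.natCast_dvd_natCast.1 this
      refine ⟨p, mem_filter.2 ⟨Nat.mem_primeFactors.2 ⟨hp, h8, by have := (hq i).1; omega⟩, ?_⟩, mem_filter.2 ⟨h3, h7⟩⟩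
      by_contra hc
      exact h4 i p (mem_pz.2 ⟨not_lt.1 hc, hp⟩) ⟨h8, h7⟩
    have h3 := card_le_card h2
    have h4 : ∀ i, (((((q i).primeFactors.filter (fun p => z < p)).biUnion
        (fun p => S.filter (fun s : ℕ => (p : ℤ) ∣ (u i s : ℤ) + a i))).card : ℕ) : ℝ) ≤ 2 * L * (2 * N / z) := by
      intro i
      have h5 := card_biUnion_le (s := (q i).primeFactors.filter (fun p => z < p))
        (t := fun p => S.filter (fun s : ℕ => (p : ℤ) ∣ (u i s : ℤ) + a i))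
      have h6 : ∀ p ∈ (q i).primeFactors.filter (fun p => z < p),
          ((S.filter (fun s : ℕ => (p : ℤ) ∣ (u i s : ℤ) + a i)).card : ℝ) ≤ 2 * N / z := by
        intro p hp
        rw [mem_filter] at hp
        refine (cnt_multM (Nat.prime_of_mem_primeFactors hp.1).one_lt.le (a i) (hS i) (hu i)).trans ?_
        have h7 : (z : ℝ) ≤ p := by exact_mod_cast hp.2.le
        have h8 : (N : ℝ) / p ≤ N / z := div_le_div_of_nonneg_left hN0.le hz0 h7
        have h9 : (1 : ℝ) ≤ N / z := by rw [le_div_iff₀ hz0]; linarith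
        have h10 : 2 * (N : ℝ) / z = N / z + N / z := by ring
        rw [h10]
        linarith
      calc _ ≤ ((∑ p ∈ (q i).primeFactors.filter (fun p => z < p),
            (S.filter (fun s : ℕ => (p : ℤ) ∣ (u i s : ℤ) + a i)).card : ℕ) : ℝ) := by exact_mod_cast h5
        _ ≤ ∑ _p ∈ (q i).primeFactors.filter (fun p => z < p), 2 * (N : ℝ) / z := by
            push_cast
            exact sum_le_sum h6
        _ = ((q i).primeFactors.filter (fun p => z < p)).card * (2 * N / z) := by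
            rw [sum_const, nsmul_eq_mul]
        _ ≤ 2 * L * (2 * N / z) := by
            have h11 : (((q i).primeFactors.filter (fun p => z < p)).card : ℝ) ≤ (q i).primeFactors.card := by
              exact_mod_cast card_le_card (filter_subset _ _)
            have h12 := omega_le (hq i).1
            have h13 := hlq i
            have h14 : 0 ≤ 2 * (N : ℝ) / z := by positivity
            exact mul_le_mul_of_nonneg_right (by linarith) h14
    calc ((S1 \ S2).card : ℝ) ≤ (((univ : Finset (Fin k)).biUnion (fun i => ((q i).primeFactors.filter (fun p => z < p)).biUnion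
        (fun p => S.filter (fun s : ℕ => (p : ℤ) ∣ (u i s : ℤ) + a i)))).card : ℝ) := by exact_mod_cast h3
      _ ≤ ((∑ i : Fin k, (((q i).primeFactors.filter (fun p => z < p)).biUnion
        (fun p => S.filter (fun s : ℕ => (p : ℤ) ∣ (u i s : ℤ) + a i))).card : ℕ) : ℝ) := by exact_mod_cast card_biUnion_le
      _ ≤ ∑ _i : Fin k, 2 * L * (2 * N / z) := by
          push_cast
          exact sum_le_sum fun i _ => h4 i
      _ = k * (2 * L) * (2 * N / z) := by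
          rw [sum_const, nsmul_eq_mul, card_univ, Fintype.card_fin]
          ring
  have hcard : (S1.card : ℝ) = S2.card + (S1 \ S2).card := by
    have := card_sdiff_add_card_eq_card hsub
    have h2 : S1.card = S2.card + (S1 \ S2).card := by omega
    exact_mod_cast h2
  have hdiff2 : ((S1 \ S2).card : ℝ) ≤ 4 * k * N / L ^ (R + 1) := by
    refine hdiff.trans ?_
    rw [mul_div_assoc', div_le_div_iff₀ hz0 (by positivity)]
    calc (k : ℝ) * (2 * L) * (2 * N) * L ^ (R + 1) = 4 * k * N * L ^ (R + 2) := by ring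
      _ ≤ 4 * (k : ℝ) * N * z := by gcongr
  have hS2c : (S2.card : ℝ) ≤ N := by
    have h6 : S2.card ≤ S.card := card_le_card (by rw [hS2]; exact filter_subset _ _)
    exact_mod_cast h6.trans hSc
  rw [← hΘ, ← hΘ', ← hS1, ← hS2]
  refine ⟨t1, t0, ?_⟩
  have hΘ0 : 0 ≤ Θ := by linarith
  have e1 : Θ * S1.card - Θ' * S2.card = Θ * (S1 \ S2).card - (Θ' - Θ) * S2.card := by rw [hcard]; ring
  have e2 : Θ * (S1 \ S2).card ≤ Θ' * (4 * k * N / L ^ (R + 1)) :=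
    mul_le_mul t1 hdiff2 (Nat.cast_nonneg _) (by linarith)
  have e3 : (Θ' - Θ) * S2.card ≤ Θ' * (4 * k * N / L ^ (R + 1)) := by
    have e31 : Θ' - Θ ≤ Θ * (4 * k / L ^ (R + 1)) := by linarith
    have e32 : 0 ≤ 4 * (k : ℝ) / L ^ (R + 1) := by positivity
    calc (Θ' - Θ) * S2.card ≤ (Θ * (4 * k / L ^ (R + 1))) * N :=
          mul_le_mul e31 hS2c (Nat.cast_nonneg _) (mul_nonneg hΘ0 e32)
      _ ≤ (Θ' * (4 * k / L ^ (R + 1))) * N := mul_le_mul_of_nonneg_right (mul_le_mul_of_nonneg_right t1 e32) hN0.le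
      _ = _ := by ring
  have e4 : 0 ≤ Θ * (S1 \ S2).card := by positivity
  have e5 : 0 ≤ (Θ' - Θ) * S2.card := mul_nonneg (by linarith) (Nat.cast_nonneg _)
  have e6 : 4 * k * N / L ^ (R + 1) ≤ (N : ℝ) / (4 * L ^ R) := by
    rw [div_le_div_iff₀ (by positivity) (by positivity)]
    have h2 : 16 * (k : ℝ) ≤ L := by linarith
    calc 4 * (k : ℝ) * N * (4 * L ^ R) = (16 * k) * (N * L ^ R) := by ring
      _ ≤ L * (N * L ^ R) := by gcongr
      _ = N * L ^ (R + 1) := by ring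
  have e7 : Θ' * (4 * k * N / L ^ (R + 1)) ≤ Θ' * (N / (4 * L ^ R)) := mul_le_mul_of_nonneg_left e6 (by linarith)
  rw [e1, abs_le]
  constructor <;> linarith

end Pool.Agent.H579.G
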