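import Pool.Agent.H579.G.Dsp2

set_option autoImplicit false

/-! Prime shifts along arbitrary sequences. -/

namespace Pool.Agent.H579.G

open Finset
open Pool.Agent.H373R2.T7
open Pool.Agent.Y614.GJ.Core (ev_log)

lemma box_sub {k N : ℕ} {q : Fin k → ℕ} {a : Fin k → ℤ} {T : Finset (Fin k → ℤ)}
    (hT : ∀ h ∈ T, ∀ i, 1 ≤ h i ∧ h i ≤ N ∧ h i ≡ a i [ZMOD q i]) :
    T ⊆ Fintype.piFinset (fun i => Hc N (q i) (a i)) := by
  intro h hh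
  rw [Fintype.mem_piFinset]
  intro i
  obtain ⟨e1, e2, e3⟩ := hT h hh i
  unfold Hc
  exact mem_filter.2 ⟨mem_Icc.2 ⟨e1, e2⟩, e3⟩

lemma box_prod {k N : ℕ} {q : Fin k → ℕ} (hq : ∀ i, 1 ≤ q i ∧ q i ≤ N) (a : Fin k → ℤ) :
    ∏ i, ((Hc N (q i) (a i)).card : ℝ) ≤ 2 ^ k * ∏ i, ((N : ℝ) / q i) := by
  calc ∏ i, ((Hc N (q i) (a i)).card : ℝ) ≤ ∏ i, (2 * ((N : ℝ) / q i)) := by
        refine prod_le_prod (fun i _ => Nat.cast_nonneg _) fun i _ => ?_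
        obtain ⟨b, -, -, -, -, e1⟩ := cls_sum (N := N) (hq i).1 (a i)
        have e2 : 1 ≤ (N : ℝ) / q i := by
          rw [le_div_iff₀ (by exact_mod_cast (hq i).1), one_mul]
          exact_mod_cast (hq i).2
        linarith
    _ = _ := by rw [prod_mul_distrib, prod_const, card_univ, Fintype.card_fin]

lemma box_card {k N : ℕ} {q : Fin k → ℕ} (hq : ∀ i, 1 ≤ q i ∧ q i ≤ N) {a : Fin k → ℤ} {T : Finset (Fin k → ℤ)}
    (hT : ∀ h ∈ T, ∀ i, 1 ≤ h i ∧ h i ≤ N ∧ h i ≡ a i [ZMOD q i]) :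
    (T.card : ℝ) ≤ 2 ^ k * ∏ i, ((N : ℝ) / q i) := by
  classical
  refine le_trans ?_ (box_prod hq a)
  have e2 := card_le_card (box_sub hT)
  rw [Fintype.card_piFinset] at e2
  exact_mod_cast e2

open Classical in
/-- prime shifts along arbitrary sequences, with weights -/
theorem sparseW (k A : ℕ) (hk : 1 ≤ k) : ∃ C : ℝ, 1 ≤ C ∧ ∀ ρ : ℝ, 0 < ρ →
    ∃ c : ℕ, ∀ A₀ : ℕ, ∃ N₀ : ℕ, ∀ N : ℕ, N₀ ≤ N →
      ∃ D : Finset ℕ, (D.card : ℝ) ≤ Real.log N ^ c ∧ (∀ d ∈ D, Real.log N ^ A₀ < (d : ℝ)) ∧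
      ∀ q : Fin k → ℕ, (∀ i, 1 ≤ q i ∧ (q i : ℝ) ≤ (N : ℝ) ^ (2 / 3 - ρ) ∧ ∀ d ∈ D, ¬ d ∣ q i) →
      ∀ w : ℕ, C * Real.log (Real.log N) ≤ w → (w : ℝ) ≤ Real.log N → (∀ p : ℕ, p.Prime → p ≤ w → ∀ i, p ∣ q i) →
      ∀ a : Fin k → ℤ, ∀ S : Finset ℕ, ∀ u : Fin k → ℕ → ℕ, (∀ i, ∀ s ∈ S, u i s ∈ Icc 1 N) →
      (∀ i, Set.InjOn (u i) S) → ∀ Y : ℝ, (S.card : ℝ) ≤ Y → N / Real.log N ^ A ≤ Y → ∀ η : ℝ, 0 < η → η ≤ 1 →
      ∀ T : Finset (Fin k → ℤ), (∀ h ∈ T, ∀ i, 1 ≤ h i ∧ h i ≤ N ∧ h i ≡ a i [ZMOD q i]) →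
        (∀ h ∈ T, η * (∏ i, Qf' (q i)) * Y <
          |∑ s ∈ S, ∏ i, ex thp (h i) (u i s) - (∏ i, Qf' (q i)) * (copM q a S u).card|) →
        (T.card : ℝ) ≤ C * Real.log (Real.log N) / (η ^ 2 * w) * ∏ i, ((N : ℝ) / q i) := by
  have hkr : (1 : ℝ) ≤ k := by exact_mod_cast hk
  obtain ⟨C₂, hC₂, n6, h6⟩ := pair_rk k (2 * A + 1) hk
  have h2k : (1 : ℝ) ≤ 2 ^ k := one_le_pow₀ (by norm_num)
  have hCC : C₂ ≤ 2 ^ k * (4 * (k * C₂ + k + 1)) + 1 + 2 ^ k := by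
    have e1 : C₂ ≤ 4 * (k * C₂ + k + 1) := by nlinarith
    have e2 : 0 ≤ 4 * (k * C₂ + k + 1) := by positivity
    nlinarith
  refine ⟨2 ^ k * (4 * (k * C₂ + k + 1)) + 1 + 2 ^ k, by linarith, fun ρ hρ => ?_⟩
  obtain ⟨c, hc⟩ := wtM k (A + 3) hρ
  refine ⟨c, fun A₀ => ?_⟩
  obtain ⟨B, hB⟩ := hc A₀
  obtain ⟨n1, h1⟩ := hB (B + A + 3) (by omega)
  obtain ⟨n2, h2⟩ := sieve_momR k (B + A + 3) (2 * A + 1) hk
  obtain ⟨n3, h3⟩ := convR k (B + A + 3) (A + 1) (by omega)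
  obtain ⟨n4, h4⟩ := zpar (B + A + 3)
  refine ⟨n1 + n2 + n3 + n4 + n6 + 1, fun N hN => ?_⟩
  obtain ⟨D, hD1, hD2, hD3⟩ := h1 N (by omega)
  refine ⟨D, hD1, hD2, fun q hq w hwl hwL hwq a S u hu1 hu2 Y hSY hYN η hη0 hη1 T hT hT2 => ?_⟩
  obtain ⟨z, hz⟩ : ∃ z, z = ⌈Real.log N ^ (B + A + 3)⌉₊ := ⟨_, rfl⟩
  obtain ⟨hL10, hzlo, hzhi, hV⟩ := h4 N (by omega)
  have hN0 : (0 : ℝ) < N := by exact_mod_cast (by omega : 0 < N)
  have hN1 : (1 : ℝ) ≤ N := by exact_mod_cast (by omega : 1 ≤ N)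
  have hL0 : 0 < Real.log N := by linarith
  have hL1 : 1 ≤ Real.log N := by linarith
  obtain ⟨l, hl⟩ : ∃ l, l = Real.log (Real.log N) := ⟨_, rfl⟩
  have hl1 : 1 ≤ l := by
    rw [hl]
    have h7 : Real.exp 1 ≤ Real.log N := by
      have := Real.exp_one_lt_d9
      linarith
    have := Real.log_le_log (Real.exp_pos 1) h7
    rwa [Real.log_exp] at this
  rw [← hl] at hwl ⊢
  have hw0 : (0 : ℝ) < w := by nlinarith
  have hw1 : 1 ≤ w := by exact_mod_cast hw0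
  have hqN : ∀ i, 1 ≤ q i ∧ (q i : ℝ) ≤ (N : ℝ) ^ (2 / 3 : ℝ) := fun i =>
    ⟨(hq i).1, (hq i).2.1.trans (Real.rpow_le_rpow_of_exponent_le hN1 (by linarith))⟩
  have hqN1 : ∀ i, (q i : ℝ) ≤ N := fun i => by
    refine (hqN i).2.trans ?_
    calc (N : ℝ) ^ (2 / 3 : ℝ) ≤ (N : ℝ) ^ (1 : ℝ) := Real.rpow_le_rpow_of_exponent_le hN1 (by norm_num)
      _ = N := Real.rpow_one _
  have hqN2 : ∀ i, 1 ≤ q i ∧ q i ≤ N := fun i => ⟨(hq i).1, by exact_mod_cast hqN1 i⟩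
  have hq0 : ∀ i, (0 : ℝ) < q i := fun i => by exact_mod_cast (hq i).1
  have hY0 : 0 < Y := lt_of_lt_of_le (by positivity) hYN
  have hT𝓑' := box_sub hT
  have hM := box_prod hqN2 a
  have hTb := box_card hqN2 hT
  obtain ⟨Pi, hPi⟩ : ∃ Pi : ℝ, Pi = ∏ i, ((N : ℝ) / q i) := ⟨_, rfl⟩
  have hPi0 : 0 < Pi := by
    rw [hPi]
    exact prod_pos fun i _ => div_pos hN0 (hq0 i)
  rw [← hPi] at hM hTb
  obtain ⟨𝓑, h𝓑⟩ : ∃ 𝓑, 𝓑 = Fintype.piFinset (fun i => Hc N (q i) (a i)) := ⟨_, rfl⟩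
  have hT𝓑 : T ⊆ 𝓑 := by
    rw [h𝓑]
    exact hT𝓑'
  by_cases hηw : η ^ 2 * w ≤ l
  · -- trivial case
    have e3 : (2 : ℝ) ^ k * (4 * (k * C₂ + k + 1)) + 1 + 2 ^ k ≤
        (2 ^ k * (4 * (k * C₂ + k + 1)) + 1 + 2 ^ k) * l / (η ^ 2 * w) := by
      rw [le_div_iff₀ (by positivity)]
      have : (0 : ℝ) ≤ 2 ^ k * (4 * (k * C₂ + k + 1)) + 1 + 2 ^ k := by positivity
      exact mul_le_mul_of_nonneg_left hηw this
    have e4 : (0 : ℝ) ≤ 2 ^ k * (4 * (k * C₂ + k + 1)) + 1 := by positivity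
    rw [← hPi]
    calc (T.card : ℝ) ≤ 2 ^ k * Pi := hTb
      _ ≤ (2 ^ k * (4 * (k * C₂ + k + 1)) + 1 + 2 ^ k) * l / (η ^ 2 * w) * Pi :=
          mul_le_mul_of_nonneg_right (by linarith) hPi0.le
  rw [not_le] at hηw
  have hηL : 1 / Real.log N ≤ η := by
    rw [div_le_iff₀ hL0]
    have e1 : η ^ 2 * w ≤ η * Real.log N := by
      calc η ^ 2 * w = η * (η * w) := by ring
        _ ≤ η * (1 * Real.log N) := by gcongr
        _ = _ := by ring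
    linarith
  have hSc : S.card ≤ N := by
    have e1 : S.card ≤ (Icc 1 N).card :=
      card_le_card_of_injOn (u ⟨0, by omega⟩) (fun s hs => mem_coe.2 (hu1 _ s (mem_coe.1 hs))) (hu2 _)
    rwa [Nat.card_Icc, Nat.add_sub_cancel] at e1
  have hm2 := h2 N (by omega) z hz q hqN a w hwq S hSc u
    (C₂ * l / w * (S.card : ℝ) ^ 2 + (N : ℝ) ^ 2 / Real.log N ^ (2 * A + 1)) (fun i => by
      have h7 := h6 N (by omega) z w (by
        rw [← hl]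
        refine le_trans ?_ hwl
        exact mul_le_mul_of_nonneg_right hCC (by linarith)) S (u i) (hu1 i) (hu2 i)
      rw [← hl] at h7
      exact h7)
  obtain ⟨hΘ1, hΘ2, hΘ3⟩ := h3 N (by omega) z hz q hqN2 a S hSc u hu1 hu2
  have hmain := hD3 q hq a
  rw [← hz] at hmain
  obtain ⟨Θ, hΘ⟩ : ∃ Θ, Θ = ∏ i, Qz z (q i) := ⟨_, rfl⟩
  obtain ⟨Θ', hΘ'⟩ : ∃ Θ', Θ' = ∏ i, Qf' (q i) := ⟨_, rfl⟩
  obtain ⟨S1, hS1⟩ : ∃ S1, S1 = S.filter (fun s => ∀ i, Gd z (q i) (a i) (u i s)) := ⟨_, rfl⟩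
  have hcop : copM q a S u = S.filter (fun s : ℕ => ∀ i, Int.gcd ((u i s : ℤ) + a i) (q i) = 1) := rfl
  rw [← hcop] at hΘ3
  rw [← hΘ, ← hS1, ← h𝓑] at hm2
  rw [← hΘ, ← hΘ'] at hΘ1
  rw [← hΘ] at hΘ2
  rw [← hΘ, ← hS1, ← hΘ'] at hΘ3
  rw [← hΘ'] at hT2
  rw [← hPi]
  obtain ⟨T1, hT1⟩ : ∃ T1, T1 = T.filter (fun h => N / Real.log N ^ (A + 3) <
    |∑ n ∈ S, (1 : ℝ) * (∏ i, ex thp (h i) (u i n) - ∏ i, ex (lamz z) (h i) (u i n))|) := ⟨_, rfl⟩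
  obtain ⟨T2, hT2d⟩ : ∃ T2, T2 = 𝓑.filter (fun h => η / 2 * Θ * Y <
    |∑ s ∈ S, ∏ i, ex (lamz z) (h i) (u i s) - Θ * S1.card|) := ⟨_, rfl⟩
  have hLA : 0 < Real.log N ^ A := by positivity
  have hsub : T ⊆ T1 ∪ T2 := by
    intro h hh
    by_contra hcon
    rw [mem_union, not_or, hT1, hT2d, mem_filter, mem_filter, not_and, not_and] at hcon
    have c1 := not_lt.1 (hcon.1 hh)
    have c2 := not_lt.1 (hcon.2 (hT𝓑 hh))
    have c3 := hT2 h hh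
    have e1 : ∑ n ∈ S, (1 : ℝ) * (∏ i, ex thp (h i) (u i n) - ∏ i, ex (lamz z) (h i) (u i n)) =
        ∑ n ∈ S, ∏ i, ex thp (h i) (u i n) - ∑ n ∈ S, ∏ i, ex (lamz z) (h i) (u i n) := by
      rw [← sum_sub_distrib]
      exact sum_congr rfl fun n _ => one_mul _
    rw [e1] at c1
    have e0 : (N : ℝ) / (4 * Real.log N ^ (A + 1)) ≤ η / 4 * Y := by
      calc (N : ℝ) / (4 * Real.log N ^ (A + 1)) = (1 / Real.log N) / 4 * (N / Real.log N ^ A) := by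
            rw [pow_succ]
            field_simp
        _ ≤ η / 4 * Y := by gcongr
    have e2 : (N : ℝ) / Real.log N ^ (A + 3) ≤ η / 4 * Θ' * Y := by
      have e3 : (N : ℝ) / Real.log N ^ (A + 3) ≤ N / (4 * Real.log N ^ (A + 1)) := by
        refine div_le_div_of_nonneg_left hN0.le (by positivity) ?_
        have e4 : Real.log N ^ (A + 3) = Real.log N ^ 2 * Real.log N ^ (A + 1) := by ring
        rw [e4]
        have : (4 : ℝ) ≤ Real.log N ^ 2 := by nlinarith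
        gcongr
      have e5 : η / 4 * Y ≤ η / 4 * Θ' * Y := by
        have : 1 ≤ Θ' := by linarith
        have h7 : 0 ≤ η / 4 * Y := by positivity
        calc η / 4 * Y = 1 * (η / 4 * Y) := (one_mul _).symm
          _ ≤ Θ' * (η / 4 * Y) := mul_le_mul_of_nonneg_right this h7
          _ = _ := by ring
      linarith
    have e5 : Θ' * (N / (4 * Real.log N ^ (A + 1))) ≤ η / 4 * Θ' * Y := by
      have : 0 ≤ Θ' := by linarith
      calc Θ' * (N / (4 * Real.log N ^ (A + 1))) ≤ Θ' * (η / 4 * Y) := mul_le_mul_of_nonneg_left e0 this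
        _ = _ := by ring
    have e7 : η / 2 * Θ * Y ≤ η / 2 * Θ' * Y := by gcongr
    have e8 : |∑ s ∈ S, ∏ i, ex thp (h i) (u i s) - Θ' * (copM q a S u).card| ≤ η * Θ' * Y := by
      have e9 : ∑ s ∈ S, ∏ i, ex thp (h i) (u i s) - Θ' * (copM q a S u).card =
          (∑ n ∈ S, ∏ i, ex thp (h i) (u i n) - ∑ n ∈ S, ∏ i, ex (lamz z) (h i) (u i n)) +
          (∑ s ∈ S, ∏ i, ex (lamz z) (h i) (u i s) - Θ * S1.card) +
          (Θ * S1.card - Θ' * (copM q a S u).card) := by ring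
      rw [e9]
      refine (abs_add_le _ _).trans ?_
      have e10 := abs_add_le (∑ n ∈ S, ∏ i, ex thp (h i) (u i n) - ∑ n ∈ S, ∏ i, ex (lamz z) (h i) (u i n))
        (∑ s ∈ S, ∏ i, ex (lamz z) (h i) (u i s) - Θ * S1.card)
      linarith
    linarith
  have hc1 : (T1.card : ℝ) ≤ Pi / Real.log N ^ (A + 3) := by
    rw [hPi]
    refine hmain S u hu1 hu2 (fun _ => 1) (fun n _ => by rw [abs_one]) T1 (fun h hh i => ?_) (fun h hh => ?_)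
    · rw [hT1, mem_filter] at hh
      obtain ⟨e1, e2, e3⟩ := hT h hh.1 i
      refine ⟨?_, e3⟩
      rw [abs_of_nonneg (by omega)]
      exact e2
    · rw [hT1, mem_filter] at hh
      exact hh.2
  have hc2 : (T2.card : ℝ) ≤ 2 ^ k * Pi * (4 * (k * C₂ + k + 1) * l / (η ^ 2 * w)) := by
    have e1 : (T2.card : ℝ) * (η / 2 * Θ * Y) ^ 2 ≤
        ∑ h ∈ 𝓑, (∑ s ∈ S, ∏ i, ex (lamz z) (h i) (u i s) - Θ * S1.card) ^ 2 := by
      rw [← nsmul_eq_mul, ← sum_const]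
      refine le_trans (sum_le_sum fun h hh => ?_) (sum_le_sum_of_subset_of_nonneg (s := T2)
        (by rw [hT2d]; exact filter_subset _ _) fun _ _ _ => sq_nonneg _)
      rw [hT2d, mem_filter] at hh
      rw [← sq_abs (∑ s ∈ S, ∏ i, ex (lamz z) (h i) (u i s) - Θ * S1.card)]
      exact pow_le_pow_left₀ (by positivity) hh.2.le 2
    have e2 : Θ ^ 2 * (k * (C₂ * l / w * (S.card : ℝ) ^ 2 + (N : ℝ) ^ 2 / Real.log N ^ (2 * A + 1))) +
        (N : ℝ) ^ 2 / Real.log N ^ (2 * A + 1) ≤ (k * C₂ + k + 1) * (l / w) * (Θ ^ 2 * Y ^ 2) := by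
      have e3 : (N : ℝ) ^ 2 / Real.log N ^ (2 * A + 1) ≤ l / w * Y ^ 2 := by
        calc (N : ℝ) ^ 2 / Real.log N ^ (2 * A + 1) = 1 / Real.log N * (N / Real.log N ^ A) ^ 2 := by
              have e30 : Real.log N ^ (2 * A + 1) = (Real.log N ^ A) ^ 2 * Real.log N := by ring
              rw [e30, div_pow]
              have e31 : Real.log N ≠ 0 := by linarith
              field_simp
          _ ≤ l / w * Y ^ 2 := by
              have : 1 / Real.log N ≤ l / w := div_le_div₀ (by linarith) hl1 hw0 hwL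
              gcongr
      have e4 : C₂ * l / w * (S.card : ℝ) ^ 2 ≤ C₂ * (l / w * Y ^ 2) := by
        have : (S.card : ℝ) ^ 2 ≤ Y ^ 2 := pow_le_pow_left₀ (Nat.cast_nonneg _) hSY 2
        calc C₂ * l / w * (S.card : ℝ) ^ 2 ≤ C₂ * l / w * Y ^ 2 := by gcongr
          _ = _ := by ring
      have e5 : 0 ≤ l / w * Y ^ 2 := by positivity
      have e6 : (N : ℝ) ^ 2 / Real.log N ^ (2 * A + 1) ≤ Θ ^ 2 * (l / w * Y ^ 2) := by
        refine e3.trans ?_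
        have : 1 ≤ Θ ^ 2 := one_le_pow₀ hΘ2
        nlinarith
      calc Θ ^ 2 * (k * (C₂ * l / w * (S.card : ℝ) ^ 2 + (N : ℝ) ^ 2 / Real.log N ^ (2 * A + 1))) +
            (N : ℝ) ^ 2 / Real.log N ^ (2 * A + 1)
          ≤ Θ ^ 2 * (k * (C₂ * (l / w * Y ^ 2) + l / w * Y ^ 2)) + Θ ^ 2 * (l / w * Y ^ 2) := by
            refine add_le_add (mul_le_mul_of_nonneg_left (mul_le_mul_of_nonneg_left (add_le_add e4 e3)
              (by linarith)) (sq_nonneg _)) e6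
        _ = _ := by ring
    have e4 : (T2.card : ℝ) * (η / 2 * Θ * Y) ^ 2 ≤ 2 ^ k * Pi * ((k * C₂ + k + 1) * (l / w) * (Θ ^ 2 * Y ^ 2)) := by
      refine e1.trans (hm2.trans ?_)
      refine mul_le_mul hM e2 ?_ (by positivity)
      positivity
    have e5 : 0 < (η / 2 * Θ * Y) ^ 2 := by positivity
    rw [← le_div_iff₀ e5] at e4
    refine e4.trans (le_of_eq ?_)
    have : Θ ≠ 0 := by linarith
    field_simp
    ring
  have hcard : (T.card : ℝ) ≤ T1.card + T2.card := by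
    exact_mod_cast (card_le_card hsub).trans (card_union_le _ _)
  have e6 : Pi / Real.log N ^ (A + 3) ≤ Pi * (l / (η ^ 2 * w)) := by
    have e7 : Pi / Real.log N ^ (A + 3) ≤ Pi * (1 / (η ^ 2 * w)) := by
      rw [mul_one_div]
      refine div_le_div_of_nonneg_left hPi0.le (by positivity) ?_
      calc η ^ 2 * w ≤ 1 ^ 2 * Real.log N := by gcongr
        _ ≤ Real.log N ^ (A + 3) := by
            have := pow_le_pow_right₀ hL1 (show 1 ≤ A + 3 by omega)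
            rw [pow_one] at this
            linarith
    refine e7.trans (mul_le_mul_of_nonneg_left ?_ hPi0.le)
    exact div_le_div_of_nonneg_right hl1 (by positivity)
  have e7 : 0 ≤ 2 ^ k * (l / (η ^ 2 * w)) * Pi := by positivity
  calc (T.card : ℝ) ≤ Pi * (l / (η ^ 2 * w)) + 2 ^ k * Pi * (4 * (k * C₂ + k + 1) * l / (η ^ 2 * w)) +
        2 ^ k * (l / (η ^ 2 * w)) * Pi := by linarith
    _ = _ := by ring

end Pool.Agent.H579.G
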