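import Pool.Agent.H579.G.Dsp4

set_option autoImplicit false

/-! Prime shifts along arbitrary sequences: the form with natural numbers. -/

namespace Pool.Agent.H579.G

open Finset
open Pool.Agent.H373R2.T7

/-- the product of the `q / φ(q)` -/
noncomputable def den {k : ℕ} (q : Fin k → ℕ) : ℝ := ∏ i, (q i : ℝ) / Nat.totient (q i)

open Classical in
/-- the `s ∈ S` with all `u_i(s) + h_i` prime -/
noncomputable def prN {k : ℕ} (S : Finset ℕ) (u : Fin k → ℕ → ℕ) (h : Fin k → ℕ) : Finset ℕ :=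
  S.filter (fun s => ∀ i, (u i s + h i).Prime)

open Classical in
/-- the `s ∈ S` with all `u_i(s) + a_i` prime to `q_i` -/
noncomputable def cpN {k : ℕ} (S : Finset ℕ) (u : Fin k → ℕ → ℕ) (q a : Fin k → ℕ) : Finset ℕ :=
  S.filter (fun s => ∀ i, (u i s + a i).Coprime (q i))

lemma prsM_nat {k : ℕ} (S : Finset ℕ) (u : Fin k → ℕ → ℕ) (h : Fin k → ℕ) :
    prsM (fun i => (h i : ℤ)) S u = prN S u h := by
  classical
  unfold prsM prN
  refine filter_congr fun s _ => forall_congr' fun i => ?_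
  unfold PrP
  constructor
  · rintro ⟨p, hp, e⟩
    dsimp only at e
    have : u i s + h i = p := by exact_mod_cast e
    rw [this]
    exact hp
  · intro hp
    exact ⟨_, hp, by push_cast; rfl⟩

lemma copM_nat {k : ℕ} (S : Finset ℕ) (u : Fin k → ℕ → ℕ) (q a : Fin k → ℕ) :
    copM q (fun i => (a i : ℤ)) S u = cpN S u q a := by
  classical
  unfold copM cpN
  refine filter_congr fun s _ => forall_congr' fun i => ?_
  have : ((u i s : ℤ) + ((a i : ℕ) : ℤ)) = ((u i s + a i : ℕ) : ℤ) := by push_cast; rfl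
  rw [this, Int.gcd_natCast_natCast]

open Classical in
/-- the exceptional vectors -/
noncomputable def excN {k : ℕ} (η Y : ℝ) (N : ℕ) (S : Finset ℕ) (u : Fin k → ℕ → ℕ) (q a : Fin k → ℕ) :
    Finset (Fin k → ℕ) :=
  (Fintype.piFinset fun _ => Icc 1 N).filter (fun h => (∀ i, h i ≡ a i [MOD q i]) ∧
    η * den q * (Y / Real.log N ^ k) <
      |((prN S u h).card : ℝ) - den q * ((cpN S u q a).card / Real.log N ^ k)|)

/-- prime shifts along arbitrary sequences: natural numbers -/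
theorem sparse_nat (k A : ℕ) (hk : 1 ≤ k) : ∃ C : ℝ, 1 ≤ C ∧ ∀ ρ : ℝ, 0 < ρ →
    ∃ c : ℕ, ∀ B : ℕ, ∃ N₀ : ℕ, ∀ N : ℕ, N₀ ≤ N →
      ∃ D : Finset ℕ, (D.card : ℝ) ≤ Real.log N ^ c ∧ (∀ d ∈ D, Real.log N ^ B < (d : ℝ)) ∧
      ∀ q : Fin k → ℕ, (∀ i, 1 ≤ q i ∧ (q i : ℝ) ≤ (N : ℝ) ^ (2 / 3 - ρ) ∧ ∀ d ∈ D, ¬ d ∣ q i) →
      ∀ w : ℕ, 1 ≤ w → (w : ℝ) ≤ Real.log N → (∀ p : ℕ, p.Prime → p ≤ w → ∀ i, p ∣ q i) →
      ∀ a : Fin k → ℕ, ∀ S : Finset ℕ, ∀ u : Fin k → ℕ → ℕ, (∀ i, ∀ s ∈ S, u i s ∈ Icc 1 N) →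
      (∀ i, Set.InjOn (u i) S) → ∀ Y : ℝ, (S.card : ℝ) ≤ Y → N / Real.log N ^ A ≤ Y → ∀ η : ℝ, 0 < η → η ≤ 1 →
        ((excN η Y N S u q a).card : ℝ) ≤ C * Real.log (Real.log N) / (η ^ 2 * w) * ∏ i, ((N : ℝ) / q i) := by
  classical
  obtain ⟨C, hC, h1⟩ := sparse_cnt k A hk
  refine ⟨C, hC, fun ρ hρ => ?_⟩
  obtain ⟨c, h2⟩ := h1 ρ hρ
  refine ⟨c, fun B => ?_⟩
  obtain ⟨N₀, h3⟩ := h2 B
  refine ⟨N₀, fun N hN => ?_⟩
  obtain ⟨D, hD1, hD2, hD3⟩ := h3 N hN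
  refine ⟨D, hD1, hD2, fun q hq w hw1 hwL hwq a S u hu1 hu2 Y hSY hYN η hη0 hη1 => ?_⟩
  have hinj : Function.Injective (fun (h : Fin k → ℕ) (i : Fin k) => ((h i : ℕ) : ℤ)) := by
    intro h h' e
    funext i
    have := congrFun e i
    dsimp only at this
    exact_mod_cast this
  have h4 := hD3 q hq w hw1 hwL hwq (fun i => (a i : ℤ)) S u hu1 hu2 Y hSY hYN η hη0 hη1
    ((excN η Y N S u q a).image (fun (h : Fin k → ℕ) (i : Fin k) => ((h i : ℕ) : ℤ)))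
    (by
      intro h hh i
      obtain ⟨g, hg, rfl⟩ := mem_image.1 hh
      unfold excN at hg
      rw [mem_filter, Fintype.mem_piFinset] at hg
      have e1 := mem_Icc.1 (hg.1 i)
      dsimp only
      refine ⟨by exact_mod_cast e1.1, by exact_mod_cast e1.2, ?_⟩
      exact Int.natCast_modEq_iff.2 (hg.2.1 i))
    (by
      intro h hh
      obtain ⟨g, hg, rfl⟩ := mem_image.1 hh
      unfold excN at hg
      rw [mem_filter] at hg
      have e1 : (∏ i, Qf' (q i)) = den q := rfl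
      rw [prsM_nat, copM_nat, e1]
      exact hg.2.2)
  rwa [card_image_of_injective _ hinj] at h4

/-- the `n`-th prime is at least `6 n` -/
lemma six_le_nth : ∃ n₀ : ℕ, ∀ n : ℕ, n₀ ≤ n → 6 * n ≤ Nat.nth Nat.Prime (n - 1) := by
  classical
  obtain ⟨n1, h1⟩ := Filter.eventually_atTop.1 (Pool.Agent.Y614.GJ.Core.ev_log 1 (s := 1) (by norm_num) (1000 : ℝ))
  refine ⟨n1 + 16, fun n hn => ?_⟩
  rw [← Nat.count_le_iff_le_nth Nat.infinite_setOfPred_prime, Nat.count_eq_card_filter_range]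
  obtain ⟨hL, -⟩ := h1 (6 * n) (by omega)
  have h2 := cnt_ap (s := 0) (show 16 ≤ 6 * n by omega) le_rfl (by omega : 1 ^ 2 ≤ 6 * n)
  rw [Nat.totient_one, Nat.cast_one, div_one] at h2
  have h3 : ((range (6 * n)).filter Nat.Prime).card ≤
      ((Icc 1 (6 * n)).filter (fun t => t.Prime ∧ t ≡ 0 [MOD 1])).card := by
    refine card_le_card fun t ht => ?_
    rw [mem_filter, mem_range] at ht
    rw [mem_filter, mem_Icc]
    exact ⟨⟨ht.2.pos, ht.1.le⟩, ht.2, Nat.modEq_one⟩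
  have h4 : (((range (6 * n)).filter Nat.Prime).card : ℝ) ≤ 88 * (((6 * n : ℕ) : ℝ) / Real.log ((6 * n : ℕ) : ℝ)) :=
    le_trans (by exact_mod_cast h3) h2
  have hn0 : (16 : ℝ) ≤ n := by exact_mod_cast (by omega : 16 ≤ n)
  have h5 : 88 * (((6 * n : ℕ) : ℝ) / Real.log ((6 * n : ℕ) : ℝ)) ≤ n - 1 := by
    have e1 : ((6 * n : ℕ) : ℝ) / Real.log ((6 * n : ℕ) : ℝ) ≤ ((6 * n : ℕ) : ℝ) / 1000 := by
      refine div_le_div_of_nonneg_left (Nat.cast_nonneg _) (by norm_num) ?_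
      linarith
    push_cast at e1 ⊢
    linarith
  have h6 : (((range (6 * n)).filter Nat.Prime).card : ℝ) ≤ ((n - 1 : ℕ) : ℝ) := by
    rw [Nat.cast_sub (by omega : 1 ≤ n)]
    push_cast
    linarith
  exact_mod_cast h6

end Pool.Agent.H579.G
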