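import Pool.Agent.H579.G.Dsp5

set_option autoImplicit false

/-! Common summands: `N_i - s` prime for `s` in an arbitrary set. -/

namespace Pool.Agent.H579.G

open Finset
open Pool.Agent.H373R2.T7

open Classical in
lemma box_nat {k N : ℕ} {q : Fin k → ℕ} (hq : ∀ i, 1 ≤ q i ∧ q i ≤ N) {a : Fin k → ℕ} {T : Finset (Fin k → ℕ)}
    (hT : ∀ h ∈ T, ∀ i, 1 ≤ h i ∧ h i ≤ N ∧ h i ≡ a i [MOD q i]) :
    (T.card : ℝ) ≤ 2 ^ k * ∏ i, ((N : ℝ) / q i) := by
  have hinj : Function.Injective (fun (h : Fin k → ℕ) (i : Fin k) => ((h i : ℕ) : ℤ)) := by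
    intro h h' e
    funext i
    have := congrFun e i
    dsimp only at this
    exact_mod_cast this
  have h4 := box_card hq (a := fun i => (a i : ℤ)) (T := T.image (fun (h : Fin k → ℕ) (i : Fin k) => ((h i : ℕ) : ℤ))) (by
    intro h hh i
    obtain ⟨g, hg, rfl⟩ := mem_image.1 hh
    obtain ⟨e1, e2, e3⟩ := hT g hg i
    dsimp only
    refine ⟨by exact_mod_cast e1, by exact_mod_cast e2, ?_⟩
    exact Int.natCast_modEq_iff.2 e3)
  rwa [card_image_of_injective _ hinj] at h4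

/-- the reflected sequences -/
def refl (k x : ℕ) : Fin k → ℕ → ℕ := fun _ s => x + 1 - s

/-- the classes of the shifts -/
def cls {k : ℕ} (x : ℕ) (q r : Fin k → ℕ) : Fin k → ℕ := fun i => r i + (q i - 1) * (x + 1)

open Classical in
/-- the `s ∈ S` with all `N_i - s` prime -/
noncomputable def cmn {k : ℕ} (S : Finset ℕ) (N : Fin k → ℕ) : Finset ℕ :=
  S.filter (fun s => ∀ i, (N i - s).Prime)

open Classical in
/-- the `s ∈ S` with all `r_i - s` prime to `q_i` -/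
noncomputable def lcs {k : ℕ} (S : Finset ℕ) (q r : Fin k → ℕ) : Finset ℕ :=
  S.filter (fun s => ∀ i, Int.gcd ((r i : ℤ) - s) (q i) = 1)

open Classical in
/-- the exceptional vectors of numbers in `(x + 1, 2 x + 1]` -/
noncomputable def excG {k : ℕ} (M E : ℝ) (x : ℕ) (S : Finset ℕ) (q r : Fin k → ℕ) : Finset (Fin k → ℕ) :=
  (Fintype.piFinset fun _ => Icc (x + 2) (2 * x + 1)).filter (fun N => (∀ i, N i ≡ r i [MOD q i]) ∧
    E < |((cmn S N).card : ℝ) - M|)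

lemma cls_mod {k x : ℕ} {q r N : Fin k → ℕ} (hq : ∀ i, 1 ≤ q i) (hN : ∀ i, x + 2 ≤ N i) (i : Fin k)
    (h : N i ≡ r i [MOD q i]) : N i - (x + 1) ≡ cls x q r i [MOD q i] := by
  apply Nat.ModEq.add_right_cancel' (x + 1)
  have e1 : N i - (x + 1) + (x + 1) = N i := by have := hN i; omega
  have e2 : cls x q r i + (x + 1) = r i + q i * (x + 1) := by
    unfold cls
    obtain ⟨m, hm⟩ : ∃ m, q i = m + 1 := ⟨q i - 1, by have := hq i; omega⟩
    rw [hm]
    simp only [Nat.add_sub_cancel]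
    ring
  rw [e1, e2]
  refine h.trans ?_
  have : r i + q i * (x + 1) ≡ r i + 0 [MOD q i] := (Nat.ModEq.refl _).add (by
    rw [Nat.modEq_zero_iff_dvd]
    exact dvd_mul_right _ _)
  rw [add_zero] at this
  exact this.symm

lemma cls_cop {k x : ℕ} {q r : Fin k → ℕ} (hq : ∀ i, 1 ≤ q i) (S : Finset ℕ) (hS : S ⊆ Icc 1 x) :
    cpN S (refl k x) q (cls x q r) = lcs S q r := by
  classical
  unfold cpN lcs
  refine filter_congr fun s hs => forall_congr' fun i => ?_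
  have hs1 := mem_Icc.1 (hS hs)
  have e2 : refl k x i s + cls x q r i + s = r i + q i * (x + 1) := by
    unfold refl cls
    obtain ⟨m, hm⟩ : ∃ m, q i = m + 1 := ⟨q i - 1, by have := hq i; omega⟩
    rw [hm]
    simp only [Nat.add_sub_cancel]
    have : x + 1 - s + (r i + m * (x + 1)) + s = (x + 1 - s + s) + (r i + m * (x + 1)) := by ring
    rw [this, Nat.sub_add_cancel (by omega)]
    ring
  have e3 : ((refl k x i s + cls x q r i : ℕ) : ℤ) = ((r i : ℤ) - s) + q i * (x + 1) := by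
    have e4 : ((refl k x i s + cls x q r i + s : ℕ) : ℤ) = ((r i + q i * (x + 1) : ℕ) : ℤ) := by rw [e2]
    push_cast at e4 ⊢
    linarith
  rw [Nat.coprime_iff_gcd_eq_one, ← Int.gcd_natCast_natCast, e3, Int.gcd_add_mul_left_left]

/-- common summands from arbitrary sets: numbers -/
theorem common_nat (k A : ℕ) (hk : 1 ≤ k) : ∃ C : ℝ, 1 ≤ C ∧ ∀ ρ : ℝ, 0 < ρ →
    ∃ c : ℕ, ∀ B : ℕ, ∃ x₀ : ℕ, ∀ x : ℕ, x₀ ≤ x →
      ∃ D : Finset ℕ, (D.card : ℝ) ≤ Real.log x ^ c ∧ (∀ d ∈ D, Real.log x ^ B < (d : ℝ)) ∧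
      ∀ q : Fin k → ℕ, (∀ i, 1 ≤ q i ∧ (q i : ℝ) ≤ (x : ℝ) ^ (2 / 3 - ρ) ∧ ∀ d ∈ D, ¬ d ∣ q i) →
      ∀ w : ℕ, 1 ≤ w → (w : ℝ) ≤ Real.log x → (∀ p : ℕ, p.Prime → p ≤ w → ∀ i, p ∣ q i) →
      ∀ r : Fin k → ℕ, ∀ S ⊆ Icc 1 x, ∀ Y : ℝ, (S.card : ℝ) ≤ Y → x / Real.log x ^ A ≤ Y → ∀ η : ℝ, 0 < η → η ≤ 1 →
        ((excG (den q * ((lcs S q r).card / Real.log x ^ k)) (η * den q * (Y / Real.log x ^ k)) x S q r).card : ℝ) ≤
          C * Real.log (Real.log x) / (η ^ 2 * w) * ∏ i, ((x : ℝ) / q i) := by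
  classical
  obtain ⟨C, hC, h1⟩ := sparse_nat k A hk
  refine ⟨C, hC, fun ρ hρ => ?_⟩
  obtain ⟨c, h2⟩ := h1 ρ hρ
  refine ⟨c, fun B => ?_⟩
  obtain ⟨x₀, h3⟩ := h2 B
  refine ⟨x₀, fun x hx => ?_⟩
  obtain ⟨D, hD1, hD2, hD3⟩ := h3 x hx
  refine ⟨D, hD1, hD2, fun q hq w hw1 hwL hwq r S hS Y hSY hYN η hη0 hη1 => ?_⟩
  have hq1 : ∀ i, 1 ≤ q i := fun i => (hq i).1
  have h4 := hD3 q hq w hw1 hwL hwq (cls x q r) S (refl k x)
    (by
      intro i s hs
      have := mem_Icc.1 (hS hs)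
      unfold refl
      exact mem_Icc.2 ⟨by omega, by omega⟩)
    (by
      intro i s hs t ht e
      have k1 := mem_Icc.1 (hS (mem_coe.1 hs))
      have k2 := mem_Icc.1 (hS (mem_coe.1 ht))
      unfold refl at e
      omega) Y hSY hYN η hη0 hη1
  refine le_trans ?_ h4
  apply Nat.cast_le.2
  refine card_le_card_of_injOn (fun N i => N i - (x + 1)) (fun N hN => ?_) (fun N hN N' hN' e => ?_)
  · rw [mem_coe] at hN
    unfold excG at hN
    rw [mem_filter, Fintype.mem_piFinset] at hN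
    obtain ⟨e1, e2, e3⟩ := hN
    have e4 : ∀ i, x + 2 ≤ N i ∧ N i ≤ 2 * x + 1 := fun i => mem_Icc.1 (e1 i)
    rw [mem_coe]
    unfold excN
    rw [mem_filter, Fintype.mem_piFinset]
    refine ⟨fun i => ?_, fun i => cls_mod hq1 (fun i => (e4 i).1) i (e2 i), ?_⟩
    · have := e4 i
      dsimp only
      exact mem_Icc.2 ⟨by omega, by omega⟩
    rw [cls_cop hq1 S hS]
    have e5 : prN S (refl k x) (fun i => N i - (x + 1)) = cmn S N := by
      unfold prN cmn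
      refine filter_congr fun s hs => forall_congr' fun i => ?_
      have k1 := mem_Icc.1 (hS hs)
      have e6 : refl k x i s + (N i - (x + 1)) = N i - s := by
        unfold refl
        have := e4 i
        omega
      rw [e6]
    rw [e5]
    exact e3
  · rw [mem_coe] at hN hN'
    unfold excG at hN hN'
    rw [mem_filter, Fintype.mem_piFinset] at hN hN'
    funext i
    have k1 := mem_Icc.1 (hN.1 i)
    have k2 := mem_Icc.1 (hN'.1 i)
    have k3 := congrFun e i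
    dsimp only at k3
    omega

end Pool.Agent.H579.G
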