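import Pool.Agent.H579.D.LowF

set_option autoImplicit false

/-! The pointwise lower bound for the primes, with an error term which is small on average. -/

namespace Pool.Agent.H579.G

open Finset
open Pool.Agent.H579.Dk (card_small)
open Pool.Agent.T6.H3.FF
open Pool.Agent.R460.GS (la la_nn vm_le cv real_sum)
open Pool.Agent.H373R2.T7 (lamz Vz pz Vz_pos Vz_inv_small)
open Pool.Agent.Y883.T3 (lsh)
open Pool.Agent.Y883.GJ
open Pool.Agent.W93.PG (lamz_le lamz_nn)
open Pool.Agent.Y614.GJ.Core (ev_log)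

/-- the pointwise lower bound for the primes -/
lemma pt_lower (V E : ℕ) : ∃ N₀ : ℕ, ∀ N : ℕ, N₀ ≤ N → ∀ z r : ℕ, 1 ≤ z → (z : ℝ) ≤ Real.log N ^ E →
    ∑ n ∈ Icc 1 N, |lamz z n - lsh z r n| ≤ N / Real.log N ^ (V + 6) →
    ∃ err : ℕ → ℝ, (∀ m, 0 ≤ err m) ∧ ∑ m ∈ Icc 1 N, err m ≤ N / Real.log N ^ V ∧
      ∀ m ∈ Icc 1 N, 139 / 1000 * lamz z m + 999 / 1000 * gR N z r m - err m ≤
        if m.Prime then Real.log N else 0 := by
  obtain ⟨c, Nw, hWB⟩ := ws
  obtain ⟨Nd, hd⟩ := wd (V + 6)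
  obtain ⟨Nv, hv⟩ := Vz_inv_small E
  obtain ⟨Ne, hNe⟩ := Filter.eventually_atTop.1 (ev_log (V + 8) (s := 1 / 2) (by norm_num)
    (100 * (1 + |c|)))
  obtain ⟨Nf, hNf⟩ := Filter.eventually_atTop.1 (ev_log (V + 7) (s := 1 / 1000) (by norm_num) 1)
  refine ⟨Nw + Nd + Nv + Ne + Nf + 1, fun N hN z r hz1 hz2 hsum => ?_⟩
  have hN1 : 1 ≤ N := by omega
  have hN0 : (0 : ℝ) < N := by exact_mod_cast hN1
  have hN1r : (1 : ℝ) ≤ N := by exact_mod_cast hN1
  obtain ⟨hLe, hLp⟩ := hNe N (by omega)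
  obtain ⟨-, hLq⟩ := hNf N (by omega)
  have hW := hWB N (by omega)
  have hc := hW.nn
  rw [abs_of_nonneg hc] at hLe
  have hL100 : 100 ≤ Real.log N := by linarith
  have hL0 : 0 < Real.log N := by linarith
  have hL1 : 1 ≤ Real.log N := by linarith
  have hVz := hv N (by omega) z hz1 hz2
  have hX : (0 : ℝ) ≤ N / Real.log N ^ (V + 6) := by positivity
  have hLL : Real.log N ^ (V + 6) ≤ (N : ℝ) ^ (1 / 1000 : ℝ) :=
    (pow_le_pow_right₀ (by linarith) (by omega)).trans hLq
  have hXbig : (N : ℝ) ^ (999 / 1000 : ℝ) ≤ N / Real.log N ^ (V + 6) := by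
    rw [le_div_iff₀ (by positivity)]
    calc (N : ℝ) ^ (999 / 1000 : ℝ) * Real.log N ^ (V + 6) ≤
          (N : ℝ) ^ (999 / 1000 : ℝ) * (N : ℝ) ^ (1 / 1000 : ℝ) := by gcongr
      _ = N := by
          rw [← Real.rpow_add hN0]
          norm_num
  have hl : ∀ m : ℕ, (N : ℝ) / Real.log N ^ (V + 6) ≤ m →
      2 ≤ m ∧ 999 / 1000 * Real.log N ≤ Real.log m := by
    intro m hm
    have k1 := hXbig.trans hm
    have k2 : 999 / 1000 * Real.log N ≤ Real.log m := by
      rw [← Real.log_rpow hN0]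
      exact Real.log_le_log (by positivity) k1
    refine ⟨?_, k2⟩
    by_contra hcon
    have k3 : Real.log m = 0 := by
      rcases (by omega : m = 0 ∨ m = 1) with h | h <;> rw [h] <;> simp
    rw [k3] at k2
    linarith
  obtain ⟨X, hXd⟩ : ∃ X : ℝ, X = N / Real.log N ^ (V + 6) := ⟨_, rfl⟩
  rw [← hXd] at hsum hX hXbig hl
  have hdX : ∀ m : ℕ, m ≤ N → X ≤ m → 14 / 100 ≤ Wm N m := fun m h1 h2 =>
    hd N (by omega) m h1 (by rw [← hXd]; exact h2)
  -- the pointwise inequality
  obtain ⟨w, hw⟩ : ∃ w : ℕ → ℝ, w = fun m => |lamz z m - lsh z r m| := ⟨_, rfl⟩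
  obtain ⟨T, hTd⟩ : ∃ T : Finset ℕ, T = Icc 1 N := ⟨_, rfl⟩
  have hT : T ⊆ Icc 1 N := by rw [hTd]
  have hpt : ∀ m ∈ T, 139 / 1000 * lamz z m + 999 / 1000 * gR N z r m - c * w m -
      (if (m : ℝ) < X then (c + 6) * Real.log N else 0) ≤ la m := by
    intro m hm
    have hmN := mem_Icc.1 (hT hm)
    have k1 := la_nn m
    have k2 := gm_abs (hT hm)
    have k3 := lamz_nn z m
    have k4 := (lamz_le z m).trans hVz
    have k5 := hW.h1 m hmN.2
    have k6 : |Wm N m * (lsh z r m - lamz z m)| ≤ c * w m := by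
      rw [abs_mul, hw]
      simp only
      rw [abs_sub_comm (lsh z r m)]
      exact mul_le_mul_of_nonneg_right k5 (abs_nonneg _)
    have e : gm N m = gR N z r m + Wm N m * lamz z m + Wm N m * (lsh z r m - lamz z m) := by
      unfold gR
      ring
    have k7 := (abs_le.1 k6).1
    have k7' := (abs_le.1 k6).2
    have hw0 : 0 ≤ w m := by rw [hw]; exact abs_nonneg _
    have hcw : 0 ≤ c * w m := mul_nonneg hc hw0
    split_ifs with hcase
    · have k8 := (abs_le.1 k5).1
      have k9 : -(c * Real.log N) ≤ Wm N m * lamz z m := by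
        have q1 : -c * lamz z m ≤ Wm N m * lamz z m := mul_le_mul_of_nonneg_right k8 k3
        have q2 : c * lamz z m ≤ c * Real.log N := mul_le_mul_of_nonneg_left k4 hc
        linarith
      have k10 := (abs_le.1 k2).2
      have k11 : gR N z r m ≤ 4 * Real.log N + c * Real.log N + c * w m := by linarith
      have k12 : 0 ≤ c * Real.log N := by positivity
      linarith
    · obtain ⟨l1, l2⟩ := hl m (not_lt.1 hcase)
      have k8 := gm_le l1 hmN.2 l2
      have k9 : 14 / 100 * lamz z m ≤ Wm N m * lamz z m :=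
        mul_le_mul_of_nonneg_right (hdX m hmN.2 (not_lt.1 hcase)) k3
      linarith
  have h2 := card_small hT hX
  have h3 : ∑ m ∈ T, w m ≤ X := by
    refine le_trans ?_ hsum
    rw [hw]
    exact sum_le_sum_of_subset_of_nonneg hT fun _ _ _ => abs_nonneg _
  have h4 : ∑ m ∈ T, (if m.Prime then (0 : ℝ) else la m) ≤ 2 * Real.sqrt N * Real.log N := by
    have hN' : (1 : ℝ) ≤ N := by exact_mod_cast hN1
    refine le_trans ?_ (Chebyshev.psi_sub_theta_le hN')
    rw [Chebyshev.psi_sub_theta_eq_sum_not_prime, Nat.floor_natCast]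
    have e1 : ∑ m ∈ T, (if m.Prime then (0 : ℝ) else la m) = ∑ m ∈ T.filter (fun m => ¬ m.Prime), la m := by
      rw [sum_filter]
      refine sum_congr rfl fun m _ => ?_
      by_cases hm : m.Prime
      · rw [if_pos hm, if_neg (not_not.2 hm)]
      · rw [if_neg hm, if_pos hm]
    rw [e1]
    refine sum_le_sum_of_subset_of_nonneg (fun m hm => ?_) fun m _ _ => la_nn m
    rw [mem_filter] at hm ⊢
    have := mem_Icc.1 (hT hm.1)
    exact ⟨mem_Ioc.2 ⟨by omega, this.2⟩, hm.2⟩
  have h6 : c * ∑ m ∈ T, w m ≤ c * X := mul_le_mul_of_nonneg_left h3 hc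
  have h7 : ((T.filter (fun m : ℕ => (m : ℝ) < X)).card : ℝ) * ((c + 6) * Real.log N) ≤
      X * ((c + 6) * Real.log N) := mul_le_mul_of_nonneg_right h2 (by positivity)
  refine ⟨fun m => c * w m + (if (m : ℝ) < X then (c + 6) * Real.log N else 0) + (if m.Prime then (0 : ℝ) else la m),
    fun m => ?_, ?_, fun m hm => ?_⟩
  · have hw0 : 0 ≤ w m := by rw [hw]; exact abs_nonneg _
    have e1 : 0 ≤ c * w m := mul_nonneg hc hw0
    have e2 : (0 : ℝ) ≤ (if (m : ℝ) < X then (c + 6) * Real.log N else 0) := by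
      split_ifs
      · positivity
      · exact le_rfl
    have e3 : (0 : ℝ) ≤ (if m.Prime then (0 : ℝ) else la m) := by
      split_ifs
      · exact le_rfl
      · exact la_nn m
    simp only
    linarith
  · rw [← hTd, sum_add_distrib, sum_add_distrib, ← mul_sum, ← sum_filter, sum_const, nsmul_eq_mul]
    -- the sizes
    obtain ⟨L, hLd⟩ : ∃ L, L = Real.log (N : ℝ) := ⟨_, rfl⟩
    rw [← hLd] at h4 h7 hL0 hL1 hL100 hLe hLp hXd ⊢
    have hX1 : c * X + X * ((c + 6) * L) ≤ N / L ^ V / 2 := by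
      have q1 : c * X ≤ c * L * X := by
        have : 0 ≤ c * X := by positivity
        nlinarith
      have q2 : c * X + X * ((c + 6) * L) ≤ 2 * (c + 3) * L * X := by nlinarith
      have q3 : 2 * (c + 3) * L ≤ L ^ 2 := by nlinarith
      have q4 : 2 * (c + 3) * L * X ≤ L ^ 2 * X := mul_le_mul_of_nonneg_right q3 hX
      have q5 : L ^ 2 * X = N / L ^ V / L ^ 4 := by
        rw [hXd, pow_add]
        field_simp
      have q6 : (N : ℝ) / L ^ V / L ^ 4 ≤ N / L ^ V / 2 := by
        apply div_le_div_of_nonneg_left (by positivity) (by norm_num)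
        calc (2 : ℝ) ≤ L := by linarith
          _ = L ^ 1 := (pow_one _).symm
          _ ≤ L ^ 4 := pow_le_pow_right₀ hL1 (by norm_num)
      linarith
    have hX2 : 2 * Real.sqrt N * L ≤ N / L ^ V / 2 := by
      rw [div_div, le_div_iff₀ (by positivity)]
      have q1 : L ^ (V + 8) ≤ Real.sqrt N := by
        rw [Real.sqrt_eq_rpow]
        exact hLp
      have q2 : 4 * L ^ (V + 1) ≤ L ^ (V + 8) := by
        calc 4 * L ^ (V + 1) ≤ L * L ^ (V + 1) := mul_le_mul_of_nonneg_right (by linarith) (by positivity)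
          _ = L ^ (V + 2) := by ring
          _ ≤ L ^ (V + 8) := pow_le_pow_right₀ hL1 (by omega)
      calc 2 * Real.sqrt N * L * (L ^ V * 2) = Real.sqrt N * (4 * L ^ (V + 1)) := by ring
        _ ≤ Real.sqrt N * Real.sqrt N := mul_le_mul_of_nonneg_left (q2.trans q1) (Real.sqrt_nonneg _)
        _ = N := Real.mul_self_sqrt hN0.le
    linarith
  · have h8 := hpt m (by rw [hTd]; exact hm)
    have h9 : la m ≤ (if m.Prime then Real.log N else 0) + (if m.Prime then (0 : ℝ) else la m) := by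
      split_ifs
      · rw [add_zero]
        exact vm_le hm
      · rw [zero_add]
    simp only
    linarith

end Pool.Agent.H579.G
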