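import Pool.Agent.H579.E.Err

set_option autoImplicit false

/-! The properties of the difference of `e2` and the model, with the sums of the model with characters. -/

namespace Pool.Agent.H579.G

open Finset
open Pool.Agent.H579.E
open Pool.Agent.Y883.GJ Pool.Agent.R460.GS
open Pool.Agent.R460.GP (cvd)
open Pool.Agent.H373R2.T7 (lamz Vz lam_ap lamz_ap)
open Pool.Agent.Y883.T3 (lsh)
open Pool.Agent.Y614.GJ.Core (ev_log)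
open Pool.Agent.R460.GH (nc_LS)
open ArithmeticFunction (vonMangoldt)

/-- all properties of the difference of `e2` and the model, and the sums of the model with characters -/
theorem goodR (hTM : TiMaj2Stm) (hTm : TiMinStm) (hLsh : LshStm)
    {κ κ₁ κ₂ : ℝ} (h0 : 0 < κ₁) (h01 : κ₁ ≤ κ₂) (h1 : κ₂ < 4 * κ) (hκ : 0 < κ) (h2 : κ₂ ≤ 1 / 2) (A₁ : ℕ) :
    ∃ C : ℕ, ∀ A₂ : ℕ, ∃ C₃ : ℕ, ∀ K U U₀ U₂ : ℕ, ∃ B : ℕ, ∀ E : ℕ, ∃ N₀ : ℕ, ∀ N : ℕ, N₀ ≤ N → ∀ z : ℕ,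
    Real.log N ^ B ≤ z → (z : ℝ) ≤ Real.log N ^ E → ∃ r : ℕ, Par U₀ N z r ∧
    ∑ n ∈ Icc 1 N, |lamz z n - lsh z r n| ≤ N / Real.log N ^ U₀ ∧
    (∀ (Q : ℕ) [NeZero Q], (Q : ℝ) ≤ (N : ℝ) ^ (7 / 10 - (-(3 / 10) + 4 * κ)) → ∀ χ : DirichletCharacter ℂ Q, χ ≠ 1 →
      ∀ η : ℝ, |η| ≤ Real.log N ^ C / N → ∀ y : ℕ, y ≤ N → ‖cs Q y (LS z r) η χ‖ ≤ N / Real.log N ^ U₂) ∧
    ∀ α : ℕ → ℝ, Al N κ₁ κ₂ α → BdAt N (G2 N α z r) ∧ MinAt N (-(3 / 10) + 4 * κ) A₁ C (G2 N α z r) ∧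
      MajAt N (-(3 / 10) + 4 * κ) A₂ C C₃ (G2 N α z r) ∧ ApAt N K U (G2 N α z r) ∧ NcAt N U (G2 N α z r) := by
  obtain ⟨M₀, hM100, hMκ⟩ : ∃ M₀ : ℕ, 100 ≤ M₀ ∧ 1 / (M₀ : ℝ) ≤ κ := by
    obtain ⟨n, hn⟩ := exists_nat_ge (1 / κ)
    refine ⟨n + 100, by omega, ?_⟩
    rw [div_le_iff₀ (by positivity)]
    rw [div_le_iff₀ hκ] at hn
    push_cast
    nlinarith
  have hM1 : 1 ≤ M₀ := by omega
  obtain ⟨Cg, Ng, hg⟩ := minE (A₁ + 2) (κ := κ) h0 h1 (by linarith)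
  obtain ⟨Ch, Nh, hh⟩ := nHk hTm hLsh (A₁ + 2 + 2) hκ hM1 hMκ
  refine ⟨max Cg Ch, fun A₂ => ?_⟩
  obtain ⟨C, hC⟩ : ∃ C, C = max Cg Ch := ⟨_, rfl⟩
  rw [← hC]
  obtain ⟨C₃, Nm1, hm1⟩ := majE (A₂ + 2) C hκ h0 h1.le h2
  obtain ⟨Nm2, hm2⟩ := mHk hTM hLsh (A₂ + 2 + 2) C hκ hM1 hMκ
  refine ⟨C₃, fun K U U₀ U₂ => ?_⟩
  obtain ⟨Nq, hq2⟩ := mHk hTM hLsh (2 * U₂) C hκ hM1 hMκ
  obtain ⟨U₁, hU₁⟩ : ∃ U₁, U₁ = max U₀ (U + 3) := ⟨_, rfl⟩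
  obtain ⟨Bm, hBm⟩ := modelM M₀ hM100 U₁
  refine ⟨max Bm K, fun E => ?_⟩
  obtain ⟨Nmo, hmo⟩ := hBm E
  obtain ⟨Nl, hl⟩ := lamz_ap E (U + 3)
  obtain ⟨Na, ha⟩ := apE h0 h01 h2 K (U + 3)
  obtain ⟨Nc, hc⟩ := ncE (κ₁ := κ₁) (κ₂ := κ₂) h0 h2 (U + 1)
  obtain ⟨b, Nb, hb0, hb⟩ := sup_W (κ₁ := κ₁) (κ₂ := κ₂) h0 h01
  obtain ⟨Ne, hNe⟩ := Filter.eventually_atTop.1 (ev_log 1 (s := 1) (by norm_num) (3 * b + 3))
  refine ⟨Ng + Nh + Nm1 + Nm2 + Nc + Nb + Nmo + Nl + Na + Ne + Nq + 1, fun N hN z hz1 hz2 => ?_⟩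
  obtain ⟨hLe, -⟩ := hNe N (by omega)
  have hL1 : 1 ≤ Real.log N := by linarith
  have hL2' : 2 ≤ Real.log N := by linarith
  have hzB : Real.log N ^ Bm ≤ z := (pow_le_pow_right₀ hL1 (le_max_left _ _)).trans hz1
  have hzK : Real.log N ^ K ≤ z := (pow_le_pow_right₀ hL1 (le_max_right _ _)).trans hz1
  have hz1' : 1 ≤ z := by
    have : (1 : ℝ) ≤ z := (one_le_pow₀ hL1).trans hz1
    exact_mod_cast this
  obtain ⟨r, hPar, hD, hsum⟩ := hmo N (by omega) z hzB hz2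
  have hdiv : ∀ V : ℕ, V ≤ U₁ → (N : ℝ) / Real.log N ^ U₁ ≤ N / Real.log N ^ V := fun V hV =>
    div_le_div_of_nonneg_left (Nat.cast_nonneg _) (by positivity) (pow_le_pow_right₀ hL1 hV)
  have hU0 : U₀ ≤ U₁ := by rw [hU₁]; exact le_max_left _ _
  have hU2 : U + 3 ≤ U₁ := by rw [hU₁]; exact le_max_right _ _
  have hP0 := par_mono hL1 hU0 hPar
  have hP2 := par_mono hL1 (show U + 2 ≤ U₁ by omega) hPar
  refine ⟨r, hP0, hsum.trans (hdiv _ hU0), ?_, fun α hα => ?_⟩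
  · intro Q _ hQ χ hχ η hη y hy
    have h5 := hq2 N (by omega) Q hQ z r hD hPar.hV η hη y hy {χ} (by
      rw [mem_singleton]
      exact fun h => hχ h.symm)
    rw [sum_singleton] at h5
    have h6 : (N : ℝ) ^ 2 / Real.log N ^ (2 * U₂) = (N / Real.log N ^ U₂) ^ 2 := by
      rw [div_pow, ← pow_mul, mul_comm 2 U₂]
    rw [h6] at h5
    exact (abs_le_of_sq_le_sq' h5 (by positivity)).2
  obtain ⟨-, hw⟩ := hb N (by omega) α hα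
  refine ⟨bdG hα hw hPar (by linarith), ?_, ?_, ?_, ?_⟩
  · rw [hC]
    exact minG hL2' hw (by linarith) (hg N (by omega) α hα) (hh N (by omega) z r hD hPar.hV)
  · exact majG hL2' hw (by linarith) (hm1 N (by omega) α hα) (fun q _ hq => hm2 N (by omega) q hq z r hD hPar.hV)
  · refine apG (by linarith) hb0 hw ?_ (hsum.trans (hdiv _ hU2)) (ha N (by omega) α hα)
    intro q hq hqK c y hy
    refine hl N (by omega) z hz1' hz2 q hq ?_ c y hy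
    exact_mod_cast hqK.trans hzK
  · exact ncG (by linarith) hb0 hw (hc N (by omega) α hα) (nc_LS hP2 hL2')


end Pool.Agent.H579.G
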