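import Pool.Agent.H579.G.Near
import Pool.Graph.R_seed8.H373R2.T7.SysMain2

set_option autoImplicit false

/-! The main term for systems of linear forms at the primes. -/

namespace Pool.Agent.H579.G

open Finset
open Pool.Agent.H373R2.T7
open Pool.Agent.Y614.GJ.Core (ev_log)
open ArithmeticFunction (vonMangoldt)

/-- the slopes of the system with the form `m` -/
def cons1 {k : ℕ} (q : Fin k → ℤ) : Fin (k + 1) → ℤ := Fin.cons 1 q

open Classical in
/-- the sieve model at the value of a form -/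
noncomputable def mF (z : ℕ) (q b : ℤ) (n : ℕ) : ℝ := if ∀ p ∈ pz z, ¬ (p : ℤ) ∣ q * n + b then (Vz z)⁻¹ else 0

lemma Qf_cons {k : ℕ} (q b : Fin k → ℤ) (p n : ℕ) :
    Qf (cons1 q) (cons0 b) p n ↔ (p ∣ n ∨ Qf q b p n) := by
  unfold Qf cons0 cons1
  constructor
  · rintro ⟨i, hi⟩
    refine Fin.cases (fun h1 => Or.inl ?_) (fun j h1 => Or.inr ⟨j, ?_⟩) i hi
    · rw [Fin.cons_zero, Fin.cons_zero, one_mul, add_zero] at h1
      exact_mod_cast h1
    · rw [Fin.cons_succ, Fin.cons_succ] at h1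
      exact h1
  · rintro (h1 | ⟨i, hi⟩)
    · refine ⟨0, ?_⟩
      rw [Fin.cons_zero, Fin.cons_zero, one_mul, add_zero]
      exact_mod_cast h1
    · refine ⟨i.succ, ?_⟩
      rw [Fin.cons_succ, Fin.cons_succ]
      exact hi

lemma nuB_cons {k : ℕ} (q b : Fin k → ℤ) {p : ℕ} (hp : p.Prime) :
    nuB (Qf (cons1 q) (cons0 b)) p = rhoA (Qf q b) p + 1 := by
  classical
  unfold nuB rhoA
  have e : (range p).filter (fun r => Qf (cons1 q) (cons0 b) p r) =
      insert 0 ((range p).filter (fun r => ¬ p ∣ r ∧ Qf q b p r)) := by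
    ext r
    rw [mem_insert, mem_filter, mem_filter, mem_range, Qf_cons]
    constructor
    · rintro ⟨h1, h2⟩
      by_cases h3 : p ∣ r
      · exact Or.inl (Nat.eq_zero_of_dvd_of_lt h3 h1)
      · exact Or.inr ⟨h1, h3, h2.resolve_left h3⟩
    · rintro (h1 | ⟨h1, h2, h3⟩)
      · rw [h1]
        exact ⟨hp.pos, Or.inl (dvd_zero _)⟩
      · exact ⟨h1, Or.inr h3⟩
  rw [e, card_insert_of_notMem]
  intro h
  rw [mem_filter] at h
  exact h.2.1 (dvd_zero _)

lemma rhoA_le_nuB {k : ℕ} (q b : Fin k → ℤ) (p : ℕ) : rhoA (Qf q b) p ≤ nuB (Qf q b) p := by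
  classical
  unfold nuB rhoA
  refine card_le_card fun r hr => ?_
  rw [mem_filter] at hr ⊢
  exact ⟨hr.1, hr.2.2⟩

lemma fac_cons {k : ℕ} (q b : Fin k → ℤ) {p : ℕ} (hp : p.Prime) :
    (1 - 1 / (p : ℝ)) ^ k * fac (k + 1) (nuB (Qf (cons1 q) (cons0 b))) p = 1 - (rhoA (Qf q b) p : ℝ) / (p - 1 : ℝ) := by
  have h1 := one_sub_pos hp
  have hp0 : (p : ℝ) ≠ 0 := by exact_mod_cast hp.ne_zero
  have hp1 : (p : ℝ) - 1 ≠ 0 := by
    have : (2 : ℝ) ≤ p := by exact_mod_cast hp.two_le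
    linarith
  unfold fac
  rw [nuB_cons q b hp, pow_succ]
  have e : (1 : ℝ) - 1 / p = (p - 1) / p := by field_simp
  have e2 : (1 - 1 / (p : ℝ)) ^ k ≠ 0 := by positivity
  rw [e] at e2 ⊢
  push_cast
  field_simp
  ring

lemma sys_per {k : ℕ} {q b : Fin k → ℤ} (h : ∀ p : ℕ, p.Prime → ∀ i, ¬ ((p : ℤ) ∣ q i ∧ (p : ℤ) ∣ b i)) :
    PerA (Qf q b) k :=
  ⟨fun p n => Qf_per q b p n, fun p hp => (rhoA_le_nuB q b p).trans (nu_few hp (h p hp))⟩

lemma mF_prod {k : ℕ} (z : ℕ) (q b : Fin k → ℤ) (n : ℕ) [Decidable (∀ p ∈ pz z, ¬ Qf q b p n)] :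
    ∏ i, mF z (q i) (b i) n = if (∀ p ∈ pz z, ¬ Qf q b p n) then ((Vz z)⁻¹) ^ k else 0 := by
  classical
  unfold mF
  split_ifs with h1
  · have e4 : ∀ i ∈ (univ : Finset (Fin k)), (if (∀ p ∈ pz z, ¬ (p : ℤ) ∣ q i * n + b i) then (Vz z)⁻¹ else 0) = (Vz z)⁻¹ := by
      intro i _
      exact if_pos fun p hp hd => h1 p hp ⟨i, hd⟩
    rw [prod_congr rfl e4, prod_const, card_univ, Fintype.card_fin]
  · push Not at h1
    obtain ⟨p, hp, i, hi⟩ := h1
    exact prod_eq_zero (mem_univ i) (if_neg fun hc => hc p hp hi)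

/-- the main term for systems of forms, at the primes -/
theorem main_forms (k : ℕ) (hk : 1 ≤ k) (A C : ℕ) : ∃ B : ℕ, ∀ E : ℕ, ∃ N₀ : ℕ, ∀ N : ℕ, N₀ ≤ N → ∀ z : ℕ,
    Real.log N ^ B ≤ z → (z : ℝ) ≤ Real.log N ^ E → ∀ q b : Fin k → ℤ, (∀ i, q i ≠ 0) → (∀ i, b i ≠ 0) →
    (∀ i j, i ≠ j → q i * b j ≠ q j * b i) → (∀ i, (q i).natAbs ≤ N ^ C) → (∀ i, (b i).natAbs ≤ N ^ C) →
    (∀ p : ℕ, p.Prime → z < p → ∀ i, ¬ ((p : ℤ) ∣ q i ∧ (p : ℤ) ∣ b i)) →
    |∑ n ∈ Icc 1 N, thp n * ∏ i, mF z (q i) (b i) n - sing (cons1 q) (cons0 b) * N| ≤ N / Real.log N ^ A ∧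
    sing (cons1 q) (cons0 b) ≤ 2 * Real.log N ^ (k + 1) := by
  classical
  refine ⟨A + k + 1 + 1 + 2, fun E => ?_⟩
  obtain ⟨n1, h1⟩ := sys_main k E (A + k + 1) hk
  obtain ⟨n2, h2⟩ := sing_near (k + 1) (A + k + 1 + 1) C
  obtain ⟨n3, h3⟩ := Vz_inv_small E
  obtain ⟨n4, h4⟩ := Filter.eventually_atTop.1 (ev_log (A + k + 3) (s := 1 / 2) (by norm_num) 10)
  refine ⟨n1 + n2 + n3 + n4 + 1, fun N hN z hz1 hz2 q b hq0 hb0 hqb hqN hbN hgcd => ?_⟩
  obtain ⟨hL10, hLp⟩ := h4 N (by omega)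
  have hN1 : 1 ≤ N := by omega
  have hN0 : (0 : ℝ) < N := by exact_mod_cast hN1
  obtain ⟨L, hL⟩ : ∃ L, L = Real.log (N : ℝ) := ⟨_, rfl⟩
  have hL1 : 1 ≤ L := by rw [hL]; linarith
  have hL0 : 0 < L := by linarith
  have hz1' : 1 ≤ z := by
    have : (1 : ℝ) ≤ z := (one_le_pow₀ (by rw [← hL]; exact hL1)).trans hz1
    exact_mod_cast this
  have hV := h3 N (by omega) z hz1' hz2
  have hVp := Vz_pos z
  by_cases hcop : ∀ p : ℕ, p.Prime → ∀ i, ¬ ((p : ℤ) ∣ q i ∧ (p : ℤ) ∣ b i)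
  swap
  · push Not at hcop
    obtain ⟨p, hp, i, hpi⟩ := hcop
    have hpz : p ≤ z := by
      by_contra hcon
      exact hgcd p hp (not_le.1 hcon) i hpi
    have e1 : ∀ n ∈ Icc 1 N, thp n * ∏ i, mF z (q i) (b i) n = 0 := by
      intro n _
      rw [prod_eq_zero (mem_univ i), mul_zero]
      unfold mF
      exact if_neg fun hc => hc p (mem_pz.2 ⟨hpz, hp⟩) (dvd_add (Dvd.dvd.mul_right hpi.1 _) hpi.2)
    have e2 : sing (cons1 q) (cons0 b) = 0 := by
      refine sing_zero hp (nu_all i.succ ?_ ?_)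
      · unfold cons1
        rw [Fin.cons_succ]
        exact hpi.1
      · unfold cons0
        rw [Fin.cons_succ]
        exact hpi.2
    rw [sum_eq_zero e1, e2, zero_mul, sub_zero, abs_zero, ← hL]
    exact ⟨by positivity, by positivity⟩
  have e1 := h1 N (by omega) z hz1' hz2 (Qf q b) (sys_per hcop)
  have e2 := h2 N (by omega) z hz1 (cons1 q) (cons0 b)
    (fun i => by
      refine Fin.cases ?_ (fun i' => ?_) i
      · unfold cons1
        rw [Fin.cons_zero]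
        exact one_ne_zero
      · unfold cons1
        rw [Fin.cons_succ]
        exact hq0 i')
    (fun i j hij e => by
      unfold cons0 cons1 at e
      refine Fin.cases ?_ (fun i' => ?_) i (motive := fun i => i ≠ j →
        (Fin.cons 1 q : Fin (k + 1) → ℤ) i * (Fin.cons 0 b : Fin (k + 1) → ℤ) j =
        (Fin.cons 1 q : Fin (k + 1) → ℤ) j * (Fin.cons 0 b : Fin (k + 1) → ℤ) i → False) hij e
      · intro h5
        refine Fin.cases (fun h5 _ => h5 rfl) (fun j' _ e' => ?_) j (motive := fun j => 0 ≠ j →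
          (Fin.cons 1 q : Fin (k + 1) → ℤ) 0 * (Fin.cons 0 b : Fin (k + 1) → ℤ) j =
          (Fin.cons 1 q : Fin (k + 1) → ℤ) j * (Fin.cons 0 b : Fin (k + 1) → ℤ) 0 → False) h5
        rw [Fin.cons_zero, Fin.cons_zero, Fin.cons_succ, Fin.cons_succ, one_mul, mul_zero] at e'
        exact hb0 j' e'
      · intro h5
        refine Fin.cases (fun _ e' => ?_) (fun j' h6 e' => ?_) j (motive := fun j => i'.succ ≠ j →
          (Fin.cons 1 q : Fin (k + 1) → ℤ) i'.succ * (Fin.cons 0 b : Fin (k + 1) → ℤ) j =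
          (Fin.cons 1 q : Fin (k + 1) → ℤ) j * (Fin.cons 0 b : Fin (k + 1) → ℤ) i'.succ → False) h5
        · rw [Fin.cons_zero, Fin.cons_zero, Fin.cons_succ, Fin.cons_succ, one_mul, mul_zero] at e'
          exact hb0 i' e'.symm
        · rw [Fin.cons_succ, Fin.cons_succ, Fin.cons_succ, Fin.cons_succ] at e'
          exact hqb i' j' (fun h7 => h6 (congrArg Fin.succ h7)) e')
    (fun i => by
      refine Fin.cases ?_ (fun i' => ?_) i
      · unfold cons1
        rw [Fin.cons_zero, Int.natAbs_one]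
        exact Nat.one_le_pow _ _ hN1
      · unfold cons1
        rw [Fin.cons_succ]
        exact hqN i')
    (fun i => by
      refine Fin.cases ?_ (fun i' => ?_) i
      · unfold cons0
        rw [Fin.cons_zero]
        simp
      · unfold cons0
        rw [Fin.cons_succ]
        exact hbN i')
    (fun p hp hzp i => by
      refine Fin.cases ?_ (fun i' => ?_) i
      · unfold cons1
        rw [Fin.cons_zero]
        rintro ⟨h5, -⟩
        have := Int.le_of_dvd one_pos h5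
        have := hp.two_le
        omega
      · unfold cons0 cons1
        rw [Fin.cons_succ, Fin.cons_succ]
        exact hgcd p hp hzp i')
  obtain ⟨F, hF⟩ : ∃ F : ℝ, F = ∏ p ∈ pz z, fac (k + 1) (nuB (Qf (cons1 q) (cons0 b))) p := ⟨_, rfl⟩
  have hsF : ((Vz z)⁻¹) ^ k * ∏ p ∈ pz z, (1 - (rhoA (Qf q b) p : ℝ) / (p - 1 : ℝ)) = F := by
    have e3 : Vz z ^ k * F = ∏ p ∈ pz z, (1 - (rhoA (Qf q b) p : ℝ) / (p - 1 : ℝ)) := by
      rw [hF]
      unfold Vz
      rw [← prod_pow, ← prod_mul_distrib]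
      exact prod_congr rfl fun p hp => fac_cons q b (mem_pz.1 hp).2
    rw [← e3, ← mul_assoc, ← mul_pow, inv_mul_cancel₀ hVp.ne', one_pow, one_mul]
  have hF0 : 0 ≤ F := by
    rw [hF]
    exact prod_nonneg fun p hp => fac_nn (mem_pz.1 hp).2 (nuB_le _ _)
  have hFL : F ≤ L ^ (k + 1) := by
    have f1 := fac_prod (k + 1) z (nuB (Qf (cons1 q) (cons0 b)))
    rw [← hF] at f1
    have f2 : ∏ p ∈ pz z, (1 - (nuB (Qf (cons1 q) (cons0 b)) p : ℝ) / p) ≤ 1 := by
      refine prod_le_one (fun p hp => ?_) fun p hp => ?_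
      · have hp0 : (0 : ℝ) < p := by exact_mod_cast (mem_pz.1 hp).2.pos
        rw [sub_nonneg, div_le_one hp0]
        exact_mod_cast nuB_le _ _
      · have : 0 ≤ (nuB (Qf (cons1 q) (cons0 b)) p : ℝ) / p := by positivity
        linarith
    rw [f1] at f2
    have f3 : F ≤ ((Vz z)⁻¹) ^ (k + 1) := by
      have f4 : ((Vz z)⁻¹) ^ (k + 1) * (Vz z ^ (k + 1) * F) = F := by
        rw [← mul_assoc, ← mul_pow, inv_mul_cancel₀ hVp.ne', one_pow, one_mul]
      calc F = ((Vz z)⁻¹) ^ (k + 1) * (Vz z ^ (k + 1) * F) := f4.symm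
        _ ≤ ((Vz z)⁻¹) ^ (k + 1) * 1 := mul_le_mul_of_nonneg_left f2 (by positivity)
        _ = _ := mul_one _
    exact f3.trans (pow_le_pow_left₀ (inv_pos.2 hVp).le (by rw [hL]; exact hV) _)
  rw [← hF, ← hL] at e2
  rw [← hL] at e1 hV hLp hL10 ⊢
  have hsing2 : sing (cons1 q) (cons0 b) ≤ 2 * L ^ (k + 1) := by
    have f1 := (abs_le.1 e2).2
    have f2 : F / L ^ (A + k + 1 + 1) ≤ F := div_le_self hF0 (one_le_pow₀ hL1)
    linarith
  refine ⟨?_, hsing2⟩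
  have e3 : ∑ n ∈ Icc 1 N, thp n * ∏ i, mF z (q i) (b i) n =
      ((Vz z)⁻¹) ^ k * ∑ n ∈ (Icc 1 N).filter (fun n : ℕ => ∀ p ∈ pz z, ¬ Qf q b p n), vonMangoldt n -
      ∑ n ∈ Icc 1 N, (vonMangoldt n - thp n) * ∏ i, mF z (q i) (b i) n := by
    rw [sum_filter, mul_sum, ← sum_sub_distrib]
    refine sum_congr rfl fun n hn => ?_
    rw [mF_prod]
    split_ifs
    · ring
    · ring
  have e5 : |∑ n ∈ Icc 1 N, (vonMangoldt n - thp n) * ∏ i, mF z (q i) (b i) n| ≤ N / L ^ (A + 1) := by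
    refine (abs_sum_le_sum_abs _ _).trans ?_
    have f1 : ∀ n ∈ Icc 1 N, |(vonMangoldt n - thp n) * ∏ i, mF z (q i) (b i) n| ≤ |vonMangoldt n - thp n| * L ^ k := by
      intro n hn
      rw [mem_Icc] at hn
      rw [abs_mul, abs_prod]
      refine mul_le_mul_of_nonneg_left ?_ (abs_nonneg _)
      have f2 : ∀ i ∈ (univ : Finset (Fin k)), |mF z (q i) (b i) n| ≤ L := by
        intro i _
        unfold mF
        split_ifs
        · rw [abs_of_pos (inv_pos.2 hVp)]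
          exact hV
        · rw [abs_zero]
          exact hL0.le
      refine (prod_le_prod (fun i _ => abs_nonneg _) f2).trans (le_of_eq ?_)
      rw [prod_const, card_univ, Fintype.card_fin]
    refine (sum_le_sum f1).trans ?_
    rw [← sum_mul]
    have f3 := psi_bd' hN1
    rw [← hL] at f3
    calc (∑ n ∈ Icc 1 N, |vonMangoldt n - thp n|) * L ^ k ≤ 2 * Real.sqrt N * L * L ^ k := by gcongr
      _ ≤ N / L ^ (A + 1) := by
          rw [le_div_iff₀ (by positivity)]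
          have f4 : Real.sqrt N = (N : ℝ) ^ (1 / 2 : ℝ) := Real.sqrt_eq_rpow _
          have f5 : (N : ℝ) ^ (1 / 2 : ℝ) * (N : ℝ) ^ (1 / 2 : ℝ) = N := by
            rw [← Real.rpow_add hN0]
            norm_num
          calc 2 * Real.sqrt N * L * L ^ k * L ^ (A + 1) = Real.sqrt N * (2 * L ^ (A + k + 2)) := by ring
            _ ≤ Real.sqrt N * (L * L ^ (A + k + 2)) := by
                gcongr
                linarith
            _ = Real.sqrt N * L ^ (A + k + 3) := by ring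
            _ ≤ Real.sqrt N * (N : ℝ) ^ (1 / 2 : ℝ) := by gcongr
            _ = N := by rw [f4, f5]
  have e6 : |F * N - sing (cons1 q) (cons0 b) * N| ≤ N / L ^ (A + 1) := by
    rw [← sub_mul, abs_mul, abs_of_pos hN0, abs_sub_comm]
    calc |sing (cons1 q) (cons0 b) - F| * N ≤ F / L ^ (A + k + 1 + 1) * N := by gcongr
      _ ≤ L ^ (k + 1) / L ^ (A + k + 1 + 1) * N := by gcongr
      _ = N / L ^ (A + 1) := by
          rw [show A + k + 1 + 1 = (k + 1) + (A + 1) by ring, pow_add]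
          field_simp
          ring
  have e8 : |((Vz z)⁻¹) ^ k * ∑ n ∈ (Icc 1 N).filter (fun n : ℕ => ∀ p ∈ pz z, ¬ Qf q b p n), vonMangoldt n - F * N| ≤
      N / L ^ (A + 1) := by
    have f1 : ((Vz z)⁻¹) ^ k * ∑ n ∈ (Icc 1 N).filter (fun n : ℕ => ∀ p ∈ pz z, ¬ Qf q b p n), vonMangoldt n - F * N =
        ((Vz z)⁻¹) ^ k * (∑ n ∈ (Icc 1 N).filter (fun n : ℕ => ∀ p ∈ pz z, ¬ Qf q b p n), vonMangoldt n -
          N * ∏ p ∈ pz z, (1 - (rhoA (Qf q b) p : ℝ) / (p - 1 : ℝ))) := by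
      rw [← hsF]
      ring
    rw [f1, abs_mul, abs_of_nonneg (pow_nonneg (inv_pos.2 hVp).le k)]
    calc ((Vz z)⁻¹) ^ k * |∑ n ∈ (Icc 1 N).filter (fun n : ℕ => ∀ p ∈ pz z, ¬ Qf q b p n), vonMangoldt n -
          N * ∏ p ∈ pz z, (1 - (rhoA (Qf q b) p : ℝ) / (p - 1 : ℝ))| ≤ L ^ k * (N / L ^ (A + k + 1)) := by
          refine mul_le_mul (pow_le_pow_left₀ (inv_pos.2 hVp).le hV k) e1 (abs_nonneg _) (by positivity)
      _ = N / L ^ (A + 1) := by
          rw [show A + k + 1 = k + (A + 1) by ring, pow_add]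
          field_simp
  have e7 : (N : ℝ) / L ^ (A + 1) + N / L ^ (A + 1) + N / L ^ (A + 1) ≤ N / L ^ A := by
    calc (N : ℝ) / L ^ (A + 1) + N / L ^ (A + 1) + N / L ^ (A + 1) = N / L ^ A * (3 / L) := by
          rw [pow_succ]
          field_simp
          ring
      _ ≤ N / L ^ A * 1 := by
          refine mul_le_mul_of_nonneg_left ?_ (by positivity)
          rw [div_le_one hL0]
          linarith
      _ = _ := mul_one _
  rw [e3]
  have k1 := abs_sub_le (((Vz z)⁻¹) ^ k * ∑ n ∈ (Icc 1 N).filter (fun n : ℕ => ∀ p ∈ pz z, ¬ Qf q b p n), vonMangoldt n -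
      ∑ n ∈ Icc 1 N, (vonMangoldt n - thp n) * ∏ i, mF z (q i) (b i) n) (F * N) (sing (cons1 q) (cons0 b) * N)
  have k2 : |((Vz z)⁻¹) ^ k * ∑ n ∈ (Icc 1 N).filter (fun n : ℕ => ∀ p ∈ pz z, ¬ Qf q b p n), vonMangoldt n -
      ∑ n ∈ Icc 1 N, (vonMangoldt n - thp n) * ∏ i, mF z (q i) (b i) n - F * N| ≤
      |((Vz z)⁻¹) ^ k * ∑ n ∈ (Icc 1 N).filter (fun n : ℕ => ∀ p ∈ pz z, ¬ Qf q b p n), vonMangoldt n - F * N| +
      |∑ n ∈ Icc 1 N, (vonMangoldt n - thp n) * ∏ i, mF z (q i) (b i) n| := by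
    rw [sub_right_comm]
    exact abs_sub _ _
  linarith

end Pool.Agent.H579.G
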