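import Pool.Agent.H579.G.MainFm

set_option autoImplicit false

/-! The main term for systems of linear forms at the primes `≤ y`, for all `y ≤ M`. -/

namespace Pool.Agent.H579.G

open Finset
open Pool.Agent.H373R2.T7
open Pool.Agent.Y614.GJ.Core (ev_log)

lemma sing_nn' {k : ℕ} (q b : Fin k → ℤ) : 0 ≤ sing q b := by
  unfold sing
  by_cases h : Multipliable (fun p : Nat.Primes => fac k (nuB (Qf q b)) p)
  · have h1 := h.hasProd
    refine ge_of_tendsto h1 (Filter.Eventually.of_forall fun s => ?_)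
    exact prod_nonneg fun p _ => fac_nn p.2 (nuB_le _ _)
  · rw [tprod_eq_one_of_not_multipliable h]
    exact zero_le_one

theorem main_y (k : ℕ) (hk : 1 ≤ k) (A C : ℕ) : ∃ B : ℕ, ∀ E : ℕ, ∃ N₀ : ℕ, ∀ M : ℕ, N₀ ≤ M → ∀ z : ℕ,
    Real.log M ^ B ≤ z → (z : ℝ) ≤ Real.log M ^ E → ∀ q b : Fin k → ℤ, (∀ i, q i ≠ 0) → (∀ i, b i ≠ 0) →
    (∀ i j, i ≠ j → q i * b j ≠ q j * b i) → (∀ i, (q i).natAbs ≤ M ^ C) → (∀ i, (b i).natAbs ≤ M ^ C) →
    (∀ p : ℕ, p.Prime → z < p → ∀ i, ¬ ((p : ℤ) ∣ q i ∧ (p : ℤ) ∣ b i)) → (∀ y : ℕ, y ≤ M →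
    |∑ n ∈ Icc 1 y, thp n * ∏ i, mF z (q i) (b i) n - sing (cons1 q) (cons0 b) * y| ≤ M / Real.log M ^ A) ∧
    sing (cons1 q) (cons0 b) ≤ 2 * Real.log M ^ (k + 1) := by
  classical
  obtain ⟨B, hB⟩ := main_forms k hk (A + 1) (2 * C)
  refine ⟨B, fun E => ?_⟩
  obtain ⟨n0, h0⟩ := hB E
  obtain ⟨n1, h1⟩ := hB (2 * E)
  obtain ⟨n2, h2⟩ := Filter.eventually_atTop.1 (ev_log (A + k + 2) (s := 1 / 2) (by norm_num) (2 ^ (A + 1) + 10))
  obtain ⟨n3, h3⟩ := Vz_inv_small E
  refine ⟨(n0 + n1 + 2) ^ 2 + n2 + n3 + 1, fun M hM z hz1 hz2 q b hq0 hb0 hqb hqM hbM hgcd => ?_⟩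
  have hsq : (n0 + n1 + 2) ^ 2 ≤ M := by omega
  have hn0 : n0 ≤ M := by
    have := (Nat.le_self_pow two_ne_zero (n0 + n1 + 2)).trans hsq
    omega
  obtain ⟨hL10, hLp⟩ := h2 M (by omega)
  have hM1 : 1 ≤ M := by omega
  have hM0 : (0 : ℝ) < M := by exact_mod_cast hM1
  obtain ⟨L, hL⟩ : ∃ L, L = Real.log (M : ℝ) := ⟨_, rfl⟩
  have h2A : (1 : ℝ) ≤ 2 ^ (A + 1) := one_le_pow₀ (by norm_num)
  have hL10' : 10 ≤ L := by rw [hL]; linarith
  have hL1 : 1 ≤ L := by linarith
  have hL0 : 0 < L := by linarith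
  have hz1' : 1 ≤ z := by
    have : (1 : ℝ) ≤ z := (one_le_pow₀ (by rw [← hL]; exact hL1)).trans hz1
    exact_mod_cast this
  have hV := h3 M (by omega) z hz1' hz2
  have hVp := Vz_pos z
  have hMC : M ^ C ≤ M ^ (2 * C) := Nat.pow_le_pow_right hM1 (by omega)
  have hs := (h0 M hn0 z hz1 hz2 q b hq0 hb0 hqb (fun i => (hqM i).trans hMC) (fun i => (hbM i).trans hMC) hgcd).2
  refine ⟨fun y hy => ?_, hs⟩
  have hs0 := sing_nn' (cons1 q) (cons0 b)
  rw [← hL] at hs hV hz1 hz2 hLp hL10 ⊢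
  rcases Nat.lt_or_ge (y * y) M with hyM | hyM
  · -- small `y`
    have hyr : (y : ℝ) ≤ (M : ℝ) ^ (1 / 2 : ℝ) := by
      have e1 : (y : ℝ) ^ 2 ≤ M := by
        have : ((y * y : ℕ) : ℝ) ≤ M := by exact_mod_cast hyM.le
        push_cast at this
        nlinarith
      have e2 := Real.le_sqrt_of_sq_le e1
      rwa [Real.sqrt_eq_rpow] at e2
    have e1 : |∑ n ∈ Icc 1 y, thp n * ∏ i, mF z (q i) (b i) n| ≤ y * L ^ (k + 1) := by
      refine (abs_sum_le_sum_abs _ _).trans ?_
      calc ∑ n ∈ Icc 1 y, |thp n * ∏ i, mF z (q i) (b i) n| ≤ ∑ n ∈ Icc 1 y, L ^ (k + 1) := by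
            refine sum_le_sum fun n hn => ?_
            rw [mem_Icc] at hn
            rw [abs_mul, abs_prod, pow_succ, mul_comm (L ^ k) L]
            refine mul_le_mul ?_ ?_ (prod_nonneg fun i _ => abs_nonneg _) hL0.le
            · rw [abs_of_nonneg (thp_nn n)]
              unfold thp
              split_ifs
              · rw [hL]
                exact Real.log_le_log (by exact_mod_cast hn.1) (by exact_mod_cast hn.2.trans hy)
              · exact hL0.le
            · have f2 : ∀ i ∈ (univ : Finset (Fin k)), |mF z (q i) (b i) n| ≤ L := by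
                intro i _
                unfold mF
                split_ifs
                · rw [abs_of_pos (inv_pos.2 hVp)]
                  exact hV
                · rw [abs_zero]
                  exact hL0.le
              refine (prod_le_prod (fun i _ => abs_nonneg _) f2).trans (le_of_eq ?_)
              rw [prod_const, card_univ, Fintype.card_fin]
        _ = y * L ^ (k + 1) := by rw [sum_const, Nat.card_Icc, Nat.add_sub_cancel, nsmul_eq_mul]
    have e2 := abs_sub (∑ n ∈ Icc 1 y, thp n * ∏ i, mF z (q i) (b i) n) (sing (cons1 q) (cons0 b) * y)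
    have e3 : |sing (cons1 q) (cons0 b) * y| ≤ 2 * L ^ (k + 1) * y := by
      rw [abs_of_nonneg (by positivity)]
      exact mul_le_mul_of_nonneg_right hs (Nat.cast_nonneg _)
    refine e2.trans ((add_le_add e1 e3).trans ?_)
    rw [le_div_iff₀ (by positivity)]
    have f5 : (M : ℝ) ^ (1 / 2 : ℝ) * (M : ℝ) ^ (1 / 2 : ℝ) = M := by
      rw [← Real.rpow_add hM0]
      norm_num
    calc (y * L ^ (k + 1) + 2 * L ^ (k + 1) * y) * L ^ A = y * (3 * L ^ (A + k + 1)) := by ring
      _ ≤ y * (L * L ^ (A + k + 1)) := by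
          gcongr
          linarith
      _ = y * L ^ (A + k + 2) := by ring
      _ ≤ (M : ℝ) ^ (1 / 2 : ℝ) * (M : ℝ) ^ (1 / 2 : ℝ) := by gcongr
      _ = M := f5
  · -- large `y`
    have hyn : n0 + n1 + 2 ≤ y := by
      by_contra hcon
      rw [not_le] at hcon
      have : y * y < (n0 + n1 + 2) ^ 2 := by nlinarith
      omega
    have hy1 : 1 ≤ y := by omega
    have hy0 : (0 : ℝ) < y := by exact_mod_cast hy1
    obtain ⟨l, hl⟩ : ∃ l, l = Real.log (y : ℝ) := ⟨_, rfl⟩
    have hlL : l ≤ L := by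
      rw [hl, hL]
      exact Real.log_le_log hy0 (by exact_mod_cast hy)
    have hLl : L ≤ 2 * l := by
      have e1 : Real.log (M : ℝ) ≤ Real.log ((y : ℝ) ^ 2) :=
        Real.log_le_log hM0 (by
          have : (M : ℝ) ≤ ((y * y : ℕ) : ℝ) := by exact_mod_cast hyM
          push_cast at this
          nlinarith)
      rw [Real.log_pow] at e1
      rw [hL, hl]
      push_cast at e1
      exact e1
    have hl2 : 2 ≤ l := by linarith
    have hl0 : 0 < l := by linarith
    have hMy : M ^ C ≤ y ^ (2 * C) := by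
      rw [pow_mul]
      exact Nat.pow_le_pow_left (by nlinarith) C
    have e1 := (h1 y (by omega) z (by
        rw [← hl]
        exact (pow_le_pow_left₀ hl0.le hlL B).trans hz1) (by
        rw [← hl]
        refine hz2.trans ?_
        calc L ^ E ≤ (2 * l) ^ E := pow_le_pow_left₀ hL0.le hLl E
          _ ≤ (l ^ 2) ^ E := pow_le_pow_left₀ (by positivity) (by nlinarith) E
          _ = l ^ (2 * E) := by rw [← pow_mul]) q b hq0 hb0 hqb (fun i => (hqM i).trans hMy)
        (fun i => (hbM i).trans hMy) hgcd).1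
    refine e1.trans ?_
    rw [← hl]
    have hlA : 0 < l ^ (A + 1) := by positivity
    rw [div_le_div_iff₀ hlA (by positivity)]
    have e2 : L ^ (A + 1) ≤ 2 ^ (A + 1) * l ^ (A + 1) := by
      rw [← mul_pow]
      exact pow_le_pow_left₀ hL0.le hLl _
    have e3 : L ^ A ≤ l ^ (A + 1) := by
      have e4 : L ^ A * L ≤ L * l ^ (A + 1) := by
        calc L ^ A * L = L ^ (A + 1) := by ring
          _ ≤ 2 ^ (A + 1) * l ^ (A + 1) := e2
          _ ≤ L * l ^ (A + 1) := by
              have : (2 : ℝ) ^ (A + 1) ≤ L := by linarith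
              gcongr
      nlinarith
    have hyr : (y : ℝ) ≤ M := by exact_mod_cast hy
    exact mul_le_mul hyr e3 (by positivity) hM0.le

end Pool.Agent.H579.G
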