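import Pool.Agent.H579.G.Asym
import Pool.Agent.H579.G.Tup4
import Pool.Graph.R_seed8.H373R2.T7.TupleMain2

set_option autoImplicit false

/-! The singular series and its finite product; the main term for tuples with a prime. -/

namespace Pool.Agent.H579.G

open Finset
open Pool.Agent.H373R2.T7
open Pool.Agent.Y614.GJ.Core (ev_log)
open ArithmeticFunction (vonMangoldt)

/-- the singular series and its finite product -/
theorem sing_near (k : ℕ) (A C : ℕ) : ∃ M₀ : ℕ, ∀ M : ℕ, M₀ ≤ M → ∀ z : ℕ,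
    Real.log M ^ (A + 2) ≤ z → ∀ q b : Fin k → ℤ, (∀ i, q i ≠ 0) →
    (∀ i j, i ≠ j → q i * b j ≠ q j * b i) → (∀ i, (q i).natAbs ≤ M ^ C) → (∀ i, (b i).natAbs ≤ M ^ C) →
    (∀ p : ℕ, p.Prime → z < p → ∀ i, ¬ ((p : ℤ) ∣ q i ∧ (p : ℤ) ∣ b i)) →
    |sing q b - ∏ p ∈ pz z, fac k (nuB (Qf q b)) p| ≤ (∏ p ∈ pz z, fac k (nuB (Qf q b)) p) / Real.log M ^ A := by
  classical
  obtain ⟨R, hR⟩ : ∃ R : ℝ, R = 16 * k * ((k + k * k) * (4 * C + 2)) + 16 * k ^ 2 + 3 * k + 10 := ⟨_, rfl⟩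
  have hR1 : 0 ≤ 16 * (k : ℝ) * ((k + k * k) * (4 * C + 2)) := by positivity
  have hR2 : 0 ≤ 16 * (k : ℝ) ^ 2 := by positivity
  have hR3 : (0 : ℝ) ≤ 3 * k := by positivity
  obtain ⟨n3, h3⟩ := Filter.eventually_atTop.1 (ev_log 1 (s := 1) (by norm_num) R)
  refine ⟨n3 + 1, fun M hM z hz1 q b hq hqb hqM hbM hgcd => ?_⟩
  obtain ⟨hLR, -⟩ := h3 M (by omega)
  have hM1 : 1 ≤ M := by omega
  have hM0 : (0 : ℝ) < M := by exact_mod_cast hM1
  have hL10 : 10 ≤ Real.log M := by linarith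
  have hL0 : 0 < Real.log M := by linarith
  have hL1 : 1 ≤ Real.log M := by linarith
  have hzL : Real.log M ≤ z := by
    refine le_trans ?_ hz1
    exact le_self_pow₀ hL1 (by omega)
  have hz0 : (0 : ℝ) < z := by linarith
  have hz1' : 1 ≤ z := by exact_mod_cast (show (1 : ℝ) ≤ z by linarith)
  have hkz : 3 * k ≤ z := by
    have : (3 * k : ℝ) ≤ z := by linarith
    exact_mod_cast this
  have hF0 : 0 ≤ ∏ p ∈ pz z, fac k (nuB (Qf q b)) p :=
    prod_nonneg fun p hp => fac_nn (mem_pz.1 hp).2 (nuB_le _ _)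
  by_cases hadm : ∀ p : ℕ, p.Prime → nuB (Qf q b) p + 1 ≤ p
  · have hno : ∀ p : ℕ, p.Prime → ∀ i, ¬ ((p : ℤ) ∣ q i ∧ (p : ℤ) ∣ b i) := by
      rintro p hp i ⟨e1, e2⟩
      have := nu_all i e1 e2
      have := hadm p hp
      omega
    have hfew : ∀ p : ℕ, p.Prime → nuB (Qf q b) p ≤ k := fun p hp => nu_few hp (hno p hp)
    have hsing : sing q b ≤ (∏ p ∈ pz z, fac k (nuB (Qf q b)) p) * Real.exp (2 * k * (badF q b).card / z) :=
      sing_le (nuB (Qf q b)) (badF q b) (fun p hp hpB => badF_spec hq hqb hp hpB)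
        (fun p hp => (Nat.le_succ _).trans (hadm p hp)) hz1' hkz
    have hsing' : (∏ p ∈ pz z, fac k (nuB (Qf q b)) p) * Real.exp (-((k : ℝ) ^ 2 / z)) ≤ sing q b :=
      sing_ge (nuB (Qf q b)) (badF q b) (fun p hp hpB => badF_spec hq hqb hp hpB)
        (fun p hp => (Nat.le_succ _).trans (hadm p hp)) hfew hz1' hkz
    obtain ⟨F, hF⟩ : ∃ F : ℝ, F = ∏ p ∈ pz z, fac k (nuB (Qf q b)) p := ⟨_, rfl⟩
    rw [← hF] at hsing hsing' hF0 ⊢
    have hY : (badF q b).card ≤ (k + k * k) * Nat.log 2 (2 * (M ^ C * M ^ C)) := by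
      refine card_badF q b _ (fun i => ?_) (fun i j => ?_)
      · refine (hqM i).trans ?_
        have : 1 ≤ M ^ C := Nat.one_le_pow _ _ hM1
        nlinarith
      · refine (Int.natAbs_sub_le _ _).trans ?_
        rw [Int.natAbs_mul, Int.natAbs_mul]
        have e1 := Nat.mul_le_mul (hqM i) (hbM j)
        have e2 := Nat.mul_le_mul (hqM j) (hbM i)
        omega
    have hYr : ((badF q b).card : ℝ) ≤ (k + k * k) * ((4 * C + 2) * Real.log M) := by
      have e1 : ((badF q b).card : ℝ) ≤ (k + k * k) * (Nat.log 2 (2 * (M ^ C * M ^ C)) : ℝ) := by exact_mod_cast hY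
      have e2 : (Nat.log 2 (2 * (M ^ C * M ^ C)) : ℝ) ≤ (4 * C + 2) * Real.log M := by
        have e3 := Real.natLog_le_logb (2 * (M ^ C * M ^ C)) 2
        have e4 : Real.logb (2 : ℕ) ((2 * (M ^ C * M ^ C) : ℕ) : ℝ) ≤ (4 * C + 2) * Real.log M := by
          unfold Real.logb
          have l2 := Real.log_two_gt_d9
          have l2' := Real.log_two_lt_d9
          rw [div_le_iff₀ (by push_cast; linarith)]
          push_cast
          rw [Real.log_mul (by norm_num) (by positivity), Real.log_mul (by positivity) (by positivity), Real.log_pow]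
          have hC0 : (0 : ℝ) ≤ C := Nat.cast_nonneg _
          have k1 : 0 ≤ (C : ℝ) * Real.log M := by positivity
          have k2 : 1 / 2 * ((4 * C + 2) * Real.log M) ≤ (4 * C + 2) * Real.log M * Real.log 2 := by
            have : 0 ≤ (4 * (C : ℝ) + 2) * Real.log M := by positivity
            nlinarith
          nlinarith
        exact e3.trans e4
      refine e1.trans ?_
      gcongr
    obtain ⟨ε, hε⟩ : ∃ ε : ℝ, ε = 1 / (8 * Real.log M ^ A) := ⟨_, rfl⟩
    have hLA : 0 < Real.log M ^ A := by positivity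
    have hLA1 : 1 ≤ Real.log M ^ A := one_le_pow₀ hL1
    have hε0 : 0 < ε := by rw [hε]; positivity
    have hε1 : ε ≤ 1 / 8 := by
      rw [hε]
      exact one_div_le_one_div_of_le (by norm_num) (by linarith)
    have hx1 : 2 * (k : ℝ) * (badF q b).card / z ≤ ε := by
      rw [hε, div_le_div_iff₀ hz0 (by positivity)]
      calc 2 * (k : ℝ) * (badF q b).card * (8 * Real.log M ^ A) ≤
          2 * k * ((k + k * k) * ((4 * C + 2) * Real.log M)) * (8 * Real.log M ^ A) := by gcongr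
        _ = (16 * k * ((k + k * k) * (4 * C + 2))) * Real.log M ^ (A + 1) := by ring
        _ ≤ Real.log M * Real.log M ^ (A + 1) := by
            have : 16 * (k : ℝ) * ((k + k * k) * (4 * C + 2)) ≤ Real.log M := by linarith
            gcongr
        _ = Real.log M ^ (A + 2) := by ring
        _ ≤ z := hz1
        _ = 1 * z := (one_mul _).symm
    have hx2 : (k : ℝ) ^ 2 / z ≤ ε := by
      rw [hε, div_le_div_iff₀ hz0 (by positivity)]
      calc (k : ℝ) ^ 2 * (8 * Real.log M ^ A) = (8 * k ^ 2) * Real.log M ^ A := by ring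
        _ ≤ Real.log M * Real.log M ^ A := by
            have : 8 * (k : ℝ) ^ 2 ≤ Real.log M := by nlinarith
            gcongr
        _ = Real.log M ^ (A + 1) := by ring
        _ ≤ Real.log M ^ (A + 2) := pow_le_pow_right₀ hL1 (by omega)
        _ ≤ z := hz1
        _ = 1 * z := (one_mul _).symm
    have hup : sing q b ≤ F * (1 + 2 * ε) := by
      refine hsing.trans (mul_le_mul_of_nonneg_left ?_ hF0)
      refine (Real.exp_le_exp.2 hx1).trans ?_
      have e2 := Real.one_sub_le_exp_neg ε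
      have e3 : Real.exp ε * Real.exp (-ε) = 1 := by rw [← Real.exp_add, add_neg_cancel, Real.exp_zero]
      have e4 := Real.exp_pos ε
      nlinarith
    have hdn : F * (1 - ε) ≤ sing q b := by
      refine le_trans (mul_le_mul_of_nonneg_left ?_ hF0) hsing'
      have e2 := Real.one_sub_le_exp_neg ε
      refine e2.trans (Real.exp_le_exp.2 ?_)
      linarith
    have hd : |sing q b - F| ≤ 2 * ε * F := by
      rw [abs_le]
      constructor <;> nlinarith
    refine hd.trans ?_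
    rw [hε]
    calc 2 * (1 / (8 * Real.log M ^ A)) * F = F / Real.log M ^ A * (1 / 4) := by
          field_simp
          ring
      _ ≤ F / Real.log M ^ A * 1 := mul_le_mul_of_nonneg_left (by norm_num) (by positivity)
      _ = _ := mul_one _
  · push Not at hadm
    obtain ⟨p, hp, hpn⟩ := hadm
    have h5 : nuB (Qf q b) p = p := le_antisymm (nuB_le _ _) (by omega)
    have hpz : p ≤ z := by
      by_contra hcon
      rw [not_le] at hcon
      have e1 := nu_few hp (hgcd p hp hcon)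
      omega
    have e0 : ∏ p ∈ pz z, fac k (nuB (Qf q b)) p = 0 := by
      refine prod_eq_zero (mem_pz.2 ⟨hpz, hp⟩) ?_
      unfold fac
      have hp0 : (p : ℝ) ≠ 0 := by exact_mod_cast hp.ne_zero
      rw [h5, div_self hp0, sub_self, zero_div]
    rw [sing_zero hp h5, e0, sub_zero, abs_zero, zero_div]

/-- the tuple with `0` -/
def cons0 {k : ℕ} (h : Fin k → ℤ) : Fin (k + 1) → ℤ := Fin.cons 0 h

lemma nuP_cons {k : ℕ} (h : Fin k → ℤ) (p : ℕ) : nuP h p = nuB (Qf (fun _ => 1) (cons0 h)) p := by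
  classical
  unfold nuP nuB
  congr 1
  ext r
  rw [mem_filter, mem_filter]
  refine and_congr_right fun _ => ?_
  unfold Qf cons0
  constructor
  · rintro (h1 | ⟨i, hi⟩)
    · refine ⟨0, ?_⟩
      rw [Fin.cons_zero, one_mul, add_zero]
      exact_mod_cast h1
    · refine ⟨i.succ, ?_⟩
      rw [Fin.cons_succ, one_mul]
      exact hi
  · rintro ⟨i, hi⟩
    rw [one_mul] at hi
    refine Fin.cases (fun h1 => Or.inl ?_) (fun j h1 => Or.inr ⟨j, ?_⟩) i hi
    · rw [Fin.cons_zero, add_zero] at h1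
      exact_mod_cast h1
    · rw [Fin.cons_succ] at h1
      exact h1

lemma ex_lamz {z n : ℕ} {h : ℤ} (h0 : 0 < (n : ℤ) + h) :
    ex (lamz z) h n = if (∀ p ∈ pz z, ¬ (p : ℤ) ∣ n + h) then (Vz z)⁻¹ else 0 := by
  classical
  unfold ex lamz
  rw [if_pos h0]
  have e3 : (∀ p ∈ pz z, ¬ p ∣ ((n : ℤ) + h).toNat) ↔ (∀ p ∈ pz z, ¬ (p : ℤ) ∣ n + h) := by
    refine forall₂_congr fun p _ => ?_
    rw [← Int.natCast_dvd_natCast, Int.toNat_of_nonneg (by omega)]
  simp only [e3]

/-- the main term for tuples with a prime -/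
theorem prime_main (k : ℕ) (hk : 1 ≤ k) (A : ℕ) : ∃ B : ℕ, ∀ E : ℕ, ∃ N₀ : ℕ, ∀ N : ℕ, N₀ ≤ N → ∀ z : ℕ,
    Real.log N ^ B ≤ z → (z : ℝ) ≤ Real.log N ^ E → ∀ h : Fin k → ℤ, Function.Injective h →
    (∀ i, 0 < h i ∧ h i ≤ N) →
    |∑ n ∈ Icc 1 N, thp n * ∏ i, ex (lamz z) (h i) n - sing (fun _ => 1) (cons0 h) * N| ≤ N / Real.log N ^ A := by
  classical
  refine ⟨A + k + 1 + 1 + 2, fun E => ?_⟩
  obtain ⟨n1, h1⟩ := tuple_main k E (A + 1) hk
  obtain ⟨n2, h2⟩ := sing_near (k + 1) (A + k + 1 + 1) 1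
  obtain ⟨n3, h3⟩ := Vz_inv_small E
  obtain ⟨n4, h4⟩ := Filter.eventually_atTop.1 (ev_log (A + k + 3) (s := 1 / 2) (by norm_num) 10)
  refine ⟨n1 + n2 + n3 + n4 + 1, fun N hN z hz1 hz2 h hinj hh => ?_⟩
  obtain ⟨hL10, hLp⟩ := h4 N (by omega)
  have hN1 : 1 ≤ N := by omega
  have hN0 : (0 : ℝ) < N := by exact_mod_cast hN1
  obtain ⟨L, hL⟩ : ∃ L, L = Real.log (N : ℝ) := ⟨_, rfl⟩
  have hL1 : 1 ≤ L := by rw [hL]; linarith
  have hL0 : 0 < L := by linarith
  have hz1' : 1 ≤ z := by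
    have : (1 : ℝ) ≤ z := (one_le_pow₀ (by rw [← hL]; exact hL1)).trans hz1
    exact_mod_cast this
  have hV := h3 N (by omega) z hz1' hz2
  have hVp := Vz_pos z
  have e1 := h1 N (by omega) z hz1' hz2 h
  have e2 := h2 N (by omega) z hz1 (fun _ => 1) (cons0 h) (fun _ => one_ne_zero)
    (fun i j hij e => by
      rw [one_mul, one_mul] at e
      unfold cons0 at e
      refine Fin.cases ?_ (fun i' => ?_) i (motive := fun i => i ≠ j → (Fin.cons 0 h : Fin (k + 1) → ℤ) j =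
        (Fin.cons 0 h : Fin (k + 1) → ℤ) i → False) hij e
      · intro h5
        refine Fin.cases (fun h5 _ => h5 rfl) (fun j' _ e' => ?_) j (motive := fun j => 0 ≠ j →
          (Fin.cons 0 h : Fin (k + 1) → ℤ) j = (Fin.cons 0 h : Fin (k + 1) → ℤ) 0 → False) h5
        rw [Fin.cons_zero, Fin.cons_succ] at e'
        exact (hh j').1.ne' e'
      · intro h5
        refine Fin.cases (fun _ e' => ?_) (fun j' h6 e' => ?_) j (motive := fun j => i'.succ ≠ j →
          (Fin.cons 0 h : Fin (k + 1) → ℤ) j = (Fin.cons 0 h : Fin (k + 1) → ℤ) i'.succ → False) h5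
        · rw [Fin.cons_zero, Fin.cons_succ] at e'
          exact (hh i').1.ne e'
        · rw [Fin.cons_succ, Fin.cons_succ] at e'
          exact h6 (congrArg Fin.succ (hinj e'.symm)))
    (fun _ => by
      rw [Int.natAbs_one]
      exact Nat.one_le_pow _ _ hN1)
    (fun i => by
      refine Fin.cases ?_ (fun i' => ?_) i
      · unfold cons0
        rw [Fin.cons_zero]
        simp
      · unfold cons0
        rw [Fin.cons_succ, pow_one]
        have := hh i'
        omega)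
    (fun p hp _ i hpi => by
      have := Int.le_of_dvd one_pos hpi.1
      have := hp.two_le
      omega)
  obtain ⟨F, hF⟩ : ∃ F : ℝ, F = ∏ p ∈ pz z, fac (k + 1) (nuB (Qf (fun _ => 1) (cons0 h))) p := ⟨_, rfl⟩
  have hsF : singZ h z = F := by
    rw [hF]
    unfold singZ fac
    refine prod_congr rfl fun p _ => ?_
    rw [nuP_cons]
  have hF0 : 0 ≤ F := by
    rw [hF]
    exact prod_nonneg fun p hp => fac_nn (mem_pz.1 hp).2 (nuB_le _ _)
  have hFL : F ≤ L ^ (k + 1) := by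
    have f1 := fac_prod (k + 1) z (nuB (Qf (fun _ => 1) (cons0 h)))
    rw [← hF] at f1
    have f2 : ∏ p ∈ pz z, (1 - (nuB (Qf (fun _ => 1) (cons0 h)) p : ℝ) / p) ≤ 1 := by
      refine prod_le_one (fun p hp => ?_) fun p hp => ?_
      · have hp0 : (0 : ℝ) < p := by exact_mod_cast (mem_pz.1 hp).2.pos
        rw [sub_nonneg, div_le_one hp0]
        exact_mod_cast nuB_le _ _
      · have : 0 ≤ (nuB (Qf (fun _ => 1) (cons0 h)) p : ℝ) / p := by positivity
        linarith
    rw [f1] at f2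
    have f3 : F ≤ ((Vz z)⁻¹) ^ (k + 1) := by
      have f4 : ((Vz z)⁻¹) ^ (k + 1) * (Vz z ^ (k + 1) * F) = F := by
        rw [← mul_assoc, ← mul_pow, inv_mul_cancel₀ hVp.ne', one_pow, one_mul]
      calc F = ((Vz z)⁻¹) ^ (k + 1) * (Vz z ^ (k + 1) * F) := f4.symm
        _ ≤ ((Vz z)⁻¹) ^ (k + 1) * 1 := mul_le_mul_of_nonneg_left f2 (by positivity)
        _ = _ := mul_one _
    exact f3.trans (pow_le_pow_left₀ (inv_pos.2 hVp).le (by rw [hL]; exact hV) _)
  rw [← hF, ← hL] at e2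
  rw [hsF, ← hL] at e1
  rw [← hL] at hV hLp hL10 ⊢
  have e3 : ∑ n ∈ Icc 1 N, thp n * ∏ i, ex (lamz z) (h i) n =
      ∑ n ∈ Icc 1 N, vonMangoldt n * ∏ i, (if ∀ p ∈ pz z, ¬ (p : ℤ) ∣ (n : ℤ) + h i then (Vz z)⁻¹ else 0) -
      ∑ n ∈ Icc 1 N, (vonMangoldt n - thp n) * ∏ i, ex (lamz z) (h i) n := by
    rw [← sum_sub_distrib]
    refine sum_congr rfl fun n hn => ?_
    have e4 : ∏ i, (if ∀ p ∈ pz z, ¬ (p : ℤ) ∣ (n : ℤ) + h i then (Vz z)⁻¹ else 0) = ∏ i, ex (lamz z) (h i) n := by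
      refine prod_congr rfl fun i _ => ?_
      rw [mem_Icc] at hn
      have := (hh i).1
      rw [ex_lamz (by omega)]
    rw [e4]
    ring
  have e5 : |∑ n ∈ Icc 1 N, (vonMangoldt n - thp n) * ∏ i, ex (lamz z) (h i) n| ≤ N / L ^ (A + 1) := by
    refine (abs_sum_le_sum_abs _ _).trans ?_
    have f1 : ∀ n ∈ Icc 1 N, |(vonMangoldt n - thp n) * ∏ i, ex (lamz z) (h i) n| ≤ |vonMangoldt n - thp n| * L ^ k := by
      intro n hn
      rw [mem_Icc] at hn
      rw [abs_mul, abs_prod]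
      refine mul_le_mul_of_nonneg_left ?_ (abs_nonneg _)
      have f2 : ∀ i ∈ (univ : Finset (Fin k)), |ex (lamz z) (h i) n| ≤ L := by
        intro i _
        have := (hh i).1
        rw [ex_lamz (by omega)]
        split_ifs
        · rw [abs_of_pos (inv_pos.2 hVp)]
          exact hV
        · rw [abs_zero]
          exact hL0.le
      refine (prod_le_prod (fun i _ => abs_nonneg _) f2).trans (le_of_eq ?_)
      rw [prod_const, card_univ, Fintype.card_fin]
    refine (sum_le_sum f1).trans ?_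
    rw [← sum_mul]
    have f3 := psi_bd' hN1
    rw [← hL] at f3
    calc (∑ n ∈ Icc 1 N, |vonMangoldt n - thp n|) * L ^ k ≤ 2 * Real.sqrt N * L * L ^ k := by gcongr
      _ ≤ N / L ^ (A + 1) := by
          rw [le_div_iff₀ (by positivity)]
          have f4 : Real.sqrt N = (N : ℝ) ^ (1 / 2 : ℝ) := Real.sqrt_eq_rpow _
          have f5 : (N : ℝ) ^ (1 / 2 : ℝ) * (N : ℝ) ^ (1 / 2 : ℝ) = N := by
            rw [← Real.rpow_add hN0]
            norm_num
          calc 2 * Real.sqrt N * L * L ^ k * L ^ (A + 1) = Real.sqrt N * (2 * L ^ (A + k + 2)) := by ring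
            _ ≤ Real.sqrt N * (L * L ^ (A + k + 2)) := by
                gcongr
                linarith
            _ = Real.sqrt N * L ^ (A + k + 3) := by ring
            _ ≤ Real.sqrt N * (N : ℝ) ^ (1 / 2 : ℝ) := by gcongr
            _ = N := by rw [f4, f5]
  have e6 : |F * N - sing (fun _ => 1) (cons0 h) * N| ≤ N / L ^ (A + 1) := by
    rw [← sub_mul, abs_mul, abs_of_pos hN0, abs_sub_comm]
    calc |sing (fun _ => 1) (cons0 h) - F| * N ≤ F / L ^ (A + k + 1 + 1) * N := by gcongr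
      _ ≤ L ^ (k + 1) / L ^ (A + k + 1 + 1) * N := by gcongr
      _ = N / L ^ (A + 1) := by
          rw [show A + k + 1 + 1 = (k + 1) + (A + 1) by ring, pow_add]
          field_simp
          ring
  have e7 : (N : ℝ) / L ^ (A + 1) + N / L ^ (A + 1) + N / L ^ (A + 1) ≤ N / L ^ A := by
    calc (N : ℝ) / L ^ (A + 1) + N / L ^ (A + 1) + N / L ^ (A + 1) = N / L ^ A * (3 / L) := by
          rw [pow_succ]
          field_simp
          ring
      _ ≤ N / L ^ A * 1 := by
          refine mul_le_mul_of_nonneg_left ?_ (by positivity)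
          rw [div_le_one hL0]
          linarith
      _ = _ := mul_one _
  obtain ⟨X, hX⟩ : ∃ X : ℝ, X = ∑ n ∈ Icc 1 N, vonMangoldt n *
    ∏ i, (if ∀ p ∈ pz z, ¬ (p : ℤ) ∣ (n : ℤ) + h i then (Vz z)⁻¹ else 0) := ⟨_, rfl⟩
  obtain ⟨Y, hY⟩ : ∃ Y : ℝ, Y = ∑ n ∈ Icc 1 N, (vonMangoldt n - thp n) * ∏ i, ex (lamz z) (h i) n := ⟨_, rfl⟩
  rw [e3, ← hX, ← hY]
  rw [← hX] at e1
  rw [← hY] at e5
  have k1 := abs_sub_le (X - Y) (F * N) (sing (fun _ => 1) (cons0 h) * N)
  have k2 := abs_sub (X - F * N) Y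
  have k3 : X - Y - F * N = X - F * N - Y := by ring
  rw [k3] at k1
  linarith

end Pool.Agent.H579.G
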