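import Pool.Agent.H579.L.PB
import Pool.Agent.H579.D.Core5P
import Pool.Graph.R_seed8.Y297.GJ.Orth
import Pool.Graph.R_seed8.Y812.GJ.NonU

set_option autoImplicit false

/-! The square mean over all classes modulo a regular modulus, from the properties of a function. -/

namespace Pool.Agent.H579.G

open Finset
open Pool.Agent.Y883.GJ
open Pool.Agent.R460.GS
open Pool.Agent.R460.GR (RegAt)
open Pool.Agent.H807R2.Dav (ee)
open Pool.Agent.Y614.GJ.Core (P P_nonneg P_le q_le_phi dirich ev_log)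
open Pool.Agent.H579.L (P_above P_lift)

theorem PG (A : ℕ) {ρ₁ ρ₂ : ℝ} (hρ2 : -(3 / 10) < ρ₂) (hρ12 : ρ₂ < ρ₁) : ∃ A₁ : ℕ, ∀ C : ℕ, ∃ A₂ : ℕ, ∀ C₃ : ℕ, ∃ U₁ : ℕ,
    ∀ K : ℕ, ∃ U N₀ : ℕ, ∀ N : ℕ, N₀ ≤ N → ∀ G : ℕ → ℂ, BdAt N G →
    MinAt N ρ₂ A₁ C G → MajAt N ρ₂ A₂ C C₃ G → ApAt N K U G → NcAt N U G →
    ∀ (q : ℕ) [NeZero q], (q : ℝ) ≤ (N : ℝ) ^ (7 / 10 - ρ₁) → RegAt N C K U₁ G q → ∀ β : ℝ, ∀ y : ℕ, y ≤ N →
      P q N (tr y G) β ≤ (N : ℝ) ^ 2 / (q * Real.log N ^ A) := by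
  classical
  have h5 : OrthStm := Pool.Agent.Y297.GJ.orth
  have h7 : NonUStm := Pool.Agent.Y812.GJ.nonU
  refine ⟨A + 4, fun C => ⟨A + 4, fun C₃ => ⟨C₃ + A + 4, fun K => ?_⟩⟩⟩
  obtain ⟨c, hc⟩ := h7
  obtain ⟨U₁, hU₁⟩ : ∃ U₁, U₁ = C₃ + A + 4 := ⟨_, rfl⟩
  obtain ⟨N₃, hN₃⟩ := Filter.eventually_atTop.1 (ev_log C (s := ρ₁ - ρ₂) (by linarith) 200)
  refine ⟨K + C + 1 + U₁ + 2 * (A + 9) + 4 + 2 * c, max N₃ 1, ?_⟩
  intro N hN G hG hMin hMaj hAp hNc q _ hq hReg β y hy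
  obtain ⟨U, hU⟩ : ∃ U, U = K + C + 1 + U₁ + 2 * (A + 9) + 4 + 2 * c := ⟨_, rfl⟩
  rw [← hU] at hAp hNc
  have hNN₃ : N₃ ≤ N := le_trans (le_max_left _ _) hN
  have hN1 : 1 ≤ N := le_trans (le_max_right _ _) hN
  obtain ⟨hL200, hLC⟩ := hN₃ N hNN₃
  obtain ⟨L, hL⟩ : ∃ L, L = Real.log (N : ℝ) := ⟨_, rfl⟩
  rw [← hL] at hL200 hLC ⊢
  have hL8 : 8 ≤ L := by linarith
  have hL0 : 0 < L := by linarith
  have hL1 : 1 ≤ L := by linarith
  have hN0 : (0 : ℝ) < N := by exact_mod_cast hN1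
  have hNr1 : (1 : ℝ) ≤ N := by exact_mod_cast hN1
  have hq0 : (0 : ℝ) < q := by exact_mod_cast NeZero.pos q
  have hLC1 : 1 ≤ L ^ C := one_le_pow₀ hL1
  have hqLC' : (q : ℝ) * L ^ C ≤ (N : ℝ) ^ (7 / 10 - ρ₂) := by
    calc (q : ℝ) * L ^ C ≤ (N : ℝ) ^ (7 / 10 - ρ₁) * (N : ℝ) ^ (ρ₁ - ρ₂) := by gcongr
      _ = (N : ℝ) ^ (7 / 10 - ρ₂) := by
          rw [← Real.rpow_add hN0]
          congr 1
          ring
  have hpowN : (N : ℝ) ^ (7 / 10 - ρ₂) ≤ N := by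
    calc (N : ℝ) ^ (7 / 10 - ρ₂) ≤ (N : ℝ) ^ (1 : ℝ) :=
          Real.rpow_le_rpow_of_exponent_le hNr1 (by linarith)
      _ = N := Real.rpow_one _
  have hqLC : (q : ℝ) * L ^ C ≤ N := hqLC'.trans hpowN
  have hqN : (q : ℝ) ≤ N := by
    refine le_trans ?_ hqLC
    nlinarith
  have hq2 : (q : ℝ) ≤ (N : ℝ) ^ (7 / 10 - ρ₂) := by
    refine le_trans ?_ hqLC'
    nlinarith
  obtain ⟨G', hG'⟩ : ∃ G', G' = tr y G := ⟨_, rfl⟩
  rw [← hG']
  -- from the characters to the classes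
  have hgen : ∀ (q' : ℕ) [NeZero q'], (q' : ℝ) ≤ N → ∀ η : ℝ,
      ∑ χ : DirichletCharacter ℂ q', ‖cs q' N G' η χ‖ ^ 2 ≤ 3 * ((N : ℝ) ^ 2 / L ^ (A + 4)) →
      P q' N G' η ≤ (N : ℝ) ^ 2 / (q' * L ^ A) := by
    intro q' _ hq'N η hall
    have hq'0 : (0 : ℝ) < q' := by exact_mod_cast NeZero.pos q'
    have hnon := nonu hc hL hL8 hN1 hG hNc (X := A) (by omega) hq'N y hy η
    simp only [← cl_tr hy, ← hG'] at hnon
    have e4 := P_le h5 hall hnon
    have hφ0 : (0 : ℝ) < q'.totient := by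
      exact_mod_cast Nat.totient_pos.2 (NeZero.pos q')
    have e5 : ((q'.totient : ℝ))⁻¹ ≤ 3 * L / (q' : ℝ) := by
      have h1 := q_le_phi (NeZero.pos q')
      have h2 : Real.log (q' : ℝ) ≤ L := by
        rw [hL]
        exact Real.log_le_log hq'0 hq'N
      rw [inv_eq_one_div, div_le_div_iff₀ hφ0 hq'0, one_mul]
      refine h1.trans ?_
      rw [mul_comm (3 * L)]
      apply mul_le_mul_of_nonneg_left _ hφ0.le
      linarith
    have e6 : ((q'.totient : ℝ))⁻¹ * (3 * ((N : ℝ) ^ 2 / L ^ (A + 4))) ≤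
        (N : ℝ) ^ 2 / ((q' : ℝ) * L ^ A) / 2 := by
      calc ((q'.totient : ℝ))⁻¹ * (3 * ((N : ℝ) ^ 2 / L ^ (A + 4)))
          ≤ 3 * L / (q' : ℝ) * (3 * ((N : ℝ) ^ 2 / L ^ (A + 4))) := by gcongr
        _ = (N : ℝ) ^ 2 / ((q' : ℝ) * L ^ A) * (9 / L ^ 3) := by
            rw [pow_add L A 4]
            field_simp
            try ring
        _ ≤ (N : ℝ) ^ 2 / ((q' : ℝ) * L ^ A) * (1 / 2) := by
            have : 9 / L ^ 3 ≤ 1 / 2 := by
              rw [div_le_div_iff₀ (by positivity) (by norm_num)]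
              have : 200 ^ 3 ≤ L ^ 3 := pow_le_pow_left₀ (by norm_num) hL200 3
              linarith
            gcongr
        _ = _ := by ring
    refine e4.trans ?_
    linarith
  -- Dirichlet
  set n := ⌊(N : ℝ) / (q * L ^ C)⌋₊ with hn
  have hn0 : 0 < n := by
    rw [hn, Nat.floor_pos, le_div_iff₀ (by positivity), one_mul]
    exact hqLC
  have hn1 : (n : ℝ) ≤ (N : ℝ) / (q * L ^ C) := Nat.floor_le (by positivity)
  have hn2 : (N : ℝ) / (q * L ^ C) < n + 1 := Nat.lt_floor_add_one _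
  obtain ⟨j, h, hj, hjc, hx⟩ := dirich ((q : ℝ) * β) hn0
  have hjn : ((j + 1 : ℕ) : ℝ) ≤ n := by exact_mod_cast hj
  have hk0 : (0 : ℝ) < ((j + 1 : ℕ) : ℝ) := by positivity
  have hk1 : (1 : ℝ) ≤ ((j + 1 : ℕ) : ℝ) := by exact_mod_cast Nat.succ_pos j
  by_cases hkC : L ^ C ≤ ((j + 1 : ℕ) : ℝ)
  · -- minor arcs
    have e1 : (q : ℝ) * ((j + 1 : ℕ) : ℝ) * L ^ C ≤ N := by
      have := (le_div_iff₀ (by positivity)).1 (hjn.trans hn1)
      linarith
    have e2 : |(q : ℝ) * β - h / ((j + 1 : ℕ) : ℝ)| ≤ 1 / ((j + 1 : ℕ) : ℝ) ^ 2 := by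
      refine hx.trans ?_
      rw [sq]
      apply one_div_le_one_div_of_le (by positivity)
      apply mul_le_mul_of_nonneg_right _ hk0.le
      linarith
    have f1 := hMin q hq2 (j + 1) h β (by rw [← hL]; exact hkC) (by rw [← hL]; exact e1) hjc e2 y hy
    rw [← hL] at f1
    refine hgen q hqN β ?_
    simp only [hG', cs_tr hy]
    refine f1.trans ?_
    have : 0 ≤ (N : ℝ) ^ 2 / L ^ (A + 4) := by positivity
    linarith
  · -- major arcs
    rw [not_le] at hkC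
    have hηle : |β - h / (((j + 1) * q : ℕ) : ℝ)| ≤ L ^ C / N := by
      have e1 : β - h / (((j + 1) * q : ℕ) : ℝ) = ((q : ℝ) * β - h / ((j + 1 : ℕ) : ℝ)) / q := by
        rw [Nat.cast_mul]
        field_simp
      rw [e1, abs_div, abs_of_pos hq0, div_le_div_iff₀ hq0 hN0]
      have e2 : (N : ℝ) ≤ (n + 1) * (q * L ^ C) := by
        have := (div_lt_iff₀ (by positivity)).1 hn2
        linarith
      have hn3 : (0 : ℝ) < n + 1 := by positivity
      calc |(q : ℝ) * β - h / ((j + 1 : ℕ) : ℝ)| * N ≤ 1 / (((n : ℝ) + 1) * ((j + 1 : ℕ) : ℝ)) * N := by gcongr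
        _ ≤ 1 / ((n : ℝ) + 1) * N := by
            apply mul_le_mul_of_nonneg_right _ hN0.le
            apply one_div_le_one_div_of_le hn3
            nlinarith
        _ ≤ 1 / ((n : ℝ) + 1) * ((n + 1) * (q * L ^ C)) := by gcongr
        _ = L ^ C * q := by field_simp
    obtain ⟨η, hη⟩ : ∃ η, η = β - h / (((j + 1) * q : ℕ) : ℝ) := ⟨_, rfl⟩
    rw [← hη] at hηle
    have hq' : (((j + 1) * q : ℕ) : ℝ) ≤ (N : ℝ) ^ (7 / 10 - ρ₂) := by
      rw [Nat.cast_mul]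
      calc ((j + 1 : ℕ) : ℝ) * q ≤ L ^ C * q := by
            have := hkC.le
            gcongr
        _ = q * L ^ C := mul_comm _ _
        _ ≤ _ := hqLC'
    have hq'N : (((j + 1) * q : ℕ) : ℝ) ≤ N := hq'.trans hpowN
    have hkL : ((j + 1 : ℕ) : ℝ) ≤ Real.log N ^ C := by
      rw [← hL]
      exact hkC.le
    obtain ⟨B, -, hBc, hB⟩ := hMaj ((j + 1) * q) hq'
    rw [← hL] at hBc hB
    have hall : ∑ χ : DirichletCharacter ℂ ((j + 1) * q), ‖cs ((j + 1) * q) N G' η χ‖ ^ 2 ≤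
        3 * ((N : ℝ) ^ 2 / L ^ (A + 4)) := by
      simp only [hG', cs_tr hy]
      rw [← sum_filter_add_sum_filter_not univ (fun χ => χ ∈ B)]
      have t1 : ∑ χ ∈ univ.filter (fun χ : DirichletCharacter ℂ ((j + 1) * q) => ¬ χ ∈ B),
          ‖cs ((j + 1) * q) y G η χ‖ ^ 2 ≤ (N : ℝ) ^ 2 / L ^ (A + 4) := by
        refine hB η hηle y hy _ ?_
        rw [disjoint_left]
        intro χ k1 k2
        exact (mem_filter.1 k1).2 k2
      have t2 : ∀ χ ∈ univ.filter (fun χ : DirichletCharacter ℂ ((j + 1) * q) => χ ∈ B),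
          ‖cs ((j + 1) * q) y G η χ‖ ^ 2 ≤ ((N : ℝ) / L ^ U₁) ^ 2 := by
        intro χ _
        refine pow_le_pow_left₀ (norm_nonneg _) ?_ 2
        by_cases hχ : L ^ K < (χ.conductor : ℝ)
        · have := hReg j hkL χ (by rw [← hL]; exact hχ) η (by rw [← hL]; exact hηle) y hy
          rw [← hL, ← hU₁] at this
          exact this
        · rw [not_lt] at hχ
          have hs := small_cs hAp hNc (by exact_mod_cast hq'N) χ (by rw [← hL]; exact hχ)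
            (by rw [← hL]; linarith) hN1 y hy η (C := C) (by rw [← hL]; exact hηle)
          rw [← hL] at hs
          refine hs.trans ?_
          calc L ^ (K + C + 1) * (N / L ^ U) = N * (L ^ (K + C + 1) / L ^ U) := by ring
            _ ≤ N * (1 / L ^ U₁) := by
                have : L ^ (K + C + 1) / L ^ U ≤ 1 / L ^ U₁ := by
                  rw [div_le_div_iff₀ (by positivity) (by positivity), one_mul, ← pow_add]
                  exact pow_le_pow_right₀ hL1 (by omega)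
                gcongr
            _ = _ := by ring
      have t3 : ∑ χ ∈ univ.filter (fun χ : DirichletCharacter ℂ ((j + 1) * q) => χ ∈ B),
          ‖cs ((j + 1) * q) y G η χ‖ ^ 2 ≤ (N : ℝ) ^ 2 / L ^ (A + 4) := by
        refine (sum_le_sum t2).trans ?_
        rw [sum_const, nsmul_eq_mul]
        have t4 : ((univ.filter (fun χ : DirichletCharacter ℂ ((j + 1) * q) => χ ∈ B)).card : ℝ) ≤
            L ^ C₃ := by
          refine le_trans ?_ hBc
          have : univ.filter (fun χ : DirichletCharacter ℂ ((j + 1) * q) => χ ∈ B) = B := by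
            ext χ; simp
          rw [this]
        calc ((univ.filter (fun χ : DirichletCharacter ℂ ((j + 1) * q) => χ ∈ B)).card : ℝ) *
              ((N : ℝ) / L ^ U₁) ^ 2 ≤ L ^ C₃ * ((N : ℝ) / L ^ U₁) ^ 2 :=
              mul_le_mul_of_nonneg_right t4 (sq_nonneg _)
          _ = (N : ℝ) ^ 2 * (L ^ C₃ / L ^ (2 * U₁)) := by
              rw [div_pow, ← pow_mul, mul_comm U₁ 2]
              ring
          _ ≤ (N : ℝ) ^ 2 * (1 / L ^ (A + 4)) := by
              have e1 : L ^ C₃ / L ^ (2 * U₁) ≤ 1 / L ^ (A + 4) := by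
                rw [div_le_div_iff₀ (by positivity) (by positivity), one_mul, ← pow_add]
                exact pow_le_pow_right₀ hL1 (by omega)
              gcongr
          _ = _ := by ring
      have t5 : 0 ≤ (N : ℝ) ^ 2 / L ^ (A + 4) := by positivity
      linarith
    have hmain := hgen ((j + 1) * q) hq'N η hall
    calc P q N G' β ≤ ((j + 1 : ℕ) : ℝ) * P ((j + 1) * q) N G' β := P_above G' β
      _ = ((j + 1 : ℕ) : ℝ) * P ((j + 1) * q) N G' η := by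
          rw [P_lift G' (h := h) (β := β) (η := η) (by rw [hη]; ring)]
      _ ≤ ((j + 1 : ℕ) : ℝ) * ((N : ℝ) ^ 2 / ((((j + 1) * q : ℕ) : ℝ) * L ^ A)) := by gcongr
      _ = (N : ℝ) ^ 2 / (q * L ^ A) := by
          rw [Nat.cast_mul]
          field_simp

end Pool.Agent.H579.G
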