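import Pool.Agent.H579.G.CntL
import Pool.Agent.H579.G.PG

set_option autoImplicit false

/-! Products of two primes: characters which are not exceptional. -/

namespace Pool.Agent.H579.G

open Finset
open Pool.Agent.Y883.GJ Pool.Agent.R460.GS
open Pool.Agent.R460.GR (RegAt)
open Pool.Agent.R460.GH (nc_LS)
open Pool.Agent.H807R2.Dav (ee ee_zero)
open Pool.Agent.H373R2.T7 (lamz Vz lam_ap lamz_ap)
open Pool.Agent.Y883.T3 (lsh)
open Pool.Agent.Y614.GJ.Core (P ev_log)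
open Pool.Agent.H579.E (Al e2 WA g2 G2 G2_eq minE majE minG majG nHk mHk modelM apE apG ncE ncG sup_W bdG)
open ArithmeticFunction (vonMangoldt)

/-- the sum over the multiples of one prime -/
lemma inner_le {N U Q t : ℕ} [NeZero Q] (hL : 2 ≤ Real.log N) (hN : 1 ≤ N) (hQ : Q ≤ N) (χ : DirichletCharacter ℂ Q)
    (hχ : ¬ BadL N U χ.conductor χ.primitiveCharacter) (ht : t ≤ N) :
    ‖∑ m ∈ Icc 1 t, LA m * χ (m : ZMod Q)‖ ≤ t / Real.log N ^ U + ((N : ℝ) ^ (1 / 4 : ℝ) * Real.log N +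
      6 * Real.log N ^ 3) := by
  have hN0 : (0 : ℝ) < N := by exact_mod_cast hN
  have hL0 : 0 < Real.log N := by linarith
  by_cases h : (N : ℝ) ^ (1 / 4 : ℝ) ≤ t
  · have h1 : ‖∑ m ∈ Icc 1 t, LA m * χ.primitiveCharacter (m : ZMod χ.conductor)‖ ≤ t / Real.log N ^ U := by
      by_contra hcon
      rw [not_le] at hcon
      exact hχ ⟨t, ht, h, hcon⟩
    have hlog2 : (Nat.log 2 N : ℝ) ≤ 2 * Real.log N := by
      have e1 : (2 : ℝ) ^ (Nat.log 2 N) ≤ N := by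
        exact_mod_cast Nat.pow_log_le_self 2 (by omega)
      have e2 := Real.log_le_log (by positivity) e1
      rw [Real.log_pow] at e2
      have e3 := Real.log_two_gt_d9
      have e4 : (0 : ℝ) ≤ (Nat.log 2 N : ℝ) := Nat.cast_nonneg _
      nlinarith
    have h2 : ∑ n ∈ (Icc 1 N).filter (fun n => ¬ n.Coprime Q), ‖LA n‖ ≤ 6 * Real.log N ^ 3 := by
      have e1 : ∀ n, ‖LA n‖ = vonMangoldt n := fun n => by
        unfold LA
        rw [Complex.norm_real, Real.norm_of_nonneg ArithmeticFunction.vonMangoldt_nonneg]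
      rw [sum_congr rfl fun n _ => e1 n]
      refine (Pool.Agent.Y918.GJ.lam_noncop Q N (NeZero.pos Q) hQ).trans ?_
      calc (Nat.log 2 N : ℝ) * ((Nat.log 2 N + 1 : ℝ) * Real.log N) ≤
          2 * Real.log N * ((2 * Real.log N + Real.log N) * Real.log N) := by
            gcongr
            linarith
        _ = _ := by ring
    have h3 := char_split ht LA χ _ h2
    have h4 : 0 ≤ (N : ℝ) ^ (1 / 4 : ℝ) * Real.log N := by positivity
    linarith
  · rw [not_le] at h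
    have h1 : ‖∑ m ∈ Icc 1 t, LA m * χ (m : ZMod Q)‖ ≤ t * Real.log N := by
      calc ‖∑ m ∈ Icc 1 t, LA m * χ (m : ZMod Q)‖ ≤ ∑ m ∈ Icc 1 t, Real.log N := by
            refine (norm_sum_le _ _).trans (sum_le_sum fun m hm => ?_)
            rw [mem_Icc] at hm
            rw [norm_mul]
            calc ‖LA m‖ * ‖χ (m : ZMod Q)‖ ≤ Real.log N * 1 :=
                  mul_le_mul (LA_norm (hm.2.trans ht) hN) (DirichletCharacter.norm_le_one _ _) (norm_nonneg _) hL0.le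
              _ = _ := mul_one _
        _ = _ := by rw [sum_const, Nat.card_Icc, Nat.add_sub_cancel, nsmul_eq_mul]
    have h2 : (t : ℝ) * Real.log N ≤ (N : ℝ) ^ (1 / 4 : ℝ) * Real.log N := by gcongr
    have h3 : 0 ≤ (t : ℝ) / Real.log N ^ U := by positivity
    have h4 : 0 ≤ 6 * Real.log N ^ 3 := by positivity
    linarith

lemma E2_cnv (α : ℕ → ℝ) : Pool.Agent.H579.E.E2 α = Pool.Agent.H579.L.cnv (fun d => ((α d : ℝ) : ℂ)) LA := by
  funext n
  unfold Pool.Agent.H579.E.E2 Pool.Agent.H579.E.e2 Pool.Agent.H579.L.cnv LA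
  push_cast
  rfl

/-- the sum over a character which is not bad -/
lemma ptwE (U : ℕ) {κ₁ κ₂ : ℝ} (h2 : κ₂ ≤ 1 / 2) : ∃ N₀ : ℕ, ∀ N : ℕ, N₀ ≤ N → ∀ α : ℕ → ℝ, Al N κ₁ κ₂ α →
    ∀ (Q : ℕ) [NeZero Q], Q ≤ N → ∀ χ : DirichletCharacter ℂ Q, ¬ BadL N (U + 3) χ.conductor χ.primitiveCharacter →
    ∀ y : ℕ, y ≤ N → ‖∑ n ∈ Icc 1 y, Pool.Agent.H579.E.E2 α n * χ (n : ZMod Q)‖ ≤ N / Real.log N ^ U := by
  classical
  obtain ⟨n1, hn1⟩ := Filter.eventually_atTop.1 (ev_log (U + 4) (s := 1 / 4) (by norm_num) 20)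
  refine ⟨max n1 1, fun N hN α hα Q _ hQ χ hχ y hy => ?_⟩
  have hN1 : 1 ≤ N := le_trans (le_max_right _ _) hN
  obtain ⟨hLL, hpow⟩ := hn1 N (le_trans (le_max_left _ _) hN)
  have hN0 : (0 : ℝ) < N := by exact_mod_cast hN1
  have hNr1 : (1 : ℝ) ≤ N := by exact_mod_cast hN1
  obtain ⟨T, hT⟩ : ∃ T : ℝ, T = (N : ℝ) ^ (1 / 4 : ℝ) * Real.log N + 6 * Real.log N ^ 3 := ⟨_, rfl⟩
  have hinner : ∀ t : ℕ, t ≤ N → ‖∑ m ∈ Icc 1 t, LA m * χ (m : ZMod Q)‖ ≤ t / Real.log N ^ (U + 3) + T := by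
    intro t ht
    rw [hT]
    exact inner_le (by linarith) hN1 hQ χ hχ ht
  obtain ⟨L, hLd⟩ : ∃ L, L = Real.log (N : ℝ) := ⟨_, rfl⟩
  rw [← hLd] at hLL hpow hinner hT ⊢
  have hL0 : 0 < L := by linarith
  have hL1 : 1 ≤ L := by linarith
  have hT0 : 0 ≤ T := by rw [hT]; positivity
  have hlogy : Real.log y ≤ L := by
    rcases Nat.eq_zero_or_pos y with h | h
    · rw [h, Nat.cast_zero, Real.log_zero]
      exact hL0.le
    · rw [hLd]
      exact Real.log_le_log (by exact_mod_cast h) (by exact_mod_cast hy)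
  have hswap : ∑ n ∈ Icc 1 y, Pool.Agent.H579.E.E2 α n * χ (n : ZMod Q) =
      ∑ d ∈ Icc 1 y, ((α d : ℝ) : ℂ) * χ (d : ZMod Q) * ∑ m ∈ Icc 1 (y / d), LA m * χ (m : ZMod Q) := by
    rw [E2_cnv, Pool.Agent.H579.L.cnv_sum y _ LA (fun n => χ (n : ZMod Q))]
    refine sum_congr rfl fun d _ => ?_
    rw [mul_sum]
    refine sum_congr rfl fun m _ => ?_
    rw [Nat.cast_mul, map_mul]
    ring
  rw [hswap]
  have hM : ∀ d ∈ Icc 1 y, ‖((α d : ℝ) : ℂ) * χ (d : ZMod Q) * ∑ m ∈ Icc 1 (y / d), LA m * χ (m : ZMod Q)‖ ≤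
      (y : ℝ) / L ^ (U + 3) * ((d : ℝ))⁻¹ + if d ≤ ⌊(N : ℝ) ^ (1 / 2 : ℝ)⌋₊ then T else 0 := by
    intro d hd
    rw [mem_Icc] at hd
    have hd0 : (0 : ℝ) < d := by exact_mod_cast hd.1
    by_cases h3 : α d = 0
    · rw [h3, Complex.ofReal_zero, zero_mul, zero_mul, norm_zero]
      have : 0 ≤ (y : ℝ) / L ^ (U + 3) * ((d : ℝ))⁻¹ := by positivity
      split_ifs <;> linarith
    · obtain ⟨-, -, e3⟩ := hα.pr d h3
      have h5 : d ≤ ⌊(N : ℝ) ^ (1 / 2 : ℝ)⌋₊ :=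
        Nat.le_floor (e3.trans (Real.rpow_le_rpow_of_exponent_le hNr1 h2))
      rw [if_pos h5, norm_mul, norm_mul, Complex.norm_real, Real.norm_eq_abs]
      have h6 : |α d| * ‖χ (d : ZMod Q)‖ ≤ 1 :=
        mul_le_one₀ (hα.bd d) (norm_nonneg _) (DirichletCharacter.norm_le_one _ _)
      have h7 := hinner (y / d) ((Nat.div_le_self _ _).trans hy)
      have h8 : ((y / d : ℕ) : ℝ) / L ^ (U + 3) ≤ (y : ℝ) / L ^ (U + 3) * ((d : ℝ))⁻¹ := by
        calc ((y / d : ℕ) : ℝ) / L ^ (U + 3) ≤ ((y : ℝ) / d) / L ^ (U + 3) := by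
              gcongr
              exact Nat.cast_div_le
          _ = _ := by
              rw [div_eq_mul_inv, div_eq_mul_inv, div_eq_mul_inv]
              ring
      calc |α d| * ‖χ (d : ZMod Q)‖ * ‖∑ m ∈ Icc 1 (y / d), LA m * χ (m : ZMod Q)‖ ≤
          1 * ‖∑ m ∈ Icc 1 (y / d), LA m * χ (m : ZMod Q)‖ := by gcongr
        _ = ‖∑ m ∈ Icc 1 (y / d), LA m * χ (m : ZMod Q)‖ := one_mul _
        _ ≤ _ := by linarith
  refine (norm_sum_le _ _).trans ((sum_le_sum hM).trans ?_)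
  rw [sum_add_distrib, ← mul_sum]
  have h1 : (y : ℝ) / L ^ (U + 3) * ∑ d ∈ Icc 1 y, ((d : ℝ))⁻¹ ≤ N / L ^ U / 2 := by
    have e1 : ∑ d ∈ Icc 1 y, ((d : ℝ))⁻¹ ≤ 1 + Real.log y := by
      have := harmonic_le_one_add_log y
      rw [harmonic_eq_sum_Icc] at this
      push_cast at this
      exact this
    calc (y : ℝ) / L ^ (U + 3) * ∑ d ∈ Icc 1 y, ((d : ℝ))⁻¹ ≤ (N : ℝ) / L ^ (U + 3) * (2 * L) := by
          have : (y : ℝ) ≤ N := by exact_mod_cast hy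
          gcongr
          linarith
      _ = N / L ^ U * (2 / L ^ 2) := by
          rw [pow_add]
          field_simp
      _ ≤ N / L ^ U * (1 / 2) := by
          have : 2 / L ^ 2 ≤ 1 / 2 := by
            rw [div_le_div_iff₀ (by positivity) (by norm_num)]
            nlinarith
          gcongr
      _ = _ := by ring
  have h3 : ∑ d ∈ Icc 1 y, (if d ≤ ⌊(N : ℝ) ^ (1 / 2 : ℝ)⌋₊ then T else 0) ≤ N / L ^ U / 2 := by
    calc ∑ d ∈ Icc 1 y, (if d ≤ ⌊(N : ℝ) ^ (1 / 2 : ℝ)⌋₊ then T else 0) =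
        (((Icc 1 y).filter (fun d => d ≤ ⌊(N : ℝ) ^ (1 / 2 : ℝ)⌋₊)).card : ℝ) * T := by
          rw [← sum_filter, sum_const, nsmul_eq_mul]
      _ ≤ (N : ℝ) ^ (1 / 2 : ℝ) * T := by
          apply mul_le_mul_of_nonneg_right _ hT0
          calc (((Icc 1 y).filter (fun d => d ≤ ⌊(N : ℝ) ^ (1 / 2 : ℝ)⌋₊)).card : ℝ) ≤
              ((Icc 1 ⌊(N : ℝ) ^ (1 / 2 : ℝ)⌋₊).card : ℝ) := by
                refine Nat.cast_le.2 (card_le_card fun d hd => ?_)
                rw [mem_filter, mem_Icc] at hd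
                exact mem_Icc.2 ⟨hd.1.1, hd.2⟩
            _ = (⌊(N : ℝ) ^ (1 / 2 : ℝ)⌋₊ : ℝ) := by rw [Nat.card_Icc, Nat.add_sub_cancel]
            _ ≤ _ := Nat.floor_le (by positivity)
      _ ≤ N / L ^ U / 2 := by
          have hu : L ^ 3 ≤ (N : ℝ) ^ (1 / 4 : ℝ) * L := by
            have : L ^ 3 ≤ L ^ (U + 4) := pow_le_pow_right₀ hL1 (by omega)
            have h4 : (N : ℝ) ^ (1 / 4 : ℝ) ≤ (N : ℝ) ^ (1 / 4 : ℝ) * L := le_mul_of_one_le_right (by positivity) hL1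
            linarith
          have hT7 : T ≤ 7 * ((N : ℝ) ^ (1 / 4 : ℝ) * L) := by
            rw [hT]
            linarith
          calc (N : ℝ) ^ (1 / 2 : ℝ) * T ≤ (N : ℝ) ^ (1 / 2 : ℝ) * (7 * ((N : ℝ) ^ (1 / 4 : ℝ) * L)) := by gcongr
            _ = (N : ℝ) ^ (3 / 4 : ℝ) * (7 * L) := by
                rw [show (3 / 4 : ℝ) = 1 / 2 + 1 / 4 by norm_num, Real.rpow_add hN0]
                ring
            _ ≤ N / L ^ U / 2 := by
                rw [div_div, le_div_iff₀ (by positivity)]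
                calc (N : ℝ) ^ (3 / 4 : ℝ) * (7 * L) * (L ^ U * 2) = (N : ℝ) ^ (3 / 4 : ℝ) * (14 * (L * L ^ U)) := by ring
                  _ ≤ (N : ℝ) ^ (3 / 4 : ℝ) * (L ^ 3 * (L * L ^ U)) := by
                      have : (14 : ℝ) ≤ L ^ 3 := by
                        calc (14 : ℝ) ≤ L := by linarith
                          _ ≤ L ^ 3 := le_self_pow₀ hL1 (by norm_num)
                      gcongr
                  _ = (N : ℝ) ^ (3 / 4 : ℝ) * L ^ (U + 4) := by ring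
                  _ ≤ (N : ℝ) ^ (3 / 4 : ℝ) * (N : ℝ) ^ (1 / 4 : ℝ) := by gcongr
                  _ = N := by
                      rw [← Real.rpow_add hN0]
                      norm_num
  linarith

end Pool.Agent.H579.G
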