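import Pool.Agent.H579.G.GoodR
import Pool.Agent.H579.G.RegL
import Pool.Agent.H579.G.PG
import Pool.Agent.H579.G.CntL
import Pool.Agent.H579.L.Dset
import Pool.Agent.H579.E.AsmE

set_option autoImplicit false

/-! The square mean over all classes of a regular modulus of the products of two primes minus the model. -/

namespace Pool.Agent.H579.G

open Finset
open Pool.Agent.H579.E
open Pool.Agent.Y883.GJ Pool.Agent.R460.GS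
open Pool.Agent.R460.GR (RegAt)
open Pool.Agent.H373R2.T7 (lamz Vz)
open Pool.Agent.Y883.T3 (lsh)
open Pool.Agent.Y614.GJ.Core (P ev_log)

lemma regE (U₁ C : ℕ) {κ κ₁ κ₂ ρ : ℝ} (h0 : 0 < κ₁) (h01 : κ₁ ≤ κ₂) (hκ : 0 < κ) (h2 : κ₂ ≤ 1 / 2) (hρ : 4 * κ < ρ) :
    ∃ N₀ : ℕ, ∀ N : ℕ, N₀ ≤ N → ∀ α : ℕ → ℝ, Al N κ₁ κ₂ α → ∀ K z r : ℕ,
    (∀ (Q : ℕ) [NeZero Q], (Q : ℝ) ≤ (N : ℝ) ^ (7 / 10 - (-(3 / 10) + 4 * κ)) → ∀ χ : DirichletCharacter ℂ Q, χ ≠ 1 →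
      ∀ η : ℝ, |η| ≤ Real.log N ^ C / N → ∀ y : ℕ, y ≤ N → ‖cs Q y (LS z r) η χ‖ ≤ N / Real.log N ^ (U₁ + 2)) →
    ∀ (q : ℕ) [NeZero q], (q : ℝ) ≤ (N : ℝ) ^ (1 - ρ) →
    (∀ d ∈ Pool.Agent.H579.L.E2 N K C (BadL N (U₁ + C + 4 + 3)), ¬ d ∣ q) → RegAt N C K U₁ (G2 N α z r) q := by
  classical
  obtain ⟨n1, hn1⟩ := Filter.eventually_atTop.1 (ev_log C (s := ρ - 4 * κ) (by linarith) 20)
  obtain ⟨n2, hn2⟩ := ptwE (U₁ + C + 4) (κ₁ := κ₁) h2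
  obtain ⟨b, n3, hb0, hb⟩ := sup_W (κ₁ := κ₁) (κ₂ := κ₂) h0 h01
  obtain ⟨n4, hn4⟩ := Filter.eventually_atTop.1 (ev_log 1 (s := 1) (by norm_num) (b + 1))
  refine ⟨n1 + n2 + n3 + n4 + 1, fun N hN α hα K z r hLS q _ hq hD j hj χ hcond η hη y hy => ?_⟩
  obtain ⟨hL20, hLC⟩ := hn1 N (by omega)
  obtain ⟨-, hw⟩ := hb N (by omega) α hα
  obtain ⟨hLb, -⟩ := hn4 N (by omega)
  have hN1 : 1 ≤ N := by omega
  have hN0 : (0 : ℝ) < N := by exact_mod_cast hN1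
  have hNr1 : (1 : ℝ) ≤ N := by exact_mod_cast hN1
  have : NeZero ((j + 1) * q) := ⟨Nat.mul_ne_zero (Nat.succ_ne_zero j) (NeZero.ne q)⟩
  have hQ1 : (((j + 1) * q : ℕ) : ℝ) ≤ (N : ℝ) ^ (1 - 4 * κ) := by
    push_cast
    calc ((j : ℝ) + 1) * q ≤ (N : ℝ) ^ (ρ - 4 * κ) * (N : ℝ) ^ (1 - ρ) := by
          have : ((j : ℝ) + 1) ≤ (N : ℝ) ^ (ρ - 4 * κ) := by
            refine le_trans ?_ hLC
            push_cast at hj
            exact hj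
          gcongr
      _ = _ := by
          rw [← Real.rpow_add hN0]
          congr 1
          ring
  have hQN : (j + 1) * q ≤ N := by
    have : (((j + 1) * q : ℕ) : ℝ) ≤ N := by
      refine hQ1.trans ?_
      calc (N : ℝ) ^ (1 - 4 * κ) ≤ (N : ℝ) ^ (1 : ℝ) := Real.rpow_le_rpow_of_exponent_le hNr1 (by linarith)
        _ = N := Real.rpow_one _
    exact_mod_cast this
  obtain ⟨Q, hQd⟩ : ∃ Q, Q = (j + 1) * q := ⟨_, rfl⟩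
  rw [← hQd] at hQ1 hQN
  have hcd : χ.conductor ∣ (j + 1) * q := χ.conductor_dvd_level
  have hc1 : 1 ≤ χ.conductor := Nat.pos_of_dvd_of_pos hcd (NeZero.pos _)
  have hcN : χ.conductor ≤ N := (Nat.le_of_dvd (NeZero.pos _) hcd).trans (by rw [← hQd]; exact hQN)
  have hgood : ¬ BadL N (U₁ + C + 4 + 3) χ.conductor χ.primitiveCharacter :=
    Pool.Agent.H579.L.E1_good (Pool.Agent.H579.L.E2_reg hD hj hcd) hcond hc1 hcN _ χ.primitiveCharacter_isPrimitive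
  have hχ1 : χ ≠ 1 := by
    rintro rfl
    rw [DirichletCharacter.conductor_one] at hcond
    have : (1 : ℝ) ≤ Real.log N ^ K := one_le_pow₀ (by linarith)
    push_cast at hcond
    linarith
  have hls := hLS _ (by rw [e710, ← hQd]; exact hQ1) χ hχ1 η hη y hy
  have hpt := hn2 N (by omega) α hα _ (by rw [← hQd]; exact hQN) χ hgood
  have hcs := cs_abel hy (Pool.Agent.H579.E.E2 α) η χ _ hpt
  obtain ⟨L, hL⟩ : ∃ L, L = Real.log (N : ℝ) := ⟨_, rfl⟩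
  rw [← hL] at hL20 hη hLb hls hcs ⊢
  have hL0 : 0 < L := by linarith
  have hηy : |η| * y ≤ L ^ C := by
    calc |η| * y ≤ (L ^ C / N) * N := by
          apply mul_le_mul hη (by exact_mod_cast hy) (Nat.cast_nonneg _) (by positivity)
      _ = L ^ C := by field_simp
  have hLC1 : 1 ≤ L ^ C := one_le_pow₀ (by linarith)
  have h1 : ‖cs ((j + 1) * q) y (Pool.Agent.H579.E.E2 α) η χ‖ ≤ N / L ^ U₁ / 2 := by
    refine hcs.trans ?_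
    calc (N : ℝ) / L ^ (U₁ + C + 4) * (1 + 7 * |η| * y) ≤ N / L ^ (U₁ + C + 4) * (8 * L ^ C) := by
          gcongr
          linarith
      _ = N / L ^ U₁ * (8 / L ^ 4) := by
          rw [pow_add, pow_add]
          field_simp
      _ ≤ N / L ^ U₁ * (1 / 2) := by
          have : 8 / L ^ 4 ≤ 1 / 2 := by
            rw [div_le_div_iff₀ (by positivity) (by norm_num)]
            calc (8 : ℝ) * 2 ≤ L := by linarith
              _ ≤ L ^ 4 := le_self_pow₀ (by linarith) (by norm_num)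
              _ = 1 * L ^ 4 := (one_mul _).symm
          gcongr
      _ = _ := by ring
  have h2' : ‖((WA N α : ℝ) : ℂ) * cs ((j + 1) * q) y (LS z r) η χ‖ ≤ N / L ^ U₁ / 2 := by
    rw [norm_mul, Complex.norm_real, Real.norm_eq_abs]
    calc |WA N α| * ‖cs ((j + 1) * q) y (LS z r) η χ‖ ≤ L * (N / L ^ (U₁ + 2)) := by
          gcongr
          linarith
      _ = N / L ^ U₁ * (1 / L) := by
          rw [pow_add]
          field_simp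
      _ ≤ N / L ^ U₁ * (1 / 2) := by
          have : 1 / L ≤ 1 / 2 := one_div_le_one_div_of_le (by norm_num) (by linarith)
          gcongr
      _ = _ := by ring
  have h3 : cs ((j + 1) * q) y (G2 N α z r) η χ = cs ((j + 1) * q) y (Pool.Agent.H579.E.E2 α) η χ -
      ((WA N α : ℝ) : ℂ) * cs ((j + 1) * q) y (LS z r) η χ := by
    rw [G2_eq]
    unfold cs
    rw [mul_sum, ← sum_sub_distrib]
    refine sum_congr rfl fun n _ => ?_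
    ring
  rw [h3]
  refine (norm_sub_le _ _).trans ?_
  linarith

/-- The square mean over all classes of a regular modulus. -/
theorem PG2 {κ₁ κ₂ ρ : ℝ} (h0 : 0 < κ₁) (h01 : κ₁ ≤ κ₂) (h1 : κ₂ < ρ) (h2 : ρ ≤ 1 / 5) (A U₀ : ℕ) :
    ∃ c : ℕ, ∀ A₀ : ℕ, ∃ B : ℕ, ∀ E : ℕ, ∃ N₀ : ℕ, ∀ N : ℕ, N₀ ≤ N → ∃ D : Finset ℕ,
    (D.card : ℝ) ≤ Real.log N ^ c ∧ (∀ d ∈ D, Real.log N ^ A₀ < (d : ℝ)) ∧ ∀ z : ℕ,
    Real.log N ^ B ≤ z → (z : ℝ) ≤ Real.log N ^ E → ∃ r : ℕ, Par U₀ N z r ∧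
      ∑ n ∈ Icc 1 N, |lamz z n - lsh z r n| ≤ N / Real.log N ^ U₀ ∧
      ∀ α : ℕ → ℝ, Al N κ₁ κ₂ α → BdAt N (G2 N α z r) ∧ ∀ (q : ℕ) [NeZero q], (q : ℝ) ≤ (N : ℝ) ^ (1 - ρ) →
      (∀ d ∈ D, ¬ d ∣ q) → ∀ β : ℝ, ∀ y : ℕ, y ≤ N →
        P q N (tr y (G2 N α z r)) β ≤ (N : ℝ) ^ 2 / (q * Real.log N ^ A) := by
  classical
  obtain ⟨κ, hκ, hκ1, k1, k2⟩ := mid (lt_of_lt_of_le h0 h01) h1 h2
  have hTM : TiMaj2Stm := tiMaj2 Pool.Agent.Y812.GJ.l2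
  have hTm : TiMinStm := Pool.Agent.Y412.GJ.tiMin
  have hLsh : LshStm := Pool.Agent.Y812.GJ.lsh_le
  obtain ⟨A₁, hC1⟩ := PG A (ρ₁ := -(3 / 10) + ρ) (ρ₂ := -(3 / 10) + 4 * κ) (by linarith) (by linarith)
  obtain ⟨C, hE1⟩ := goodR hTM hTm hLsh h0 h01 k1 hκ (by linarith) A₁
  obtain ⟨A₂, hC2⟩ := hC1 C
  obtain ⟨C₃, hE2⟩ := hE1 A₂
  obtain ⟨U₁, hC3⟩ := hC2 C₃
  obtain ⟨C₄, Nl, hl⟩ := cntL (U₁ + C + 4 + 3)
  obtain ⟨Nr, hr⟩ := regE (κ := κ) U₁ C h0 h01 hκ (by linarith) k2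
  refine ⟨C₄ + C, fun A₀ => ?_⟩
  obtain ⟨K, hK⟩ : ∃ K, K = A₀ + C := ⟨_, rfl⟩
  obtain ⟨U, Nc, hC4⟩ := hC3 K
  obtain ⟨B, hE3⟩ := hE2 K U U₀ (U₁ + 2)
  refine ⟨B, fun E => ?_⟩
  obtain ⟨Ne, hE4⟩ := hE3 E
  obtain ⟨Nf, hNf⟩ := Filter.eventually_atTop.1 (ev_log 1 (s := 1) (by norm_num) 3)
  refine ⟨Nl + Nr + Nc + Ne + Nf + 1, fun N hN => ⟨Pool.Agent.H579.L.E2 N K C (BadL N (U₁ + C + 4 + 3)), ?_, ?_, ?_⟩⟩
  · obtain ⟨hL3, -⟩ := hNf N (by omega)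
    exact Pool.Agent.H579.L.E2_card (by linarith) (Pool.Agent.H579.L.E1_card K (hl N (by omega)))
  · intro d hd
    obtain ⟨hL3, -⟩ := hNf N (by omega)
    exact Pool.Agent.H579.L.E2_large (by linarith) hK hd
  · intro z hz1 hz2
    obtain ⟨r, hP, hsum, hls, hg⟩ := hE4 N (by omega) z hz1 hz2
    refine ⟨r, hP, hsum, fun α hα => ?_⟩
    obtain ⟨g1, g2, g3, g4, g5⟩ := hg α hα
    refine ⟨g1, fun q _ hq hD β y hy => ?_⟩
    exact hC4 N (by omega) (G2 N α z r) g1 g2 g3 g4 g5 q (by rw [e711]; exact hq)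
      (hr N (by omega) α hα K z r hls q hq hD) β y hy

end Pool.Agent.H579.G
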