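import Pool.Agent.H579.G.RegL
import Pool.Graph.R_seed8.R460.GH.Asm

set_option autoImplicit false

/-! The square mean over all classes of a regular modulus up to `N ^ (2 / 3 - ρ)` of the von Mangoldt function
minus the sieve model. -/

namespace Pool.Agent.H579.G

open Finset
open Pool.Agent.Y883.GJ Pool.Agent.R460.GS
open Pool.Agent.R460.GR (RegAt)
open Pool.Agent.R460.GH (nLA mLA nHU mHU min_FF maj_FF ap_FF nc_FF bd_FF FF_eq countK bilMaj3)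
open Pool.Agent.H373R2.T7 (lamz Vz lam_ap lamz_ap)
open Pool.Agent.Y883.T3 (lsh)
open Pool.Agent.Y614.GJ.Core (P ev_log)

/-- a regular modulus: the sums of the von Mangoldt function minus the model -/
lemma regA (U₁ C : ℕ) {ρ₁ ρ₂ : ℝ} (h12 : ρ₂ < ρ₁) (h0 : -(3 / 10) ≤ ρ₂) :
    ∃ N₀ : ℕ, ∀ N : ℕ, N₀ ≤ N → ∀ K z r : ℕ,
    (∀ (Q : ℕ) [NeZero Q], (Q : ℝ) ≤ (N : ℝ) ^ (7 / 10 - ρ₂) → ∀ χ : DirichletCharacter ℂ Q, χ ≠ 1 →
      ∀ η : ℝ, |η| ≤ Real.log N ^ C / N → ∀ y : ℕ, y ≤ N → ‖cs Q y (LS z r) η χ‖ ≤ N / Real.log N ^ (U₁ + 2)) →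
    ∀ (q : ℕ) [NeZero q], (q : ℝ) ≤ (N : ℝ) ^ (7 / 10 - ρ₁) →
    (∀ d ∈ Pool.Agent.H579.L.E2 N K C (BadL N (U₁ + C + 4)), ¬ d ∣ q) → RegAt N C K U₁ (FF z r) q := by
  classical
  obtain ⟨n1, hn1⟩ := Filter.eventually_atTop.1 (ev_log C (s := ρ₁ - ρ₂) (by linarith) 20)
  obtain ⟨n2, hn2⟩ := Filter.eventually_atTop.1 (ev_log (U₁ + C + 8) (s := 3 / 4) (by norm_num) 20)
  refine ⟨n1 + n2 + 1, fun N hN K z r hLS q _ hq hD j hj χ hcond η hη y hy => ?_⟩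
  obtain ⟨hL20, hLC⟩ := hn1 N (by omega)
  obtain ⟨-, hLp⟩ := hn2 N (by omega)
  have hN1 : 1 ≤ N := by omega
  have hN0 : (0 : ℝ) < N := by exact_mod_cast hN1
  have hNr1 : (1 : ℝ) ≤ N := by exact_mod_cast hN1
  have : NeZero ((j + 1) * q) := ⟨Nat.mul_ne_zero (Nat.succ_ne_zero j) (NeZero.ne q)⟩
  have hQ1 : (((j + 1) * q : ℕ) : ℝ) ≤ (N : ℝ) ^ (7 / 10 - ρ₂) := by
    push_cast
    calc ((j : ℝ) + 1) * q ≤ (N : ℝ) ^ (ρ₁ - ρ₂) * (N : ℝ) ^ (7 / 10 - ρ₁) := by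
          have : ((j : ℝ) + 1) ≤ (N : ℝ) ^ (ρ₁ - ρ₂) := by
            refine le_trans ?_ hLC
            push_cast at hj
            exact hj
          gcongr
      _ = _ := by
          rw [← Real.rpow_add hN0]
          congr 1
          ring
  have hQN : (j + 1) * q ≤ N := by
    have : (((j + 1) * q : ℕ) : ℝ) ≤ N := by
      refine hQ1.trans ?_
      calc (N : ℝ) ^ (7 / 10 - ρ₂) ≤ (N : ℝ) ^ (1 : ℝ) := Real.rpow_le_rpow_of_exponent_le hNr1 (by linarith)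
        _ = N := Real.rpow_one _
    exact_mod_cast this
  have hcd : χ.conductor ∣ (j + 1) * q := χ.conductor_dvd_level
  have hc1 : 1 ≤ χ.conductor := Nat.pos_of_dvd_of_pos hcd (NeZero.pos _)
  have hcN : χ.conductor ≤ N := (Nat.le_of_dvd (NeZero.pos _) hcd).trans hQN
  have hgood : ¬ BadL N (U₁ + C + 4) χ.conductor χ.primitiveCharacter :=
    Pool.Agent.H579.L.E1_good (Pool.Agent.H579.L.E2_reg hD hj hcd) hcond hc1 hcN _ χ.primitiveCharacter_isPrimitive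
  have hχ1 : χ ≠ 1 := by
    rintro rfl
    rw [DirichletCharacter.conductor_one] at hcond
    have : (1 : ℝ) ≤ Real.log N ^ K := one_le_pow₀ (by linarith)
    push_cast at hcond
    linarith
  have hls := hLS _ hQ1 χ hχ1 η hη y hy
  obtain ⟨L, hL⟩ : ∃ L, L = Real.log (N : ℝ) := ⟨_, rfl⟩
  have hL0 : 0 < L := by rw [hL]; linarith
  have hL20' : 20 ≤ L := by rw [hL]; exact hL20
  have hL1 : 1 ≤ L := by linarith
  have hpt : ∀ t : ℕ, t ≤ N → ‖∑ m ∈ Icc 1 t, LA m * χ (m : ZMod ((j + 1) * q))‖ ≤ 2 * (N / L ^ (U₁ + C + 4)) := by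
    intro t ht
    have h1 := inner_le (by linarith) hN1 hQN χ hgood ht
    rw [← hL] at h1 hLp
    refine h1.trans ?_
    have e1 : (t : ℝ) / L ^ (U₁ + C + 4) ≤ N / L ^ (U₁ + C + 4) := by
      have : (t : ℝ) ≤ N := by exact_mod_cast ht
      gcongr
    have e2 : (N : ℝ) ^ (1 / 4 : ℝ) * L + 6 * L ^ 3 ≤ N / L ^ (U₁ + C + 4) := by
      rw [le_div_iff₀ (by positivity)]
      have f1 : (1 : ℝ) ≤ (N : ℝ) ^ (1 / 4 : ℝ) := Real.one_le_rpow hNr1 (by norm_num)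
      calc ((N : ℝ) ^ (1 / 4 : ℝ) * L + 6 * L ^ 3) * L ^ (U₁ + C + 4) ≤
          ((N : ℝ) ^ (1 / 4 : ℝ) * L ^ 4) * L ^ (U₁ + C + 4) := by
            gcongr
            have g1 : L ≤ L ^ 3 := le_self_pow₀ hL1 (by norm_num)
            have g2 : (N : ℝ) ^ (1 / 4 : ℝ) * L ≤ (N : ℝ) ^ (1 / 4 : ℝ) * L ^ 3 := by gcongr
            have g3 : 6 * L ^ 3 ≤ (N : ℝ) ^ (1 / 4 : ℝ) * (6 * L ^ 3) := le_mul_of_one_le_left (by positivity) f1
            have g4 : (N : ℝ) ^ (1 / 4 : ℝ) * L ^ 4 = (N : ℝ) ^ (1 / 4 : ℝ) * (L * L ^ 3) := by ring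
            rw [g4]
            have g5 : (N : ℝ) ^ (1 / 4 : ℝ) * (7 * L ^ 3) ≤ (N : ℝ) ^ (1 / 4 : ℝ) * (L * L ^ 3) := by
              gcongr
              linarith
            linarith
        _ = (N : ℝ) ^ (1 / 4 : ℝ) * L ^ (U₁ + C + 8) := by ring
        _ ≤ (N : ℝ) ^ (1 / 4 : ℝ) * (N : ℝ) ^ (3 / 4 : ℝ) := by gcongr
        _ = N := by
            rw [← Real.rpow_add hN0]
            norm_num
    linarith
  have hcs := cs_abel hy LA η χ _ hpt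
  rw [← hL] at hη hls ⊢
  have hηy : |η| * y ≤ L ^ C := by
    calc |η| * y ≤ (L ^ C / N) * N := by
          apply mul_le_mul hη (by exact_mod_cast hy) (Nat.cast_nonneg _) (by positivity)
      _ = L ^ C := by field_simp
  have hLC1 : 1 ≤ L ^ C := one_le_pow₀ hL1
  have h1 : ‖cs ((j + 1) * q) y LA η χ‖ ≤ N / L ^ U₁ / 2 := by
    refine hcs.trans ?_
    calc 2 * ((N : ℝ) / L ^ (U₁ + C + 4)) * (1 + 7 * |η| * y) ≤ 2 * (N / L ^ (U₁ + C + 4)) * (8 * L ^ C) := by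
          gcongr
          linarith
      _ = N / L ^ U₁ * (16 / L ^ 4) := by
          rw [pow_add, pow_add]
          field_simp
          ring
      _ ≤ N / L ^ U₁ * (1 / 2) := by
          have : 16 / L ^ 4 ≤ 1 / 2 := by
            rw [div_le_div_iff₀ (by positivity) (by norm_num)]
            calc (16 : ℝ) * 2 ≤ L * L := by nlinarith
              _ = L ^ 2 := by ring
              _ ≤ L ^ 4 := pow_le_pow_right₀ hL1 (by norm_num)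
              _ = 1 * L ^ 4 := (one_mul _).symm
          gcongr
      _ = _ := by ring
  have h2' : ‖cs ((j + 1) * q) y (LS z r) η χ‖ ≤ N / L ^ U₁ / 2 := by
    calc ‖cs ((j + 1) * q) y (LS z r) η χ‖ ≤ N / L ^ (U₁ + 2) := hls
      _ = N / L ^ U₁ * (1 / L ^ 2) := by
          rw [pow_add]
          field_simp
      _ ≤ N / L ^ U₁ * (1 / 2) := by
          have : 1 / L ^ 2 ≤ 1 / 2 := one_div_le_one_div_of_le (by norm_num) (by nlinarith)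
          gcongr
      _ = _ := by ring
  have h3 : cs ((j + 1) * q) y (FF z r) η χ = cs ((j + 1) * q) y LA η χ - cs ((j + 1) * q) y (LS z r) η χ := by
    rw [FF_eq]
    unfold cs
    rw [← sum_sub_distrib]
    refine sum_congr rfl fun n _ => ?_
    ring
  rw [h3]
  refine (norm_sub_le _ _).trans ?_
  linarith

/-- The square mean over all classes of a regular modulus. -/
theorem PG4 {ρ : ℝ} (hρ : 0 < ρ) (A U₀ : ℕ) :
    ∃ c : ℕ, ∀ A₀ : ℕ, ∃ B : ℕ, ∀ E : ℕ, ∃ N₀ : ℕ, ∀ N : ℕ, N₀ ≤ N → ∃ D : Finset ℕ,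
    (D.card : ℝ) ≤ Real.log N ^ c ∧ (∀ d ∈ D, Real.log N ^ A₀ < (d : ℝ)) ∧ ∀ z : ℕ,
    Real.log N ^ B ≤ z → (z : ℝ) ≤ Real.log N ^ E → ∃ r : ℕ, Par U₀ N z r ∧
      ∑ n ∈ Icc 1 N, |lamz z n - lsh z r n| ≤ N / Real.log N ^ U₀ ∧
      BdAt N (FF z r) ∧ ∀ (q : ℕ) [NeZero q], (q : ℝ) ≤ (N : ℝ) ^ (2 / 3 - ρ) →
      (∀ d ∈ D, ¬ d ∣ q) → ∀ β : ℝ, ∀ y : ℕ, y ≤ N →
        P q N (tr y (FF z r)) β ≤ (N : ℝ) ^ 2 / (q * Real.log N ^ A) := by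
  classical
  have hTM : TiMaj2Stm := tiMaj2 Pool.Agent.Y812.GJ.l2
  have hTm : TiMinStm := Pool.Agent.Y412.GJ.tiMin
  have hLsh : LshStm := Pool.Agent.Y812.GJ.lsh_le
  have hL2S : L2Stm := Pool.Agent.Y812.GJ.l2
  have hB3 := bilMaj3 hL2S (countK hL2S)
  have hBm : BilMinStm := Pool.Agent.Y909.GJ.bilMin
  have hρ2 : 0 < ρ / 2 := by positivity
  obtain ⟨A₁, hC1⟩ := PG A (ρ₁ := 1 / 30 + ρ) (ρ₂ := 1 / 30 + ρ / 2) (by linarith) (by linarith)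
  obtain ⟨Cg, Ng, hg⟩ := nLA hL2S hBm (A₁ + 2) hρ2
  obtain ⟨Ch, Nh, hh⟩ := nHU hTm hLsh (A₁ + 2) (ρ := 1 / 30 + ρ / 2) (by positivity)
  obtain ⟨C, hC⟩ : ∃ C, C = max Cg Ch := ⟨_, rfl⟩
  obtain ⟨A₂, hC2⟩ := hC1 C
  obtain ⟨C₃, Nm1, hm1⟩ := mLA hL2S hB3 (A₂ + 2) C hρ2
  obtain ⟨Nm2, hm2⟩ := mHU hTM hLsh (A₂ + 2) C (ρ := 1 / 30 + ρ / 2) (by positivity)
  obtain ⟨U₁, hC3⟩ := hC2 C₃
  obtain ⟨Nm3, hm3⟩ := mHU hTM hLsh (2 * (U₁ + 2)) C (ρ := 1 / 30 + ρ / 2) (by positivity)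
  obtain ⟨C₄, Nl, hl⟩ := cntL (U₁ + C + 4)
  obtain ⟨Nr, hr⟩ := regA U₁ C (ρ₁ := 1 / 30 + ρ) (ρ₂ := 1 / 30 + ρ / 2) (by linarith) (by linarith)
  refine ⟨C₄ + C, fun A₀ => ?_⟩
  obtain ⟨K, hK⟩ : ∃ K, K = A₀ + C := ⟨_, rfl⟩
  obtain ⟨U, Nc, hC4⟩ := hC3 K
  obtain ⟨U₃, hU₃⟩ : ∃ U₃, U₃ = max U₀ (U + 2) := ⟨_, rfl⟩
  obtain ⟨Bm, hBm'⟩ := Pool.Agent.Y883.GJ.model_all U₃
  refine ⟨max Bm K, fun E => ?_⟩
  obtain ⟨Nmo, hmo⟩ := hBm' E
  obtain ⟨Nlz, hlz⟩ := lamz_ap E (U + 2)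
  obtain ⟨Na, ha⟩ := lam_ap K (U + 2)
  obtain ⟨Nf, hNf⟩ := Filter.eventually_atTop.1 (ev_log 1 (s := 1) (by norm_num) 4)
  refine ⟨Nl + Nr + Nc + Ng + Nh + Nm1 + Nm2 + Nm3 + Nmo + Nlz + Na + Nf + 1, fun N hN =>
    ⟨Pool.Agent.H579.L.E2 N K C (BadL N (U₁ + C + 4)), ?_, ?_, ?_⟩⟩
  · obtain ⟨hL3, -⟩ := hNf N (by omega)
    exact Pool.Agent.H579.L.E2_card (by linarith) (Pool.Agent.H579.L.E1_card K (hl N (by omega)))
  · intro d hd
    obtain ⟨hL3, -⟩ := hNf N (by omega)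
    exact Pool.Agent.H579.L.E2_large (by linarith) hK hd
  · intro z hz1 hz2
    obtain ⟨hLe, -⟩ := hNf N (by omega)
    have hL1 : 1 ≤ Real.log N := by linarith
    have hL2 : 2 ≤ Real.log N := by linarith
    have hzB : Real.log N ^ Bm ≤ z := (pow_le_pow_right₀ hL1 (le_max_left _ _)).trans hz1
    have hzK : Real.log N ^ K ≤ z := (pow_le_pow_right₀ hL1 (le_max_right _ _)).trans hz1
    have hz1' : 1 ≤ z := by
      have : (1 : ℝ) ≤ z := (one_le_pow₀ hL1).trans hz1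
      exact_mod_cast this
    obtain ⟨r, hPar, hsum⟩ := hmo N (by omega) z hzB hz2
    have hdiv : ∀ V : ℕ, V ≤ U₃ → (N : ℝ) / Real.log N ^ U₃ ≤ N / Real.log N ^ V := fun V hV =>
      div_le_div_of_nonneg_left (Nat.cast_nonneg _) (by positivity) (pow_le_pow_right₀ hL1 hV)
    have hU0 : U₀ ≤ U₃ := by rw [hU₃]; exact le_max_left _ _
    have hU2 : U + 2 ≤ U₃ := by rw [hU₃]; exact le_max_right _ _
    have hP0 := par_mono hL1 hU0 hPar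
    have hP2 := par_mono hL1 hU2 hPar
    have hMin : MinAt N (1 / 30 + ρ / 2) A₁ C (FF z r) := by
      rw [hC]
      exact min_FF hL2 (hg N (by omega)) (hh N (by omega) z r hPar.hD hPar.hV)
    have hMaj : MajAt N (1 / 30 + ρ / 2) A₂ C C₃ (FF z r) :=
      maj_FF hL2 (hm1 N (by omega)) (fun q _ hq => hm2 N (by omega) q hq z r hPar.hD hPar.hV)
    have hAp : ApAt N K U (FF z r) := by
      refine ap_FF hL2 ?_ (hsum.trans (hdiv _ hU2)) (ha N (by omega))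
      intro q hq hqK c y hy
      refine hlz N (by omega) z hz1' hz2 q hq ?_ c y hy
      exact_mod_cast hqK.trans hzK
    have hNc : NcAt N U (FF z r) := nc_FF (par_mono hL1 (by omega) hP2)
    have hBd : BdAt N (FF z r) := bd_FF hPar (by linarith)
    refine ⟨r, hP0, hsum.trans (hdiv _ hU0), hBd, fun q _ hq hD β y hy => ?_⟩
    have hq' : (q : ℝ) ≤ (N : ℝ) ^ (7 / 10 - (1 / 30 + ρ)) := by
      have e : (7 / 10 - (1 / 30 + ρ) : ℝ) = 2 / 3 - ρ := by ring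
      rw [e]
      exact hq
    refine hC4 N (by omega) (FF z r) hBd hMin hMaj hAp hNc q hq' ?_ β y hy
    refine hr N (by omega) K z r ?_ q hq' hD
    intro Q _ hQ χ hχ η hη y hy
    have h5 := hm3 N (by omega) Q hQ z r hPar.hD hPar.hV η hη y hy {χ} (by
      rw [mem_singleton]
      exact fun h => hχ h.symm)
    rw [sum_singleton] at h5
    have h6 : (N : ℝ) ^ 2 / Real.log N ^ (2 * (U₁ + 2)) = (N / Real.log N ^ (U₁ + 2)) ^ 2 := by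
      rw [div_pow, ← pow_mul, mul_comm 2 (U₁ + 2)]
    rw [h6] at h5
    exact (abs_le_of_sq_le_sq' h5 (by positivity)).2

end Pool.Agent.H579.G
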