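import Pool.Agent.H579.G.Sing
import Pool.Graph.R_seed8.Y614.GJ.Core
import Pool.Graph.R_seed8.H373R2.T7.LamZ2

set_option autoImplicit false

/-! The number of the integers at which all forms of a system have no small prime factors. -/

namespace Pool.Agent.H579.G

open Finset
open Pool.Agent.H373R2.T7
open Pool.Agent.Y614.GJ.Core (ev_log)

/-- one of the forms is divisible by `p` -/
def Qf {k : ℕ} (q b : Fin k → ℤ) (p n : ℕ) : Prop := ∃ i, (p : ℤ) ∣ q i * n + b i

lemma Qf_per {k : ℕ} (q b : Fin k → ℤ) (p n : ℕ) : Qf q b p n ↔ Qf q b p (n % p) := by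
  unfold Qf
  refine exists_congr fun i => ?_
  have h : (q i * n + b i : ℤ) = (q i * ((n % p : ℕ) : ℤ) + b i) + p * (q i * ((n / p : ℕ) : ℤ)) := by
    have h1 : (n : ℤ) = ((n % p : ℕ) : ℤ) + p * ((n / p : ℕ) : ℤ) := by
      have := Nat.mod_add_div n p
      exact_mod_cast this.symm
    rw [h1]
    push_cast
    ring
  rw [h]
  exact dvd_add_left (dvd_mul_right _ _)

lemma nu_all {k p : ℕ} {q b : Fin k → ℤ} (i : Fin k) (h1 : (p : ℤ) ∣ q i) (h2 : (p : ℤ) ∣ b i) :
    nuB (Qf q b) p = p := by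
  classical
  unfold nuB
  rw [filter_true_of_mem, card_range]
  intro r _
  exact ⟨i, dvd_add (Dvd.dvd.mul_right h1 _) h2⟩

lemma nu_few {k p : ℕ} {q b : Fin k → ℤ} (hp : p.Prime) (h : ∀ i, ¬ ((p : ℤ) ∣ q i ∧ (p : ℤ) ∣ b i)) :
    nuB (Qf q b) p ≤ k := by
  classical
  unfold nuB
  have h1 : (range p).filter (fun r => Qf q b p r) ⊆
      (univ : Finset (Fin k)).biUnion (fun i => (range p).filter (fun r : ℕ => (p : ℤ) ∣ q i * r + b i)) := by
    intro r hr
    rw [mem_filter] at hr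
    obtain ⟨hr1, i, hi⟩ := hr
    rw [mem_biUnion]
    exact ⟨i, mem_univ i, mem_filter.2 ⟨hr1, hi⟩⟩
  refine (card_le_card h1).trans (card_biUnion_le.trans ?_)
  have h2 : ∀ i ∈ (univ : Finset (Fin k)), ((range p).filter (fun r : ℕ => (p : ℤ) ∣ q i * r + b i)).card ≤ 1 := by
    intro i _
    rw [card_le_one]
    intro r hr s hs
    rw [mem_filter, mem_range] at hr hs
    have hpi : Prime (p : ℤ) := Nat.prime_iff_prime_int.1 hp
    have h3 : (p : ℤ) ∣ q i * (r - s) := by
      have := dvd_sub hr.2 hs.2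
      have e : (q i * r + b i - (q i * s + b i) : ℤ) = q i * (r - s) := by ring
      rwa [e] at this
    rcases hpi.dvd_or_dvd h3 with h4 | h4
    · exfalso
      refine h i ⟨h4, ?_⟩
      exact (dvd_add_right (Dvd.dvd.mul_right h4 _)).1 hr.2
    · have h5 := (Int.modEq_iff_dvd (n := (p : ℤ)) (a := (s : ℤ)) (b := (r : ℤ))).2 h4
      have h6 : (s : ℕ) ≡ r [MOD p] := (Int.natCast_modEq_iff).1 h5
      exact (Nat.ModEq.eq_of_lt_of_lt h6 hs.1 hr.1).symm
  refine (sum_le_sum h2).trans ?_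
  simp

lemma root {p : ℕ} (hp : p.Prime) {q b : ℤ} (h : ¬ (p : ℤ) ∣ q) : ∃ r : ℕ, r < p ∧ (p : ℤ) ∣ q * r + b := by
  have hp0 : (0 : ℤ) < p := by exact_mod_cast hp.pos
  have hpi : Prime (p : ℤ) := Nat.prime_iff_prime_int.1 hp
  have hc : IsCoprime (p : ℤ) q := (hpi.coprime_iff_not_dvd).2 h
  obtain ⟨u, v, huv⟩ := hc
  refine ⟨((-(b * v)) % p).toNat, ?_, ?_⟩
  · have := Int.emod_lt_of_pos (-(b * v)) hp0
    have h2 := Int.emod_nonneg (-(b * v)) hp0.ne'
    omega
  · have h2 := Int.emod_nonneg (-(b * v)) hp0.ne'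
    rw [Int.toNat_of_nonneg h2]
    have h3 : (-(b * v)) % (p : ℤ) = -(b * v) - p * ((-(b * v)) / p) := by
      have := Int.emod_add_mul_ediv (-(b * v)) (p : ℤ)
      linarith
    rw [h3]
    have h4 : q * (-(b * v) - p * ((-(b * v)) / p)) + b = p * (b * u - q * ((-(b * v)) / p)) := by
      have e : v * q = 1 - u * p := by linarith
      calc q * (-(b * v) - p * ((-(b * v)) / p)) + b = b * (1 - v * q) - p * (q * ((-(b * v)) / p)) := by ring
        _ = b * (u * p) - p * (q * ((-(b * v)) / p)) := by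
            rw [e]
            ring
        _ = _ := by ring
    rw [h4]
    exact dvd_mul_right _ _

lemma nu_full {k p : ℕ} {q b : Fin k → ℤ} (hp : p.Prime) (h : ∀ i, ¬ (p : ℤ) ∣ q i)
    (h2 : ∀ i j, i ≠ j → ¬ (p : ℤ) ∣ q i * b j - q j * b i) : nuB (Qf q b) p = k := by
  classical
  refine le_antisymm (nu_few hp fun i hi => h i hi.1) ?_
  choose r hr using fun i => root hp (b := b i) (h i)
  unfold nuB
  have h3 : (univ : Finset (Fin k)).card ≤ ((range p).filter (fun s => Qf q b p s)).card := by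
    refine card_le_card_of_injOn r (fun i _ => ?_) ?_
    · rw [coe_filter, Set.mem_ofPred_eq, mem_range]
      exact ⟨(hr i).1, i, (hr i).2⟩
    · intro i _ j _ hij
      by_contra hne
      refine h2 i j hne ?_
      have e1 := (hr i).2
      have e2 := (hr j).2
      rw [← hij] at e2
      have e3 := dvd_sub (Dvd.dvd.mul_left e2 (q i)) (Dvd.dvd.mul_left e1 (q j))
      have e : (q i * (q j * (r i : ℤ) + b j) - q j * (q i * (r i : ℤ) + b i) : ℤ) = q i * b j - q j * b i := by ring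
      rwa [e] at e3
  rwa [card_univ, Fintype.card_fin] at h3

/-- the primes at which the local factor is not the generic one -/
def badF {k : ℕ} (q b : Fin k → ℤ) : Finset ℕ :=
  (univ.biUnion fun i => (q i).natAbs.primeFactors) ∪
    (univ.filter (fun e : Fin k × Fin k => e.1 ≠ e.2)).biUnion fun e => (q e.1 * b e.2 - q e.2 * b e.1).natAbs.primeFactors

lemma badF_spec {k p : ℕ} {q b : Fin k → ℤ} (hq : ∀ i, q i ≠ 0) (hqb : ∀ i j, i ≠ j → q i * b j ≠ q j * b i)
    (hp : p.Prime) (h : p ∉ badF q b) : nuB (Qf q b) p = k := by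
  unfold badF at h
  rw [mem_union, not_or, mem_biUnion, mem_biUnion] at h
  push Not at h
  refine nu_full hp (fun i hi => ?_) (fun i j hij hd => ?_)
  · apply h.1 i (mem_univ i)
    rw [Nat.mem_primeFactors]
    exact ⟨hp, Int.natCast_dvd.1 hi, Int.natAbs_ne_zero.2 (hq i)⟩
  · apply h.2 (i, j) (mem_filter.2 ⟨mem_univ _, hij⟩)
    rw [Nat.mem_primeFactors]
    exact ⟨hp, Int.natCast_dvd.1 hd, Int.natAbs_ne_zero.2 (sub_ne_zero.2 (hqb i j hij))⟩

lemma card_badF {k : ℕ} (q b : Fin k → ℤ) (Y : ℕ) (h1 : ∀ i, (q i).natAbs ≤ Y)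
    (h2 : ∀ i j, (q i * b j - q j * b i).natAbs ≤ Y) : (badF q b).card ≤ (k + k * k) * Nat.log 2 Y := by
  have h3 : ∀ b : ℤ, b.natAbs ≤ Y → b.natAbs.primeFactors.card ≤ Nat.log 2 Y := by
    intro b hb
    rcases Nat.eq_zero_or_pos b.natAbs with h | h
    · rw [h]; simp
    · exact (omega_le_log _ (by omega)).trans (Nat.log_mono_right hb)
  unfold badF
  refine (card_union_le _ _).trans ?_
  rw [add_mul]
  apply add_le_add
  · refine card_biUnion_le.trans ((sum_le_sum fun i _ => h3 (q i) (h1 i)).trans ?_)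
    simp
  · refine card_biUnion_le.trans ((sum_le_sum fun e _ => h3 (q e.1 * b e.2 - q e.2 * b e.1) (h2 e.1 e.2)).trans ?_)
    rw [sum_const, smul_eq_mul]
    apply Nat.mul_le_mul_right
    refine (card_filter_le _ _).trans ?_
    rw [card_univ, Fintype.card_prod, Fintype.card_fin]

/-- the singular series -/
noncomputable def sing {k : ℕ} (q b : Fin k → ℤ) : ℝ := ∏' p : Nat.Primes, fac k (nuB (Qf q b)) p

lemma sing_zero {k p : ℕ} {q b : Fin k → ℤ} (hp : p.Prime) (h : nuB (Qf q b) p = p) : sing q b = 0 := by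
  unfold sing
  have hp0 : (p : ℝ) ≠ 0 := by exact_mod_cast hp.ne_zero
  refine tprod_of_exists_eq_zero ⟨⟨p, hp⟩, ?_⟩
  unfold fac
  have : ((⟨p, hp⟩ : Nat.Primes) : ℕ) = p := rfl
  rw [this, h, div_self hp0, sub_self, zero_div]

lemma fac_prod (k z : ℕ) (ν : ℕ → ℕ) : ∏ p ∈ pz z, (1 - (ν p : ℝ) / p) = Vz z ^ k * ∏ p ∈ pz z, fac k ν p := by
  unfold Vz
  rw [← prod_pow, ← prod_mul_distrib]
  refine prod_congr rfl fun p hp => ?_
  have h := one_sub_pos (mem_pz.1 hp).2
  unfold fac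
  rw [mul_div_cancel₀ _ (pow_pos h k).ne']

open Classical in
/-- the number of the integers at which no form is divisible by a small prime -/
theorem rough_low (k : ℕ) (hk : 1 ≤ k) : ∃ c : ℝ, 0 < c ∧ ∀ E C : ℕ, ∃ M₀ : ℕ, ∀ M : ℕ, M₀ ≤ M → ∀ z : ℕ, Real.log M ^ 2 ≤ z →
    (z : ℝ) ≤ Real.log M ^ E → ∀ q b : Fin k → ℤ, (∀ i, q i ≠ 0) → (∀ i j, i ≠ j → q i * b j ≠ q j * b i) →
    (∀ i, (q i).natAbs ≤ M ^ C) → (∀ i, (b i).natAbs ≤ M ^ C) →
    95 / 100 * (sing q b * Vz z ^ k * M) ≤ (((Icc 1 M).filter (fun m => ∀ p ∈ pz z, ¬ Qf q b p m)).card : ℝ) ∧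
    (sing q b = 0 ∨ c * (Vz z ^ k * M) ≤ (((Icc 1 M).filter (fun m => ∀ p ∈ pz z, ¬ Qf q b p m)).card : ℝ)) := by
  classical
  obtain ⟨ck, hck⟩ : ∃ ck : ℝ, ck = (1 / (3 * k : ℝ)) ^ (3 * k) * Real.exp (-(2 * (k : ℝ) ^ 2)) := ⟨_, rfl⟩
  have hk0 : (0 : ℝ) < k := by exact_mod_cast hk
  have hc0 : 0 < ck := by rw [hck]; positivity
  refine ⟨ck / 2, by positivity, fun E C => ?_⟩
  obtain ⟨R, hR⟩ : ∃ R : ℝ, R = 200 * k * ((k + k * k) * (4 * C + 2)) + 100 / ck + 3 * k + 10 := ⟨_, rfl⟩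
  have hR1 : 0 ≤ 200 * (k : ℝ) * ((k + k * k) * (4 * C + 2)) := by positivity
  have hR2 : 0 ≤ 100 / ck := by positivity
  obtain ⟨n1, h1⟩ := sys_count k E (k + 1) hk
  obtain ⟨n2, h2⟩ := Vz_inv_small E
  obtain ⟨n3, h3⟩ := Filter.eventually_atTop.1 (ev_log 1 (s := 1) (by norm_num) R)
  refine ⟨n1 + n2 + n3 + 1, fun M hM z hz1 hz2 q b hq hqb hqM hbM => ?_⟩
  obtain ⟨hLR, -⟩ := h3 M (by omega)
  have hM1 : 1 ≤ M := by omega
  have hM0 : (0 : ℝ) < M := by exact_mod_cast hM1
  have hL10 : 10 ≤ Real.log M := by linarith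
  have hL0 : 0 < Real.log M := by linarith
  have hL1 : 1 ≤ Real.log M := by linarith
  have hzL : Real.log M ≤ z := by
    refine le_trans ?_ hz1
    nlinarith
  have hz0 : (0 : ℝ) < z := by linarith
  have hz1' : 1 ≤ z := by exact_mod_cast (show (1 : ℝ) ≤ z by linarith)
  by_cases hadm : ∀ p : ℕ, p.Prime → nuB (Qf q b) p + 1 ≤ p
  · have hno : ∀ p : ℕ, p.Prime → ∀ i, ¬ ((p : ℤ) ∣ q i ∧ (p : ℤ) ∣ b i) := by
      rintro p hp i ⟨e1, e2⟩
      have := nu_all i e1 e2
      have := hadm p hp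
      omega
    have hfew : ∀ p : ℕ, p.Prime → nuB (Qf q b) p ≤ k := fun p hp => nu_few hp (hno p hp)
    have hcount := h1 M (by omega) z hz1' hz2 (Qf q b) ⟨Qf_per q b, hfew⟩
    rw [fac_prod k z (nuB (Qf q b))] at hcount
    have hlow := local_low k hk (nuB (Qf q b)) z (fun p hp => hfew p (mem_pz.1 hp).2) (fun p hp => hadm p (mem_pz.1 hp).2)
    rw [← hck] at hlow
    have hP : ∏ p ∈ pz z, (1 - (nuB (Qf q b) p : ℝ) / p) / (1 - 1 / (p : ℝ)) ^ k = ∏ p ∈ pz z, fac k (nuB (Qf q b)) p := rfl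
    rw [hP] at hlow
    obtain ⟨F, hF⟩ : ∃ F : ℝ, F = ∏ p ∈ pz z, fac k (nuB (Qf q b)) p := ⟨_, rfl⟩
    rw [← hF] at hlow hcount
    have hV := Vz_pos z
    have hVi := h2 M (by omega) z hz1' hz2
    obtain ⟨Wk, hWk⟩ : ∃ Wk : ℝ, Wk = Vz z ^ k := ⟨_, rfl⟩
    have hWk0 : 0 < Wk := by rw [hWk]; positivity
    rw [← hWk] at hcount ⊢
    have hWL : 1 ≤ Wk * Real.log M ^ k := by
      rw [hWk, ← mul_pow]
      refine one_le_pow₀ ?_
      rw [inv_le_iff_one_le_mul₀ hV] at hVi
      linarith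
    have hF0 : 0 < F := lt_of_lt_of_le hc0 hlow
    -- the error term of the sieve
    have herr : (M : ℝ) / Real.log M ^ (k + 1) ≤ 1 / 100 * (M * (Wk * F)) := by
      rw [div_le_iff₀ (by positivity)]
      have e1 : (100 : ℝ) ≤ ck * Real.log M := by
        have : 100 / ck ≤ Real.log M := by linarith [show (0 : ℝ) ≤ 3 * k by positivity]
        rwa [div_le_iff₀ hc0, mul_comm] at this
      have e2 : (100 : ℝ) ≤ F * Real.log M := e1.trans (mul_le_mul_of_nonneg_right hlow hL0.le)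
      calc (M : ℝ) = M * (1 / 100) * (1 * 100) := by ring
        _ ≤ M * (1 / 100) * ((Wk * Real.log M ^ k) * (F * Real.log M)) := by
            gcongr
        _ = _ := by ring
    -- the tail of the singular series
    have hsing : sing q b ≤ F * Real.exp (2 * k * (badF q b).card / z) := by
      rw [hF]
      refine sing_le (nuB (Qf q b)) (badF q b) (fun p hp hpB => badF_spec hq hqb hp hpB)
        (fun p hp => (Nat.le_succ _).trans (hadm p hp)) hz1' ?_
      have : (3 * k : ℝ) ≤ z := by linarith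
      exact_mod_cast this
    have hY : (badF q b).card ≤ (k + k * k) * Nat.log 2 (2 * (M ^ C * M ^ C)) := by
      refine card_badF q b _ (fun i => ?_) (fun i j => ?_)
      · refine (hqM i).trans ?_
        have : 1 ≤ M ^ C := Nat.one_le_pow _ _ hM1
        nlinarith
      · refine (Int.natAbs_sub_le _ _).trans ?_
        rw [Int.natAbs_mul, Int.natAbs_mul]
        have e1 := Nat.mul_le_mul (hqM i) (hbM j)
        have e2 := Nat.mul_le_mul (hqM j) (hbM i)
        omega
    have hYr : ((badF q b).card : ℝ) ≤ (k + k * k) * ((4 * C + 2) * Real.log M) := by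
      have e1 : ((badF q b).card : ℝ) ≤ (k + k * k) * (Nat.log 2 (2 * (M ^ C * M ^ C)) : ℝ) := by exact_mod_cast hY
      have e2 : (Nat.log 2 (2 * (M ^ C * M ^ C)) : ℝ) ≤ (4 * C + 2) * Real.log M := by
        have e3 := Real.natLog_le_logb (2 * (M ^ C * M ^ C)) 2
        have e4 : Real.logb (2 : ℕ) ((2 * (M ^ C * M ^ C) : ℕ) : ℝ) ≤ (4 * C + 2) * Real.log M := by
          unfold Real.logb
          have l2 := Real.log_two_gt_d9
          have l2' := Real.log_two_lt_d9
          rw [div_le_iff₀ (by push_cast; linarith)]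
          push_cast
          rw [Real.log_mul (by norm_num) (by positivity), Real.log_mul (by positivity) (by positivity), Real.log_pow]
          have hC0 : (0 : ℝ) ≤ C := Nat.cast_nonneg _
          have k1 : 0 ≤ (C : ℝ) * Real.log M := by positivity
          have k2 : 1 / 2 * ((4 * C + 2) * Real.log M) ≤ (4 * C + 2) * Real.log M * Real.log 2 := by
            have : 0 ≤ (4 * (C : ℝ) + 2) * Real.log M := by positivity
            nlinarith
          nlinarith
        exact e3.trans e4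
      refine e1.trans ?_
      gcongr
    have hexp : Real.exp (2 * k * (badF q b).card / z) ≤ 100 / 99 := by
      have e1 : 2 * (k : ℝ) * (badF q b).card / z ≤ 1 / 100 := by
        rw [div_le_iff₀ hz0]
        calc 2 * (k : ℝ) * (badF q b).card ≤ 2 * k * ((k + k * k) * ((4 * C + 2) * Real.log M)) := by gcongr
          _ = 1 / 100 * (200 * k * ((k + k * k) * (4 * C + 2)) * Real.log M) := by ring
          _ ≤ 1 / 100 * (Real.log M * Real.log M) := by
              have : 200 * (k : ℝ) * ((k + k * k) * (4 * C + 2)) ≤ Real.log M := by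
                linarith [show (0 : ℝ) ≤ 3 * k by positivity]
              gcongr
          _ ≤ 1 / 100 * z := by
              rw [← sq]
              gcongr
      refine (Real.exp_le_exp.2 e1).trans ?_
      have e2 := Real.one_sub_le_exp_neg (1 / 100)
      have e3 : Real.exp (1 / 100) * Real.exp (-(1 / 100)) = 1 := by rw [← Real.exp_add]; norm_num
      have e4 := Real.exp_pos (1 / 100)
      nlinarith
    have hsing2 : 99 / 100 * sing q b ≤ F := by
      have e1 : sing q b ≤ F * (100 / 99) := hsing.trans (mul_le_mul_of_nonneg_left hexp hF0.le)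
      linarith
    have hlow2 := (abs_le.1 hcount).1
    have hMW : 0 ≤ (M : ℝ) * Wk := by positivity
    have e5 : (M : ℝ) * Wk * (99 / 100 * sing q b) ≤ M * Wk * F := mul_le_mul_of_nonneg_left hsing2 hMW
    have e6 : 0 ≤ (M : ℝ) * Wk * F := by positivity
    refine ⟨?_, Or.inr ?_⟩
    swap
    · have e9 : (M : ℝ) * Wk * ck ≤ M * Wk * F := mul_le_mul_of_nonneg_left hlow hMW
      linarith
    rcases le_or_gt 0 (sing q b) with hs | hs
    · have e7 : 0 ≤ (M : ℝ) * Wk * sing q b := mul_nonneg hMW hs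
      linarith
    · have e7 : (M : ℝ) * Wk * sing q b ≤ 0 := mul_nonpos_of_nonneg_of_nonpos hMW hs.le
      have e8 : (0 : ℝ) ≤ (((Icc 1 M).filter (fun m => ∀ p ∈ pz z, ¬ Qf q b p m)).card : ℝ) := Nat.cast_nonneg _
      linarith
  · push Not at hadm
    obtain ⟨p, hp, hpn⟩ := hadm
    have h5 : nuB (Qf q b) p = p := le_antisymm (nuB_le _ _) (by omega)
    refine ⟨?_, Or.inl (sing_zero hp h5)⟩
    rw [sing_zero hp h5, zero_mul, zero_mul, mul_zero]
    exact Nat.cast_nonneg _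

end Pool.Agent.H579.G
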