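import Pool.Graph.R_seed8.H373R2.T7.SysCount
import Pool.Graph.R_seed8.H373R2.T7.SingLow
import Pool.Graph.R_seed8.H373R2.T7.SingLim

set_option autoImplicit false

/-! The singular series of a system of linear forms, and the number of the integers at which all forms have no small
prime factors. -/

namespace Pool.Agent.H579.G

open Finset
open Pool.Agent.H373R2.T7

/-- the local factor -/
noncomputable def fac (k : ℕ) (ν : ℕ → ℕ) (p : ℕ) : ℝ := (1 - (ν p : ℝ) / p) / (1 - 1 / (p : ℝ)) ^ k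

lemma one_sub_pos {p : ℕ} (hp : p.Prime) : 0 < 1 - 1 / (p : ℝ) := by
  have hp2 : (2 : ℝ) ≤ p := by exact_mod_cast hp.two_le
  rw [sub_pos, div_lt_one (by linarith)]
  linarith

lemma fac_nn {k p : ℕ} {ν : ℕ → ℕ} (hp : p.Prime) (h : ν p ≤ p) : 0 ≤ fac k ν p := by
  have hp0 : (0 : ℝ) < p := by exact_mod_cast hp.pos
  unfold fac
  refine div_nonneg ?_ (pow_nonneg (one_sub_pos hp).le _)
  rw [sub_nonneg, div_le_one hp0]
  exact_mod_cast h

lemma fac_low {k p : ℕ} {ν : ℕ → ℕ} (hp : p.Prime) (h3 : 3 * k ≤ p) (h : ν p ≤ k) :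
    Real.exp (-((k : ℝ) ^ 2 * (1 / (p : ℝ) ^ 2))) ≤ fac k ν p := by
  have hp0 : (0 : ℝ) < p := by exact_mod_cast hp.pos
  have hq := one_sub_pos hp
  have hm3 : (3 * k : ℝ) ≤ p := by exact_mod_cast h3
  have hy : (k : ℝ) / p ≤ 1 / 3 := by rw [div_le_iff₀ hp0]; linarith
  have hy0 : 0 ≤ (k : ℝ) / p := by positivity
  have hνm : (ν p : ℝ) ≤ k := by exact_mod_cast h
  unfold fac
  rw [le_div_iff₀ (by positivity)]
  have h4 := exp_low hy0 hy
  have h5 : (1 - 1 / (p : ℝ)) ^ k ≤ Real.exp (-((k : ℝ) / p)) := by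
    have h6 : 1 - 1 / (p : ℝ) ≤ Real.exp (-(1 / p)) := by
      have := Real.add_one_le_exp (-(1 / (p : ℝ)))
      linarith
    calc (1 - 1 / (p : ℝ)) ^ k ≤ (Real.exp (-(1 / p))) ^ k := pow_le_pow_left₀ hq.le h6 k
      _ = Real.exp (-((k : ℝ) / p)) := by rw [← Real.exp_nat_mul]; congr 1; ring
  have h6 : 1 - (k : ℝ) / p ≤ 1 - (ν p : ℝ) / p := by
    have := div_le_div_of_nonneg_right hνm hp0.le
    linarith
  calc Real.exp (-((k : ℝ) ^ 2 * (1 / (p : ℝ) ^ 2))) * (1 - 1 / (p : ℝ)) ^ k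
      ≤ Real.exp (-((k : ℝ) ^ 2 * (1 / (p : ℝ) ^ 2))) * Real.exp (-((k : ℝ) / p)) :=
        mul_le_mul_of_nonneg_left h5 (Real.exp_pos _).le
    _ = Real.exp (-((k : ℝ) / p + ((k : ℝ) / p) ^ 2)) := by rw [← Real.exp_add]; congr 1; ring
    _ ≤ 1 - (k : ℝ) / p := h4
    _ ≤ _ := h6

lemma bern {k p : ℕ} (hp : p.Prime) : 1 - (k : ℝ) / p ≤ (1 - 1 / (p : ℝ)) ^ k := by
  have hp2 : (2 : ℝ) ≤ p := by exact_mod_cast hp.two_le
  have h4 := one_add_mul_le_pow (a := -(1 / (p : ℝ))) (by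
    have : 1 / (p : ℝ) ≤ 1 := by
      rw [div_le_one (by linarith)]
      linarith
    linarith) k
  have e : 1 + (k : ℝ) * -(1 / (p : ℝ)) = 1 - k / p := by ring
  rw [e] at h4
  exact h4

lemma fac_up {k p : ℕ} {ν : ℕ → ℕ} (hp : p.Prime) (h3 : 3 * k ≤ p) : fac k ν p ≤ Real.exp (2 * k / p) := by
  have hp0 : (0 : ℝ) < p := by exact_mod_cast hp.pos
  have hq := one_sub_pos hp
  have hm3 : (3 * k : ℝ) ≤ p := by exact_mod_cast h3
  have hy : (k : ℝ) / p ≤ 1 / 3 := by rw [div_le_iff₀ hp0]; linarith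
  have hy0 : 0 ≤ (k : ℝ) / p := by positivity
  have hb := bern (k := k) hp
  unfold fac
  have h4 : 1 - (ν p : ℝ) / p ≤ 1 := by
    have : 0 ≤ (ν p : ℝ) / p := by positivity
    linarith
  rw [div_le_iff₀ (by positivity)]
  have h5 : 1 + 2 * ((k : ℝ) / p) ≤ Real.exp (2 * (k : ℝ) / p) := by
    have := Real.add_one_le_exp (2 * (k : ℝ) / p)
    have e : 2 * (k : ℝ) / p = 2 * ((k : ℝ) / p) := by ring
    rw [e] at this ⊢
    linarith
  have h6 : 1 ≤ (1 + 2 * ((k : ℝ) / p)) * (1 - (k : ℝ) / p) := by nlinarith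
  calc 1 - (ν p : ℝ) / p ≤ 1 := h4
    _ ≤ (1 + 2 * ((k : ℝ) / p)) * (1 - (k : ℝ) / p) := h6
    _ ≤ Real.exp (2 * (k : ℝ) / p) * (1 - 1 / (p : ℝ)) ^ k := by
        apply mul_le_mul h5 hb (by linarith) (Real.exp_pos _).le

lemma fac_one {k p : ℕ} {ν : ℕ → ℕ} (hp : p.Prime) (h : ν p = k) : fac k ν p ≤ 1 := by
  have hq := one_sub_pos hp
  unfold fac
  rw [div_le_one (by positivity), h]
  exact bern hp

lemma fac_mult {k : ℕ} (ν : ℕ → ℕ) (Bad : Finset ℕ) (h : ∀ p : ℕ, p.Prime → p ∉ Bad → ν p = k) :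
    Multipliable (fun p : Nat.Primes => fac k ν p) := by
  have h1 : Summable (fun p : Nat.Primes => ‖fac k ν p - 1‖) := by
    have hs : Summable (fun p : Nat.Primes => (k : ℝ) ^ 2 * (1 / ((p : ℕ) : ℝ) ^ 2)) := by
      refine Summable.mul_left _ ?_
      exact (Real.summable_one_div_nat_pow.2 (by norm_num : 1 < 2)).comp_injective Nat.Primes.coe_nat_injective
    refine Summable.of_norm_bounded_eventually hs ?_
    rw [Filter.eventually_cofinite]
    refine Set.Finite.subset (((Bad ∪ range (3 * k)).finite_toSet).preimage Nat.Primes.coe_nat_injective.injOn) ?_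
    intro p hp
    rw [Set.mem_preimage, mem_coe, mem_union, mem_range]
    by_contra hcon
    push Not at hcon
    apply hp
    have e1 := h p p.2 hcon.1
    have e2 := fac_low (k := k) (ν := ν) p.2 hcon.2 e1.le
    have e3 := fac_one (k := k) (ν := ν) p.2 e1
    have e4 := Real.add_one_le_exp (-((k : ℝ) ^ 2 * (1 / ((p : ℕ) : ℝ) ^ 2)))
    rw [norm_norm, Real.norm_eq_abs, abs_le]
    constructor <;> linarith [show 0 ≤ (k : ℝ) ^ 2 * (1 / ((p : ℕ) : ℝ) ^ 2) by positivity]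
  have h2 := multipliable_one_add_of_summable h1
  simpa using h2

/-- the singular series is not much larger than the finite product -/
lemma sing_le {k : ℕ} (ν : ℕ → ℕ) (Bad : Finset ℕ) (h : ∀ p : ℕ, p.Prime → p ∉ Bad → ν p = k)
    (h2 : ∀ p : ℕ, p.Prime → ν p ≤ p) {z : ℕ} (hz1 : 1 ≤ z) (hz : 3 * k ≤ z) :
    ∏' p : Nat.Primes, fac k ν p ≤ (∏ p ∈ pz z, fac k ν p) * Real.exp (2 * k * Bad.card / z) := by
  classical
  have hp := (fac_mult ν Bad h).hasProd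
  have hz0 : (0 : ℝ) < z := by exact_mod_cast hz1
  have hp' : Filter.Tendsto (fun s : Finset Nat.Primes => ∏ p ∈ s, fac k ν (p : ℕ)) Filter.atTop
      (nhds (∏' p : Nat.Primes, fac k ν (p : ℕ))) := by
    unfold HasProd at hp
    rwa [SummationFilter.unconditional_filter] at hp
  refine le_of_tendsto hp' ?_
  rw [Filter.eventually_atTop]
  obtain ⟨s₀, hmem, e1⟩ : ∃ s₀ : Finset Nat.Primes, (∀ p : Nat.Primes, p ∈ s₀ ↔ (p : ℕ) ∈ pz z) ∧
      ∏ p ∈ s₀, fac k ν (p : ℕ) = ∏ p ∈ pz z, fac k ν p :=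
    ⟨(pz z).subtype Nat.Prime, fun p => mem_subtype,
      prod_subtype_of_mem (f := fun p => fac k ν p) (fun p hp => (mem_pz.1 hp).2)⟩
  refine ⟨s₀, fun s hs => ?_⟩
  have e2 : ∏ p ∈ s, fac k ν (p : ℕ) = (∏ p ∈ s₀, fac k ν (p : ℕ)) * ∏ p ∈ s \ s₀, fac k ν (p : ℕ) := by
    rw [mul_comm]
    exact (prod_sdiff hs).symm
  rw [e2, e1]
  have hnn : 0 ≤ ∏ p ∈ pz z, fac k ν p := prod_nonneg fun p hp => fac_nn (mem_pz.1 hp).2 (h2 p (mem_pz.1 hp).2)
  refine mul_le_mul_of_nonneg_left ?_ hnn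
  have hbig : ∀ p ∈ s \ s₀, z < (p : ℕ) := by
    intro p hp
    rw [mem_sdiff, hmem, mem_pz] at hp
    by_contra hcon
    exact hp.2 ⟨not_lt.1 hcon, p.2⟩
  have e3 : ∀ p ∈ s \ s₀, fac k ν (p : ℕ) ≤
      Real.exp (if (p : ℕ) ∈ Bad then 2 * k / z else 0) := by
    intro p hp
    have hb := hbig p hp
    split_ifs with hB
    · refine (fac_up p.2 (by omega)).trans (Real.exp_le_exp.2 ?_)
      refine div_le_div_of_nonneg_left (by positivity) hz0 ?_
      exact_mod_cast hb.le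
    · rw [Real.exp_zero]
      exact fac_one p.2 (h p p.2 hB)
  have e0 : ∀ p ∈ s \ s₀, 0 ≤ fac k ν (p : ℕ) := fun p _ => fac_nn p.2 (h2 p p.2)
  refine (prod_le_prod e0 e3).trans ?_
  rw [← Real.exp_sum]
  refine Real.exp_le_exp.2 ?_
  rw [← sum_filter (s := s \ s₀) (p := fun p : Nat.Primes => (p : ℕ) ∈ Bad), sum_const, nsmul_eq_mul]
  have e4 : (((s \ s₀).filter (fun p : Nat.Primes => (p : ℕ) ∈ Bad)).card : ℝ) ≤ Bad.card := by
    refine Nat.cast_le.2 (card_le_card_of_injOn (fun p : Nat.Primes => (p : ℕ)) (fun p hp => ?_)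
      Nat.Primes.coe_nat_injective.injOn)
    exact (mem_filter.1 hp).2
  calc (((s \ s₀).filter (fun p : Nat.Primes => (p : ℕ) ∈ Bad)).card : ℝ) * (2 * k / z) ≤
      Bad.card * (2 * k / z) := mul_le_mul_of_nonneg_right e4 (by positivity)
    _ = _ := by ring

end Pool.Agent.H579.G
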