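import Pool.Agent.H579.G.WtE
import Pool.Agent.H579.G.TupP

set_option autoImplicit false

/-! A prime and products of two primes: the asymptotic formula for almost all tuples of shifts in given residue
classes. -/

namespace Pool.Agent.H579.G

open Finset
open Pool.Agent.H373R2.T7
open Pool.Agent.H579.E
open Pool.Agent.Y614.GJ.Core (ev_log)

/-- a product of two primes is counted with a bounded multiplicity -/
lemma f2_abs {N n C : ℕ} {κ₁ κ₂ : ℝ} {α : ℕ → ℝ} (h0 : 0 < κ₁) (hC : 2 / κ₁ ≤ C) (hL : 3 ≤ Real.log N)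
    (hα : Al N κ₁ κ₂ α) (hn : n ≤ 2 * N) : |f2 α n| ≤ C * (2 * Real.log N) := by
  classical
  have hlog : 0 ≤ Real.log N := by linarith
  have hN0 : 0 < N := by
    rcases Nat.eq_zero_or_pos N with h | h
    · rw [h] at hL
      norm_num at hL
    · exact h
  have hNr : (0 : ℝ) < N := by exact_mod_cast hN0
  obtain ⟨P, hP⟩ : ∃ P, P = n.divisors.filter (fun d => α d ≠ 0) := ⟨_, rfl⟩
  have h1 : |f2 α n| ≤ (P.card : ℝ) * (2 * Real.log N) := by
    unfold f2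
    calc |∑ d ∈ n.divisors, α d * thp (n / d)| ≤ ∑ d ∈ n.divisors, |α d| * |thp (n / d)| := by
          refine (abs_sum_le_sum_abs _ _).trans (sum_le_sum fun d _ => le_of_eq (abs_mul _ _))
      _ = ∑ d ∈ P, |α d| * |thp (n / d)| := by
          rw [hP, sum_filter]
          refine sum_congr rfl fun d _ => ?_
          split_ifs with h
          · rfl
          · rw [not_not] at h
            rw [h]
            simp
      _ ≤ ∑ d ∈ P, 2 * Real.log N := by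
          refine sum_le_sum fun d _ => ?_
          have := thp_le (N := N) hL ((Nat.div_le_self n d).trans hn)
          calc |α d| * |thp (n / d)| ≤ 1 * (2 * Real.log N) :=
                mul_le_mul (hα.bd d) this (abs_nonneg _) zero_le_one
            _ = _ := one_mul _
      _ = _ := by rw [sum_const, nsmul_eq_mul]
  refine h1.trans (mul_le_mul_of_nonneg_right ?_ (by positivity))
  rcases Nat.eq_zero_or_pos n with h | hn0
  · rw [hP, h, Nat.divisors_zero, filter_empty, card_empty]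
    simp
  have h2 : P ⊆ n.primeFactors := by
    intro p hp
    rw [hP, mem_filter, Nat.mem_divisors] at hp
    exact Nat.mem_primeFactors.2 ⟨(hα.pr p hp.2).1, hp.1.1, by omega⟩
  have h3 : ∏ p ∈ P, p ∣ n := (prod_dvd_prod_of_subset _ _ _ h2).trans (Nat.prod_primeFactors_dvd n)
  have h4 : ((N : ℝ) ^ κ₁) ^ P.card ≤ 2 * N := by
    calc ((N : ℝ) ^ κ₁) ^ P.card = ∏ _p ∈ P, (N : ℝ) ^ κ₁ := by rw [prod_const]
      _ ≤ ∏ p ∈ P, (p : ℝ) := by
          refine prod_le_prod (fun p _ => by positivity) fun p hp => ?_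
          rw [hP, mem_filter] at hp
          exact (hα.pr p hp.2).2.1.le
      _ = ((∏ p ∈ P, p : ℕ) : ℝ) := by rw [Nat.cast_prod]
      _ ≤ n := by exact_mod_cast Nat.le_of_dvd hn0 h3
      _ ≤ _ := by exact_mod_cast hn
  have h5 : Real.log (((N : ℝ) ^ κ₁) ^ P.card) ≤ Real.log (2 * N) := Real.log_le_log (by positivity) h4
  rw [Real.log_pow, Real.log_rpow hNr, Real.log_mul (by norm_num) hNr.ne'] at h5
  have h6 := Real.log_two_lt_d9
  have h7 : (P.card : ℝ) * κ₁ * Real.log N ≤ 2 * Real.log N := by nlinarith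
  have h8 : (P.card : ℝ) * κ₁ ≤ 2 := le_of_mul_le_mul_right h7 (by linarith)
  rw [← le_div_iff₀ h0] at h8
  exact h8.trans hC

/-- the sum over the prime `p = n` and the products of two primes `n + h i` -/
noncomputable def wsumE {k : ℕ} (N : ℕ) (α : Fin k → ℕ → ℝ) (h : Fin k → ℤ) : ℝ :=
  ∑ n ∈ Icc 1 N, thp n * ∏ i, ex (f2 (α i)) (h i) n

/-- a prime and products of two primes, with the weights -/
theorem tupE (k : ℕ) (hk : 1 ≤ k) {κ₁ κ₂ ρ : ℝ} (h0 : 0 < κ₁) (h01 : κ₁ ≤ κ₂) (hκ : κ₂ < ρ) (hρ : ρ ≤ 1 / 5) (A : ℕ) :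
    ∃ c : ℕ, ∀ A₀ : ℕ, ∃ N₀ : ℕ, ∀ N : ℕ, N₀ ≤ N →
      ∃ D : Finset ℕ, (D.card : ℝ) ≤ Real.log N ^ c ∧ (∀ d ∈ D, Real.log N ^ A₀ < (d : ℝ)) ∧
      ∀ α : Fin k → ℕ → ℝ, (∀ i, Al N κ₁ κ₂ (α i)) →
      ∀ q : Fin k → ℕ, (∀ i, 1 ≤ q i ∧ (q i : ℝ) ≤ (N : ℝ) ^ (1 - ρ) ∧ ∀ d ∈ D, ¬ d ∣ q i) → ∀ a : Fin k → ℤ,
      ∀ T : Finset (Fin k → ℤ), (∀ h ∈ T, Function.Injective h ∧ ∀ i, 0 < h i ∧ h i ≤ N ∧ h i ≡ a i [ZMOD q i]) →
        (∀ h ∈ T, N / Real.log N ^ A <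
          |wsumE N α h - sing (fun _ => 1) (cons0 h) * (∏ i, WA N (α i)) * N|) →
        (T.card : ℝ) ≤ (∏ i, ((N : ℝ) / q i)) / Real.log N ^ A := by
  classical
  obtain ⟨c, hc⟩ := wtE h0 h01 hκ hρ (A + 3 + k + 1)
  obtain ⟨ns, hs⟩ := steps k (A + 3)
  obtain ⟨B₂, hB₂⟩ := prime_main k hk (A + 2)
  obtain ⟨C₁, nC, hC₁0, hC₁⟩ := sup_W (κ₁ := κ₁) (κ₂ := κ₂) h0 h01
  obtain ⟨C₂, hC₂⟩ := exists_nat_ge (2 / κ₁ + C₁ + 1)
  have h2k : 0 < 2 / κ₁ := by positivity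
  have hC2a : 2 / κ₁ ≤ (C₂ : ℝ) := by linarith
  have hC2b : C₁ ≤ (C₂ : ℝ) := by linarith
  have hC2c : 1 ≤ (C₂ : ℝ) := by linarith
  have hC2d : (0 : ℝ) < C₂ := by linarith
  refine ⟨c, fun A₀ => ?_⟩
  obtain ⟨B, hB⟩ := hc A₀
  obtain ⟨n1, h1⟩ := hB (B + B₂) (by omega)
  obtain ⟨n2, h2⟩ := hB₂ (B + B₂ + 1)
  obtain ⟨n3, h3⟩ := zpar (B + B₂)
  obtain ⟨n4, h4⟩ := Filter.eventually_atTop.1 (ev_log 1 (s := ρ) (by linarith) (C₂ ^ k + 10))
  refine ⟨n1 + n2 + n3 + n4 + ns + nC + 2, fun N hN => ?_⟩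
  obtain ⟨D, hD1, hD2, hD3⟩ := h1 N (by omega)
  obtain ⟨hL10, hzlo, hzhi, hV⟩ := h3 N (by omega)
  obtain ⟨hLk, hLρ⟩ := h4 N (by omega)
  have hN1 : 1 ≤ N := by omega
  have hN0 : (0 : ℝ) < N := by exact_mod_cast hN1
  refine ⟨D, hD1, hD2, fun α hα q hq a T hT hT2 => ?_⟩
  obtain ⟨z, hz⟩ : ∃ z, z = ⌈Real.log N ^ (B + B₂)⌉₊ := ⟨_, rfl⟩
  rw [← hz] at hD3 hzlo hzhi hV
  obtain ⟨L, hL⟩ : ∃ L, L = Real.log (N : ℝ) := ⟨_, rfl⟩
  have hW : ∀ i, |WA N (α i)| ≤ C₂ := fun i => ((hC₁ N (by omega) (α i) (hα i)).2).trans hC2b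
  have hVp := Vz_pos z
  have hCk : (C₂ : ℝ) ^ k ≤ L := by
    rw [hL]
    linarith
  have hCk0 : (0 : ℝ) < (C₂ : ℝ) ^ k := by positivity
  have hL0 : 0 < L := by rw [hL]; linarith
  have hL1 : 1 ≤ L := by rw [hL]; linarith
  have hL10' : 10 ≤ L := by rw [hL]; exact hL10
  have hPr : 0 ≤ ∏ i : Fin k, ((N : ℝ) / q i) := prod_nonneg fun i _ => by positivity
  have hqN : ∀ i, 1 ≤ q i ∧ q i + 1 ≤ N := by
    intro i
    refine ⟨(hq i).1, ?_⟩
    have e1 : (N : ℝ) ^ (1 - ρ) * (N : ℝ) ^ ρ = N := by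
      rw [← Real.rpow_add hN0]
      norm_num
    rw [pow_one] at hLρ
    have e2 : 2 ≤ (N : ℝ) ^ ρ := by linarith
    have e3 : (q i : ℝ) * 2 ≤ N := by
      rw [← e1]
      exact mul_le_mul (hq i).2.1 e2 (by norm_num) (by positivity)
    have e4 : q i * 2 ≤ N := by exact_mod_cast e3
    have := (hq i).1
    omega
  have key := hs N (by omega) q a (Icc 1 N) (fun i h n => ex (f2 (α i)) h n / C₂)
    (fun i h n => WA N (α i) * ex (lamz z) h n / C₂) hqN ?_ ?_ ?_ (fun n => thp n / (2 * Real.log N))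
    (fun n hn => ?_) T (fun h hh i => ?_) (fun h hh => ?_)
  · refine key.trans (div_le_div_of_nonneg_left hPr ?_ ?_)
    · rw [← hL]
      positivity
    · rw [← hL]
      exact pow_le_pow_right₀ hL1 (by omega)
  · intro i w hw T' hT' hT2'
    refine hD3 (α i) (hα i) (q i) (hq i).1 (hq i).2.1 (hq i).2.2 (Icc 1 N) (Subset.refl _) w hw (a i) T' hT'
      (fun h hh => lt_of_lt_of_le (hT2' h hh) ?_)
    have e1 : ∑ s ∈ Icc 1 N, w s * (ex (f2 (α i)) h s / C₂ - WA N (α i) * ex (lamz z) h s / C₂) =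
        (∑ s ∈ Icc 1 N, w s * (ex (f2 (α i)) h s - WA N (α i) * ex (lamz z) h s)) / C₂ := by
      rw [sum_div]
      refine sum_congr rfl fun s _ => ?_
      ring
    rw [e1, abs_div, abs_of_pos hC2d]
    exact div_le_self (abs_nonneg _) hC2c
  · intro i h hh n hn
    rw [abs_le] at hh
    have hnN := mem_Icc.1 hn
    rw [abs_div, abs_of_pos hC2d, div_le_iff₀ hC2d]
    refine ex_abs_le (M := 2 * N) (by positivity) hnN.2 hh.2 le_rfl (fun m hm => ?_)
    rw [mul_comm]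
    exact f2_abs h0 hC2a (by linarith) (hα i) (mem_Icc.1 hm).2
  · intro i h hh n hn
    rw [abs_le] at hh
    have hnN := mem_Icc.1 hn
    rw [abs_div, abs_of_pos hC2d, div_le_iff₀ hC2d, abs_mul, mul_comm]
    refine mul_le_mul ?_ (hW i) (abs_nonneg _) (by linarith)
    exact ex_abs_le (M := 2 * N) (by linarith) hnN.2 hh.2 le_rfl
        (fun m hm => lamz_abs_le (by linarith) hV)
  · rw [mem_Icc] at hn
    rw [abs_div, abs_of_pos (show 0 < 2 * Real.log N by linarith), div_le_one (by linarith)]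
    exact thp_le (by linarith) (by omega)
  · obtain ⟨e1, e2, e3⟩ := (hT h hh).2 i
    exact ⟨abs_le.2 ⟨by linarith, e2⟩, e3⟩
  · obtain ⟨hinj, hh0⟩ := hT h hh
    have e1 := hT2 h hh
    have e2 := h2 N (by omega) z ((pow_le_pow_right₀ (by rw [← hL]; exact hL1) (by omega)).trans hzlo) hzhi h hinj
      (fun i => ⟨(hh0 i).1, (hh0 i).2.1⟩)
    unfold wsumE at e1
    have e3 : ∑ n ∈ Icc 1 N, thp n / (2 * Real.log N) *
        (∏ i, ex (f2 (α i)) (h i) n / C₂ - ∏ i, WA N (α i) * ex (lamz z) (h i) n / C₂) =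
        (∑ n ∈ Icc 1 N, thp n * ∏ i, ex (f2 (α i)) (h i) n -
          (∏ i, WA N (α i)) * ∑ n ∈ Icc 1 N, thp n * ∏ i, ex (lamz z) (h i) n) / (2 * Real.log N * C₂ ^ k) := by
      rw [mul_sum, ← sum_sub_distrib, sum_div]
      refine sum_congr rfl fun n _ => ?_
      rw [prod_div_distrib, prod_div_distrib, prod_const, card_univ, Fintype.card_fin, prod_mul_distrib]
      field_simp
    rw [e3, abs_div, abs_of_pos (show 0 < 2 * Real.log N * (C₂ : ℝ) ^ k by rw [← hL]; positivity),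
      lt_div_iff₀ (by rw [← hL]; positivity)]
    have hWP : |∏ i, WA N (α i)| ≤ L := by
      rw [abs_prod]
      calc ∏ i, |WA N (α i)| ≤ ∏ _i : Fin k, (C₂ : ℝ) := prod_le_prod (fun i _ => abs_nonneg _) fun i _ => hW i
        _ = (C₂ : ℝ) ^ k := by rw [prod_const, card_univ, Fintype.card_fin]
        _ ≤ L := hCk
    have e4 := abs_sub_le (∑ n ∈ Icc 1 N, thp n * ∏ i, ex (f2 (α i)) (h i) n)
      ((∏ i, WA N (α i)) * ∑ n ∈ Icc 1 N, thp n * ∏ i, ex (lamz z) (h i) n)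
      (sing (fun _ => 1) (cons0 h) * (∏ i, WA N (α i)) * N)
    have e5 : |(∏ i, WA N (α i)) * ∑ n ∈ Icc 1 N, thp n * ∏ i, ex (lamz z) (h i) n -
        sing (fun _ => 1) (cons0 h) * (∏ i, WA N (α i)) * N| ≤ L * (N / L ^ (A + 2)) := by
      rw [show (∏ i, WA N (α i)) * ∑ n ∈ Icc 1 N, thp n * ∏ i, ex (lamz z) (h i) n -
        sing (fun _ => 1) (cons0 h) * (∏ i, WA N (α i)) * N = (∏ i, WA N (α i)) *
        (∑ n ∈ Icc 1 N, thp n * ∏ i, ex (lamz z) (h i) n - sing (fun _ => 1) (cons0 h) * N) by ring, abs_mul]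
      rw [← hL] at e2
      exact mul_le_mul hWP e2 (abs_nonneg _) hL0.le
    rw [← hL] at e1 ⊢
    have e6 : (N : ℝ) / L ^ (A + 3) * (2 * L * C₂ ^ k) + L * (N / L ^ (A + 2)) ≤ N / L ^ A := by
      calc (N : ℝ) / L ^ (A + 3) * (2 * L * C₂ ^ k) + L * (N / L ^ (A + 2)) ≤
          (N : ℝ) / L ^ (A + 3) * (2 * L * L) + L * (N / L ^ (A + 2)) := by gcongr
        _ = N / L ^ A * (3 / L) := by
            rw [pow_add, pow_add]
            field_simp
            ring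
        _ ≤ N / L ^ A * 1 := by
            refine mul_le_mul_of_nonneg_left ?_ (by positivity)
            rw [div_le_one hL0]
            linarith
        _ = _ := mul_one _
    linarith

end Pool.Agent.H579.G
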