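import Pool.Agent.H579.G.TupS
import Pool.Agent.H579.G.Rough

set_option autoImplicit false

/-! Prime tuples: almost all tuples of shifts in given residue classes. -/

namespace Pool.Agent.H579.G

open Finset
open Pool.Agent.H373R2.T7 (lamz Vz pz Vz_pos Vz_inv_small mem_pz)
open Pool.Agent.Y614.GJ.Core (ev_log)

lemma c138 {k : ℕ} (hk : 1 ≤ k) : (1 / 8 : ℝ) ^ k ≤ 99 / 100 * (95 / 100) * (138 / 1000) ^ k := by
  have h1 : (1104 / 1000 : ℝ) ≤ (1104 / 1000) ^ k := le_self_pow₀ (by norm_num) (by omega)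
  have h2 : (138 / 1000 : ℝ) ^ k = (1 / 8) ^ k * (1104 / 1000) ^ k := by
    rw [← mul_pow]
    norm_num
  have h3 : (0 : ℝ) < (1 / 8) ^ k := by positivity
  rw [h2]
  nlinarith

/-- the arithmetic: from the bound with the numbers without small prime factors to the singular series -/
lemma to_sing {k A' : ℕ} {c L V N R s P : ℝ} (hk : 1 ≤ k) (hc : 0 < c) (hL : 1 ≤ L) (hN : 0 < N) (hV : 0 < V)
    (hLc : 100 / ((138 / 1000) ^ k * c) ≤ L) (hA : k + 1 ≤ A') (hR1 : 95 / 100 * (s * V ^ k * N) ≤ R)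
    (hR2 : s = 0 ∨ c * (V ^ k * N) ≤ R) (hP0 : 0 ≤ P) (hP : P < (1 / 8) ^ k * s * (N / L ^ k)) :
    P < (138 / 1000 / (V * L)) ^ k * R - N / L ^ A' := by
  have hL0 : 0 < L := by linarith
  have hs : 0 < s := by
    by_contra hcon
    rw [not_lt] at hcon
    have h1 : (1 / 8 : ℝ) ^ k * s * (N / L ^ k) ≤ 0 := by
      apply mul_nonpos_of_nonpos_of_nonneg _ (by positivity)
      exact mul_nonpos_of_nonneg_of_nonpos (by positivity) hcon
    linarith
  have h2 : c * (V ^ k * N) ≤ R := by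
    rcases hR2 with h | h
    · exact absurd h hs.ne'
    · exact h
  obtain ⟨l, hl⟩ : ∃ l : ℝ, l = (138 / 1000 : ℝ) ^ k := ⟨_, rfl⟩
  have hl0 : 0 < l := by rw [hl]; positivity
  have e1 : (138 / 1000 / (V * L)) ^ k * R = l * (R / (V ^ k * L ^ k)) := by
    rw [div_pow, mul_pow, hl]
    ring
  rw [← hl] at hLc
  have hlow : l * c * (N / L ^ k) ≤ l * (R / (V ^ k * L ^ k)) := by
    have : c * (N / L ^ k) ≤ R / (V ^ k * L ^ k) := by
      rw [le_div_iff₀ (by positivity)]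
      calc c * (N / L ^ k) * (V ^ k * L ^ k) = c * (V ^ k * N) := by field_simp
        _ ≤ R := h2
    calc l * c * (N / L ^ k) = l * (c * (N / L ^ k)) := by ring
      _ ≤ _ := mul_le_mul_of_nonneg_left this hl0.le
  have hlow2 : l * (95 / 100) * (s * (N / L ^ k)) ≤ l * (R / (V ^ k * L ^ k)) := by
    have : 95 / 100 * (s * (N / L ^ k)) ≤ R / (V ^ k * L ^ k) := by
      rw [le_div_iff₀ (by positivity)]
      calc 95 / 100 * (s * (N / L ^ k)) * (V ^ k * L ^ k) = 95 / 100 * (s * V ^ k * N) := by field_simp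
        _ ≤ R := hR1
    calc l * (95 / 100) * (s * (N / L ^ k)) = l * (95 / 100 * (s * (N / L ^ k))) := by ring
      _ ≤ _ := mul_le_mul_of_nonneg_left this hl0.le
  have herr : N / L ^ A' ≤ 1 / 100 * (l * c * (N / L ^ k)) := by
    have h3 : N / L ^ A' ≤ N / L ^ (k + 1) :=
      div_le_div_of_nonneg_left hN.le (by positivity) (pow_le_pow_right₀ hL hA)
    refine h3.trans ?_
    rw [div_le_iff₀ (by positivity)] at hLc
    rw [div_le_iff₀ (by positivity)]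
    calc N = N * (1 / 100) * 100 := by ring
      _ ≤ N * (1 / 100) * (L * (l * c)) := mul_le_mul_of_nonneg_left hLc (by positivity)
      _ = _ := by
          rw [pow_succ]
          field_simp
  have h138 := c138 hk
  rw [← hl] at h138
  have hsN : 0 ≤ s * (N / L ^ k) := by positivity
  have h4 : (1 / 8 : ℝ) ^ k * (s * (N / L ^ k)) ≤ 99 / 100 * (95 / 100) * l * (s * (N / L ^ k)) :=
    mul_le_mul_of_nonneg_right h138 hsN
  rw [e1]
  have h5 : (1 / 8 : ℝ) ^ k * s * (N / L ^ k) = (1 / 8 : ℝ) ^ k * (s * (N / L ^ k)) := by ring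
  rw [h5] at hP
  linarith

/-- the numbers without small prime factors, for the forms `n + h` -/
lemma rough_shift {k N z : ℕ} {h : Fin k → ℤ} (h0 : ∀ i, 0 ≤ h i) :
    (((Icc 1 N : Finset ℕ) : Set ℕ) ∩ {n | ∀ i, RoP z (h i) n}) =
      {n | n ∈ Icc 1 N ∧ ∀ p ∈ pz z, ¬ Qf (fun _ => 1) h p n} := by
  ext n
  rw [Set.mem_inter_iff, mem_coe, Set.mem_ofPred_eq, Set.mem_ofPred_eq]
  refine and_congr_right fun hn => ?_
  rw [mem_Icc] at hn
  unfold RoP Qf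
  constructor
  · rintro h1 p hp ⟨i, hi⟩
    rw [mem_pz] at hp
    rw [one_mul] at hi
    exact (h1 i).2 p hp.2 hp.1 hi
  · intro h1 i
    have := h0 i
    refine ⟨by omega, fun p hp hpz hd => ?_⟩
    refine h1 p (mem_pz.2 ⟨hpz, hp⟩) ⟨i, ?_⟩
    rw [one_mul]
    exact hd

theorem tupMain (k : ℕ) (hk : 1 ≤ k) (ρ : ℝ) (hρ : 0 < ρ) (A : ℕ) :
    ∃ c : ℕ, ∀ A₀ : ℕ, ∃ B : ℕ, ∀ E : ℕ, B ≤ E → ∃ N₀ : ℕ, ∀ N : ℕ, N₀ ≤ N →
      ∃ D : Finset ℕ, (D.card : ℝ) ≤ Real.log N ^ c ∧ (∀ d ∈ D, Real.log N ^ A₀ < (d : ℝ)) ∧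
      ∀ q : Fin k → ℕ, (∀ i, 1 ≤ q i ∧ (q i : ℝ) ≤ (N : ℝ) ^ (4 / 5 - ρ) ∧ ∀ d ∈ D, ¬ d ∣ q i) → ∀ a : Fin k → ℤ,
      (∀ T : Finset (Fin k → ℤ), (∀ h ∈ T, Function.Injective h ∧ ∀ i, 0 ≤ h i ∧ h i ≤ N ∧ h i ≡ a i [ZMOD q i]) →
        (∀ h ∈ T, ((((Icc 1 N : Finset ℕ) : Set ℕ) ∩ {n | ∀ i, PrP (h i) n}).ncard : ℝ) <
          (1 / 8) ^ k * sing (fun _ => 1) h * (N / Real.log N ^ k)) →
        (T.card : ℝ) ≤ (∏ i, ((N : ℝ) / q i)) / Real.log N ^ A) ∧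
      ∀ S : Finset ℕ, S ⊆ Icc 1 N → ∀ T : Finset (Fin k → ℤ), (∀ h ∈ T, ∀ i, |h i| ≤ N ∧ h i ≡ a i [ZMOD q i]) →
        (∀ h ∈ T, (((S : Set ℕ) ∩ {n | ∀ i, PrP (h i) n}).ncard : ℝ) <
          (1 / 8) ^ k * (((S : Set ℕ) ∩ {n | ∀ i, RoP ⌈Real.log N ^ E⌉₊ (h i) n}).ncard /
            (Vz ⌈Real.log N ^ E⌉₊ * Real.log N) ^ k) - N / Real.log N ^ A) →
        (T.card : ℝ) ≤ (∏ i, ((N : ℝ) / q i)) / Real.log N ^ A := by
  classical
  obtain ⟨cr, hcr0, hcr⟩ := rough_low k hk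
  obtain ⟨c, hc⟩ := tupS k ρ hρ (A + k + 1)
  refine ⟨c, fun A₀ => ?_⟩
  obtain ⟨B, hB⟩ := hc A₀
  refine ⟨B + 2, fun E hE => ?_⟩
  obtain ⟨n1, h1⟩ := hB E (by omega)
  obtain ⟨n2, h2⟩ := hcr (E + 1) 1
  obtain ⟨n3, h3⟩ := Filter.eventually_atTop.1 (ev_log 1 (s := 1) (by norm_num) (100 / ((138 / 1000) ^ k * cr) + 10))
  refine ⟨n1 + n2 + n3 + 2, fun N hN => ?_⟩
  obtain ⟨D, hD1, hD2, hD3⟩ := h1 N (by omega)
  obtain ⟨hLR, -⟩ := h3 N (by omega)
  refine ⟨D, hD1, hD2, fun q hq a => ?_⟩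
  have hN1 : 1 ≤ N := by omega
  have hN0 : (0 : ℝ) < N := by exact_mod_cast hN1
  have hR0 : 0 < 100 / ((138 / 1000 : ℝ) ^ k * cr) := by positivity
  have hL10 : 10 ≤ Real.log N := by linarith
  have hL1 : 1 ≤ Real.log N := by linarith
  have hL0 : 0 < Real.log N := by linarith
  have hPr : 0 ≤ ∏ i : Fin k, ((N : ℝ) / q i) := prod_nonneg fun i _ => by positivity
  have hdown : (∏ i, ((N : ℝ) / q i)) / Real.log N ^ (A + k + 1) ≤ (∏ i, ((N : ℝ) / q i)) / Real.log N ^ A :=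
    div_le_div_of_nonneg_left hPr (by positivity) (pow_le_pow_right₀ hL1 (by omega))
  have hNdown : (N : ℝ) / Real.log N ^ (A + k + 1) ≤ N / Real.log N ^ A :=
    div_le_div_of_nonneg_left hN0.le (by positivity) (pow_le_pow_right₀ hL1 (by omega))
  have hD4 := hD3 q hq a
  obtain ⟨z, hz⟩ : ∃ z, z = ⌈Real.log N ^ E⌉₊ := ⟨_, rfl⟩
  rw [← hz] at hD4 ⊢
  refine ⟨fun T hT1 hT2 => ?_, fun S hS T hT1 hT2 => ?_⟩
  · refine (hD4 (Icc 1 N) (Subset.refl _) T (fun h hh i => ?_) (fun h hh => ?_)).trans hdown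
    · obtain ⟨e1, e2, e3⟩ := (hT1 h hh).2 i
      exact ⟨abs_le.2 ⟨by linarith, e2⟩, e3⟩
    · obtain ⟨hinj, hh0⟩ := hT1 h hh
      have e1 := hT2 h hh
      have hzlo : Real.log N ^ E ≤ z := by rw [hz]; exact Nat.le_ceil _
      have hzhi : (z : ℝ) ≤ Real.log N ^ (E + 1) := by
        have := Nat.ceil_lt_add_one (show 0 ≤ Real.log N ^ E by positivity)
        rw [← hz] at this
        have hLE : 1 ≤ Real.log N ^ E := one_le_pow₀ hL1
        calc (z : ℝ) ≤ Real.log N ^ E + 1 := this.le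
          _ ≤ Real.log N ^ E + Real.log N ^ E := by linarith
          _ = 2 * Real.log N ^ E := by ring
          _ ≤ Real.log N * Real.log N ^ E := mul_le_mul_of_nonneg_right (by linarith) (by positivity)
          _ = Real.log N ^ (E + 1) := by ring
      obtain ⟨r1, r2⟩ := h2 N (by omega) z ((pow_le_pow_right₀ hL1 (by omega)).trans hzlo) hzhi (fun _ => 1) h
        (fun _ => one_ne_zero) (fun i j hij e => hij (hinj (by linarith)).symm)
        (fun _ => by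
          rw [Int.natAbs_one]
          exact Nat.one_le_pow _ _ hN1)
        (fun i => by
          have := (hh0 i).1
          have := (hh0 i).2.1
          rw [pow_one]
          omega)
      have e2 : (((Icc 1 N : Finset ℕ) : Set ℕ) ∩ {n | ∀ i, RoP z (h i) n}).ncard =
          ((Icc 1 N).filter (fun m => ∀ p ∈ pz z, ¬ Qf (fun _ => 1) h p m)).card := by
        rw [rough_shift (fun i => (hh0 i).1), ← Set.ncard_coe_finset]
        congr 1
        ext n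
        rw [mem_coe, mem_filter]
        rfl
      rw [e2]
      exact to_sing hk hcr0 hL1 hN0 (Vz_pos z) (by linarith) (by omega) r1 r2 (Nat.cast_nonneg _) e1
  · refine (hD4 S hS T hT1 (fun h hh => ?_)).trans hdown
    have e1 := hT2 h hh
    refine e1.trans_le ?_
    have hV := Vz_pos z
    have e2 : (1 / 8 : ℝ) ^ k * (((S : Set ℕ) ∩ {n | ∀ i, RoP z (h i) n}).ncard / (Vz z * Real.log N) ^ k) ≤
        (138 / 1000 / (Vz z * Real.log N)) ^ k * ((S : Set ℕ) ∩ {n | ∀ i, RoP z (h i) n}).ncard := by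
      rw [div_pow (138 / 1000 : ℝ)]
      have e3 : (1 / 8 : ℝ) ^ k ≤ (138 / 1000) ^ k := pow_le_pow_left₀ (by norm_num) (by norm_num) k
      calc (1 / 8 : ℝ) ^ k * (((S : Set ℕ) ∩ {n | ∀ i, RoP z (h i) n}).ncard / (Vz z * Real.log N) ^ k) ≤
          (138 / 1000) ^ k * (((S : Set ℕ) ∩ {n | ∀ i, RoP z (h i) n}).ncard / (Vz z * Real.log N) ^ k) :=
            mul_le_mul_of_nonneg_right e3 (by positivity)
        _ = _ := by ring
    linarith

end Pool.Agent.H579.G
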