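import Pool.Agent.H579.G.TupP

set_option autoImplicit false

/-! Tuples of primes: the final form. -/

namespace Pool.Agent.H579.G

open Finset
open Pool.Agent.H373R2.T7
open Pool.Agent.Y614.GJ.Core (ev_log)

lemma sing_nn {k : ℕ} (q b : Fin k → ℤ) : 0 ≤ sing q b := by
  unfold sing
  by_cases h : Multipliable (fun p : Nat.Primes => fac k (nuB (Qf q b)) p)
  · have hp := h.hasProd
    unfold HasProd at hp
    rw [SummationFilter.unconditional_filter] at hp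
    refine ge_of_tendsto hp ?_
    refine Filter.Eventually.of_forall fun s => ?_
    exact prod_nonneg fun p _ => fac_nn p.2 (nuB_le _ _)
  · rw [tprod_eq_one_of_not_multipliable h]
    norm_num

/-- prime tuples: weights and numbers -/
theorem tupQ (k : ℕ) (hk : 1 ≤ k) {ρ : ℝ} (hρ : 0 < ρ) (A : ℕ) {ε : ℝ} (hε : 0 < ε) :
    ∃ c : ℕ, ∀ A₀ : ℕ, ∃ N₀ : ℕ, ∀ N : ℕ, N₀ ≤ N →
      ∃ D : Finset ℕ, (D.card : ℝ) ≤ Real.log N ^ c ∧ (∀ d ∈ D, Real.log N ^ A₀ < (d : ℝ)) ∧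
      ∀ q : Fin k → ℕ, (∀ i, 1 ≤ q i ∧ (q i : ℝ) ≤ (N : ℝ) ^ (2 / 3 - ρ) ∧ ∀ d ∈ D, ¬ d ∣ q i) → ∀ a : Fin k → ℤ,
      ∀ T : Finset (Fin k → ℤ), (∀ h ∈ T, Function.Injective h ∧ ∀ i, 0 < h i ∧ h i ≤ N ∧ h i ≡ a i [ZMOD q i]) →
        (∀ h ∈ T, N / Real.log N ^ A < |wsum N h - sing (fun _ => 1) (cons0 h) * N| ∨
          ε * (sing (fun _ => 1) (cons0 h) * (N / Real.log N ^ (k + 1))) + N / Real.log N ^ A <
            |(cntP N h : ℝ) - sing (fun _ => 1) (cons0 h) * (N / Real.log N ^ (k + 1))|) →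
        (T.card : ℝ) ≤ (∏ i, ((N : ℝ) / q i)) / Real.log N ^ A := by
  classical
  obtain ⟨c, hc⟩ := tupP k hk hρ (A + 2)
  obtain ⟨n2, h2⟩ := cnt_of_wsum k A hε
  obtain ⟨n3, h3⟩ := Filter.eventually_atTop.1 (ev_log 1 (s := 1) (by norm_num) 10)
  refine ⟨c, fun A₀ => ?_⟩
  obtain ⟨n1, h1⟩ := hc A₀
  refine ⟨n1 + n2 + n3 + 1, fun N hN => ?_⟩
  obtain ⟨D, hD1, hD2, hD3⟩ := h1 N (by omega)
  obtain ⟨hL10, -⟩ := h3 N (by omega)
  refine ⟨D, hD1, hD2, fun q hq a T hT hT2 => ?_⟩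
  have hN0 : (0 : ℝ) < N := by exact_mod_cast (show 0 < N by omega)
  have hL0 : 0 < Real.log N := by linarith
  have hL1 : 1 ≤ Real.log N := by linarith
  have hPr : 0 ≤ ∏ i : Fin k, ((N : ℝ) / q i) := prod_nonneg fun i _ => by positivity
  refine (hD3 q hq a T hT (fun h hh => ?_)).trans
    (div_le_div_of_nonneg_left hPr (by positivity) (pow_le_pow_right₀ hL1 (by omega)))
  by_contra hcon
  rw [not_lt] at hcon
  have e1 := h2 N (by omega) h (fun i => ⟨((hT h hh).2 i).1, ((hT h hh).2 i).2.1⟩) _ (sing_nn _ _) hcon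
  rcases hT2 h hh with e2 | e2
  · have e3 : (N : ℝ) / Real.log N ^ (A + 2) ≤ N / Real.log N ^ A :=
      div_le_div_of_nonneg_left hN0.le (by positivity) (pow_le_pow_right₀ hL1 (by omega))
    linarith
  · linarith

end Pool.Agent.H579.G
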