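import Pool.Agent.H579.L.MS
import Pool.Graph.R_seed8.R460.GS.Core2

set_option autoImplicit false

/-! Few shifts in a residue class with a large weighted sum. -/

namespace Pool.Agent.H579.G

open Finset
open Pool.Agent.Y883.GJ
open Pool.Agent.R460.GS
open Pool.Agent.Y614.GJ.Core (P P_nonneg)
open Pool.Agent.H579.L (cor ms1)

/-- the value of `F` at `s + h` if it is positive -/
noncomputable def ex (F : ℕ → ℝ) (h : ℤ) (s : ℕ) : ℝ := if 0 < (s : ℤ) + h then F ((s : ℤ) + h).toNat else 0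

lemma ex_sub (F G : ℕ → ℝ) (h : ℤ) (s : ℕ) : ex (fun n => F n - G n) h s = ex F h s - ex G h s := by
  unfold ex
  split_ifs <;> simp

lemma ex_abs_le {F : ℕ → ℝ} {h : ℤ} {s N M : ℕ} {C : ℝ} (hC : 0 ≤ C) (hs : s ≤ N) (hh : h ≤ N) (hM : 2 * N ≤ M)
    (hF : ∀ n ∈ Icc 1 M, |F n| ≤ C) : |ex F h s| ≤ C := by
  unfold ex
  split_ifs with h1
  · refine hF _ ?_
    rw [mem_Icc]
    omega
  · rw [abs_zero]
    exact hC

/-- the sum over a translate -/
lemma ex_sum_le {F : ℕ → ℝ} {h : ℤ} {N M : ℕ} {S : Finset ℕ} (hS : S ⊆ Icc 1 N) (hh : h ≤ N) (hM : 2 * N ≤ M)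
    (w : ℕ → ℝ) (hw : ∀ n ∈ S, |w n| ≤ 1) : |∑ s ∈ S, w s * ex F h s| ≤ ∑ n ∈ Icc 1 M, |F n| := by
  classical
  refine (abs_sum_le_sum_abs _ _).trans ?_
  have h1 : ∀ s ∈ S, |w s * ex F h s| ≤ if 0 < (s : ℤ) + h then |F ((s : ℤ) + h).toNat| else 0 := by
    intro s hs
    rw [abs_mul]
    unfold ex
    split_ifs
    · exact mul_le_of_le_one_left (abs_nonneg _) (hw s hs)
    · simp
  refine (sum_le_sum h1).trans ?_
  rw [← sum_filter, ← sum_image (f := fun n => |F n|) (g := fun s : ℕ => ((s : ℤ) + h).toNat)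
    (s := S.filter (fun s : ℕ => 0 < (s : ℤ) + h))]
  · refine sum_le_sum_of_subset_of_nonneg (fun n hn => ?_) fun _ _ _ => abs_nonneg _
    rw [mem_image] at hn
    obtain ⟨s, hs, rfl⟩ := hn
    rw [mem_filter] at hs
    have := mem_Icc.1 (hS hs.1)
    rw [mem_Icc]
    omega
  · intro x hx y hy hxy
    rw [mem_coe, mem_filter] at hx hy
    simp only at hxy
    omega

/-- the weight as a function -/
noncomputable def wf (S : Finset ℕ) (w : ℕ → ℝ) (n : ℕ) : ℂ := if n ∈ S then ((w n : ℝ) : ℂ) else 0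

lemma cor_ex {S : Finset ℕ} {N M : ℕ} {k : ℤ} (hS : S ⊆ Icc 1 N) (hk2 : k ≤ N)
    (hM : 2 * N ≤ M) (F w : ℕ → ℝ) :
    cor M (fun n => ((F n : ℝ) : ℂ)) (wf S w) k = ((∑ s ∈ S, w s * ex F k s : ℝ) : ℂ) := by
  classical
  unfold cor
  rw [sum_comm]
  have hb : ∀ c ∈ Icc 1 M, (∑ b ∈ Icc 1 M, if (b : ℤ) - c = k then ((F b : ℝ) : ℂ) * (starRingEnd ℂ) (wf S w c) else 0) =
      if c ∈ S then ((w c * ex F k c : ℝ) : ℂ) else 0 := by
    intro c hc
    rw [mem_Icc] at hc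
    by_cases hcS : c ∈ S
    · have hcN := mem_Icc.1 (hS hcS)
      rw [if_pos hcS]
      by_cases hpos : 0 < (c : ℤ) + k
      · rw [sum_eq_single ((c : ℤ) + k).toNat]
        · rw [if_pos (by omega)]
          unfold wf ex
          rw [if_pos hcS, if_pos hpos, Complex.conj_ofReal]
          push_cast
          ring
        · intro b _ hb
          rw [if_neg (by omega)]
        · intro h
          exact absurd (mem_Icc.2 ⟨by omega, by omega⟩) h
      · unfold ex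
        rw [if_neg hpos]
        rw [mul_zero, Complex.ofReal_zero]
        refine sum_eq_zero fun b hb => ?_
        rw [mem_Icc] at hb
        rw [if_neg (by omega)]
    · rw [if_neg hcS]
      refine sum_eq_zero fun b _ => ?_
      unfold wf
      rw [if_neg hcS]
      simp
  rw [sum_congr rfl hb, ← sum_filter]
  have e : (Icc 1 M).filter (fun c => c ∈ S) = S := by
    ext c
    rw [mem_filter]
    constructor
    · exact fun h => h.2
    · intro h
      have := mem_Icc.1 (hS h)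
      exact ⟨mem_Icc.2 ⟨by omega, by omega⟩, h⟩
  rw [e]
  push_cast
  rfl

/-- few shifts in a residue class with a large weighted sum -/
lemma wt_few {q N M : ℕ} [NeZero q] (hN : 1 ≤ N) (hM : 2 * N ≤ M) (F : ℕ → ℝ) {X δ : ℝ} (hX0 : 0 ≤ X) (hδ : 0 ≤ δ)
    (hX : ∀ β : ℝ, P q M (tr M (fun n => ((F n : ℝ) : ℂ))) β ≤ X) {S : Finset ℕ} (hS : S ⊆ Icc 1 N) (w : ℕ → ℝ)
    (hw : ∀ n ∈ S, |w n| ≤ 1) (a : ℤ) (T : Finset ℤ) (hT : ∀ h ∈ T, |h| ≤ N ∧ h ≡ a [ZMOD q])
    (hT2 : ∀ h ∈ T, δ < |∑ s ∈ S, w s * ex F h s|) : (T.card : ℝ) * δ ^ 2 ≤ X * N := by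
  classical
  have hX' : ∀ β : ℝ, P q M (fun n => ((F n : ℝ) : ℂ)) β ≤ X := by
    intro β
    refine le_trans (le_of_eq ?_) (hX β)
    unfold P
    refine sum_congr rfl fun l _ => ?_
    rw [cl_tr (le_refl M)]
  have h1 := ms1 (q := q) (N := M) (by omega) (fun n => ((F n : ℝ) : ℂ)) (wf S w) hX' ((a : ℤ) : ZMod q)
  have h2 : ∑ n ∈ Icc 1 M, ‖wf S w n‖ ^ 2 ≤ N := by
    calc ∑ n ∈ Icc 1 M, ‖wf S w n‖ ^ 2 ≤ ∑ n ∈ Icc 1 M, if n ∈ S then (1 : ℝ) else 0 := by
          refine sum_le_sum fun n _ => ?_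
          unfold wf
          split_ifs with h
          · rw [Complex.norm_real, Real.norm_eq_abs]
            exact pow_le_one₀ (abs_nonneg _) (hw n h)
          · simp
      _ = (((Icc 1 M).filter (fun n => n ∈ S)).card : ℝ) := by rw [← sum_filter, sum_const, nsmul_eq_mul, mul_one]
      _ ≤ ((Icc 1 N).card : ℝ) := by
          refine Nat.cast_le.2 (card_le_card fun n hn => ?_)
          rw [mem_filter] at hn
          exact hS hn.2
      _ = N := by rw [Nat.card_Icc, Nat.add_sub_cancel]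
  have h3 : (T.card : ℝ) * δ ^ 2 ≤ ∑ k ∈ (Icc (-(M : ℤ)) M).filter (fun k : ℤ => (k : ZMod q) = ((a : ℤ) : ZMod q)),
      ‖cor M (fun n => ((F n : ℝ) : ℂ)) (wf S w) k‖ ^ 2 := by
    calc (T.card : ℝ) * δ ^ 2 = ∑ _h ∈ T, δ ^ 2 := by rw [sum_const, nsmul_eq_mul]
      _ ≤ ∑ h ∈ T, ‖cor M (fun n => ((F n : ℝ) : ℂ)) (wf S w) h‖ ^ 2 := by
          refine sum_le_sum fun h hh => ?_
          obtain ⟨e1, e2⟩ := hT h hh
          rw [abs_le] at e1
          rw [cor_ex hS e1.2 hM, Complex.norm_real, Real.norm_eq_abs]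
          exact pow_le_pow_left₀ hδ (hT2 h hh).le 2
      _ ≤ _ := by
          refine sum_le_sum_of_subset_of_nonneg (fun h hh => ?_) fun _ _ _ => by positivity
          obtain ⟨e1, e2⟩ := hT h hh
          rw [abs_le] at e1
          rw [mem_filter, mem_Icc]
          refine ⟨⟨by omega, by omega⟩, ?_⟩
          exact (ZMod.intCast_eq_intCast_iff h a q).2 e2
  exact h3.trans (h1.trans (mul_le_mul_of_nonneg_left h2 hX0))

end Pool.Agent.H579.G
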