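import Pool.Agent.H579.G.PG4
import Pool.Agent.H579.G.WtFew

set_option autoImplicit false

/-! Primes in the translates of weighted sets: the asymptotic formula for almost all shifts in a residue class of a
regular modulus up to `N ^ (2 / 3 - ρ)`. -/

namespace Pool.Agent.H579.G

open Finset
open Pool.Agent.Y883.GJ Pool.Agent.R460.GS
open Pool.Agent.R460.GH (FF_eq)
open Pool.Agent.H373R2.T7 (lamz Vz)
open Pool.Agent.Y883.T3 (lsh)
open Pool.Agent.Y614.GJ.Core (P ev_log)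
open ArithmeticFunction (vonMangoldt)

/-- the logarithm on the primes -/
noncomputable def thp (n : ℕ) : ℝ := if n.Prime then Real.log n else 0

lemma thp_nn (n : ℕ) : 0 ≤ thp n := by
  unfold thp
  split_ifs
  · exact Real.log_natCast_nonneg n
  · exact le_rfl

/-- prime powers -/
lemma psi_bd' {N : ℕ} (hN : 1 ≤ N) : ∑ m ∈ Icc 1 N, |vonMangoldt m - thp m| ≤ 2 * Real.sqrt N * Real.log N := by
  have h1 := Chebyshev.psi_sub_theta_eq_sum_not_prime (N : ℝ)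
  have h2 := Chebyshev.psi_sub_theta_le (x := (N : ℝ)) (by exact_mod_cast hN)
  rw [h1, Nat.floor_natCast] at h2
  have e : Ioc 0 N = Icc 1 N := by
    ext m
    rw [mem_Ioc, mem_Icc]
    omega
  rw [e] at h2
  refine le_trans (le_of_eq ?_) h2
  rw [sum_filter]
  refine sum_congr rfl fun m _ => ?_
  unfold thp
  split_ifs with h3
  · rw [ArithmeticFunction.vonMangoldt_apply_prime h3, sub_self, abs_zero]
  · rw [sub_zero, abs_of_nonneg ArithmeticFunction.vonMangoldt_nonneg]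

/-- the parameters at `2 N` -/
lemma par2 {N M : ℕ} {L L' : ℝ} (hN : 1 ≤ N) (hM : M = 2 * N) (hL : L = Real.log (N : ℝ)) (hL' : L' = Real.log (M : ℝ))
    (h : 20 ≤ L) : L ≤ L' ∧ L' ≤ L + 1 ∧ L' ≤ L ^ 2 ∧ 0 < L ∧ 0 < L' ∧ 1 ≤ L ∧ 1 ≤ L' := by
  have hN0 : (0 : ℝ) < N := by exact_mod_cast hN
  have hMr : (M : ℝ) = 2 * N := by rw [hM]; push_cast; ring
  have h1 : L ≤ L' := by
    rw [hL, hL']
    exact Real.log_le_log hN0 (by rw [hMr]; linarith)
  have h2 : L' ≤ L + 1 := by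
    rw [hL, hL', hMr, Real.log_mul (by norm_num) hN0.ne']
    have := Real.log_two_lt_d9
    linarith
  refine ⟨h1, h2, by nlinarith, by linarith, by linarith, by linarith, by linarith⟩

/-- the parameter `z` -/
lemma parz {B E z : ℕ} {L L' : ℝ} (hz : z = ⌈L ^ E⌉₊) (h20 : 20 ≤ L) (h1 : L ≤ L') (h2 : L' ≤ L ^ 2) (hE : 2 * B ≤ E) :
    L' ^ B ≤ z ∧ (z : ℝ) ≤ L' ^ (E + 1) ∧ 1 ≤ z := by
  have hL1 : 1 ≤ L := by linarith
  have hL0 : 0 < L := by linarith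
  have hzlo : L ^ E ≤ z := by rw [hz]; exact Nat.le_ceil _
  have hLE : 1 ≤ L ^ E := one_le_pow₀ hL1
  refine ⟨?_, ?_, ?_⟩
  · refine le_trans ?_ hzlo
    calc L' ^ B ≤ (L ^ 2) ^ B := pow_le_pow_left₀ (by linarith) h2 _
      _ = L ^ (2 * B) := by rw [← pow_mul]
      _ ≤ L ^ E := pow_le_pow_right₀ hL1 hE
  · have := Nat.ceil_lt_add_one (show 0 ≤ L ^ E by positivity)
    rw [← hz] at this
    calc (z : ℝ) ≤ L ^ E + 1 := this.le
      _ ≤ L ^ E + L ^ E := by linarith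
      _ = 2 * L ^ E := by ring
      _ ≤ L * L ^ E := mul_le_mul_of_nonneg_right (by linarith) (by positivity)
      _ = L ^ (E + 1) := by ring
      _ ≤ L' ^ (E + 1) := pow_le_pow_left₀ hL0.le h1 _
  · have : (1 : ℝ) ≤ z := hLE.trans hzlo
    exact_mod_cast this

/-- the count from the square mean -/
lemma cnt_few {N M q A : ℕ} {L L' t : ℝ} (hN : 1 ≤ N) (hM : M = 2 * N) (hq : 1 ≤ q) (hL : 20 ≤ L) (hLL : L ≤ L')
    (ht : t * (N / L ^ A / 2) ^ 2 ≤ (M : ℝ) ^ 2 / (q * L' ^ (3 * A + 1)) * N) : t ≤ N / (q * L ^ A) := by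
  have hN0 : (0 : ℝ) < N := by exact_mod_cast hN
  have hq0 : (0 : ℝ) < q := by exact_mod_cast hq
  have hL0 : 0 < L := by linarith
  have hMr : (M : ℝ) = 2 * N := by rw [hM]; push_cast; ring
  have h1 : (M : ℝ) ^ 2 / (q * L' ^ (3 * A + 1)) * N ≤ 4 * (N : ℝ) ^ 2 / (q * L ^ (3 * A + 1)) * N := by
    rw [hMr, mul_pow]
    norm_num
    gcongr
  have h2 := ht.trans h1
  have h3 : 0 < ((N : ℝ) / L ^ A / 2) ^ 2 := by positivity
  rw [← le_div_iff₀ h3] at h2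
  refine h2.trans ?_
  rw [div_le_iff₀ h3]
  have e1 : 4 * (N : ℝ) ^ 2 / (q * L ^ (3 * A + 1)) * N = N / (q * L ^ A) * (N / L ^ A) ^ 2 * (4 / L) := by
    have : L ^ (3 * A + 1) = L ^ A * (L ^ A) ^ 2 * L := by ring
    rw [this]
    field_simp
  have e2 : (N : ℝ) / (q * L ^ A) * (N / L ^ A / 2) ^ 2 = N / (q * L ^ A) * (N / L ^ A) ^ 2 * (1 / 4) := by ring
  rw [e1, e2]
  refine mul_le_mul_of_nonneg_left ?_ (by positivity)
  rw [div_le_div_iff₀ hL0 (by norm_num)]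
  linarith

lemma q_pow {N M q : ℕ} {s : ℝ} (hN : 1 ≤ N) (hL : 0 < Real.log N) (hM : M = 2 * N) (hq : 1 ≤ q) (h : (q : ℝ) ≤ (N : ℝ) ^ s) :
    (q : ℝ) ≤ (M : ℝ) ^ s := by
  have hN0 : (0 : ℝ) < N := by exact_mod_cast hN
  have hMr : (M : ℝ) = 2 * N := by rw [hM]; push_cast; ring
  rcases le_or_gt 0 s with h1 | h1
  · refine h.trans (Real.rpow_le_rpow hN0.le ?_ h1)
    rw [hMr]
    linarith
  · exfalso
    have h4 : 1 < (N : ℝ) := by
      by_contra hcon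
      have h5 : (N : ℝ) = 1 := le_antisymm (not_lt.1 hcon) (by exact_mod_cast hN)
      rw [h5, Real.log_one] at hL
      exact lt_irrefl _ hL
    have h5 := Real.rpow_lt_one_of_one_lt_of_neg h4 h1
    have h6 : (1 : ℝ) ≤ q := by exact_mod_cast hq
    linarith

/-- the weighted sums over the primes in translates -/
theorem wt4 {ρ : ℝ} (hρ : 0 < ρ) (A : ℕ) :
    ∃ c : ℕ, ∀ A₀ : ℕ, ∃ B : ℕ, ∀ E : ℕ, B ≤ E → ∃ N₀ : ℕ, ∀ N : ℕ, N₀ ≤ N → ∃ D : Finset ℕ,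
    (D.card : ℝ) ≤ Real.log N ^ c ∧ (∀ d ∈ D, Real.log N ^ A₀ < (d : ℝ)) ∧
    ∀ q : ℕ, 1 ≤ q → (q : ℝ) ≤ (N : ℝ) ^ (2 / 3 - ρ) → (∀ d ∈ D, ¬ d ∣ q) → ∀ S : Finset ℕ, S ⊆ Icc 1 N →
    ∀ w : ℕ → ℝ, (∀ n ∈ S, |w n| ≤ 1) → ∀ a : ℤ, ∀ T : Finset ℤ, (∀ h ∈ T, |h| ≤ N ∧ h ≡ a [ZMOD q]) →
    (∀ h ∈ T, N / Real.log N ^ A < |∑ s ∈ S, w s * (ex thp h s - ex (lamz ⌈Real.log N ^ E⌉₊) h s)|) →
    (T.card : ℝ) ≤ N / (q * Real.log N ^ A) := by
  classical
  obtain ⟨c, hc⟩ := PG4 hρ (3 * A + 1) (A + 2)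
  refine ⟨2 * c, fun A₀ => ?_⟩
  obtain ⟨B, hB⟩ := hc A₀
  refine ⟨2 * B, fun E hE => ?_⟩
  obtain ⟨n1, h1⟩ := hB (E + 1)
  obtain ⟨n2, h2⟩ := Filter.eventually_atTop.1 (ev_log (A + 3) (s := 1 / 4) (by norm_num) 20)
  refine ⟨n1 + n2 + 16, fun N hN => ?_⟩
  have hN1 : 1 ≤ N := by omega
  have hN0 : (0 : ℝ) < N := by exact_mod_cast hN1
  obtain ⟨M, hM⟩ : ∃ M, M = 2 * N := ⟨_, rfl⟩
  have hMr : (M : ℝ) = 2 * N := by rw [hM]; push_cast; ring
  obtain ⟨hL20, -⟩ := h2 N (by omega)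
  obtain ⟨-, hLp⟩ := h2 M (by omega)
  obtain ⟨L, hLd⟩ : ∃ L, L = Real.log (N : ℝ) := ⟨_, rfl⟩
  obtain ⟨L', hLd'⟩ : ∃ L', L' = Real.log (M : ℝ) := ⟨_, rfl⟩
  rw [← hLd] at hL20
  obtain ⟨a1, a2, a3, a4, a5, a6, a7⟩ := par2 hN1 hM hLd hLd' hL20
  obtain ⟨D, hDc, hDl, c1⟩ := h1 M (by omega)
  rw [← hLd'] at hDc hDl c1 hLp
  rw [← hLd]
  refine ⟨D, ?_, fun d hd => lt_of_le_of_lt (pow_le_pow_left₀ a4.le a1 _) (hDl d hd), ?_⟩
  · calc (D.card : ℝ) ≤ L' ^ c := hDc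
      _ ≤ (L ^ 2) ^ c := pow_le_pow_left₀ a5.le a3 c
      _ = L ^ (2 * c) := by rw [← pow_mul]
  intro q hq1 hqN hqD S hS w hw a T hT hT2
  have : NeZero q := ⟨by omega⟩
  obtain ⟨z, hz⟩ : ∃ z, z = ⌈L ^ E⌉₊ := ⟨_, rfl⟩
  rw [← hz] at hT2
  obtain ⟨b1, b2, b3⟩ := parz hz hL20 a1 a3 hE
  obtain ⟨r, hPar, hsum, hBd, hms⟩ := c1 z b1 b2
  have hqM : (q : ℝ) ≤ (M : ℝ) ^ (2 / 3 - ρ) := q_pow hN1 (by rw [← hLd]; exact a4) hM hq1 hqN
  have hms' := fun β => hms q hqM hqD β M le_rfl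
  obtain ⟨X, hX⟩ : ∃ X : ℝ, X = N / L ^ A := ⟨_, rfl⟩
  have hX0 : 0 < X := by rw [hX]; positivity
  have hkey := wt_few (q := q) (N := N) (M := M) hN1 (by omega) (fun n => vonMangoldt n - lsh z r n)
    (X := (M : ℝ) ^ 2 / (q * L' ^ (3 * A + 1))) (δ := X / 2) (by positivity) (by positivity) ?_ hS w hw a T hT ?_
  · rw [hX] at hkey
    exact cnt_few hN1 hM hq1 hL20 a1 hkey
  · intro β
    exact hms' β
  · intro h hh
    have k1 := hT2 h hh
    rw [← hX] at k1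
    have hhN : h ≤ N := by
      have := (hT h hh).1
      rw [abs_le] at this
      exact this.2
    have e1 : ∑ s ∈ S, w s * (ex thp h s - ex (lamz z) h s) =
        ∑ s ∈ S, w s * ex (fun n => vonMangoldt n - lsh z r n) h s -
        ∑ s ∈ S, w s * ex (fun n => vonMangoldt n - thp n) h s -
        ∑ s ∈ S, w s * ex (fun n => lamz z n - lsh z r n) h s := by
      rw [← sum_sub_distrib, ← sum_sub_distrib]
      refine sum_congr rfl fun s _ => ?_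
      rw [ex_sub, ex_sub, ex_sub]
      ring
    have e2 := ex_sum_le (F := fun n => vonMangoldt n - thp n) hS hhN (show 2 * N ≤ M by omega) w hw
    have e3 := ex_sum_le (F := fun n => lamz z n - lsh z r n) hS hhN (show 2 * N ≤ M by omega) w hw
    have e4 := psi_bd' (N := M) (by omega)
    rw [← hLd'] at e4
    have e5 : 2 * Real.sqrt M * L' ≤ X / 8 := by
      have f1 : Real.sqrt M = (M : ℝ) ^ (1 / 4 : ℝ) * (M : ℝ) ^ (1 / 4 : ℝ) := by
        rw [Real.sqrt_eq_rpow, ← Real.rpow_add (by rw [hMr]; positivity)]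
        norm_num
      have f2 : (M : ℝ) = (M : ℝ) ^ (1 / 4 : ℝ) * (M : ℝ) ^ (1 / 4 : ℝ) * (M : ℝ) ^ (1 / 4 : ℝ) * (M : ℝ) ^ (1 / 4 : ℝ) := by
        rw [← Real.rpow_add (by rw [hMr]; positivity), ← Real.rpow_add (by rw [hMr]; positivity),
          ← Real.rpow_add (by rw [hMr]; positivity)]
        norm_num
      obtain ⟨m, hm⟩ : ∃ m : ℝ, m = (M : ℝ) ^ (1 / 4 : ℝ) := ⟨_, rfl⟩
      rw [← hm] at f1 f2 hLp
      rw [f1]
      have hLA : 0 < L ^ A := by positivity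
      have hm1 : 1 ≤ m := (one_le_pow₀ a7).trans hLp
      have hm0 : 0 < m := by linarith
      have f3 : X = m * m * m * m / (2 * L ^ A) := by
        rw [hX, ← f2, hMr]
        field_simp
      rw [f3]
      rw [le_div_iff₀ (by norm_num), le_div_iff₀ (by positivity)]
      have f4 : 32 * (L' * L ^ A) ≤ m := by
        refine le_trans ?_ hLp
        calc 32 * (L' * L ^ A) ≤ L' ^ 2 * (L' * L' ^ A) := by
              have : (32 : ℝ) ≤ L' ^ 2 := by nlinarith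
              have g1 : L ^ A ≤ L' ^ A := pow_le_pow_left₀ a4.le a1 A
              gcongr
          _ = L' ^ (A + 3) := by ring
      calc 2 * (m * m) * L' * 8 * (2 * L ^ A) = (m * m) * (32 * (L' * L ^ A)) := by ring
        _ ≤ (m * m) * m := by gcongr
        _ ≤ (m * m) * m * m := le_mul_of_one_le_right (by positivity) hm1
        _ = _ := by ring
    have e6 : (M : ℝ) / L' ^ (A + 2) ≤ X / 8 := by
      calc (M : ℝ) / L' ^ (A + 2) ≤ M / L ^ (A + 2) :=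
            div_le_div_of_nonneg_left (Nat.cast_nonneg _) (by positivity) (pow_le_pow_left₀ a4.le a1 _)
        _ = X * (2 / L ^ 2) := by
            rw [hMr, hX, pow_add]
            field_simp
        _ ≤ X * (1 / 8) := by
            apply mul_le_mul_of_nonneg_left _ hX0.le
            rw [div_le_div_iff₀ (by positivity) (by norm_num)]
            nlinarith
        _ = X / 8 := by ring
    rw [e1] at k1
    have k2 := abs_sub (∑ s ∈ S, w s * ex (fun n => vonMangoldt n - lsh z r n) h s -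
        ∑ s ∈ S, w s * ex (fun n => vonMangoldt n - thp n) h s)
        (∑ s ∈ S, w s * ex (fun n => lamz z n - lsh z r n) h s)
    have k3 := abs_sub (∑ s ∈ S, w s * ex (fun n => vonMangoldt n - lsh z r n) h s)
        (∑ s ∈ S, w s * ex (fun n => vonMangoldt n - thp n) h s)
    linarith

end Pool.Agent.H579.G
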