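import Pool.Agent.H579.G.FormsF
import Pool.Agent.H579.G.Wt4

set_option autoImplicit false

/-! Primes in the values of the forms `q m + b` with arbitrary weights: the asymptotic formula for almost all `b`. -/

namespace Pool.Agent.H579.G

open Finset
open Pool.Agent.Y883.GJ Pool.Agent.R460.GS
open Pool.Agent.R460.GH (FF_eq)
open Pool.Agent.H373R2.T7 (lamz Vz)
open Pool.Agent.Y883.T3 (lsh)
open Pool.Agent.Y614.GJ.Core (P ev_log)
open Pool.Agent.H579.L (cor ms2 wt2 cor_wt2 wt2_sq wt2_dvd)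
open ArithmeticFunction (vonMangoldt)

/-- few constant terms with a large weighted sum -/
lemma fm_few {q M N : ℕ} [NeZero q] (hq1 : 1 ≤ q) (hM1 : 1 ≤ M) (hNqM : N = 2 * q * M) (F : ℕ → ℝ) {X δ : ℝ}
    (hX0 : 0 ≤ X) (hδ : 0 ≤ δ) (hX : ∀ β : ℝ, P q N (tr N (fun n => ((F n : ℝ) : ℂ))) β ≤ X) {S : Finset ℕ}
    (hS : S ⊆ Icc 1 M) (w : ℕ → ℝ) (hw : ∀ n ∈ S, |w n| ≤ 1) (T : Finset ℕ) (hT : T ⊆ Icc 1 (q * M))
    (hT2 : ∀ b ∈ T, δ < |∑ m ∈ S, w m * F (q * m + b)|) : (T.card : ℝ) * δ ^ 2 ≤ X * M := by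
  classical
  have hN1 : 1 ≤ N := by
    rw [hNqM]
    have := Nat.mul_le_mul hq1 hM1
    nlinarith
  obtain ⟨G, hG⟩ : ∃ G : ℕ → ℂ, G = fun n => ((F n : ℝ) : ℂ) := ⟨_, rfl⟩
  have hPX : ∀ β : ℝ, P q N G β ≤ X := by
    intro β
    have := hX β
    rw [← hG, P_tr le_rfl] at this
    exact this
  obtain ⟨w', hw'⟩ : ∃ w' : ℕ → ℂ, w' = fun m => if m ∈ S then ((w m : ℝ) : ℂ) else 0 := ⟨_, rfl⟩
  have hw1 : ∀ n, ‖w' n‖ ≤ 1 := by
    intro n
    rw [hw']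
    simp only
    split_ifs with h
    · rw [Complex.norm_real, Real.norm_eq_abs]
      exact hw n h
    · simp
  have hms := ms2 (q := q) hN1 G (wt2 w' q M) hPX (fun n hn => wt2_dvd hn)
  have hms2 : ∑ b ∈ Icc 1 (q * M), ‖∑ m ∈ Icc 1 M, w' m * G (q * m + b)‖ ^ 2 ≤ X * M := by
    have e1 : ∀ b ∈ Icc 1 (q * M), ‖∑ m ∈ Icc 1 M, w' m * G (q * m + b)‖ ^ 2 =
        ‖cor N G (wt2 w' q M) (b : ℤ)‖ ^ 2 := by
      intro b hb
      rw [mem_Icc] at hb
      rw [cor_wt2 G w' hq1 (by rw [hNqM]; linarith [hb.2])]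
    rw [sum_congr rfl e1]
    have e2 : ∑ b ∈ Icc 1 (q * M), ‖cor N G (wt2 w' q M) (b : ℤ)‖ ^ 2 ≤
        ∑ k ∈ Icc (-(N : ℤ)) N, ‖cor N G (wt2 w' q M) k‖ ^ 2 := by
      rw [← sum_image (f := fun k : ℤ => ‖cor N G (wt2 w' q M) k‖ ^ 2) (g := fun b : ℕ => (b : ℤ))
        (s := Icc 1 (q * M)) (fun x _ y _ hxy => by
          simp only at hxy
          exact_mod_cast hxy)]
      refine sum_le_sum_of_subset_of_nonneg (fun k hk => ?_) fun k _ _ => by positivity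
      rw [mem_image] at hk
      obtain ⟨b, hb, rfl⟩ := hk
      rw [mem_Icc] at hb ⊢
      have : 2 * q * M = q * M + q * M := by ring
      omega
    refine e2.trans (hms.trans ?_)
    exact mul_le_mul_of_nonneg_left (wt2_sq hw1 N M hq1) hX0
  have hΦe : ∀ b, ∑ m ∈ Icc 1 M, w' m * G (q * m + b) = ((∑ m ∈ S, w m * F (q * m + b) : ℝ) : ℂ) := by
    intro b
    rw [hw', hG]
    simp only [ite_mul, zero_mul]
    rw [← sum_filter]
    have : (Icc 1 M).filter (fun m => m ∈ S) = S := by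
      ext m
      rw [mem_filter]
      exact ⟨fun h => h.2, fun h => ⟨hS h, h⟩⟩
    rw [this]
    push_cast
    rfl
  calc (T.card : ℝ) * δ ^ 2 = ∑ _b ∈ T, δ ^ 2 := by rw [sum_const, nsmul_eq_mul]
    _ ≤ ∑ b ∈ T, ‖∑ m ∈ Icc 1 M, w' m * G (q * m + b)‖ ^ 2 := by
        refine sum_le_sum fun b hb => ?_
        rw [hΦe, Complex.norm_real, Real.norm_eq_abs]
        exact pow_le_pow_left₀ hδ (hT2 b hb).le 2
    _ ≤ ∑ b ∈ Icc 1 (q * M), ‖∑ m ∈ Icc 1 M, w' m * G (q * m + b)‖ ^ 2 :=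
        sum_le_sum_of_subset_of_nonneg hT fun _ _ _ => by positivity
    _ ≤ X * M := hms2

/-- few constant terms with a large error -/
lemma fm_err {q M : ℕ} {S : Finset ℕ} (hS : S ⊆ Icc 1 M) {f : ℕ → ℝ} (hf : ∀ m, 0 ≤ f m) {R t : ℝ} (ht : 0 < t)
    (hR : ∑ n ∈ Icc 1 (2 * q * M), f n ≤ R) (T : Finset ℕ) (hT : T ⊆ Icc 1 (q * M))
    (hT2 : ∀ b ∈ T, t ≤ ∑ m ∈ S, f (q * m + b)) : (T.card : ℝ) ≤ M * R / t := by
  have h1 := sum_forms (q := q) hS hf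
  have h2 := card_big (T := Icc 1 (q * M)) (f := fun b => ∑ m ∈ S, f (q * m + b)) ht
    (h1.trans (mul_le_mul_of_nonneg_left hR (Nat.cast_nonneg _))) (fun b _ => sum_nonneg fun m _ => hf _)
  refine le_trans ?_ h2
  refine Nat.cast_le.2 (card_le_card fun b hb => ?_)
  rw [mem_filter]
  exact ⟨hT hb, hT2 b hb⟩

/-- the asymptotic formula with weights, for almost all constant terms -/
theorem wtFm {ρ : ℝ} (hρ : 0 < ρ) (hρ1 : ρ ≤ 1) (A : ℕ) :
    ∃ c : ℕ, ∀ A₀ : ℕ, ∃ B : ℕ, ∀ E : ℕ, B ≤ E → ∃ N₀ : ℕ, ∃ D : ℕ → Finset ℕ,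
      (∀ N : ℕ, N₀ ≤ N → ((D N).card : ℝ) ≤ Real.log N ^ c ∧ ∀ d ∈ D N, Real.log N ^ A₀ < (d : ℝ)) ∧
      ∀ M : ℕ, N₀ ≤ M → ∀ q : ℕ, 1 ≤ q → (q : ℝ) ^ (1 / 2 + ρ) ≤ M → (∀ d ∈ D (q * M), ¬ d ∣ q) →
      ∀ S : Finset ℕ, S ⊆ Icc 1 M → ∀ w : ℕ → ℝ, (∀ n ∈ S, |w n| ≤ 1) → ∀ T : Finset ℕ, T ⊆ Icc 1 (q * M) →
      (∀ b ∈ T, M / Real.log M ^ A <
        |∑ m ∈ S, w m * (thp (q * m + b) - lamz ⌈Real.log M ^ E⌉₊ (q * m + b))|) →
      (T.card : ℝ) ≤ (q : ℝ) * M / Real.log M ^ A := by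
  classical
  obtain ⟨c, hc⟩ := PG4 (ρ := ρ / 4) (by positivity) (3 * A + 1) (2 * A + 2)
  refine ⟨2 * c, fun A₀ => ?_⟩
  obtain ⟨B, hB⟩ := hc A₀
  refine ⟨2 * B, fun E hE => ?_⟩
  obtain ⟨n1, h1⟩ := hB (E + 1)
  obtain ⟨n2, h2⟩ := Filter.eventually_atTop.1 (ev_log (2 * A + 4) (s := 1 / 2) (by norm_num) 200)
  choose D' hD' using h1
  obtain ⟨D, hDe⟩ : ∃ D : ℕ → Finset ℕ, ∀ n (h : n1 ≤ 2 * n), D n = D' (2 * n) h :=
    ⟨fun n => if h : n1 ≤ 2 * n then D' (2 * n) h else ∅, fun n h => dif_pos h⟩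
  refine ⟨n1 + n2 + 2, D, fun N hN => ?_, ?_⟩
  · rw [hDe N (by omega)]
    obtain ⟨e1, e2, -⟩ := hD' (2 * N) (by omega)
    obtain ⟨hL, -⟩ := h2 N (by omega)
    have hN0 : (0 : ℝ) < N := by exact_mod_cast (by omega : 0 < N)
    have hup : Real.log ((2 * N : ℕ) : ℝ) ≤ Real.log N ^ 2 := by
      push_cast
      rw [Real.log_mul (by norm_num) hN0.ne']
      have := Real.log_two_lt_d9
      nlinarith
    have hlo : Real.log N ≤ Real.log ((2 * N : ℕ) : ℝ) :=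
      Real.log_le_log hN0 (by push_cast; linarith)
    refine ⟨e1.trans ?_, fun d hd => lt_of_le_of_lt (pow_le_pow_left₀ (by linarith) hlo _) (e2 d hd)⟩
    calc Real.log ((2 * N : ℕ) : ℝ) ^ c ≤ (Real.log N ^ 2) ^ c := pow_le_pow_left₀ (by linarith) hup _
      _ = _ := by rw [← pow_mul]
  intro M hM q hq1 hqM hqD S hS w hw T hT hT2
  have : NeZero q := ⟨by omega⟩
  obtain ⟨hL200, -⟩ := h2 M (by omega)
  have hM1 : 1 ≤ M := by omega
  have hM0 : (0 : ℝ) < M := by exact_mod_cast hM1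
  have hMr1 : (1 : ℝ) ≤ M := by exact_mod_cast hM1
  have hqr : (1 : ℝ) ≤ q := by exact_mod_cast hq1
  have hq0 : (0 : ℝ) < q := by linarith
  obtain ⟨z, hz⟩ : ∃ z, z = ⌈Real.log M ^ E⌉₊ := ⟨_, rfl⟩
  rw [← hz] at hT2
  obtain ⟨L, hL⟩ : ∃ L, L = Real.log (M : ℝ) := ⟨_, rfl⟩
  rw [← hL] at hL200 hT2 ⊢
  have hL0 : 0 < L := by linarith
  have hL1 : 1 ≤ L := by linarith
  have hzlo : L ^ E ≤ z := by rw [hz, hL]; exact Nat.le_ceil _
  have hLE : 1 ≤ L ^ E := one_le_pow₀ hL1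
  have hzhi : (z : ℝ) ≤ L ^ (E + 1) := by
    have := Nat.ceil_lt_add_one (show 0 ≤ Real.log M ^ E by rw [← hL]; positivity)
    rw [← hz, ← hL] at this
    calc (z : ℝ) ≤ L ^ E + 1 := this.le
      _ ≤ L ^ E + L ^ E := by linarith
      _ = 2 * L ^ E := by ring
      _ ≤ L * L ^ E := mul_le_mul_of_nonneg_right (by linarith) (by positivity)
      _ = L ^ (E + 1) := by ring
  -- the sizes
  obtain ⟨N, hN⟩ : ∃ N, N = 2 * q * M := ⟨_, rfl⟩
  have hNM : M ≤ N := by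
    rw [hN]
    have : 1 * M ≤ q * M := Nat.mul_le_mul_right M hq1
    nlinarith
  have hNr : (N : ℝ) = 2 * (q * M) := by rw [hN]; push_cast; ring
  have hN0 : (0 : ℝ) < N := by rw [hNr]; positivity
  have hqM2 : (q : ℝ) ≤ (M : ℝ) ^ (2 : ℝ) := by
    have e1 : (q : ℝ) = ((q : ℝ) ^ (1 / 2 : ℝ)) ^ (2 : ℝ) := by
      rw [← Real.rpow_mul hq0.le]
      norm_num
    have e2 : (q : ℝ) ^ (1 / 2 : ℝ) ≤ M :=
      (Real.rpow_le_rpow_of_exponent_le hqr (by linarith)).trans hqM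
    rw [e1]
    exact Real.rpow_le_rpow (by positivity) e2 (by norm_num)
  obtain ⟨L', hL'⟩ : ∃ L', L' = Real.log (N : ℝ) := ⟨_, rfl⟩
  have hLL : L ≤ L' := by
    rw [hL, hL']
    exact Real.log_le_log hM0 (by exact_mod_cast hNM)
  have hLL2 : L' ≤ L ^ 2 := by
    rw [hL', hNr, Real.log_mul (by norm_num) (by positivity), Real.log_mul hq0.ne' hM0.ne', ← hL]
    have e1 := Real.log_le_log hq0 hqM2
    rw [Real.log_rpow hM0, ← hL] at e1
    have := Real.log_two_lt_d9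
    nlinarith
  have hL'0 : 0 < L' := by linarith
  have hL'1 : 1 ≤ L' := by linarith
  have hq23 : (q : ℝ) ≤ (N : ℝ) ^ (2 / 3 - ρ / 4) := by
    have e1 : (q : ℝ) ^ (3 / 2 + ρ) ≤ N := by
      calc (q : ℝ) ^ (3 / 2 + ρ) = q * (q : ℝ) ^ (1 / 2 + ρ) := by
            rw [show (3 / 2 + ρ : ℝ) = 1 + (1 / 2 + ρ) by ring, Real.rpow_add hq0, Real.rpow_one]
        _ ≤ q * M := mul_le_mul_of_nonneg_left hqM hq0.le
        _ ≤ N := by rw [hNr]; nlinarith
    calc (q : ℝ) = (q : ℝ) ^ (1 : ℝ) := (Real.rpow_one _).symm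
      _ ≤ (q : ℝ) ^ ((3 / 2 + ρ) * (2 / 3 - ρ / 4)) := Real.rpow_le_rpow_of_exponent_le hqr (by nlinarith)
      _ = ((q : ℝ) ^ (3 / 2 + ρ)) ^ (2 / 3 - ρ / 4) := Real.rpow_mul hq0.le _ _
      _ ≤ _ := Real.rpow_le_rpow (by positivity) e1 (by linarith)
  have hn1 : n1 ≤ 2 * (q * M) := by
    have : 1 * M ≤ q * M := Nat.mul_le_mul_right M hq1
    omega
  rw [hDe _ hn1] at hqD
  obtain ⟨-, -, g3⟩ := hD' (2 * (q * M)) hn1
  obtain ⟨D₀, hD₀⟩ : ∃ D₀, D₀ = D' (2 * (q * M)) hn1 := ⟨_, rfl⟩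
  rw [← hD₀] at g3 hqD
  have hcast : ((2 * (q * M) : ℕ) : ℝ) = N := by rw [hNr]; push_cast; ring
  have hN' : 2 * (q * M) = N := by rw [hN]; ring
  rw [hcast, ← hL'] at g3
  obtain ⟨r, hPar, hsum, hBd, hP⟩ := g3 z ((pow_le_pow_left₀ hL'0.le hLL2 B).trans (by
      rw [← pow_mul]
      exact (pow_le_pow_right₀ hL1 hE).trans hzlo)) (hzhi.trans (pow_le_pow_left₀ hL0.le hLL _))
  rw [hN'] at hsum hP
  have hPX : ∀ β : ℝ, P q N (tr N (fun n => (((vonMangoldt n - lsh z r n : ℝ)) : ℂ))) β ≤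
      (N : ℝ) ^ 2 / (q * L' ^ (3 * A + 1)) := fun β => hP q hq23 hqD β N le_rfl
  -- the exceptional constant terms
  obtain ⟨T1, hT1⟩ : ∃ T1, T1 = T.filter (fun b => M / L ^ A / 2 <
    |∑ m ∈ S, w m * (fun n => vonMangoldt n - lsh z r n) (q * m + b)|) := ⟨_, rfl⟩
  obtain ⟨f, hf⟩ : ∃ f : ℕ → ℝ, f = fun n => if n ∈ Icc 1 N then |vonMangoldt n - thp n| + |lamz z n - lsh z r n| else 0 :=
    ⟨_, rfl⟩
  have hf0 : ∀ n, 0 ≤ f n := by
    intro n
    rw [hf]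
    simp only
    split_ifs
    · positivity
    · exact le_rfl
  obtain ⟨T2, hTT2⟩ : ∃ T2, T2 = T.filter (fun b => M / L ^ A / 2 ≤ ∑ m ∈ S, f (q * m + b)) := ⟨_, rfl⟩
  have hLA : 0 < L ^ A := by positivity
  have c1 := fm_few hq1 hM1 hN (fun n => vonMangoldt n - lsh z r n) (X := (N : ℝ) ^ 2 / (q * L' ^ (3 * A + 1)))
    (δ := M / L ^ A / 2) (by positivity) (by positivity) hPX hS w hw T1 (by rw [hT1]; exact (filter_subset _ _).trans hT)
    (fun b hb => by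
      rw [hT1, mem_filter] at hb
      exact hb.2)
  have hR : ∑ n ∈ Icc 1 (2 * q * M), f n ≤ 2 * (N / L ^ (2 * A + 2)) := by
    rw [← hN]
    have e1 : ∑ n ∈ Icc 1 N, f n = ∑ n ∈ Icc 1 N, |vonMangoldt n - thp n| + ∑ n ∈ Icc 1 N, |lamz z n - lsh z r n| := by
      rw [← sum_add_distrib]
      refine sum_congr rfl fun n hn => ?_
      rw [hf]
      simp only
      rw [if_pos hn]
    rw [e1]
    have e2 := psi_bd' (N := N) (by omega)
    obtain ⟨-, e3⟩ := h2 N (by omega)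
    rw [← hL'] at e2 e3
    have hLp : L ^ (2 * A + 2) ≤ L' ^ (2 * A + 2) := pow_le_pow_left₀ hL0.le hLL _
    have e4 : 2 * Real.sqrt N * L' ≤ N / L ^ (2 * A + 2) := by
      rw [le_div_iff₀ (by positivity)]
      have f4 : Real.sqrt N = (N : ℝ) ^ (1 / 2 : ℝ) := Real.sqrt_eq_rpow _
      have f5 : (N : ℝ) ^ (1 / 2 : ℝ) * (N : ℝ) ^ (1 / 2 : ℝ) = N := by
        rw [← Real.rpow_add hN0]
        norm_num
      calc 2 * Real.sqrt N * L' * L ^ (2 * A + 2) ≤ 2 * Real.sqrt N * L' * L' ^ (2 * A + 2) := by gcongr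
        _ = Real.sqrt N * (2 * L' ^ (2 * A + 3)) := by ring
        _ ≤ Real.sqrt N * (L' * L' ^ (2 * A + 3)) := by
            gcongr
            linarith
        _ = Real.sqrt N * L' ^ (2 * A + 4) := by ring
        _ ≤ Real.sqrt N * (N : ℝ) ^ (1 / 2 : ℝ) := by gcongr
        _ = N := by rw [f4, f5]
    have e5 : (N : ℝ) / L' ^ (2 * A + 2) ≤ N / L ^ (2 * A + 2) :=
      div_le_div_of_nonneg_left hN0.le (by positivity) hLp
    linarith
  have c2 := fm_err (q := q) hS hf0 (t := M / L ^ A / 2) (by positivity) hR T2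
    (by rw [hTT2]; exact (filter_subset _ _).trans hT) (fun b hb => by
      rw [hTT2, mem_filter] at hb
      exact hb.2)
  have hcov : T ⊆ T1 ∪ T2 := by
    intro b hb
    rw [mem_union, hT1, hTT2, mem_filter, mem_filter]
    by_contra hcon
    rw [not_or] at hcon
    have k1 := not_lt.1 fun h => hcon.1 ⟨hb, h⟩
    have k2 := not_le.1 fun h => hcon.2 ⟨hb, h⟩
    have k3 := hT2 b hb
    have hbI := mem_Icc.1 (hT hb)
    have k4 : |∑ m ∈ S, w m * (thp (q * m + b) - lamz z (q * m + b)) -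
        ∑ m ∈ S, w m * (fun n => vonMangoldt n - lsh z r n) (q * m + b)| ≤ ∑ m ∈ S, f (q * m + b) := by
      rw [← sum_sub_distrib]
      refine (abs_sum_le_sum_abs _ _).trans (sum_le_sum fun m hm => ?_)
      have hmI := mem_Icc.1 (hS hm)
      have hin : q * m + b ∈ Icc 1 N := by
        rw [mem_Icc, hN]
        have : q * m ≤ q * M := Nat.mul_le_mul_left q hmI.2
        have : 2 * q * M = q * M + q * M := by ring
        omega
      have e1 : w m * (thp (q * m + b) - lamz z (q * m + b)) -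
          w m * (fun n => vonMangoldt n - lsh z r n) (q * m + b) =
          w m * (-(vonMangoldt (q * m + b) - thp (q * m + b)) - (lamz z (q * m + b) - lsh z r (q * m + b))) := by
        simp only
        ring
      rw [e1, abs_mul, hf]
      simp only
      rw [if_pos hin]
      have e2 := abs_sub (-(vonMangoldt (q * m + b) - thp (q * m + b))) (lamz z (q * m + b) - lsh z r (q * m + b))
      rw [abs_neg] at e2
      calc |w m| * |-(vonMangoldt (q * m + b) - thp (q * m + b)) - (lamz z (q * m + b) - lsh z r (q * m + b))| ≤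
          1 * (|vonMangoldt (q * m + b) - thp (q * m + b)| + |lamz z (q * m + b) - lsh z r (q * m + b)|) :=
            mul_le_mul (hw m hm) e2 (abs_nonneg _) zero_le_one
        _ = _ := one_mul _
    have k5 := abs_sub_abs_le_abs_sub (∑ m ∈ S, w m * (thp (q * m + b) - lamz z (q * m + b)))
      (∑ m ∈ S, w m * (fun n => vonMangoldt n - lsh z r n) (q * m + b))
    linarith
  have hcard : (T.card : ℝ) ≤ T1.card + T2.card := by
    have := (card_le_card hcov).trans (card_union_le _ _)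
    exact_mod_cast this
  have d1 : (T1.card : ℝ) ≤ q * M / L ^ A / 2 := by
    have h3 : 0 < ((M : ℝ) / L ^ A / 2) ^ 2 := by positivity
    rw [← le_div_iff₀ h3] at c1
    refine c1.trans ?_
    rw [div_le_iff₀ h3]
    calc (N : ℝ) ^ 2 / (q * L' ^ (3 * A + 1)) * M ≤ (N : ℝ) ^ 2 / (q * L ^ (3 * A + 1)) * M := by gcongr
      _ = q * M / L ^ A / 2 * (M / L ^ A / 2) ^ 2 * (32 / L) := by
          rw [hNr]
          have : L ^ (3 * A + 1) = L ^ A * (L ^ A) ^ 2 * L := by ring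
          rw [this]
          field_simp
          ring
      _ ≤ q * M / L ^ A / 2 * (M / L ^ A / 2) ^ 2 * 1 := by
          refine mul_le_mul_of_nonneg_left ?_ (by positivity)
          rw [div_le_one hL0]
          linarith
      _ = _ := mul_one _
  have d2 : (T2.card : ℝ) ≤ q * M / L ^ A / 2 := by
    refine c2.trans ?_
    rw [div_le_iff₀ (by positivity)]
    calc (M : ℝ) * (2 * (N / L ^ (2 * A + 2))) = q * M / L ^ A / 2 * (M / L ^ A / 2) * (16 / L ^ 2) := by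
          rw [hNr]
          have : L ^ (2 * A + 2) = L ^ A * L ^ A * L ^ 2 := by ring
          rw [this]
          field_simp
          ring
      _ ≤ q * M / L ^ A / 2 * (M / L ^ A / 2) * 1 := by
          refine mul_le_mul_of_nonneg_left ?_ (by positivity)
          rw [div_le_one (by positivity)]
          nlinarith
      _ = _ := mul_one _
  linarith

end Pool.Agent.H579.G
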